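import Pool.Agent.H68.RT.Main

/-!
# Sections of the cones over the Grassmannians of lines decide everything
-/

set_option autoImplicit false
set_option linter.unusedSectionVars false
set_option linter.unusedVariables false

open CategoryTheory AlgebraicGeometry MvPolynomial Pool.Agent.Y116.UV Pool.Agent.Q193.LT
  Pool.Agent.Q282.UK Pool.Agent.H81.RZ

namespace Pool.Agent.H68.RT

variable {R : Type} [CommRing R]

/-- alternating matrices of rank at most two, with zeros at `Z` and ones at `N` -/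
def AL (R : Type) [CommRing R] {ι : Type} (Z N : Set (ι × ι)) : Pts R (ι × ι) where
  pts _ _ _ p := ((∀ i, p (i, i) = 0) ∧ (∀ i j, p (i, j) + p (j, i) = 0) ∧
    ∀ i j k l, p (i, j) * p (k, l) - p (i, k) * p (j, l) + p (i, l) * p (j, k) = 0) ∧
    (∀ e ∈ Z, p e = 0) ∧ ∀ e ∈ N, p e = 1
  map {C D} _ _ _ _ f p h := by
    obtain ⟨⟨h1, h2, h3⟩, h4, h5⟩ := h
    refine ⟨⟨fun i => ?_, fun i j => ?_, fun i j k l => ?_⟩, fun e he => ?_, fun e he => ?_⟩
    · exact (congrArg f (h1 i)).trans (map_zero f)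
    · change f _ + f _ = 0
      rw [← map_add, h2, map_zero]
    · change f _ * f _ - f _ * f _ + f _ * f _ = 0
      rw [← map_mul, ← map_mul, ← map_mul, ← map_sub, ← map_add, h3, map_zero]
    · exact (congrArg f (h4 e he)).trans (map_zero f)
    · exact (congrArg f (h5 e he)).trans (map_one f)

section double

variable {ι κ : Type}

/-- the zeros of the double -/
def dz (Z : Set (ι × κ)) : Set ((ι ⊕ κ) × (ι ⊕ κ)) := {e | ∃ x ∈ Z, e = (.inl x.1, .inr x.2)}

/-- the ones of the double -/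
def dn (N : Set (ι × κ)) (i₀ i₁ : ι) : Set ((ι ⊕ κ) × (ι ⊕ κ)) :=
  insert (.inl i₀, .inl i₁) {e | ∃ x ∈ N, e = (.inl x.1, .inr x.2)}

/-- the vectors of the double -/
def vv {C : Type} [CommRing C] (f : Fin 2 → ι) (g : Fin 2 → κ) (p : ι × κ → C) : ι ⊕ κ → Fin 2 → C
  | .inl i, a => p (i, g a)
  | .inr j, a => ![-p (f 1, j), p (f 0, j)] a

/-- the double -/
def db {C : Type} [CommRing C] (f : Fin 2 → ι) (g : Fin 2 → κ) (p : ι × κ → C)
    (e : (ι ⊕ κ) × (ι ⊕ κ)) : C :=
  vv f g p e.1 0 * vv f g p e.2 1 - vv f g p e.2 0 * vv f g p e.1 1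

variable {f : Fin 2 → ι} {g : Fin 2 → κ} {Z N : Set (ι × κ)}

section

variable {C : Type} [CommRing C] {p : ι × κ → C}

lemma db_block (hr : RankLe 2 p) (h : ∀ a b, p (f a, g b) = if a = b then 1 else 0) (i : ι) (j : κ) :
    db f g p (.inl i, .inr j) = p (i, j) := by
  rw [RankLe.expand (δ := Fin 2) (by simp) hr f g h i j, Fin.sum_univ_two]
  simp [db, vv]
  ring

lemma db_frame (h : ∀ a b, p (f a, g b) = if a = b then 1 else 0) :
    db f g p (.inl (f 0), .inl (f 1)) = 1 := by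
  change p (f 0, g 0) * p (f 1, g 1) - p (f 1, g 0) * p (f 0, g 1) = 1
  rw [h, h, h, h]
  simp

end

section

variable {C : Type} [CommRing C] {q : (ι ⊕ κ) × (ι ⊕ κ) → C} (h1 : ∀ i, q (i, i) = 0)
  (h2 : ∀ i j, q (i, j) + q (j, i) = 0)
  (h3 : ∀ i j k l, q (i, j) * q (k, l) - q (i, k) * q (j, l) + q (i, l) * q (j, k) = 0)
  (h4 : q (.inl (f 0), .inl (f 1)) = 1)

include h1 h2 h3 h4

lemma al_expand (s t : ι ⊕ κ) : q (s, t) = q (s, .inl (f 1)) * q (.inl (f 0), t) -
    q (t, .inl (f 1)) * q (.inl (f 0), s) := by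
  have h := h3 (.inl (f 0)) (.inl (f 1)) s t
  have h5 := h2 s (.inl (f 1))
  have h6 := h2 t (.inl (f 1))
  rw [h4] at h
  linear_combination h + q (.inl (f 0), s) * h6 - q (.inl (f 0), t) * h5

lemma al_rank : RankLe 2 fun e : ι × κ => q (.inl e.1, .inr e.2) := by
  have h := rankLe_mul (k := 2) (δ := Fin 2) (by simp)
    (fun (i : ι) a => ![q (.inl i, .inl (f 1)), q (.inl (f 0), .inl i)] a)
    (fun (j : κ) a => ![q (.inl (f 0), .inr j), -q (.inr j, .inl (f 1))] a)
  have h5 : (fun e : ι × κ => q (.inl e.1, .inr e.2)) = fun e : ι × κ =>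
      ∑ a, (![q (.inl e.1, .inl (f 1)), q (.inl (f 0), .inl e.1)] : Fin 2 → C) a *
        (![q (.inl (f 0), .inr e.2), -q (.inr e.2, .inl (f 1))] : Fin 2 → C) a := by
    funext e
    rw [al_expand h1 h2 h3 h4, Fin.sum_univ_two]
    simp
    ring
  rw [h5]
  exact h

variable (h : ∀ a b, q (.inl (f a), .inr (g b)) = if a = b then 1 else 0)

include h

lemma al_vv (s : ι ⊕ κ) : vv f g (fun e : ι × κ => q (.inl e.1, .inr e.2)) s 0 =
      q (s, .inl (f 1)) ∧ vv f g (fun e : ι × κ => q (.inl e.1, .inr e.2)) s 1 =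
      q (.inl (f 0), s) := by
  rcases s with i | j
  · have h5 := h2 (.inr (g 0)) (.inl (f 1))
    have h6 := h2 (.inr (g 1)) (.inl (f 1))
    rw [h] at h5 h6
    have h7 := h 0 0
    have h8 := h 0 1
    simp at h5 h6 h7 h8
    constructor
    · change q (.inl i, .inr (g 0)) = _
      rw [al_expand h1 h2 h3 h4, h7, h5]
      ring
    · change q (.inl i, .inr (g 1)) = _
      rw [al_expand h1 h2 h3 h4, h8, eq_neg_of_add_eq_zero_left h6]
      ring
  · constructor
    · change -q (.inl (f 1), .inr j) = _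
      exact (eq_neg_of_add_eq_zero_left (h2 (.inr j) (.inl (f 1)))).symm
    · rfl

lemma al_db : db f g (fun e : ι × κ => q (.inl e.1, .inr e.2)) = q := by
  funext ⟨s, t⟩
  obtain ⟨h5, h6⟩ := al_vv h1 h2 h3 h4 h s
  obtain ⟨h7, h8⟩ := al_vv h1 h2 h3 h4 h t
  rw [db, h5, h6, h7, h8]
  exact (al_expand h1 h2 h3 h4 s t).symm

end

/-- The matrices of rank at most two with an identity block are the alternating matrices of rank at
most two with prescribed entries. -/
lemma bij_db (hZ : ∀ a b, a ≠ b → (f a, g b) ∈ Z) (hN : ∀ a, (f a, g a) ∈ N) :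
    Bij (AL R (dz Z) (dn N (f 0) (f 1))) (MS R 2 Z ∅ N)
      (fun _ _ _ q e => q (.inl e.1, .inr e.2)) (fun _ _ _ p => db f g p) where
  natF _ _ _ _ := rfl
  natG φ p _ e := by
    have h1 : ∀ s a, φ (vv f g p s a) = vv f g (fun e => φ (p e)) s a := by
      intro s a
      rcases s with i | j
      · rfl
      · fin_cases a
        · exact map_neg φ _
        · rfl
    change φ (_ * _ - _ * _) = _
    rw [map_sub, map_mul, map_mul, h1, h1, h1, h1]
    rfl
  memF C _ _ q h := by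
    obtain ⟨⟨h1, h2, h3⟩, h4, h5⟩ := h
    exact ⟨al_rank h1 h2 h3 (h5 _ (Or.inl rfl)), fun e he => h4 _ ⟨e, he, rfl⟩,
      fun e he => absurd he (Set.notMem_empty e), fun e he => h5 _ (Or.inr ⟨e, he, rfl⟩)⟩
  memG C _ _ p h := by
    obtain ⟨h1, h2, -, h4⟩ := h
    have h5 : ∀ a b, p (f a, g b) = if a = b then 1 else 0 := by
      intro a b
      split_ifs with h
      · subst h
        exact h4 _ (hN a)
      · exact h2 _ (hZ a b h)
    refine ⟨⟨fun i => ?_, fun i j => ?_, fun i j k l => ?_⟩, ?_, ?_⟩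
    · exact sub_self _
    · simp only [db]
      ring
    · simp only [db]
      ring
    · rintro _ ⟨e, he, rfl⟩
      rw [db_block h1 h5]
      exact h2 e he
    · rintro _ (rfl | ⟨e, he, rfl⟩)
      · exact db_frame h5
      · rw [db_block h1 h5]
        exact h4 e he
  GF C _ _ q h := by
    obtain ⟨⟨h1, h2, h3⟩, h4, h5⟩ := h
    refine al_db h1 h2 h3 (h5 _ (Or.inl rfl)) fun a b => ?_
    split_ifs with h
    · subst h
      exact h5 _ (Or.inr ⟨_, hN a, rfl⟩)
    · exact h4 _ ⟨_, hZ a b h, rfl⟩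
  FG C _ _ p h := by
    obtain ⟨h1, h2, -, h4⟩ := h
    have h5 : ∀ a b, p (f a, g b) = if a = b then 1 else 0 := by
      intro a b
      split_ifs with h
      · subst h
        exact h4 _ (hN a)
      · exact h2 _ (hZ a b h)
    funext e
    exact db_block h1 h5 e.1 e.2

end double

section order

variable {ι : Type} {n : ℕ}

/-- alternating matrices, reindexed -/
lemma bij_al (e : ι ≃ Fin n) (Z N : Set (ι × ι)) (Z' N' : Set (Fin n × Fin n))
    (hZ : ∀ i j, (i, j) ∈ Z' ↔ (e.symm i, e.symm j) ∈ Z) (hN : ∀ i j, (i, j) ∈ N' ↔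
      (e.symm i, e.symm j) ∈ N) :
    Bij (AL R Z' N') (AL R Z N)
      (fun _ _ _ p x => p (e x.1, e x.2)) (fun _ _ _ p x => p (e.symm x.1, e.symm x.2)) where
  natF _ _ _ _ := rfl
  natG _ _ _ _ := rfl
  memF C _ _ p h := by
    obtain ⟨⟨h1, h2, h3⟩, h4, h5⟩ := h
    refine ⟨⟨fun i => h1 _, fun i j => h2 _ _, fun i j k l => h3 _ _ _ _⟩, fun x hx => ?_,
      fun x hx => ?_⟩
    · apply h4
      rw [hZ, Equiv.symm_apply_apply, Equiv.symm_apply_apply]
      exact hx
    · apply h5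
      rw [hN, Equiv.symm_apply_apply, Equiv.symm_apply_apply]
      exact hx
  memG C _ _ p h := by
    obtain ⟨⟨h1, h2, h3⟩, h4, h5⟩ := h
    exact ⟨⟨fun i => h1 _, fun i j => h2 _ _, fun i j k l => h3 _ _ _ _⟩,
      fun x hx => h4 _ ((hZ x.1 x.2).mp hx), fun x hx => h5 _ ((hN x.1 x.2).mp hx)⟩
  GF C _ _ p _ := by
    funext x
    change p (e (e.symm x.1), e (e.symm x.2)) = p x
    rw [Equiv.apply_symm_apply, Equiv.apply_symm_apply]
  FG C _ _ p _ := by
    funext x
    change p (e.symm (e x.1), e.symm (e x.2)) = p x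
    rw [Equiv.symm_apply_apply, Equiv.symm_apply_apply]

lemma zer_pl (Z N : Set (ι × ι)) [LT ι] (hZ : ∀ e ∈ Z, e.1 < e.2) (hN : ∀ e ∈ N, e.1 < e.2)
    (C : Type) [CommRing C] [Algebra R C] (p : ι × ι → C) :
    (zer (plucker R ∪ {g | ∃ e ∈ Z, e.1 < e.2 ∧ g = (X e : MvPolynomial (ι × ι) R)} ∪
      {g | ∃ e ∈ N, e.1 < e.2 ∧ g = X e - 1})).pts C p ↔ (AL R Z N).pts C p := by
  constructor
  · intro h
    refine ⟨⟨fun i => ?_, fun i j => ?_, fun i j k l => ?_⟩, fun e he => ?_, fun e he => ?_⟩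
    · have h1 := h _ (Or.inl (Or.inl (Or.inl (Or.inl ⟨i, rfl⟩))))
      rwa [aeval_X] at h1
    · have h1 := h _ (Or.inl (Or.inl (Or.inl (Or.inr ⟨i, j, rfl⟩))))
      rwa [map_add, aeval_X, aeval_X] at h1
    · have h1 := h _ (Or.inl (Or.inl (Or.inr ⟨i, j, k, l, rfl⟩)))
      simpa only [map_add, map_sub, map_mul, aeval_X] using h1
    · have h1 := h _ (Or.inl (Or.inr ⟨e, he, hZ e he, rfl⟩))
      rwa [aeval_X] at h1
    · have h1 := h _ (Or.inr ⟨e, he, hN e he, rfl⟩)
      rwa [map_sub, aeval_X, map_one, sub_eq_zero] at h1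
  · rintro ⟨⟨h1, h2, h3⟩, h4, h5⟩ g ((((⟨i, rfl⟩ | ⟨i, j, rfl⟩) | ⟨i, j, k, l, rfl⟩) |
      ⟨e, he, -, rfl⟩) | ⟨e, he, -, rfl⟩)
    · rw [aeval_X]
      exact h1 i
    · rw [map_add, aeval_X, aeval_X]
      exact h2 i j
    · simpa only [map_add, map_sub, map_mul, aeval_X] using h3 i j k l
    · rw [aeval_X]
      exact h4 e he
    · rw [map_sub, aeval_X, map_one, h5 e he, sub_self]

variable {P : Sch R → Prop}

lemma hol_al (h : OnLines P) (e : ι ≃ Fin n) (Z N : Set (ι × ι)) (hZ : ∀ x ∈ Z, e x.1 < e x.2)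
    (hN : ∀ x ∈ N, e x.1 < e x.2) : Hol P (AL R Z N) := by
  classical
  let Z' : Finset (Fin n × Fin n) := Finset.univ.filter fun x => (e.symm x.1, e.symm x.2) ∈ Z
  let N' : Finset (Fin n × Fin n) := Finset.univ.filter fun x => (e.symm x.1, e.symm x.2) ∈ N
  have h1 : ∀ i j, (i, j) ∈ (Z' : Set (Fin n × Fin n)) ↔ (e.symm i, e.symm j) ∈ Z := by
    intro i j
    simp [Z']
  have h2 : ∀ i j, (i, j) ∈ (N' : Set (Fin n × Fin n)) ↔ (e.symm i, e.symm j) ∈ N := by
    intro i j
    simp [N']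
  refine Hol.trans ?_ (bij_al e Z N _ _ h1 h2)
  refine Hol.congr (zer_pl (Z' : Set (Fin n × Fin n)) (N' : Set (Fin n × Fin n)) ?_ ?_)
    ⟨_, inferInstance, inferInstance, inferInstance, _, rep_zer _, h n Z' N'⟩
  · rintro ⟨i, j⟩ hx
    have h3 := hZ _ ((h1 i j).mp hx)
    change e (e.symm i) < e (e.symm j) at h3
    rwa [Equiv.apply_symm_apply, Equiv.apply_symm_apply] at h3
  · rintro ⟨i, j⟩ hx
    have h3 := hN _ ((h2 i j).mp hx)
    change e (e.symm i) < e (e.symm j) at h3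
    rwa [Equiv.apply_symm_apply, Equiv.apply_symm_apply] at h3

lemma exists_lt [Fintype ι] {a b : ι} (hab : a ≠ b) :
    ∃ e : ι ≃ Fin (Fintype.card ι), e a < e b := by
  let e := Fintype.equivFin ι
  rcases lt_or_gt_of_ne (fun h => hab (e.injective h) : e a ≠ e b) with h | h
  · exact ⟨e, h⟩
  · refine ⟨e.trans (Equiv.swap (e a) (e b)), ?_⟩
    rw [Equiv.trans_apply, Equiv.trans_apply, Equiv.swap_apply_left, Equiv.swap_apply_right]
    exact h

end order

/-- the matrices of rank at most two with an identity block -/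
lemma hol_lines {P : Sch R → Prop} (h : OnLines P) {ι κ : Type} [Finite ι] [Finite κ]
    (f : Fin 2 → ι) (g : Fin 2 → κ) (hf : f 0 ≠ f 1) {Z N : Set (ι × κ)}
    (hZ : ∀ a b, a ≠ b → (f a, g b) ∈ Z) (hN : ∀ a, (f a, g a) ∈ N) : Hol P (MS R 2 Z ∅ N) := by
  classical
  have : Fintype ι := Fintype.ofFinite ι
  have : Fintype κ := Fintype.ofFinite κ
  refine Hol.trans ?_ (bij_db (R := R) hZ hN)
  obtain ⟨e, he⟩ := exists_lt hf
  let e' : ι ⊕ κ ≃ Fin (Fintype.card ι + Fintype.card κ) :=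
    (Equiv.sumCongr e (Fintype.equivFin κ)).trans finSumFinEquiv
  have h1 : ∀ i j, e' (.inl i) < e' (.inr j) := by
    intro i j
    change Fin.castAdd _ (e i) < Fin.natAdd _ _
    rw [Fin.lt_def]
    simp only [Fin.val_castAdd, Fin.val_natAdd]
    omega
  refine hol_al h e' _ _ ?_ ?_
  · rintro _ ⟨x, hx, rfl⟩
    exact h1 _ _
  · rintro _ (rfl | ⟨x, hx, rfl⟩)
    · change Fin.castAdd _ (e (f 0)) < Fin.castAdd _ (e (f 1))
      exact he
    · exact h1 _ _

/-- Every property which is invariant under isomorphisms and closed under gluing a closed and an open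
part is true for all schemes of finite type as soon as it is true for the sections of the cones over the
Grassmannians of lines by equations `p_ij = 0` and `p_ij = 1`. -/
theorem glue_lines [IsNoetherianRing R] (hR : Frac R) {sep : Prop} {P : Sch R → Prop}
    (hP : Glue sep P) : OnAll sep P ↔ OnLines P := by
  constructor
  · intro h n Z N
    exact h _ (ft_aff sep)
  · intro h X hX
    refine all_of_cutp hR hP (fun V E _ _ _ _ Y σ => ?_) X hX
    refine (hol_lines h Ro.D Co.D ?_ ?_ ?_).trans (bij_mt Y σ R)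
    · simp
    · intro a b hab
      exact hab
    · intro a
      exact rfl

end Pool.Agent.H68.RT
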