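import Pool.Agent.H68.RT.Dev
import Pool.Graph.R_pool_sql_team_seeded_2aa45f1a.Q282.UZ.Pr
import Pool.Graph.R_pool_sql_team_seeded_2aa45f1a.Q49.WU.Pair

/-!
# Resolution of singularities, alterations, and comparison maps with localization sequences
-/

set_option autoImplicit false
set_option linter.unusedSectionVars false
set_option linter.unusedVariables false

open CategoryTheory AlgebraicGeometry MvPolynomial Pool.Agent.Y116.UV Pool.Agent.Q193.LT
  Pool.Agent.Q282.UK Pool.Agent.H81.RZ Pool.Agent.Q282.UZ Pool.Agent.Q49.WU Pool.Agent.Y691.TU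
  Pool.Agent.Y101.Th

universe w w'

namespace Pool.Agent.H68.RT

section field

variable {k : Type} [Field k]

theorem dev_smproj (hk : Resolution k) {P : Sch k → Prop} (hP : TwoOfThree P) (N : ℕ)
    (h : ∀ Y : Sch k, SmProj Y → topologicalKrullDim Y.left ≤ N → P Y) (X : Sch k) (hX : FT True X)
    (hN : topologicalKrullDim X.left ≤ N) : P X := by
  refine dev_core ⟨hP.iso, hP.total⟩ ?_ N ?_ X hX hN
  · intro E hE hE'
    obtain ⟨w, Y, Z, i, j, -, h1, -, h2, -⟩ := hk k
    have h3 : topologicalKrullDim Y.left ≤ N := by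
      refine h2.trans ?_
      rw [ringKrullDim_eq_zero_of_field]
      exact_mod_cast Nat.zero_le N
    exact empty_of_opened (fun i j hX ht => hP.opened i j hX ht) h1.ft (h Y h1 h3) E hE'
  · intro n hn ih A _ _ _ _ hA
    obtain ⟨w, Y, Z, i, j, hw, h1, ht, h2, h3⟩ := hk A
    have hnN : (n : WithBot ℕ∞) ≤ N := by exact_mod_cast hn
    refine ⟨w, hw, hP.opened i j h1.ft ht ?_ (h Y h1 ((h2.trans hA).trans hnN))⟩
    exact ih Z (ft_closed i ht.closed h1.ft) (h3.trans_le hA)

end field

section int

/-- **De Jong's theorem on alterations**, in the following form (`Reg` is the property of being regular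
and connected): for every integral affine scheme `Spec A` of finite type over `ℤ` there are a nonempty
basic open subset `Spec A_w`, a finite flat surjective morphism `V ⟶ Spec A_w` from an integral scheme
`V`, and an open immersion of `V` into a proper scheme `X` over `ℤ` with the property `Reg`, such
that `dim X ≤ dim A`, and `dim Z < dim A` for the complement `Z` of `V` in `X`. -/
def DeJong (Reg : Sch ℤ → Prop) : Prop :=
  ∀ (A : Type) [CommRing A] [IsDomain A] [Algebra ℤ A] [Algebra.FiniteType ℤ A],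
    ∃ (w : A) (V X Z : Sch ℤ) (f : V ⟶ aff ℤ (Localization.Away w)) (i : Z ⟶ X) (j : V ⟶ X),
      w ≠ 0 ∧ IsFinite f.left ∧ Flat f.left ∧ Surjective f.left ∧ IsIntegral V.left ∧
      FT True X ∧ IsProper X.hom ∧ Reg X ∧ IsTriple i j ∧
      topologicalKrullDim X.left ≤ ringKrullDim A ∧ topologicalKrullDim Z.left < ringKrullDim A

theorem dev_alt {Reg : Sch ℤ → Prop} (hk : DeJong Reg) {P : Sch ℤ → Prop} (hP : AltClosed P) (N : ℕ)
    (h : ∀ Y : Sch ℤ, FT True Y → IsProper Y.hom → Reg Y → topologicalKrullDim Y.left ≤ N → P Y)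
    (X : Sch ℤ) (hX : FT True X) (hN : topologicalKrullDim X.left ≤ N) : P X := by
  refine dev_core ⟨hP.iso, hP.total⟩ ?_ N ?_ X hX hN
  · intro E hE hE'
    have hf2 : Fact (Nat.Prime 2) := ⟨Nat.prime_two⟩
    obtain ⟨w, V, Y, Z, f, i, j, -, -, -, -, -, h1, h2, h3, -, h4, -⟩ := hk (ZMod 2)
    have h5 : topologicalKrullDim Y.left ≤ N := by
      refine h4.trans ?_
      rw [ringKrullDim_eq_zero_of_field]
      exact_mod_cast Nat.zero_le N
    exact empty_of_opened (fun i j hX ht => hP.opened i j hX ht) h1 (h Y h1 h2 h3 h5) E hE'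
  · intro n hn ih A _ _ _ _ hA
    obtain ⟨w, V, Y, Z, f, i, j, hw, h1, h2, h3, h4, h5, h6, h7, ht, h8, h9⟩ := hk A
    have hnN : (n : WithBot ℕ∞) ≤ N := by exact_mod_cast hn
    have hdom : IsDomain (Localization.Away w) := IsLocalization.isDomain_localization
      (powers_le_nonZeroDivisors_of_noZeroDivisors hw)
    have hft : Algebra.FiniteType ℤ (Localization.Away w) :=
      Algebra.FiniteType.trans (S := A) inferInstance inferInstance
    have hV : P V := hP.opened i j h5 ht (ih Z (ft_closed i ht.closed h5) (h9.trans_le hA))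
      (h Y h5 h6 h7 ((h8.trans hA).trans hnN))
    exact ⟨w, hw, hP.finite f (ft_aff True) h1 h2 h3 h4
      (inferInstanceAs (IsIntegral (Spec (CommRingCat.of (Localization.Away w))))) hV⟩

end int

section pair

variable {R : Type} [CommRing R] {ι : Type} {E : Type w'} [CommRing E]

/-- The comparison maps of isomorphic schemes are isomorphic, and for a closed subscheme `Z` of `X` and
its complement `U` there are compatible long exact sequences
`⋯ → A_j Z → A_j X → A_j U → A_{δ j} Z → ⋯` or `⋯ → A_j U → A_j X → A_j Z → A_{δ j} U → ⋯`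
(and the same for `B`). -/
structure HasSequences (D : PairData.{w} R ι E) (δ : ι ≃ ι) : Prop where
  iso : ∀ {X Y : Sch R}, FT True X → Nonempty (X ≅ Y) → ∀ j, SameAt D j X j Y
  les : ∀ {Z X U : Sch R} (i : Z ⟶ X) (j : U ⟶ X), FT True X → IsTriple i j →
    LesPair D δ U X Z ∨ LesPair D δ Z X U

variable {D : PairData.{w} R ι E} {δ : ι ≃ ι}

theorem glue_all (hD : HasSequences D δ) : Glue True (BijAll D) where
  iso hX e h j := (hD.iso hX e j).iff.mp (h j)
  total i j hX ht hZ hU := by
    rcases hD.les i j hX ht with h | h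
    · exact h.mid hU hZ
    · exact h.mid hZ hU

theorem opened_all (hD : HasSequences D δ) {Z X U : Sch R} (i : Z ⟶ X) (j : U ⟶ X) (hX : FT True X)
    (ht : IsTriple i j) (hZ : BijAll D Z) (hX' : BijAll D X) : BijAll D U := by
  rcases hD.les i j hX ht with h | h
  · exact h.left hX' hZ
  · exact h.right hZ hX'

theorem closed_all (hD : HasSequences D δ) {Z X U : Sch R} (i : Z ⟶ X) (j : U ⟶ X) (hX : FT True X)
    (ht : IsTriple i j) (hX' : BijAll D X) (hU : BijAll D U) : BijAll D Z := by
  rcases hD.les i j hX ht with h | h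
  · exact h.right hU hX'
  · exact h.left hX' hU

theorem seq_cut (hD : HasSequences D δ) {wt : ι → ℤ} (hδ : ∀ j, wt (δ j) = wt j) (N : ℤ) :
    HasSequences (cut D wt N) (cutEquiv hδ N) where
  iso hX e j := hD.iso hX e j.1
  les i j hX ht := (hD.les i j hX ht).imp (cut_les hδ) (cut_les hδ)

theorem glue_at (hD : HasSequences D δ) {wt : ι → ℤ} (hδ : ∀ j, wt (δ j) = wt j) (N : ℤ) :
    Glue True (BijAt D wt N) where
  iso hX e h := (cut_iff _).mpr ((glue_all (seq_cut hD hδ N)).iso hX e ((cut_iff _).mp h))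
  total i j hX ht hZ hU := (cut_iff _).mpr ((glue_all (seq_cut hD hδ N)).total i j hX ht
    ((cut_iff _).mp hZ) ((cut_iff _).mp hU))

theorem two_at {k : Type} [Field k] {D : PairData.{w} k ι E} (hD : HasSequences D δ) {wt : ι → ℤ}
    (hδ : ∀ j, wt (δ j) = wt j) (N : ℤ) : TwoOfThree (BijAt D wt N) where
  iso := (glue_at hD hδ N).iso
  total := (glue_at hD hδ N).total
  opened i j hX ht hZ hX' := (cut_iff _).mpr (opened_all (seq_cut hD hδ N) i j hX ht
    ((cut_iff _).mp hZ) ((cut_iff _).mp hX'))
  closed i j hX ht hX' hU := (cut_iff _).mpr (closed_all (seq_cut hD hδ N) i j hX ht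
    ((cut_iff _).mp hX') ((cut_iff _).mp hU))

theorem alt_all {D : PairData.{w} ℤ ι E} (hD : HasSequences D δ) (hr : HasFactors D) :
    AltClosed (BijAll D) where
  iso := (glue_all hD).iso
  total := (glue_all hD).total
  opened := opened_all hD
  finite f hU h1 h2 h3 h4 h5 h j := (hr f hU h1 h2 h3 h4 h5 j).bij (h j)

end pair

end Pool.Agent.H68.RT
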