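import Pool.Agent.H81.RZ.MDefs

/-!
# Matrices of rank at most two with prescribed entries zero and one

* `Cp R Z N`: the ring of functions on the `m × n` matrices of rank at most two whose entries at the
  places `Z` are zero and whose entries at the places `N` are one;
* `Pl R Z N`: the ring of functions on the section of the affine cone over the Grassmannian `Gr(2, n)`
  by the equations `p_ij = 0` for `(i, j) ∈ Z` and `p_ij = 1` for `(i, j) ∈ N`, `i < j`.
-/

set_option autoImplicit false

open CategoryTheory AlgebraicGeometry MvPolynomial Pool.Agent.Y116.UV Pool.Agent.H81.RZ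

namespace Pool.Agent.H68.RT

/-- The property `P` is invariant under isomorphisms, and it is true for `X`, if it is true for a closed
subscheme and its open complement. -/
structure Glue {R : Type} [CommRing R] (sep : Prop) (P : Sch R → Prop) : Prop where
  iso : ∀ {X Y : Sch R}, FT sep X → Nonempty (X ≅ Y) → P X → P Y
  total : ∀ {Z X U : Sch R} (i : Z ⟶ X) (j : U ⟶ X), FT sep X → IsTriple i j → P Z → P U → P X

/-- The polynomials defining the matrices of rank at most `k` with zeros at `Z` and ones at `N`. -/
def cpEqs {ι κ : Type} (R : Type) [CommRing R] (k : ℕ) (Z N : Set (ι × κ)) :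
    Set (MvPolynomial (ι × κ) R) :=
  rkEqs R k Z ∪ {g | ∃ e ∈ N, g = X e - 1}

/-- The ring of functions on the `m × n` matrices of rank at most two with the entries zero at `Z` and
one at `N`. -/
abbrev Cp (R : Type) [CommRing R] {m n : ℕ} (Z N : Finset (Fin m × Fin n)) : Type :=
  MvPolynomial (Fin m × Fin n) R ⧸
    Ideal.span (cpEqs R 2 (Z : Set (Fin m × Fin n)) (N : Set (Fin m × Fin n)))

/-- `P` is true for the schemes of the `m × n` matrices of rank at most two with prescribed entries zero
and one. -/
def OnRankTwo {R : Type} [CommRing R] (P : Sch R → Prop) : Prop :=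
  ∀ (m n : ℕ) (Z N : Finset (Fin m × Fin n)), P (aff R (Cp R Z N))

/-- The polynomials defining the cone over the Grassmannian of lines, in the space of alternating
matrices: the three-term Plücker relations. -/
def plucker {ι : Type} (R : Type) [CommRing R] : Set (MvPolynomial (ι × ι) R) :=
  {g | ∃ i, g = X (i, i)} ∪ {g | ∃ i j, g = X (i, j) + X (j, i)} ∪
  {g | ∃ i j k l, g = X (i, j) * X (k, l) - X (i, k) * X (j, l) + X (i, l) * X (j, k)}

/-- The ring of functions on the section of the cone over the Grassmannian `Gr(2, n)` by the equations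
`p_ij = 0` for `(i, j) ∈ Z` and `p_ij = 1` for `(i, j) ∈ N`, where `i < j`. -/
abbrev Pl (R : Type) [CommRing R] {n : ℕ} (Z N : Finset (Fin n × Fin n)) : Type :=
  MvPolynomial (Fin n × Fin n) R ⧸ Ideal.span (plucker R ∪
    {g | ∃ e ∈ Z, e.1 < e.2 ∧ g = X e} ∪ {g | ∃ e ∈ N, e.1 < e.2 ∧ g = X e - 1})

/-- `P` is true for the sections of the cones over the Grassmannians `Gr(2, n)` by equations `p_ij = 0`
and `p_ij = 1`, `i < j`. -/
def OnLines {R : Type} [CommRing R] (P : Sch R → Prop) : Prop :=
  ∀ (n : ℕ) (Z N : Finset (Fin n × Fin n)), P (aff R (Pl R Z N))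

end Pool.Agent.H68.RT
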