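import Pool.Agent.H68.RT.Smo
import Pool.Graph.R_pool_sql_team_seeded_2aa45f1a.Q193.LT.Hir
import Pool.Graph.R_pool_sql_team_seeded_1acbe0a2.Y691.TU.Defs

/-!
# Dévissage to smooth projective, and to proper regular schemes, in each dimension
-/

set_option autoImplicit false
set_option linter.unusedSectionVars false
set_option linter.unusedVariables false

open CategoryTheory AlgebraicGeometry MvPolynomial Pool.Agent.Y116.UV Pool.Agent.Q193.LT
  Pool.Agent.Q282.UK Pool.Agent.H81.RZ

namespace Pool.Agent.H68.RT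

variable {R : Type} [CommRing R]

section away

variable {σ : Type} {S S' : Pts R σ} {B : Type} [CommRing B] [Algebra R B] {b : σ → B}

lemma rep_away (hB : Rep S B b) (w : B) (h : ∀ (C : Type) [CommRing C] [Algebra R C] (p : σ → C),
    S'.pts C p ↔ S.pts C p ∧ ∀ φ : B →ₐ[R] C, (∀ s, φ (b s) = p s) → IsUnit (φ w)) :
    Rep S' (Localization.Away w) (fun s => algebraMap B (Localization.Away w) (b s)) where
  mem := by
    rw [h]
    refine ⟨S.map (IsScalarTower.toAlgHom R B (Localization.Away w)) hB.mem, fun φ hφ => ?_⟩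
    have h1 : φ = IsScalarTower.toAlgHom R B (Localization.Away w) := hB.uniq _ _ _ hφ
    rw [h1]
    exact IsLocalization.map_units (M := Submonoid.powers w)
      (Localization.Away w) ⟨_, Submonoid.mem_powers _⟩
  ex C _ _ p hp := by
    rw [h] at hp
    obtain ⟨φ, hφ⟩ := hB.ex C p hp.1
    refine ⟨IsLocalization.liftAlgHom (M := Submonoid.powers w) (f := φ) ?_, fun s => ?_⟩
    · rintro ⟨_, k, rfl⟩
      change IsUnit (φ (w ^ k))
      rw [map_pow]
      exact (hp.2 φ hφ).pow k
    · rw [IsLocalization.liftAlgHom_apply, IsLocalization.lift_eq]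
      exact hφ s
  uniq C _ _ f g hfg := by
    apply IsLocalization.algHom_ext (Submonoid.powers w)
    apply hB.uniq
    intro s
    exact hfg s

end away

section key

variable {A : Type} [CommRing A] [Algebra R A]

lemma exists_rep_away {I : Ideal A} (hI : I.IsPrime) {f : A} (hf : f ∉ I)
    (w : Localization.Away (Ideal.Quotient.mk I f)) (hw : w ≠ 0) : ∃ g ∉ I, ∃ l,
      Rep (hs R I (f * g)) (Localization.Away w) l := by
  obtain ⟨m, c, hc⟩ := IsLocalization.Away.surj (S := Localization.Away (Ideal.Quotient.mk I f))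
    (Ideal.Quotient.mk I f) w
  obtain ⟨c', rfl⟩ := Ideal.Quotient.mk_surjective c
  have hf0 : Ideal.Quotient.mk I f ≠ 0 := fun h1 => hf (Ideal.Quotient.eq_zero_iff_mem.mp h1)
  have hle : Submonoid.powers (Ideal.Quotient.mk I f) ≤ nonZeroDivisors (A ⧸ I) :=
    powers_le_nonZeroDivisors_of_noZeroDivisors hf0
  have hdom : IsDomain (Localization.Away (Ideal.Quotient.mk I f)) :=
    IsLocalization.isDomain_localization hle
  have hfu : IsUnit (algebraMap (A ⧸ I) (Localization.Away (Ideal.Quotient.mk I f))
      (Ideal.Quotient.mk I f)) :=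
    IsLocalization.map_units (M := Submonoid.powers (Ideal.Quotient.mk I f)) _
      ⟨_, Submonoid.mem_powers _⟩
  have hc' : c' ∉ I := by
    intro h1
    rw [Ideal.Quotient.eq_zero_iff_mem.mpr h1, map_zero] at hc
    exact mul_ne_zero hw (pow_ne_zero m hfu.ne_zero) hc
  refine ⟨c', hc', _, rep_away (rep_hs (R := R) I f) w fun C _ _ p => ?_⟩
  constructor
  · rintro ⟨⟨ψ, h1⟩, h2, h3⟩
    have h4 : IsUnit (p f) ∧ IsUnit (p c') := by
      rw [← h1, map_mul, h1, h1] at h3
      exact ⟨isUnit_of_mul_isUnit_left h3, isUnit_of_mul_isUnit_right h3⟩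
    refine ⟨⟨⟨ψ, h1⟩, h2, h4.1⟩, fun φ hφ => ?_⟩
    have h5 := congrArg φ hc
    rw [map_mul, hφ c'] at h5
    have h6 := h4.2
    rw [← h5] at h6
    exact isUnit_of_mul_isUnit_left h6
  · rintro ⟨⟨⟨ψ, h1⟩, h2, h3⟩, h4⟩
    refine ⟨⟨ψ, h1⟩, h2, ?_⟩
    obtain ⟨φ, hφ⟩ := (rep_hs (R := R) I f).ex C p ⟨⟨ψ, h1⟩, h2, h3⟩
    have h5 := congrArg φ hc
    rw [map_mul, map_pow, hφ c', hφ f] at h5
    rw [← h1, map_mul, h1, h1, ← h5]
    exact h3.mul ((h4 φ hφ).mul (h3.pow m))

lemma dim_away (I : Ideal A) (f : A) :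
    ringKrullDim (Localization.Away (Ideal.Quotient.mk I f)) ≤ ringKrullDim A := by
  rw [← PrimeSpectrum.topologicalKrullDim_eq_ringKrullDim,
    ← PrimeSpectrum.topologicalKrullDim_eq_ringKrullDim]
  have h1 := PrimeSpectrum.localization_comap_isInducing
    (Localization.Away (Ideal.Quotient.mk I f)) (Submonoid.powers (Ideal.Quotient.mk I f))
  have h2 := PrimeSpectrum.comap_isInducing_of_surjective (A ⧸ I) (Ideal.Quotient.mk I)
    Ideal.Quotient.mk_surjective
  exact (h2.comp h1).topologicalKrullDim_le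

end key

section dim

lemma le_of_lt_succ' {x : WithBot ℕ∞} {n : ℕ} (h : x < ((n + 1 : ℕ) : WithBot ℕ∞)) :
    x ≤ (n : WithBot ℕ∞) := by
  induction x using WithBot.recBotCoe with
  | bot => exact bot_le
  | coe x =>
    induction x using ENat.recTopCoe with
    | top =>
      exact absurd h (by
        rw [not_lt]
        exact WithBot.coe_le_coe.mpr le_top)
    | coe x =>
      have h1 : x < n + 1 := by exact_mod_cast h
      have h2 : x ≤ n := by omega
      exact_mod_cast h2

lemma empty_of_dim {X : Type} [TopologicalSpace X] (h : topologicalKrullDim X < 0) : IsEmpty X := by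
  by_contra h1
  rw [not_isEmpty_iff] at h1
  obtain ⟨x⟩ := h1
  have h2 : Nonempty (TopologicalSpace.IrreducibleCloseds X) :=
    ⟨⟨closure {x}, isIrreducible_singleton.closure, isClosed_closure⟩⟩
  exact absurd (Order.krullDim_nonneg (α := TopologicalSpace.IrreducibleCloseds X)) (not_le.mpr h)

/-- Noetherian induction, and induction on the dimension. -/
theorem dev_core [IsNoetherianRing R] {P : Sch R → Prop} (hP : Glue True P)
    (h0 : ∀ X : Sch R, FT True X → IsEmpty X.left → P X) (N : ℕ)
    (step : ∀ n : ℕ, n ≤ N → (∀ X : Sch R, FT True X → topologicalKrullDim X.left < n → P X) →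
      ∀ (A : Type) [CommRing A] [IsDomain A] [Algebra R A] [Algebra.FiniteType R A],
        ringKrullDim A ≤ n → ∃ w : A, w ≠ 0 ∧ P (aff R (Localization.Away w))) (X : Sch R)
    (hX : FT True X) (hN : topologicalKrullDim X.left ≤ N) : P X := by
  have key : ∀ n : ℕ, n ≤ N → (∀ X : Sch R, FT True X → topologicalKrullDim X.left < n → P X) →
      ∀ X : Sch R, FT True X → topologicalKrullDim X.left ≤ n → P X := by
    intro n hn ih X hX hd
    have hG := glue_her hP (her_dim (R := R) (n : WithBot ℕ∞))
    refine of_affine' hG.iso hG.total (fun A _ _ _ hA => ?_) X hX hd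
    have hA' : ringKrullDim A ≤ n := by
      rw [← PrimeSpectrum.topologicalKrullDim_eq_ringKrullDim]
      exact hA
    have h1 : Hol P (hs R (⊤ : Ideal A) 1) := by
      obtain ⟨L, i1, i2, hLft, l, hL, -⟩ := repr_hs (R := R) (⊤ : Ideal A) 1
      have hs0 : Subsingleton L := by
        obtain ⟨⟨φ, h1⟩, h2, -⟩ := hL.mem
        have h3 : (1 : L) = 0 := by
          rw [← map_one φ, h1]
          exact h2 1 trivial
        exact subsingleton_of_zero_eq_one h3.symm
      exact ⟨L, i1, i2, hLft, _, hL, h0 _ (ft_aff True) (inferInstanceAs (IsEmpty (PrimeSpectrum L)))⟩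
    have h2 : Hol P (hs R (⊥ : Ideal A) 1) := by
      refine hol_hs hP h1 (fun I hI f hf => ?_) ⊥ 1
      have hf0 : Ideal.Quotient.mk I f ≠ 0 := fun h1 => hf (Ideal.Quotient.eq_zero_iff_mem.mp h1)
      have hdom : IsDomain (Localization.Away (Ideal.Quotient.mk I f)) :=
        IsLocalization.isDomain_localization (powers_le_nonZeroDivisors_of_noZeroDivisors hf0)
      have hft : Algebra.FiniteType R (Localization.Away (Ideal.Quotient.mk I f)) :=
        Algebra.FiniteType.trans (S := A ⧸ I) inferInstance inferInstance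
      obtain ⟨w, hw, h3⟩ := step n hn ih (Localization.Away (Ideal.Quotient.mk I f))
        ((dim_away I f).trans hA')
      obtain ⟨g, hg, l, h4⟩ := exists_rep_away (R := R) hI hf w hw
      exact ⟨g, hg, _, inferInstance, inferInstance,
        Algebra.FiniteType.trans (S := Localization.Away (Ideal.Quotient.mk I f)) inferInstance
          inferInstance, l, h4, h3⟩
    exact of_rep hP h2 (b := fun a : A => a) ⟨⟨⟨AlgHom.id R A, fun a => rfl⟩, fun a ha => ha,
      isUnit_one⟩, fun C _ _ p hp => hp.1, fun C _ _ f g hfg => AlgHom.ext hfg⟩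
  have ind : ∀ n : ℕ, n ≤ N → ∀ X : Sch R, FT True X → topologicalKrullDim X.left < n → P X := by
    intro n
    induction n with
    | zero =>
      intro _ X hX hd
      exact h0 X hX (empty_of_dim (by exact_mod_cast hd))
    | succ n ih =>
      intro hn X hX hd
      exact key n (by omega) (ih (by omega)) X hX (le_of_lt_succ' hd)
  exact key N le_rfl (ind N le_rfl) X hX hN

end dim

section closed

lemma ft_closed {sep : Prop} {Z X : Sch R} (i : Z ⟶ X) (hi : IsClosedImmersion i.left)
    (hX : FT sep X) : FT sep Z where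
  locallyOfFiniteType := by
    have := hX.locallyOfFiniteType
    rw [← Over.w i]
    infer_instance
  quasiCompact := by
    have := hX.quasiCompact
    rw [← Over.w i]
    infer_instance
  separated h := by
    have := hX.separated h
    rw [← Over.w i]
    infer_instance

/-- the empty scheme, from the closure under open subschemes -/
lemma empty_of_opened {P : Sch R → Prop} (hopen : ∀ {Z X U : Sch R} (i : Z ⟶ X) (j : U ⟶ X),
    FT True X → IsTriple i j → P Z → P X → P U) {Y : Sch R} (hY : FT True Y) (hPY : P Y) (X : Sch R)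
    (hX : IsEmpty X.left) : P X := by
  let u : X.left ⟶ Y.left := (isInitialOfIsEmpty (X := X.left)).to Y.left
  have hu : u ≫ Y.hom = X.hom := (isInitialOfIsEmpty (X := X.left)).hom_ext _ _
  refine hopen (𝟙 Y) (Over.homMk u hu) hY ⟨?_, ?_, ?_⟩ hPY hPY
  · rw [Over.id_left]
    infer_instance
  · exact isOpenImmersion_of_isEmpty u
  · ext y
    constructor
    · rintro - ⟨x, -⟩
      exact hX.elim x
    · intro _
      refine ⟨y, ?_⟩
      rw [Over.id_left]
      rfl

end closed

end Pool.Agent.H68.RT
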