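import Pool.Agent.H68.RT.Pieces

/-!
# Noetherian induction: generic properties of the pieces
-/

set_option autoImplicit false
set_option linter.unusedSectionVars false
set_option linter.unusedVariables false

open CategoryTheory AlgebraicGeometry MvPolynomial Pool.Agent.Y116.UV Pool.Agent.Q193.LT
  Pool.Agent.Q282.UK Pool.Agent.H81.RZ

namespace Pool.Agent.H68.RT

variable {R : Type} [CommRing R]

section general

variable {σ τ : Type} {S : Pts R σ} {T : Pts R τ}
  {F : ∀ (C : Type) [CommRing C] [Algebra R C], (σ → C) → (τ → C)}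
  {G : ∀ (C : Type) [CommRing C] [Algebra R C], (τ → C) → (σ → C)}

lemma bij_symm (h : Bij S T F G) : Bij T S G F where
  natF f p hp := h.natG f p hp
  natG f p hp := h.natF f p hp
  memF := h.memG
  memG := h.memF
  GF := h.FG
  FG := h.GF

lemma rep_equiv {A B : Type} [CommRing A] [Algebra R A] [CommRing B] [Algebra R B] {a : σ → A}
    (h : Rep S A a) (e : A ≃ₐ[R] B) : Rep S B fun s => e (a s) where
  mem := S.map (e : A →ₐ[R] B) h.mem
  ex C _ _ p hp := by
    obtain ⟨f, hf⟩ := h.ex C p hp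
    refine ⟨f.comp (e.symm : B →ₐ[R] A), fun s => ?_⟩
    rw [← hf s]
    exact congrArg f (e.symm_apply_apply (a s))
  uniq C _ _ f g hfg := by
    have h1 := h.uniq C (f.comp (e : A →ₐ[R] B)) (g.comp (e : A →ₐ[R] B)) hfg
    apply AlgHom.ext
    intro x
    have h2 := congrArg (fun k : A →ₐ[R] C => k (e.symm x)) h1
    have h3 : ∀ k : B →ₐ[R] C, k.comp (e : A →ₐ[R] B) (e.symm x) = k x := fun k =>
      congrArg k (e.apply_symm_apply x)
    rwa [h3, h3] at h2

lemma rep_congr {S' : Pts R σ} {A : Type} [CommRing A] [Algebra R A] {a : σ → A}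
    (h : ∀ (C : Type) [CommRing C] [Algebra R C] (p : σ → C), S.pts C p ↔ S'.pts C p)
    (hA : Rep S A a) : Rep S' A a where
  mem := (h A a).mp hA.mem
  ex C _ _ p hp := hA.ex C p ((h C p).mpr hp)
  uniq := hA.uniq

end general

section hs

variable {A : Type} [CommRing A] [Algebra R A]

/-- the homomorphisms of `A` which are zero on `I` and invertible at `f` -/
def hs (R : Type) [CommRing R] {A : Type} [CommRing A] [Algebra R A] (I : Ideal A) (f : A) :
    Pts R A where
  pts C _ _ p := (∃ φ : A →ₐ[R] C, ∀ a, φ a = p a) ∧ (∀ a ∈ I, p a = 0) ∧ IsUnit (p f)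
  map {C D} _ _ _ _ g p h := by
    obtain ⟨⟨φ, h1⟩, h2, h3⟩ := h
    exact ⟨⟨g.comp φ, fun a => congrArg g (h1 a)⟩, fun a ha => (congrArg g (h2 a ha)).trans (map_zero g),
      h3.map g⟩

lemma rep_hs (I : Ideal A) (f : A) : Rep (hs R I f)
    (Localization.Away (Ideal.Quotient.mk I f)) (fun a => algebraMap (A ⧸ I) _ (Ideal.Quotient.mk I a))
    where
  mem := ⟨⟨(IsScalarTower.toAlgHom R (A ⧸ I) (Localization.Away (Ideal.Quotient.mk I f))).comp
      (Ideal.Quotient.mkₐ R I), fun a => rfl⟩, fun a ha => by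
        change algebraMap (A ⧸ I) _ (Ideal.Quotient.mk I a) = 0
        rw [Ideal.Quotient.eq_zero_iff_mem.mpr ha, map_zero],
      IsLocalization.map_units (M := Submonoid.powers (Ideal.Quotient.mk I f))
        (Localization.Away (Ideal.Quotient.mk I f)) ⟨_, Submonoid.mem_powers _⟩⟩
  ex C _ _ p hp := by
    obtain ⟨⟨φ, h1⟩, h2, h3⟩ := hp
    let ψ : (A ⧸ I) →ₐ[R] C := Ideal.Quotient.liftₐ I φ fun a ha => (h1 a).trans (h2 a ha)
    have hψ : ∀ a, ψ (Ideal.Quotient.mk I a) = p a := fun a => h1 a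
    refine ⟨IsLocalization.liftAlgHom (M := Submonoid.powers (Ideal.Quotient.mk I f)) (f := ψ) ?_,
      fun a => ?_⟩
    · rintro ⟨_, k, rfl⟩
      change IsUnit (ψ (Ideal.Quotient.mk I f ^ k))
      rw [map_pow, hψ]
      exact h3.pow k
    · rw [IsLocalization.liftAlgHom_apply, IsLocalization.lift_eq]
      exact hψ a
  uniq C _ _ g h hgh := by
    apply IsLocalization.algHom_ext (Submonoid.powers (Ideal.Quotient.mk I f))
    apply Ideal.Quotient.algHom_ext
    apply AlgHom.ext
    intro a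
    exact hgh a

lemma repr_hs [Algebra.FiniteType R A] (I : Ideal A) (f : A) : Repr (hs R I f) :=
  ⟨_, inferInstance, inferInstance, Algebra.FiniteType.trans (S := A ⧸ I) inferInstance inferInstance,
    _, rep_hs I f, trivial⟩

lemma hs_ext {I J : Ideal A} {f g : A} (h : ∀ (C : Type) [CommRing C] [Algebra R C] (φ : A →ₐ[R] C),
    ((∀ a ∈ I, φ a = 0) ∧ IsUnit (φ f)) ↔ ((∀ a ∈ J, φ a = 0) ∧ IsUnit (φ g))) (C : Type) [CommRing C]
    [Algebra R C] (p : A → C) : (hs R I f).pts C p ↔ (hs R J g).pts C p := by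
  constructor
  · rintro ⟨⟨φ, h1⟩, h2, h3⟩
    obtain ⟨h4, h5⟩ := (h C φ).mp ⟨fun a ha => (h1 a).trans (h2 a ha), by rwa [h1]⟩
    exact ⟨⟨φ, h1⟩, fun a ha => (h1 a).symm.trans (h4 a ha), by rwa [← h1]⟩
  · rintro ⟨⟨φ, h1⟩, h2, h3⟩
    obtain ⟨h4, h5⟩ := (h C φ).mpr ⟨fun a ha => (h1 a).trans (h2 a ha), by rwa [h1]⟩
    exact ⟨⟨φ, h1⟩, fun a ha => (h1 a).symm.trans (h4 a ha), by rwa [← h1]⟩

lemma hs_clo (I : Ideal A) (f g : A) (C : Type) [CommRing C] [Algebra R C] (p : A → C) :
    ((hs R I f).clo (crd g)).pts C p ↔ (hs R (I ⊔ Ideal.span {g}) f).pts C p := by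
  constructor
  · rintro ⟨⟨⟨φ, h1⟩, h2, h3⟩, h4⟩
    refine ⟨⟨φ, h1⟩, fun a ha => ?_, h3⟩
    have h5 : I ⊔ Ideal.span {g} ≤ RingHom.ker φ := by
      rw [sup_le_iff, Ideal.span_le, Set.singleton_subset_iff]
      exact ⟨fun b hb => (h1 b).trans (h2 b hb), (h1 g).trans h4⟩
    exact (h1 a).symm.trans (h5 ha)
  · rintro ⟨⟨φ, h1⟩, h2, h3⟩
    exact ⟨⟨⟨φ, h1⟩, fun a ha => h2 a (Ideal.mem_sup_left ha), h3⟩,
      h2 g (Ideal.mem_sup_right (Ideal.mem_span_singleton_self g))⟩

lemma hs_opn (I : Ideal A) (f g : A) (C : Type) [CommRing C] [Algebra R C] (p : A → C) :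
    ((hs R I f).opn (crd g)).pts C p ↔ (hs R I (f * g)).pts C p := by
  constructor
  · rintro ⟨⟨⟨φ, h1⟩, h2, h3⟩, h4⟩
    refine ⟨⟨φ, h1⟩, h2, ?_⟩
    rw [← h1, map_mul, h1, h1]
    exact h3.mul h4
  · rintro ⟨⟨φ, h1⟩, h2, h3⟩
    rw [← h1, map_mul, h1, h1] at h3
    exact ⟨⟨⟨φ, h1⟩, h2, isUnit_of_mul_isUnit_left h3⟩, isUnit_of_mul_isUnit_right h3⟩

variable {sep : Prop} {P : Sch R → Prop}

/-- Noetherian induction. -/
theorem hol_hs [IsNoetherianRing R] [Algebra.FiniteType R A] (hP : Glue sep P)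
    (h0 : Hol P (hs R (⊤ : Ideal A) 1))
    (key : ∀ (I : Ideal A), I.IsPrime → ∀ f ∉ I, ∃ g ∉ I, Hol P (hs R I (f * g))) (I : Ideal A) (f : A) :
    Hol P (hs R I f) := by
  have : IsNoetherianRing A := Algebra.FiniteType.isNoetherianRing R A
  have hempty : ∀ (I : Ideal A) (f : A), f ∈ I → Hol P (hs R I f) := by
    intro I f hf
    refine Hol.congr (hs_ext fun C _ _ φ => ?_) h0
    constructor
    · rintro ⟨h1, -⟩
      have h2 : (1 : C) = 0 := by
        rw [← map_one φ]
        exact h1 1 trivial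
      have h3 : ∀ x : C, x = 0 := fun x => by rw [← one_mul x, h2, zero_mul]
      refine ⟨fun a _ => h3 _, ?_⟩
      rw [h3 (φ f), ← h2]
      exact isUnit_one
    · rintro ⟨h1, h2⟩
      rw [h1 f hf] at h2
      have h3 : (1 : C) = 0 := (isUnit_zero_iff.mp h2).symm
      have h4 : ∀ x : C, x = 0 := fun x => by rw [← one_mul x, h3, zero_mul]
      exact ⟨fun a _ => h4 _, by rw [map_one]; exact isUnit_one⟩
  have step : ∀ I : Ideal A, (∀ J : Ideal A, I < J → ∀ f, Hol P (hs R J f)) → ∀ f, Hol P (hs R I f) := by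
    intro I ih f
    by_cases hf : f ∈ I
    · exact hempty I f hf
    by_cases hI : I.IsPrime
    · obtain ⟨g, hg, h1⟩ := key I hI f hf
      refine tot hP (crd g) (repr_hs I f) ?_ ?_
      · refine Hol.congr (fun C _ _ p => (hs_clo I f g C p).symm) (ih _ ?_ f)
        exact left_lt_sup.mpr fun h => hg (h (Ideal.mem_span_singleton_self g))
      · exact Hol.congr (fun C _ _ p => (hs_opn I f g C p).symm) h1
    · have h2 : ∃ a b : A, a ∉ I ∧ b ∉ I ∧ a * b ∈ I := by
        by_contra h3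
        push Not at h3
        refine hI ⟨fun h => hf (h ▸ trivial), fun {a b} hab => ?_⟩
        by_contra h4
        rw [not_or] at h4
        exact h3 a b h4.1 h4.2 hab
      obtain ⟨a, b, ha, hb, hab⟩ := h2
      refine tot hP (crd a) (repr_hs I f) ?_ ?_
      · refine Hol.congr (fun C _ _ p => (hs_clo I f a C p).symm) (ih _ ?_ f)
        exact left_lt_sup.mpr fun h => ha (h (Ideal.mem_span_singleton_self a))
      · refine Hol.congr (fun C _ _ p => ?_) (ih (I ⊔ Ideal.span {b}) (left_lt_sup.mpr fun h =>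
          hb (h (Ideal.mem_span_singleton_self b))) (f * a))
        · rw [hs_opn I f a C p]
          refine hs_ext (fun C _ _ φ => ?_) C p
          refine Iff.symm ?_
          constructor
          · rintro ⟨h3, h4⟩
            refine ⟨fun c hc => ?_, h4⟩
            rw [map_mul] at h4
            have h5 := isUnit_of_mul_isUnit_right h4
            have h6 : φ b = 0 := by
              have h7 := h3 _ hab
              rw [map_mul] at h7
              exact (h5.mul_right_eq_zero).mp h7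
            have h8 : I ⊔ Ideal.span {b} ≤ RingHom.ker φ := by
              rw [sup_le_iff, Ideal.span_le, Set.singleton_subset_iff]
              exact ⟨fun b hb => h3 b hb, h6⟩
            exact h8 hc
          · rintro ⟨h3, h4⟩
            exact ⟨fun c hc => h3 c (Ideal.mem_sup_left hc), h4⟩
  exact IsNoetherian.induction (P := fun I : Ideal A => ∀ f, Hol P (hs R I f)) step I f

end hs

end Pool.Agent.H68.RT
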