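import Pool.Agent.H81.RZ.Pre
import Pool.Agent.H68.RT.Defs

/-!
# Properties closed under gluing a closed and an open part
-/

set_option autoImplicit false
set_option linter.unusedSectionVars false

open CategoryTheory AlgebraicGeometry MvPolynomial Pool.Agent.Y116.UV Pool.Agent.Q193.LT
  Pool.Agent.Q282.UK Pool.Agent.H81.RZ

namespace Pool.Agent.H68.RT

variable {R : Type} [CommRing R] {sep : Prop} {P : Sch R → Prop}

theorem glue_of_clo (hP : Clo sep P) : Glue sep P := ⟨hP.iso, hP.total⟩

section

variable (hP : Glue sep P)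

include hP

lemma glue_alg {A B : Type} [CommRing A] [CommRing B] [Algebra R A] [Algebra R B]
    [Algebra.FiniteType R A] (e : A ≃ₐ[R] B) (h : P (aff R A)) : P (aff R B) :=
  hP.iso (ft_aff sep) ⟨(affIso e).symm⟩ h

variable {σ : Type} {S : Pts R σ}

lemma of_rep (h : Hol P S) {B : Type} [CommRing B] [Algebra R B] {b : σ → B}
    (hB : Rep S B b) : P (aff R B) := by
  obtain ⟨A, i1, i2, i3, a, h1, h2⟩ := h
  obtain ⟨e⟩ := h1.iso hB
  exact glue_alg hP e h2

lemma tot (e : Fn S) (hS : Repr S) (hc : Hol P (S.clo e)) (ho : Hol P (S.opn e)) : Hol P S := by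
  obtain ⟨A, i1, i2, i3, a, h1, -⟩ := hS
  exact ⟨A, i1, i2, i3, a, h1, hP.total _ _ (ft_aff sep) (triple_away (e.val A a))
    (of_rep hP hc (h1.clo e)) (of_rep hP ho (h1.opn e))⟩

end

section strata

variable {V : Type}

/-- a coordinate -/
def crd {S : Pts R V} (t : V) : Fn S where
  val _ _ _ p := p t
  nat _ _ _ := rfl

/-- the coordinates in `T` are invertible or zero, according to `σ` -/
def cutp (S : Pts R V) (T : Set V) (σ : V → Bool) : Pts R V where
  pts C _ _ p := S.pts C p ∧ ∀ t ∈ T, (σ t = true → IsUnit (p t)) ∧ (σ t = false → p t = 0)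
  map {C D} _ _ _ _ f p h := ⟨S.map f h.1, fun t ht => ⟨fun h1 => ((h.2 t ht).1 h1).map f,
    fun h1 => (congrArg f ((h.2 t ht).2 h1)).trans (map_zero f)⟩⟩

variable [DecidableEq V]

lemma cutp_insert_true (S : Pts R V) (T : Finset V) (σ : V → Bool) (t : V) (ht : t ∉ T) (C : Type)
    [CommRing C] [Algebra R C] (p : V → C) :
    (cutp S (insert t T : Finset V) (Function.update σ t true)).pts C p ↔
      ((cutp S (T : Set V) σ).opn (crd t)).pts C p := by
  constructor
  · rintro ⟨h1, h2⟩
    refine ⟨⟨h1, fun s hs => ?_⟩, ?_⟩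
    · have h3 : s ≠ t := by
        rintro rfl
        exact ht hs
      have h4 := h2 s (by simp [Finset.mem_coe.mp hs])
      rwa [Function.update_of_ne h3] at h4
    · have h4 := (h2 t (by simp)).1
      rw [Function.update_self] at h4
      exact h4 rfl
  · rintro ⟨⟨h1, h2⟩, h3⟩
    refine ⟨h1, fun s hs => ?_⟩
    by_cases h4 : s = t
    · subst h4
      rw [Function.update_self]
      exact ⟨fun _ => h3, fun h => absurd h (by simp)⟩
    · rw [Function.update_of_ne h4]
      refine h2 s ?_
      rw [Finset.coe_insert] at hs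
      exact hs.resolve_left h4

lemma cutp_insert_false (S : Pts R V) (T : Finset V) (σ : V → Bool) (t : V) (ht : t ∉ T) (C : Type)
    [CommRing C] [Algebra R C] (p : V → C) :
    (cutp S (insert t T : Finset V) (Function.update σ t false)).pts C p ↔
      ((cutp S (T : Set V) σ).clo (crd t)).pts C p := by
  constructor
  · rintro ⟨h1, h2⟩
    refine ⟨⟨h1, fun s hs => ?_⟩, ?_⟩
    · have h3 : s ≠ t := by
        rintro rfl
        exact ht hs
      have h4 := h2 s (by simp [Finset.mem_coe.mp hs])
      rwa [Function.update_of_ne h3] at h4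
    · have h4 := (h2 t (by simp)).2
      rw [Function.update_self] at h4
      exact h4 rfl
  · rintro ⟨⟨h1, h2⟩, h3⟩
    refine ⟨h1, fun s hs => ?_⟩
    by_cases h4 : s = t
    · subst h4
      rw [Function.update_self]
      exact ⟨fun h => absurd h (by simp), fun _ => h3⟩
    · rw [Function.update_of_ne h4]
      refine h2 s ?_
      rw [Finset.coe_insert] at hs
      exact hs.resolve_left h4

lemma repr_cutp {S : Pts R V} (hS : Repr S) (T : Finset V) (σ : V → Bool) :
    Repr (cutp S (T : Set V) σ) := by
  induction T using Finset.induction_on generalizing σ with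
  | empty =>
    refine Hol.congr (fun C _ _ p => ?_) hS
    exact ⟨fun h => ⟨h, fun t ht => absurd ht (by simp)⟩, fun h => h.1⟩
  | insert t T ht ih =>
    rcases h : σ t with _ | _
    · have h1 : σ = Function.update σ t false := by rw [← h, Function.update_eq_self]
      rw [h1]
      exact Hol.congr (fun C _ _ p => (cutp_insert_false S T σ t ht C p).symm) ((ih σ).clo (crd t))
    · have h1 : σ = Function.update σ t true := by rw [← h, Function.update_eq_self]
      rw [h1]
      exact Hol.congr (fun C _ _ p => (cutp_insert_true S T σ t ht C p).symm) ((ih σ).opn (crd t))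

/-- from the strata on which each coordinate is invertible or zero to the whole -/
lemma hol_of_cutp (hP : Glue sep P) [Fintype V] {S : Pts R V} (hS : Repr S)
    (h : ∀ σ : V → Bool, Hol P (cutp S Set.univ σ)) : Hol P S := by
  have key : ∀ T : Finset V, (∀ σ, Hol P (cutp S (T : Set V) σ)) → Hol P S := by
    intro T
    induction T using Finset.induction_on with
    | empty =>
      intro h1
      refine Hol.congr (fun C _ _ p => ?_) (h1 fun _ => true)
      exact ⟨fun h => h.1, fun h => ⟨h, fun t ht => absurd ht (by simp)⟩⟩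
    | insert t T ht ih =>
      intro h1
      refine ih fun σ => tot hP (crd t) (repr_cutp hS T σ) ?_ ?_
      · exact Hol.congr (cutp_insert_false S T σ t ht) (h1 _)
      · exact Hol.congr (cutp_insert_true S T σ t ht) (h1 _)
  refine key Finset.univ fun σ => ?_
  rw [Finset.coe_univ]
  exact h σ

end strata

section slp

variable {V E : Type}

open Classical in
/-- the equations of a system -/
noncomputable def slpEqs (R : Type) [CommRing R] (Y : Sys V E) : Set (MvPolynomial V R) :=
  {g | g = X Y.o + 1} ∪ {g | ∃ e, g = (if Y.k e then X (Y.a e) + X (Y.b e) else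
    X (Y.a e) * X (Y.b e)) - X (Y.c e)}

lemma repr_slp [Finite V] (Y : Sys V E) : Repr (slp R Y) := by
  refine Hol.congr (fun C _ _ p => ?_)
    ⟨_, inferInstance, inferInstance, inferInstance, _, rep_zer (slpEqs R Y), trivial⟩
  constructor
  · intro h
    refine ⟨?_, fun e => ?_⟩
    · have h1 := h _ (Or.inl rfl)
      rw [map_add, aeval_X, map_one] at h1
      exact eq_neg_of_add_eq_zero_left h1
    · have h1 := h _ (Or.inr ⟨e, rfl⟩)
      rw [map_sub, aeval_X, sub_eq_zero] at h1
      rw [← h1]
      split_ifs
      · rw [map_add, aeval_X, aeval_X]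
      · rw [map_mul, aeval_X, aeval_X]
  · rintro ⟨h1, h2⟩ g (rfl | ⟨e, rfl⟩)
    · rw [map_add, aeval_X, map_one, h1, neg_add_cancel]
    · rw [map_sub, aeval_X, sub_eq_zero, ← h2 e]
      split_ifs
      · rw [map_add, aeval_X, aeval_X]
      · rw [map_mul, aeval_X, aeval_X]

end slp

/-- Systems of additions and multiplications decide all affine schemes. -/
theorem affine_of_slp' [IsNoetherianRing R] (hR : Frac R) (hP : Glue sep P)
    (h : ∀ (V E : Type) [Fintype V] [Fintype E] [DecidableEq V] [DecidableEq E] (Y : Sys V E),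
      Hol P (slp R Y)) (A : Type) [CommRing A] [Algebra R A] [Algebra.FiniteType R A] :
    P (aff R A) := by
  obtain ⟨n, φ, G, hs, hk, hG⟩ := presents_frac hR A
  obtain ⟨t, M, D, w, hw⟩ := exists_gp G hG
  have h1 : P (aff R (MvPolynomial (Fin n) R ⧸ Ideal.span (Set.range (gp R w)))) :=
    of_rep hP ((h _ _ (gsys w)).trans (bij_gsys R w)) (rep_zer _)
  rw [hw, ← hk] at h1
  exact glue_alg hP (Ideal.quotientKerAlgEquivOfSurjective hs) h1

/-- Systems of additions and multiplications, each of whose variables is zero or invertible, decide all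
schemes of finite type. -/
theorem all_of_cutp [IsNoetherianRing R] (hR : Frac R) (hP : Glue sep P)
    (h : ∀ (V E : Type) [Fintype V] [Fintype E] [DecidableEq V] [DecidableEq E] (Y : Sys V E)
      (σ : V → Bool), Hol P (cutp (slp R Y) Set.univ σ)) (X : Sch R) (hX : FT sep X) : P X :=
  of_affine' hP.iso hP.total (fun A _ _ _ => affine_of_slp' hR hP
    (fun V E _ _ _ _ Y => hol_of_cutp hP (repr_slp Y) (h V E Y)) A) X hX

end Pool.Agent.H68.RT
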