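import Pool.Agent.H68.RT.Gen

/-!
# Good pieces
-/

set_option autoImplicit false
set_option linter.unusedSectionVars false
set_option linter.unusedVariables false

open CategoryTheory AlgebraicGeometry MvPolynomial Pool.Agent.Y116.UV Pool.Agent.Q193.LT
  Pool.Agent.Q282.UK Pool.Agent.H81.RZ

namespace Pool.Agent.H68.RT

variable {R : Type} [CommRing R]

/-- every algebra of finite type is given by a system of additions and multiplications -/
lemma exists_slp [IsNoetherianRing R] (hR : Frac R) (A : Type) [CommRing A] [Algebra R A]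
    [Algebra.FiniteType R A] : ∃ (V E : Type) (_ : Fintype V) (_ : Fintype E) (_ : DecidableEq V)
      (_ : DecidableEq E) (Y : Sys V E) (x : V → A), Rep (slp R Y) A x := by
  obtain ⟨n, φ, G, hs, hk, hG⟩ := presents_frac hR A
  obtain ⟨t, M, D, w, hw⟩ := exists_gp G hG
  have h1 := rep_zer (R := R) (Set.range (gp R w))
  rw [hw, ← hk] at h1
  have h2 := rep_equiv h1 (Ideal.quotientKerAlgEquivOfSurjective hs)
  rw [← hw] at h2
  exact ⟨_, _, inferInstance, inferInstance, inferInstance, inferInstance, gsys w, _,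
    h2.trans (bij_symm (bij_gsys R w))⟩

/-- A property of schemes which is invariant under isomorphisms, true for the empty scheme, and true
generically: for every integral domain `B` of finite type, it is true for all nonempty principal open
subschemes of some nonempty principal open subscheme of `Spec B`. -/
structure Generic (G : Sch R → Prop) : Prop where
  iso : ∀ {X Y : Sch R}, Nonempty (X ≅ Y) → G X → G Y
  zero : ∀ (A : Type) [CommRing A] [Algebra R A] [Subsingleton A], G (aff R A)
  gen : ∀ (B : Type) [CommRing B] [IsDomain B] [Algebra R B] [Algebra.FiniteType R B],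
    ∃ h : B, h ≠ 0 ∧ ∀ g : B, g ≠ 0 → G (aff R (Localization.Away (h * g)))

/-- The class `F` contains, up to isomorphisms, the solution schemes of all systems, all of whose
variables are zero or invertible as prescribed. -/
structure Family (sep : Prop) (F : Sch R → Prop) : Prop where
  ft : ∀ Y, F Y → FT sep Y
  sys : ∀ (V E : Type) [Fintype V] [Fintype E] [DecidableEq V] [DecidableEq E] (Y : Sys V E)
    (σ : V → Bool), Hol (fun X => ∃ X', F X' ∧ Nonempty (X' ≅ X)) (cutp (slp R Y) Set.univ σ)

variable {sep : Prop} {P F G K : Sch R → Prop}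

lemma family_rank_two : Family sep (IsRankTwo : Sch R → Prop) where
  ft := by
    rintro _ ⟨m, n, Z, N, rfl⟩
    exact ft_aff sep
  sys V E _ _ _ _ Y σ := by
    have h : OnRankTwo fun X : Sch R => ∃ X', IsRankTwo X' ∧ Nonempty (X' ≅ X) :=
      fun m n Z N => ⟨_, ⟨m, n, Z, N, rfl⟩, ⟨Iso.refl _⟩⟩
    exact (hol_cp h _ _).trans (bij_mt Y σ R)

lemma family_lines : Family sep (IsLines : Sch R → Prop) where
  ft := by
    rintro _ ⟨n, Z, N, rfl⟩
    exact ft_aff sep
  sys V E _ _ _ _ Y σ := by
    have h : OnLines fun X : Sch R => ∃ X', IsLines X' ∧ Nonempty (X' ≅ X) :=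
      fun n Z N => ⟨_, ⟨n, Z, N, rfl⟩, ⟨Iso.refl _⟩⟩
    refine (hol_lines h Ro.D Co.D ?_ ?_ ?_).trans (bij_mt Y σ R)
    · simp
    · intro a b hab
      exact hab
    · intro a
      exact rfl

lemma IsFamily.family (h : IsFamily F) : Family sep F := by
  rcases h with rfl | rfl
  · exact family_rank_two
  · exact family_lines

/-- a good algebra, given by a system all of whose variables are zero or invertible -/
lemma hol_of_good (hP : Glue sep P) (hF : Family sep F) (hG : Generic G)
    (h : ∀ Y, F Y → G Y → P Y) {L : Type} [CommRing L] [Algebra R L] [Algebra.FiniteType R L]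
    (hL : G (aff R L)) {V E : Type} [Fintype V] [Fintype E] [DecidableEq V] [DecidableEq E]
    {Y : Sys V E} {σ : V → Bool} {x : V → L} (hx : Rep (cutp (slp R Y) Set.univ σ) L x) :
    P (aff R L) := by
  obtain ⟨A, i1, i2, i3, a, h1, X', h2, ⟨e⟩⟩ := hF.sys V E Y σ
  obtain ⟨e'⟩ := h1.iso hx
  have h3 : Nonempty (X' ≅ aff R L) := ⟨e ≪≫ (affIso e').symm⟩
  refine hP.iso (hF.ft X' h2) h3 (h X' h2 (hG.iso ⟨h3.some.symm⟩ hL))

section key

variable {A : Type} [CommRing A] [Algebra R A]

open Classical in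
/-- a localization on which all variables are zero or invertible -/
lemma exists_cutp {I : Ideal A} {f c : A} {B L : Type} [CommRing B] [Algebra R B] [CommRing L]
    [Algebra R L] {b : A → B} {l : A → L} (hB : Rep (hs R I f) B b) (hL : Rep (hs R I (f * c)) L l)
    {V E : Type} [Fintype V] {Y : Sys V E} {x : V → B} (hx : Rep (slp R Y) B x) {n : ℕ}
    (hc : (∏ t ∈ Finset.univ.filter (fun t => x t ≠ 0), x t) * b f ^ n = b c) :
    ∃ x' : V → L, Rep (cutp (slp R Y) Set.univ fun t => decide (x t ≠ 0)) L x' := by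
  obtain ⟨⟨φL, hφL⟩, hL0, hLu⟩ := hL.mem
  obtain ⟨⟨φB, hφB⟩, hB0, hBu⟩ := hB.mem
  have hLu' : IsUnit (l f) ∧ IsUnit (l c) := by
    rw [← hφL, map_mul, hφL, hφL] at hLu
    exact ⟨isUnit_of_mul_isUnit_left hLu, isUnit_of_mul_isUnit_right hLu⟩
  obtain ⟨α, hα⟩ := hB.ex L l ⟨⟨φL, hφL⟩, hL0, hLu'.1⟩
  have hαu : IsUnit (α (∏ t ∈ Finset.univ.filter (fun t => x t ≠ 0), x t)) := by
    have h1 := congrArg α hc
    rw [map_mul, hα c] at h1
    have h2 := hLu'.2
    rw [← h1] at h2
    exact isUnit_of_mul_isUnit_left h2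
  refine ⟨fun t => α (x t), ⟨(slp R Y).map α hx.mem, fun t _ => ⟨fun ht => ?_, fun ht => ?_⟩⟩, ?_, ?_⟩
  · have h1 : x t ≠ 0 := of_decide_eq_true ht
    have h2 : t ∈ Finset.univ.filter (fun t => x t ≠ 0) :=
      Finset.mem_filter.mpr ⟨Finset.mem_univ t, h1⟩
    obtain ⟨v, hv⟩ := Finset.dvd_prod_of_mem x h2
    rw [hv, map_mul] at hαu
    exact isUnit_of_mul_isUnit_left hαu
  · have h1 : x t = 0 := by
      by_contra h2
      have h3 : decide (x t ≠ 0) = true := decide_eq_true h2
      have h4 : decide (x t ≠ 0) = false := ht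
      rw [h4] at h3
      exact absurd h3 (by simp)
    change α (x t) = 0
    rw [h1, map_zero]
  · intro C _ _ p hp
    obtain ⟨φ, hφ⟩ := hx.ex C p hp.1
    have h1 : IsUnit (φ (∏ t ∈ Finset.univ.filter (fun t => x t ≠ 0), x t)) := by
      rw [map_prod]
      have h2 : IsUnit (∏ t ∈ Finset.univ.filter (fun t => x t ≠ 0), φ (x t)) ↔
          ∀ t ∈ Finset.univ.filter (fun t => x t ≠ 0), IsUnit (φ (x t)) := IsUnit.prod_iff
      rw [h2]
      intro t ht
      rw [hφ]
      exact (hp.2 t trivial).1 (decide_eq_true (Finset.mem_filter.mp ht).2)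
    have h2 : IsUnit (φ (b c)) := by
      rw [← hc, map_mul, map_pow]
      exact h1.mul ((hBu.map φ).pow n)
    obtain ⟨ψ, hψ⟩ := hL.ex C (fun a => φ (b a)) (by
      refine ⟨⟨φ.comp φB, fun a => congrArg φ (hφB a)⟩, fun a ha => ?_, ?_⟩
      · exact (congrArg φ (hB0 a ha)).trans (map_zero φ)
      · change IsUnit (φ (b (f * c)))
        rw [← hφB, map_mul, hφB, hφB, map_mul]
        exact (hBu.map φ).mul h2)
    refine ⟨ψ, fun t => ?_⟩
    have h3 : ψ.comp α = φ := by
      apply hB.uniq
      intro a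
      rw [AlgHom.comp_apply, hα, hψ]
    rw [← hφ t, ← h3]
    rfl
  · intro C _ _ g1 g2 hg
    have h1 : g1.comp α = g2.comp α := hx.uniq C _ _ hg
    apply hL.uniq
    intro a
    have h2 := congrArg (fun k : B →ₐ[R] C => k (b a)) h1
    change g1 (α _) = g2 (α _) at h2
    rwa [hα] at h2

variable [Algebra.FiniteType R A]

/-- the key step of the noetherian induction -/
lemma good_key [IsNoetherianRing R] (hR : Frac R) (hP : Glue sep P) (hF : Family sep F)
    (hG : Generic G) (h : ∀ Y, F Y → G Y → P Y) (I : Ideal A) (hI : I.IsPrime) (f : A) (hf : f ∉ I) :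
    ∃ g ∉ I, Hol P (hs R I (f * g)) := by
  classical
  obtain ⟨h0, hh0, hgen⟩ := hG.gen (A ⧸ I)
  obtain ⟨h', rfl⟩ := Ideal.Quotient.mk_surjective h0
  have hh' : h' ∉ I := fun h1 => hh0 (Ideal.Quotient.eq_zero_iff_mem.mpr h1)
  have hhf : h' * f ∉ I := fun h1 => (hI.mem_or_mem h1).elim hh' hf
  obtain ⟨w, hw⟩ : ∃ w : A ⧸ I, w = Ideal.Quotient.mk I (h' * f) := ⟨_, rfl⟩
  have hw0 : w ≠ 0 := by
    rw [hw]
    exact fun h1 => hhf (Ideal.Quotient.eq_zero_iff_mem.mp h1)
  have hle : Submonoid.powers w ≤ nonZeroDivisors (A ⧸ I) :=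
    powers_le_nonZeroDivisors_of_noZeroDivisors hw0
  have hdom : IsDomain (Localization.Away w) := IsLocalization.isDomain_localization hle
  have hft : Algebra.FiniteType R (Localization.Away w) :=
    Algebra.FiniteType.trans (S := A ⧸ I) inferInstance inferInstance
  obtain ⟨V, E, _, _, _, _, Y, x, hx⟩ := exists_slp hR (Localization.Away w)
  have hu : (∏ t ∈ Finset.univ.filter (fun t => x t ≠ 0), x t) ≠ 0 :=
    Finset.prod_ne_zero_iff.mpr fun t ht => (Finset.mem_filter.mp ht).2
  obtain ⟨n, c, hc⟩ := IsLocalization.Away.surj (S := Localization.Away w) w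
    (∏ t ∈ Finset.univ.filter (fun t => x t ≠ 0), x t)
  obtain ⟨c', rfl⟩ := Ideal.Quotient.mk_surjective c
  have hwu : IsUnit (algebraMap (A ⧸ I) (Localization.Away w) w) :=
    IsLocalization.map_units (M := Submonoid.powers w) _ ⟨_, Submonoid.mem_powers _⟩
  have hc' : c' ∉ I := by
    intro h1
    rw [Ideal.Quotient.eq_zero_iff_mem.mpr h1, map_zero] at hc
    exact mul_ne_zero hu (pow_ne_zero n hwu.ne_zero) hc
  refine ⟨h' * c', fun h1 => (hI.mem_or_mem h1).elim hh' hc', ?_⟩
  have hfc : f * c' ∉ I := fun h1 => (hI.mem_or_mem h1).elim hf hc'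
  have hGL := hgen (Ideal.Quotient.mk I (f * c')) fun h1 => hfc (Ideal.Quotient.eq_zero_iff_mem.mp h1)
  rw [← map_mul] at hGL
  have hLft : Algebra.FiniteType R (Localization.Away (Ideal.Quotient.mk I (h' * (f * c')))) :=
    Algebra.FiniteType.trans (S := A ⧸ I) inferInstance inferInstance
  have hL := rep_hs (R := R) I (h' * (f * c'))
  have hL' := rep_congr (hs_ext (R := R) (I := I) (J := I) (f := h' * (f * c'))
    (g := (h' * f) * c') fun C _ _ φ => by rw [mul_assoc]) hL
  subst hw
  obtain ⟨x', hx'⟩ := exists_cutp (rep_hs (R := R) I (h' * f)) hL' hx hc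
  refine Hol.congr (hs_ext fun C _ _ φ => ?_) ⟨_, inferInstance, inferInstance, hLft, _, hL,
    hol_of_good hP hF hG h hGL hx'⟩
  have h1 : h' * (f * c') = f * (h' * c') := by ring
  rw [h1]

end key

/-- Every property closed under gluing which is true for the good members of the family is true for all
schemes of finite type. -/
theorem all_of_good [IsNoetherianRing R] (hR : Frac R) (hP : Glue sep P) (hF : Family sep F)
    (hG : Generic G) (h : ∀ Y, F Y → G Y → P Y) (X : Sch R) (hX : FT sep X) : P X := by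
  refine of_affine' hP.iso hP.total (fun A _ _ _ => ?_) X hX
  have h0 : Hol P (hs R (⊤ : Ideal A) 1) := by
    obtain ⟨L, i1, i2, hLft, l, hL, -⟩ := repr_hs (R := R) (⊤ : Ideal A) 1
    have hs0 : Subsingleton L := by
      obtain ⟨⟨φ, h1⟩, h2, -⟩ := hL.mem
      have h3 : (1 : L) = 0 := by
        rw [← map_one φ, h1]
        exact h2 1 trivial
      exact subsingleton_of_zero_eq_one h3.symm
    obtain ⟨V, E, _, _, _, _, Y, x, hx⟩ := exists_slp hR L
    have hrep : Rep (cutp (slp R Y) Set.univ fun _ => true) L x := by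
      refine ⟨⟨hx.mem, fun t _ => ⟨fun _ => ?_, fun h => absurd h (by simp)⟩⟩,
        fun C _ _ p hp => hx.ex C p hp.1, hx.uniq⟩
      exact isUnit_of_subsingleton _
    exact ⟨L, i1, i2, hLft, _, hL, hol_of_good hP hF hG h (hG.zero L) hrep⟩
  have h1 : Hol P (hs R (⊥ : Ideal A) 1) := hol_hs hP h0 (fun I hI f hf =>
    good_key hR hP hF hG h I hI f hf) ⊥ 1
  refine of_rep hP h1 (b := fun a : A => a) ⟨⟨⟨AlgHom.id R A, fun a => rfl⟩, fun a ha => ha, isUnit_one⟩,
    fun C _ _ p hp => hp.1, fun C _ _ f g hfg => AlgHom.ext hfg⟩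

/-- The property `P` for the schemes in the class `K` and for the good members of the family in the
class `K`. -/
theorem good_iff [IsNoetherianRing R] (hR : Frac R) (hP : Glue sep P) (hK : Her K)
    (hF : Family sep F) (hG : Generic G) : (∀ X, FT sep X → K X → P X) ↔
      ∀ Y, F Y → G Y → K Y → P Y :=
  ⟨fun h Y hY _ => h Y (hF.ft Y hY), fun h X hX => all_of_good hR (glue_her hP hK) hF hG h X hX⟩

/-- **Every scheme of finite type is partitioned into finitely many locally closed subschemes, which are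
isomorphic to good members of the family.** -/
theorem partition_good [IsNoetherianRing R] (hR : Frac R) (hF : Family sep F) (hG : Generic G)
    (X : Sch R) (hX : FT sep X) : Partition sep (fun Y => F Y ∧ G Y) X :=
  partition_of_part (all_of_good hR glue_part hF hG (fun Y h1 h2 => part_self ⟨h1, h2⟩) X hX)

end Pool.Agent.H68.RT
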