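import Pool.Agent.H68.RT.Glue

/-!
# Configurations of vectors in the plane

A property of schemes which is closed under closed-open decompositions and products with the affine
line, and true for the base, is true for the schemes of configurations of vectors in the plane, whose
determinants are zero or invertible.
-/

set_option autoImplicit false
set_option linter.unusedSectionVars false
set_option linter.unusedVariables false

open CategoryTheory AlgebraicGeometry MvPolynomial Pool.Agent.Y116.UV Pool.Agent.Q193.LT
  Pool.Agent.Q282.UK Pool.Agent.H81.RZ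

namespace Pool.Agent.H68.RT

/-- Closure properties for affine schemes: isomorphisms, two of three for `Spec A/f`, `Spec A`,
`Spec A_f`, the product with the affine line, the base. -/
structure ALin {R : Type} [CommRing R] (P : Sch R → Prop) : Prop where
  iso : ∀ {A B : Type} [CommRing A] [CommRing B] [Algebra R A] [Algebra R B] [Algebra.FiniteType R A],
    (A ≃ₐ[R] B) → P (aff R A) → P (aff R B)
  total : ∀ (A : Type) [CommRing A] [Algebra R A] [Algebra.FiniteType R A] (f : A),
    P (aff R (A ⧸ Ideal.span {f})) → P (aff R (Localization.Away f)) → P (aff R A)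
  opened : ∀ (A : Type) [CommRing A] [Algebra R A] [Algebra.FiniteType R A] (f : A),
    P (aff R (A ⧸ Ideal.span {f})) → P (aff R A) → P (aff R (Localization.Away f))
  line : ∀ (A : Type) [CommRing A] [Algebra R A] [Algebra.FiniteType R A],
    P (aff R A) → P (aff R (Polynomial A))
  point : P (aff R R)

variable {R : Type} [CommRing R] {sep : Prop} {P : Sch R → Prop}

section alin

variable (hP : ALin P) {σ : Type} {S : Pts R σ}

include hP

lemma aof_rep (h : Hol P S) {B : Type} [CommRing B] [Algebra R B] {b : σ → B}
    (hB : Rep S B b) : P (aff R B) := by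
  obtain ⟨A, i1, i2, i3, a, h1, h2⟩ := h
  obtain ⟨e⟩ := h1.iso hB
  exact hP.iso e h2

lemma atot (e : Fn S) (hS : Repr S) (hc : Hol P (S.clo e)) (ho : Hol P (S.opn e)) : Hol P S := by
  obtain ⟨A, i1, i2, i3, a, h1, -⟩ := hS
  exact ⟨A, i1, i2, i3, a, h1, hP.total A (e.val A a)
    (aof_rep hP hc (h1.clo e)) (aof_rep hP ho (h1.opn e))⟩

/-- from the strata on which each coordinate is invertible or zero to the whole -/
lemma ahol_of_cutp {V : Type} [DecidableEq V] [Fintype V] {S : Pts R V} (hS : Repr S)
    (h : ∀ σ : V → Bool, Hol P (cutp S Set.univ σ)) : Hol P S := by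
  have key : ∀ T : Finset V, (∀ σ, Hol P (cutp S (T : Set V) σ)) → Hol P S := by
    intro T
    induction T using Finset.induction_on with
    | empty =>
      intro h1
      refine Hol.congr (fun C _ _ p => ?_) (h1 fun _ => true)
      exact ⟨fun h => h.1, fun h => ⟨h, fun t ht => absurd ht (by simp)⟩⟩
    | insert t T ht ih =>
      intro h1
      refine ih fun σ => atot hP (crd t) (repr_cutp hS T σ) ?_ ?_
      · exact Hol.congr (cutp_insert_false S T σ t ht) (h1 _)
      · exact Hol.congr (cutp_insert_true S T σ t ht) (h1 _)
  refine key Finset.univ fun σ => ?_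
  rw [Finset.coe_univ]
  exact h σ

end alin

/-- the product with the affine line -/
def ln {σ : Type} (S : Pts R σ) : Pts R (Option σ) where
  pts C _ _ p := S.pts C fun s => p (some s)
  map f _ h := S.map f h

lemma rep_ln {σ : Type} {S : Pts R σ} {A : Type} [CommRing A] [Algebra R A] {a : σ → A}
    (h : Rep S A a) : Rep (ln S) (Polynomial A)
      (fun t => t.elim Polynomial.X fun s => Polynomial.C (a s)) where
  mem := S.map (IsScalarTower.toAlgHom R A (Polynomial A)) h.mem
  ex B _ _ p hp := by
    obtain ⟨f, hf⟩ := h.ex B _ hp
    have hc : ∀ r : R, Polynomial.eval₂ (f : A →+* B) (p none) (algebraMap R (Polynomial A) r) =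
        algebraMap R B r := by
      intro r
      rw [IsScalarTower.algebraMap_apply R A (Polynomial A), ← Polynomial.C_eq_algebraMap,
        Polynomial.eval₂_C]
      exact f.commutes r
    refine ⟨{ Polynomial.eval₂RingHom (f : A →+* B) (p none) with commutes' := hc }, ?_⟩
    rintro (_ | s)
    · exact Polynomial.eval₂_X _ _
    · exact (Polynomial.eval₂_C _ _).trans (hf s)
  uniq B _ _ f g hfg := by
    have h1 : f.comp (IsScalarTower.toAlgHom R A (Polynomial A)) =
        g.comp (IsScalarTower.toAlgHom R A (Polynomial A)) := by
      apply h.uniq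
      intro s
      exact hfg (some s)
    have h2 : (f : Polynomial A →+* B) = g := by
      apply Polynomial.ringHom_ext
      · intro x
        exact congrArg (fun k : A →ₐ[R] B => k x) h1
      · exact hfg none
    apply AlgHom.ext
    intro x
    exact congrArg (fun k : Polynomial A →+* B => k x) h2

section basic

variable (hP : ALin P) {σ : Type} {S : Pts R σ}

include hP

lemma hol_opn (e : Fn S) (h : Hol P S) (hc : Hol P (S.clo e)) : Hol P (S.opn e) := by
  obtain ⟨A, i1, i2, i3, a, h1, h2⟩ := h
  have h3 : P (aff R (A ⧸ Ideal.span {e.val A a})) := aof_rep hP hc (h1.clo e)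
  have h4 : Algebra.FiniteType R (Localization.Away (e.val A a)) :=
    Algebra.FiniteType.trans (S := A) inferInstance inferInstance
  exact ⟨_, inferInstance, inferInstance, h4, _, h1.opn e, hP.opened A (e.val A a) h3 h2⟩

lemma hol_line (h : Hol P S) : Hol P (ln S) := by
  obtain ⟨A, i1, i2, i3, a, h1, h2⟩ := h
  exact ⟨_, inferInstance, inferInstance, Algebra.FiniteType.trans (S := A) inferInstance
    inferInstance, _, rep_ln h1, hP.line A h2⟩

/-- the product with the multiplicative group -/
lemma hol_gm (h : Hol P S) : Hol P S.gm := by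
  let e : Fn (ln S) := ⟨fun _ _ _ p => p none, fun _ _ _ => rfl⟩
  have h1 : Hol P ((ln S).clo e) := by
    refine h.trans (F := fun _ _ _ p t => t.elim 0 p) (G := fun _ _ _ p s => p (some s)) ?_
    exact
      { natF := fun f p _ t => by
          rcases t with _ | s
          · exact map_zero f
          · rfl
        natG := fun f p _ s => rfl
        memF := fun C _ _ p hp => ⟨hp, rfl⟩
        memG := fun C _ _ p hp => hp.1
        GF := fun C _ _ p _ => rfl
        FG := fun C _ _ p hp => by
          funext t
          rcases t with _ | s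
          · exact hp.2.symm
          · rfl }
  exact Hol.congr (fun C _ _ p => Iff.rfl) (hol_opn hP e (hol_line hP h) h1)

/-- one point -/
lemma hol_point (c : σ → R) (h : ∀ (C : Type) [CommRing C] [Algebra R C] (p : σ → C), S.pts C p ↔
    ∀ s, p s = algebraMap R C (c s)) : Hol P S := by
  refine ⟨R, inferInstance, inferInstance, inferInstance, c, ⟨(h R c).mpr fun s => rfl, ?_, ?_⟩,
    hP.point⟩
  · intro C _ _ p hp
    exact ⟨Algebra.ofId R C, fun s => ((h C p).mp hp s).symm⟩
  · intro C _ _ f g _
    exact Subsingleton.elim f g

/-- no point -/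
lemma hol_empty (hS : Repr S) (h : ∀ (C : Type) [CommRing C] [Algebra R C] (p : σ → C), S.pts C p →
    Subsingleton C) : Hol P S := by
  obtain ⟨A, i1, i2, i3, a, h1, -⟩ := hS
  have h2 : Subsingleton A := h A a h1.mem
  refine ⟨A, i1, i2, i3, a, h1, ?_⟩
  have h3 : P (aff R (R ⧸ Ideal.span {(0 : R)})) := by
    have e : (R ⧸ (⊥ : Ideal R)) ≃ₐ[R] R := AlgEquiv.quotientBot R R
    have h4 : Ideal.span {(0 : R)} = ⊥ := Ideal.span_singleton_eq_bot.mpr rfl
    rw [h4]
    exact hP.iso e.symm hP.point
  have h4 : P (aff R (Localization.Away (0 : R))) := hP.opened R 0 h3 hP.point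
  have h5 : Subsingleton (Localization.Away (0 : R)) := by
    have h6 : IsUnit (algebraMap R (Localization.Away (0 : R)) 0) :=
      IsLocalization.map_units (M := Submonoid.powers (0 : R)) _ ⟨_, Submonoid.mem_powers _⟩
    rw [map_zero] at h6
    exact subsingleton_of_zero_eq_one (isUnit_zero_iff.mp h6)
  let f : Localization.Away (0 : R) ≃ₐ[R] A :=
    { toFun := fun _ => 0
      invFun := fun _ => 0
      left_inv := fun _ => Subsingleton.elim _ _
      right_inv := fun _ => Subsingleton.elim _ _
      map_mul' := fun _ _ => Subsingleton.elim _ _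
      map_add' := fun _ _ => Subsingleton.elim _ _
      commutes' := fun _ => Subsingleton.elim _ _ }
  have h6 : Algebra.FiniteType R (Localization.Away (0 : R)) :=
    Algebra.FiniteType.trans (S := R) inferInstance inferInstance
  exact hP.iso f h4

end basic

section strata

variable {σ E : Type} {S : Pts R σ} (e : E → Fn S)

/-- the functions in `T` are invertible or zero, according to `τ` -/
def cutf (T : Set E) (τ : E → Bool) : Pts R σ where
  pts C _ _ p := S.pts C p ∧ ∀ t ∈ T, (τ t = true → IsUnit ((e t).val C p)) ∧
    (τ t = false → (e t).val C p = 0)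
  map {C D} _ _ _ _ f p h := ⟨S.map f h.1, fun t ht => ⟨fun h1 => by
      have h2 := ((h.2 t ht).1 h1).map f
      rwa [(e t).nat f p h.1] at h2, fun h1 => by
      have h2 := (congrArg f ((h.2 t ht).2 h1)).trans (map_zero f)
      rwa [(e t).nat f p h.1] at h2⟩⟩

/-- a function on a stratum -/
def cfn (T : Set E) (τ : E → Bool) (t : E) : Fn (cutf e T τ) where
  val := (e t).val
  nat f p h := (e t).nat f p h.1

variable [DecidableEq E]

lemma cutf_insert_true (T : Finset E) (τ : E → Bool) (t : E) (ht : t ∉ T) (C : Type)
    [CommRing C] [Algebra R C] (p : σ → C) :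
    (cutf e (insert t T : Finset E) (Function.update τ t true)).pts C p ↔
      ((cutf e (T : Set E) τ).opn (cfn e T τ t)).pts C p := by
  constructor
  · rintro ⟨h1, h2⟩
    refine ⟨⟨h1, fun s hs => ?_⟩, ?_⟩
    · have h3 : s ≠ t := by
        rintro rfl
        exact ht hs
      have h4 := h2 s (by simp [Finset.mem_coe.mp hs])
      rwa [Function.update_of_ne h3] at h4
    · have h4 := (h2 t (by simp)).1
      rw [Function.update_self] at h4
      exact h4 rfl
  · rintro ⟨⟨h1, h2⟩, h3⟩
    refine ⟨h1, fun s hs => ?_⟩
    by_cases h4 : s = t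
    · subst h4
      rw [Function.update_self]
      exact ⟨fun _ => h3, fun h => absurd h (by simp)⟩
    · rw [Function.update_of_ne h4]
      refine h2 s ?_
      rw [Finset.coe_insert] at hs
      exact hs.resolve_left h4

lemma cutf_insert_false (T : Finset E) (τ : E → Bool) (t : E) (ht : t ∉ T) (C : Type)
    [CommRing C] [Algebra R C] (p : σ → C) :
    (cutf e (insert t T : Finset E) (Function.update τ t false)).pts C p ↔
      ((cutf e (T : Set E) τ).clo (cfn e T τ t)).pts C p := by
  constructor
  · rintro ⟨h1, h2⟩
    refine ⟨⟨h1, fun s hs => ?_⟩, ?_⟩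
    · have h3 : s ≠ t := by
        rintro rfl
        exact ht hs
      have h4 := h2 s (by simp [Finset.mem_coe.mp hs])
      rwa [Function.update_of_ne h3] at h4
    · have h4 := (h2 t (by simp)).2
      rw [Function.update_self] at h4
      exact h4 rfl
  · rintro ⟨⟨h1, h2⟩, h3⟩
    refine ⟨h1, fun s hs => ?_⟩
    by_cases h4 : s = t
    · subst h4
      rw [Function.update_self]
      exact ⟨fun h => absurd h (by simp), fun _ => h3⟩
    · rw [Function.update_of_ne h4]
      refine h2 s ?_
      rw [Finset.coe_insert] at hs
      exact hs.resolve_left h4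

lemma repr_cutf (hS : Repr S) (T : Finset E) (τ : E → Bool) : Repr (cutf e (T : Set E) τ) := by
  induction T using Finset.induction_on generalizing τ with
  | empty =>
    refine Hol.congr (fun C _ _ p => ?_) hS
    exact ⟨fun h => ⟨h, fun t ht => absurd ht (by simp)⟩, fun h => h.1⟩
  | insert t T ht ih =>
    rcases h : τ t with _ | _
    · have h1 : τ = Function.update τ t false := by rw [← h, Function.update_eq_self]
      rw [h1]
      exact Hol.congr (fun C _ _ p => (cutf_insert_false e T τ t ht C p).symm) ((ih τ).clo _)
    · have h1 : τ = Function.update τ t true := by rw [← h, Function.update_eq_self]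
      rw [h1]
      exact Hol.congr (fun C _ _ p => (cutf_insert_true e T τ t ht C p).symm) ((ih τ).opn _)

/-- from the strata on which each function is invertible or zero to the whole -/
lemma hol_of_cutf (hP : ALin P) [Fintype E] (hS : Repr S)
    (h : ∀ τ : E → Bool, Hol P (cutf e Set.univ τ)) : Hol P S := by
  have key : ∀ T : Finset E, (∀ τ, Hol P (cutf e (T : Set E) τ)) → Hol P S := by
    intro T
    induction T using Finset.induction_on with
    | empty =>
      intro h1
      refine Hol.congr (fun C _ _ p => ?_) (h1 fun _ => true)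
      exact ⟨fun h => h.1, fun h => ⟨h, fun t ht => absurd ht (by simp)⟩⟩
    | insert t T ht ih =>
      intro h1
      refine ih fun τ => atot hP (cfn e T τ t) (repr_cutf e hS T τ) ?_ ?_
      · exact Hol.congr (cutf_insert_false e T τ t ht) (h1 _)
      · exact Hol.congr (cutf_insert_true e T τ t ht) (h1 _)
  refine key Finset.univ fun τ => ?_
  rw [Finset.coe_univ]
  exact h τ

end strata

end Pool.Agent.H68.RT
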