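import Pool.Agent.H68.RT.LowC
import Pool.Agent.H68.RT.Alt

/-!
# Sections of the cones over the Grassmannians of lines by coordinate hyperplanes
-/

set_option autoImplicit false
set_option linter.unusedSectionVars false
set_option linter.unusedVariables false

open CategoryTheory AlgebraicGeometry MvPolynomial Pool.Agent.Y116.UV Pool.Agent.Q193.LT
  Pool.Agent.Q282.UK Pool.Agent.H81.RZ

namespace Pool.Agent.H68.RT

variable {R : Type} [CommRing R] {sep : Prop} {P : Sch R → Prop} {ι : Type}

/-- the ring of functions on the section by coordinate hyperplanes, without an order -/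
lemma zer_al (Z : Set (ι × ι)) (C : Type) [CommRing C] [Algebra R C] (p : ι × ι → C) :
    (zer (plucker R ∪ {g | ∃ e ∈ Z, g = (X e : MvPolynomial (ι × ι) R)})).pts C p ↔
      (AL R Z ∅).pts C p := by
  constructor
  · intro h
    refine ⟨⟨fun i => ?_, fun i j => ?_, fun i j k l => ?_⟩, fun e he => ?_,
      fun e he => absurd he (Set.notMem_empty e)⟩
    · have h1 := h _ (Or.inl (Or.inl (Or.inl ⟨i, rfl⟩)))
      rwa [aeval_X] at h1
    · have h1 := h _ (Or.inl (Or.inl (Or.inr ⟨i, j, rfl⟩)))
      rwa [map_add, aeval_X, aeval_X] at h1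
    · have h1 := h _ (Or.inl (Or.inr ⟨i, j, k, l, rfl⟩))
      simpa only [map_add, map_sub, map_mul, aeval_X] using h1
    · have h1 := h _ (Or.inr ⟨e, he, rfl⟩)
      rwa [aeval_X] at h1
  · rintro ⟨⟨h1, h2, h3⟩, h4, h5⟩ g (((⟨i, rfl⟩ | ⟨i, j, rfl⟩) | ⟨i, j, k, l, rfl⟩) | ⟨e, he, rfl⟩)
    · rw [aeval_X]
      exact h1 i
    · rw [map_add, aeval_X, aeval_X]
      exact h2 i j
    · simpa only [map_add, map_sub, map_mul, aeval_X] using h3 i j k l
    · rw [aeval_X]
      exact h4 e he

lemma repr_al [Finite ι] (Z : Set (ι × ι)) : Repr (AL R Z ∅) :=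
  Hol.congr (fun C _ _ p => zer_al Z C p)
    ⟨_, inferInstance, inferInstance, inferInstance, _, rep_zer _, trivial⟩

/-- the vectors of a stratum and the determinant of the basis -/
lemma bij_conf_al [DecidableEq ι] {a b : ι} {σ : ι × ι → Bool} (hab : σ (a, b) = true) :
    Bij (Conf R a b (fun k l => σ (k, l)) Set.univ).gm (cutp (AL R (∅ : Set (ι × ι)) ∅) Set.univ σ)
      (fun _ _ _ q e => q none * dt (fun s => q (some s)) e.1 e.2)
      (fun _ _ _ p t => t.elim (p (a, b)) fun s => Sum.elim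
        (fun k => Ring.inverse (p (a, b)) * p (k, b)) (fun k => Ring.inverse (p (a, b)) * p (a, k)) s)
    where
  natF f q _ e := by rw [map_mul, dt_map]
  natG {C D} _ _ _ _ f p hp t := by
    have hu : IsUnit (p (a, b)) := (hp.2 (a, b) trivial).1 hab
    have h1 := map_inverse_of_isUnit (f : C →+* D) hu
    rcases t with _ | s | s
    · rfl
    · change f (Ring.inverse (p (a, b)) * p (s, b)) = Ring.inverse (f (p (a, b))) * f (p (s, b))
      rw [map_mul]
      exact congrArg (· * f (p (s, b))) h1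
    · change f (Ring.inverse (p (a, b)) * p (a, s)) = Ring.inverse (f (p (a, b))) * f (p (a, s))
      rw [map_mul]
      exact congrArg (· * f (p (a, s))) h1
  memF C _ _ q hq := by
    obtain ⟨⟨h1, h2, h3⟩, hu⟩ := hq
    refine ⟨⟨⟨fun i => ?_, fun i j => ?_, fun i j k l => ?_⟩,
      fun e he => absurd he (Set.notMem_empty e), fun e he => absurd he (Set.notMem_empty e)⟩,
      fun e _ => ⟨fun h => ?_, fun h => ?_⟩⟩
    · simp only [dt]
      ring
    · simp only [dt]
      ring
    · simp only [dt]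
      ring
    · exact hu.mul ((h3 e.1 trivial e.2 trivial).1 h)
    · change q none * _ = 0
      rw [(h3 e.1 trivial e.2 trivial).2 h, mul_zero]
  memG C _ _ p hp := by
    obtain ⟨⟨⟨h1, h2, h3⟩, -, -⟩, h4⟩ := hp
    have hu : IsUnit (p (a, b)) := (h4 (a, b) trivial).1 hab
    have hi : p (a, b) * Ring.inverse (p (a, b)) = 1 := Ring.mul_inverse_cancel _ hu
    refine ⟨⟨⟨?_, ?_, ?_, ?_⟩, fun k hk => absurd trivial hk, ?_⟩, hu⟩
    · change Ring.inverse (p (a, b)) * p (a, b) = 1
      rw [mul_comm, hi]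
    · change Ring.inverse (p (a, b)) * p (a, a) = 0
      rw [h1, mul_zero]
    · change Ring.inverse (p (a, b)) * p (b, b) = 0
      rw [h1, mul_zero]
    · change Ring.inverse (p (a, b)) * p (a, b) = 1
      rw [mul_comm, hi]
    · intro k _ l _
      have h5 : Ring.inverse (p (a, b)) * p (k, b) * (Ring.inverse (p (a, b)) * p (a, l)) -
          Ring.inverse (p (a, b)) * p (l, b) * (Ring.inverse (p (a, b)) * p (a, k)) =
          Ring.inverse (p (a, b)) * p (k, l) := by
        have h6 := h3 a b k l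
        have h7 := h2 k b
        have h8 := h2 l b
        set v := Ring.inverse (p (a, b))
        linear_combination (-v * v) * h6 + v * p (k, l) * hi + v * v * p (a, l) * h7
          - v * v * p (a, k) * h8
      have h6 := h4 (k, l) trivial
      have hv : IsUnit (Ring.inverse (p (a, b))) := by
        refine IsUnit.of_mul_eq_one (p (a, b)) ?_
        rw [mul_comm, hi]
      have h7 : dt (fun s : ι ⊕ ι => Sum.elim (fun k => Ring.inverse (p (a, b)) * p (k, b))
          (fun k => Ring.inverse (p (a, b)) * p (a, k)) s) k l =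
          Ring.inverse (p (a, b)) * p (k, l) := h5
      constructor
      · intro h
        exact (congrArg IsUnit h7).mpr (hv.mul (h6.1 h))
      · intro h
        exact h7.trans (by rw [h6.2 h, mul_zero])
  GF C _ _ q hq := by
    obtain ⟨⟨⟨h1, h1', h1'', h1'''⟩, h2, h3⟩, hu⟩ := hq
    have h4 : dt (fun s => q (some s)) a b = 1 := by
      simp only [dt] at h1 h1' h1'' h1''' ⊢
      rw [h1, h1', h1'', h1''']
      ring
    have h5 : ∀ k, dt (fun s => q (some s)) k b = q (some (.inl k)) := by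
      intro k
      simp only [dt] at h1 h1' h1'' h1''' ⊢
      rw [h1'', h1''']
      ring
    have h6 : ∀ k, dt (fun s => q (some s)) a k = q (some (.inr k)) := by
      intro k
      simp only [dt] at h1 h1' h1'' h1''' ⊢
      rw [h1, h1']
      ring
    have h7 : Ring.inverse (q none) * q none = 1 := Ring.inverse_mul_cancel _ hu
    funext t
    rcases t with _ | s | s
    · change q none * dt (fun s => q (some s)) a b = q none
      rw [h4, mul_one]
    · change Ring.inverse (q none * dt (fun s => q (some s)) a b) *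
        (q none * dt (fun s => q (some s)) s b) = q (some (.inl s))
      rw [h4, h5, mul_one, ← mul_assoc, h7, one_mul]
    · change Ring.inverse (q none * dt (fun s => q (some s)) a b) *
        (q none * dt (fun s => q (some s)) a s) = q (some (.inr s))
      rw [h4, h6, mul_one, ← mul_assoc, h7, one_mul]
  FG C _ _ p hp := by
    obtain ⟨⟨⟨h1, h2, h3⟩, -, -⟩, h4⟩ := hp
    have hu : IsUnit (p (a, b)) := (h4 (a, b) trivial).1 hab
    have hi : p (a, b) * Ring.inverse (p (a, b)) = 1 := Ring.mul_inverse_cancel _ hu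
    funext ⟨k, l⟩
    change p (a, b) * (Ring.inverse (p (a, b)) * p (k, b) * (Ring.inverse (p (a, b)) * p (a, l)) -
          Ring.inverse (p (a, b)) * p (l, b) * (Ring.inverse (p (a, b)) * p (a, k))) = p (k, l)
    have h6 := h3 a b k l
    have h7 := h2 k b
    have h8 := h2 l b
    set v := Ring.inverse (p (a, b))
    linear_combination (-p (a, b) * v * v) * h6 + (p (a, b) * v * p (k, l) + p (k, l)) * hi +
      p (a, b) * v * v * p (a, l) * h7 - p (a, b) * v * v * p (a, k) * h8

/-- The strata of the cone over the Grassmannian of lines, on which each coordinate is invertible or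
zero. -/
theorem hol_al_strat [Finite ι] (hP : ALin P) (σ : ι × ι → Bool) :
    Hol P (cutp (AL R (∅ : Set (ι × ι)) ∅) Set.univ σ) := by
  classical
  have : Fintype ι := Fintype.ofFinite ι
  have hr : Repr (cutp (AL R (∅ : Set (ι × ι)) ∅) Set.univ σ) := by
    have h := repr_cutp (repr_al (R := R) (∅ : Set (ι × ι))) Finset.univ σ
    rwa [Finset.coe_univ] at h
  by_cases h1 : ∃ i, σ (i, i) = true
  · obtain ⟨i, hi⟩ := h1
    refine hol_empty hP hr fun C _ _ p hp => ?_
    have h2 := (hp.2 (i, i) trivial).1 hi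
    rw [hp.1.1.1 i] at h2
    exact subsingleton_of_zero_eq_one (isUnit_zero_iff.mp h2)
  have hd : ∀ k, σ (k, k) = false := fun k => by
    by_contra h
    exact h1 ⟨k, by simpa using h⟩
  by_cases h2 : ∃ i j, σ (i, j) = true ∧ σ (j, i) = false
  · obtain ⟨i, j, hi, hj⟩ := h2
    refine hol_empty hP hr fun C _ _ p hp => ?_
    have h2 := (hp.2 (i, j) trivial).1 hi
    have h3 := (hp.2 (j, i) trivial).2 hj
    have h4 := hp.1.1.2.1 i j
    rw [h3, add_zero] at h4
    rw [h4] at h2
    exact subsingleton_of_zero_eq_one (isUnit_zero_iff.mp h2)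
  have hs : ∀ k l, σ (k, l) = σ (l, k) := by
    intro k l
    rcases h3 : σ (k, l) with _ | _
    · rcases h4 : σ (l, k) with _ | _
      · rfl
      · exact absurd ⟨l, k, h4, h3⟩ h2
    · rcases h4 : σ (l, k) with _ | _
      · exact absurd ⟨k, l, h3, h4⟩ h2
      · rfl
  by_cases h3 : ∃ a b, σ (a, b) = true
  · obtain ⟨a, b, hab⟩ := h3
    have hne : a ≠ b := by
      rintro rfl
      exact h1 ⟨a, hab⟩
    exact (hol_gm hP (hol_conf hP hne (σ := fun k l => σ (k, l)) hs hd hab)).trans
      (bij_conf_al hab)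
  · refine hol_point hP (fun _ => 0) fun C _ _ p => ?_
    have h4 : ∀ e, σ e = false := fun e => by
      by_contra h
      exact h3 ⟨e.1, e.2, by simpa using h⟩
    constructor
    · intro hp e
      rw [map_zero]
      exact (hp.2 e trivial).2 (h4 e)
    · intro hp
      have h5 : ∀ e, p e = 0 := fun e => by rw [hp e, map_zero]
      refine ⟨⟨⟨fun i => h5 _, fun i j => by rw [h5, h5, add_zero], fun i j k l => by
        simp only [h5]
        ring⟩, fun e _ => h5 e, fun e he => absurd he (Set.notMem_empty e)⟩, fun e _ =>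
        ⟨fun h => absurd h (by rw [h4]; simp), fun _ => h5 e⟩⟩

/-- The open part of the section, where the coordinates in `U` are invertible. -/
theorem hol_alz [Finite ι] (hP : ALin P) (Z : Set (ι × ι)) (U : Finset (ι × ι)) :
    Hol P (cutp (AL R Z ∅) (U : Set (ι × ι)) fun _ => true) := by
  classical
  have : Fintype ι := Fintype.ofFinite ι
  have hr : Repr (cutp (AL R Z ∅) (U : Set (ι × ι)) fun _ => true) :=
    repr_cutp (repr_al (R := R) Z) U _
  refine ahol_of_cutp hP hr fun σ => ?_
  by_cases h : (∀ e ∈ Z, σ e = false) ∧ ∀ e ∈ U, σ e = true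
  · refine Hol.congr (fun C _ _ p => ?_) (hol_al_strat hP σ)
    constructor
    · rintro ⟨⟨h1, -, h2⟩, h3⟩
      exact ⟨⟨⟨h1, fun e he => (h3 e trivial).2 (h.1 e he), h2⟩, fun e he =>
        ⟨fun _ => (h3 e trivial).1 (h.2 e he), fun h4 => absurd h4 (by simp)⟩⟩, h3⟩
    · rintro ⟨⟨⟨h1, h2, h3⟩, h4⟩, h5⟩
      exact ⟨⟨h1, fun e he => absurd he (Set.notMem_empty e), h3⟩, h5⟩
  · have hr2 := repr_cutp hr Finset.univ σ
    rw [Finset.coe_univ] at hr2
    refine hol_empty hP hr2 fun C _ _ p hp => ?_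
    obtain ⟨⟨⟨h1, h2, h3⟩, h4⟩, h5⟩ := hp
    rw [not_and_or] at h
    rcases h with h | h
    · push Not at h
      obtain ⟨e, he, h6⟩ := h
      have h7 := (h5 e trivial).1 (by simpa using h6)
      rw [h2 e he] at h7
      exact subsingleton_of_zero_eq_one (isUnit_zero_iff.mp h7)
    · push Not at h
      obtain ⟨e, he, h6⟩ := h
      have h7 := (h4 e he).1 rfl
      rw [(h5 e trivial).2 (by simpa using h6)] at h7
      exact subsingleton_of_zero_eq_one (isUnit_zero_iff.mp h7)

/-- the Plücker coordinates, with the conditions for `i < j` only -/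
lemma zer_pl' [LT ι] (Z : Set (ι × ι)) (C : Type) [CommRing C] [Algebra R C] (p : ι × ι → C) :
    (zer (plucker R ∪ {g | ∃ e ∈ Z, e.1 < e.2 ∧ g = (X e : MvPolynomial (ι × ι) R)} ∪
      {g | ∃ e ∈ (∅ : Finset (ι × ι)), e.1 < e.2 ∧ g = X e - 1})).pts C p ↔
        (AL R {e | e ∈ Z ∧ e.1 < e.2} ∅).pts C p := by
  rw [← zer_al]
  constructor
  · rintro h g (hg | ⟨e, he, rfl⟩)
    · exact h _ (Or.inl (Or.inl hg))
    · exact h _ (Or.inl (Or.inr ⟨e, he.1, he.2, rfl⟩))
  · rintro h g ((hg | ⟨e, he, he', rfl⟩) | ⟨e, he, -⟩)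
    · exact h _ (Or.inl hg)
    · exact h _ (Or.inr ⟨e, ⟨he, he'⟩, rfl⟩)
    · exact absurd he (Finset.notMem_empty e)

/-- The product of the coordinates `p_ij`, `(i, j) ∈ U`, on the section of the cone over the
Grassmannian `Gr(2, n)` by the equations `p_ij = 0`, `(i, j) ∈ Z`. -/
noncomputable def plProd (R : Type) [CommRing R] {n : ℕ} (Z U : Finset (Fin n × Fin n)) :
    Pl R Z ∅ :=
  ∏ e ∈ U, Ideal.Quotient.mk _ (X e)

/-- **The sections by coordinate hyperplanes.** The section of the cone over `Gr(2, n)` by the equations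
`p_ij = 0`, `(i, j) ∈ Z`, and its open part, where `p_ij` is invertible for `(i, j) ∈ U`. -/
theorem lin_lines (hP : ALin P) {n : ℕ} (Z U : Finset (Fin n × Fin n)) :
    P (aff R (Pl R Z ∅)) ∧ P (aff R (Localization.Away (plProd R Z U))) := by
  have h1 : ∀ U : Finset (Fin n × Fin n), Hol P (cutp (zer (plucker R ∪
      {g | ∃ e ∈ Z, e.1 < e.2 ∧ g = (X e : MvPolynomial (Fin n × Fin n) R)} ∪
      {g | ∃ e ∈ (∅ : Finset (Fin n × Fin n)), e.1 < e.2 ∧ g = X e - 1}))
        (U : Set (Fin n × Fin n)) fun _ => true) := by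
    intro U
    refine Hol.congr (fun C _ _ p => ?_)
      (hol_alz hP {e : Fin n × Fin n | e ∈ (Z : Set (Fin n × Fin n)) ∧ e.1 < e.2} U)
    exact and_congr_left fun _ => (zer_pl' (Z : Set (Fin n × Fin n)) C p).symm
  constructor
  · refine aof_rep hP (Hol.congr (fun C _ _ p => ?_) (h1 ∅)) (rep_zer _)
    exact ⟨fun h => h.1, fun h => ⟨h, fun e he => absurd he (by simp)⟩⟩
  · let e : Fn (zer (plucker R ∪
        {g | ∃ e ∈ Z, e.1 < e.2 ∧ g = (X e : MvPolynomial (Fin n × Fin n) R)} ∪
        {g | ∃ e ∈ (∅ : Finset (Fin n × Fin n)), e.1 < e.2 ∧ g = X e - 1})) :=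
      ⟨fun _ _ _ p => ∏ e ∈ U, p e, fun f p _ => map_prod f _ _⟩
    refine aof_rep hP (Hol.congr (fun C _ _ p => ?_) (h1 U)) ((rep_zer _).opn e)
    refine and_congr_right fun _ => ?_
    have h2 : IsUnit (e.val C p) ↔ ∀ t ∈ U, IsUnit (p t) := IsUnit.prod_iff
    rw [h2]
    exact ⟨fun h t ht => (h t ht).1 rfl, fun h t ht => ⟨fun _ => h t ht, fun h3 => absurd h3 (by simp)⟩⟩

end Pool.Agent.H68.RT
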