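import Pool.Agent.H68.RT.Low

/-!
# Configurations of vectors in the plane
-/

set_option autoImplicit false
set_option linter.unusedSectionVars false
set_option linter.unusedVariables false

open CategoryTheory AlgebraicGeometry MvPolynomial Pool.Agent.Y116.UV Pool.Agent.Q193.LT
  Pool.Agent.Q282.UK Pool.Agent.H81.RZ

namespace Pool.Agent.H68.RT

variable {R : Type} [CommRing R] {sep : Prop} {P : Sch R → Prop} {ι : Type}

/-- the determinant of two of the vectors -/
def dt {C : Type} [CommRing C] (p : ι ⊕ ι → C) (k l : ι) : C :=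
  p (.inl k) * p (.inr l) - p (.inl l) * p (.inr k)

lemma dt_map {C D : Type} [CommRing C] [CommRing D] [Algebra R C] [Algebra R D] (f : C →ₐ[R] D)
    (p : ι ⊕ ι → C) (k l : ι) : f (dt p k l) = dt (fun s => f (p s)) k l := by
  rw [dt, map_sub, map_mul, map_mul]
  rfl

/-- The vectors `v k = (p (inl k), p (inr k))`: `v a`, `v b` are the standard basis, `v k = 0` for
`k ∉ T`, and the determinants of the vectors in `T` are invertible or zero. -/
def Conf (R : Type) [CommRing R] (a b : ι) (σ : ι → ι → Bool) (T : Set ι) : Pts R (ι ⊕ ι) where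
  pts C _ _ p := (p (.inl a) = 1 ∧ p (.inr a) = 0 ∧ p (.inl b) = 0 ∧ p (.inr b) = 1) ∧
    (∀ k, k ∉ T → p (.inl k) = 0 ∧ p (.inr k) = 0) ∧
    ∀ k ∈ T, ∀ l ∈ T, (σ k l = true → IsUnit (dt p k l)) ∧ (σ k l = false → dt p k l = 0)
  map {C D} _ _ _ _ f p h := by
    obtain ⟨⟨h1, h2, h3, h4⟩, h5, h6⟩ := h
    refine ⟨⟨?_, ?_, ?_, ?_⟩, fun k hk => ⟨?_, ?_⟩, fun k hk l hl => ⟨fun h => ?_, fun h => ?_⟩⟩
    · exact (congrArg f h1).trans (map_one f)
    · exact (congrArg f h2).trans (map_zero f)
    · exact (congrArg f h3).trans (map_zero f)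
    · exact (congrArg f h4).trans (map_one f)
    · exact (congrArg f (h5 k hk).1).trans (map_zero f)
    · exact (congrArg f (h5 k hk).2).trans (map_zero f)
    · rw [← dt_map]
      exact ((h6 k hk l hl).1 h).map f
    · rw [← dt_map, (h6 k hk l hl).2 h, map_zero]

/-- As `Conf`, with one more vector `v i`, whose determinants with the vectors in `U` are invertible
and whose determinants with the vectors in `Z` are zero. -/
def Cf (R : Type) [CommRing R] (a b : ι) (σ : ι → ι → Bool) (T : Set ι) (i : ι) (U Z : Set ι) :
    Pts R (ι ⊕ ι) where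
  pts C _ _ p := (p (.inl a) = 1 ∧ p (.inr a) = 0 ∧ p (.inl b) = 0 ∧ p (.inr b) = 1) ∧
    (∀ k, k ∉ T → k ≠ i → p (.inl k) = 0 ∧ p (.inr k) = 0) ∧
    (∀ k ∈ T, ∀ l ∈ T, (σ k l = true → IsUnit (dt p k l)) ∧ (σ k l = false → dt p k l = 0)) ∧
    (∀ j ∈ U, IsUnit (dt p i j)) ∧ ∀ j ∈ Z, dt p i j = 0
  map {C D} _ _ _ _ f p h := by
    obtain ⟨⟨h1, h2, h3, h4⟩, h5, h6, h7, h8⟩ := h
    refine ⟨⟨?_, ?_, ?_, ?_⟩, fun k hk hk' => ⟨?_, ?_⟩, fun k hk l hl => ⟨fun h => ?_, fun h => ?_⟩,
      fun j hj => ?_, fun j hj => ?_⟩
    · exact (congrArg f h1).trans (map_one f)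
    · exact (congrArg f h2).trans (map_zero f)
    · exact (congrArg f h3).trans (map_zero f)
    · exact (congrArg f h4).trans (map_one f)
    · exact (congrArg f (h5 k hk hk').1).trans (map_zero f)
    · exact (congrArg f (h5 k hk hk').2).trans (map_zero f)
    · rw [← dt_map]
      exact ((h6 k hk l hl).1 h).map f
    · rw [← dt_map, (h6 k hk l hl).2 h, map_zero]
    · rw [← dt_map]
      exact (h7 j hj).map f
    · rw [← dt_map, h8 j hj, map_zero]

section

variable {C : Type} [CommRing C]

/-- Cramer's rule -/
lemma cramer_l (p : ι ⊕ ι → C) (i j k : ι) :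
    p (.inl i) * dt p j k = p (.inl j) * dt p i k - p (.inl k) * dt p i j := by
  simp only [dt]
  ring

lemma cramer_r (p : ι ⊕ ι → C) (i j k : ι) :
    p (.inr i) * dt p j k = p (.inr j) * dt p i k - p (.inr k) * dt p i j := by
  simp only [dt]
  ring

lemma dt_neg (p : ι ⊕ ι → C) (k l : ι) : dt p l k = -dt p k l := by
  simp only [dt]
  ring

lemma eq_zero_of_unit {x y : C} (hy : IsUnit y) (h : x * y = 0) : x = 0 :=
  (hy.mul_left_eq_zero).mp h

variable [DecidableEq ι]

/-- the vector `v i` replaced -/
def upd (p : ι ⊕ ι → C) (i : ι) (x y : C) : ι ⊕ ι → C :=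
  Sum.elim (fun k => if k = i then x else p (.inl k)) fun k => if k = i then y else p (.inr k)

lemma upd_l (p : ι ⊕ ι → C) (i : ι) (x y : C) : upd p i x y (.inl i) = x := if_pos rfl

lemma upd_r (p : ι ⊕ ι → C) (i : ι) (x y : C) : upd p i x y (.inr i) = y := if_pos rfl

lemma upd_l' (p : ι ⊕ ι → C) {i k : ι} (h : k ≠ i) (x y : C) :
    upd p i x y (.inl k) = p (.inl k) := if_neg h

lemma upd_r' (p : ι ⊕ ι → C) {i k : ι} (h : k ≠ i) (x y : C) :
    upd p i x y (.inr k) = p (.inr k) := if_neg h

lemma upd_map {D : Type} [CommRing D] [Algebra R C] [Algebra R D] (f : C →ₐ[R] D)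
    (p : ι ⊕ ι → C) (i : ι) (x y : C) (s : ι ⊕ ι) :
    f (upd p i x y s) = upd (fun s => f (p s)) i (f x) (f y) s := by
  rcases s with k | k
  · by_cases h : k = i
    · subst h
      rw [upd_l, upd_l]
    · rw [upd_l' _ h, upd_l' _ h]
  · by_cases h : k = i
    · subst h
      rw [upd_r, upd_r]
    · rw [upd_r' _ h, upd_r' _ h]

lemma upd_upd (p : ι ⊕ ι → C) (i : ι) (x y x' y' : C) :
    upd (upd p i x y) i x' y' = upd p i x' y' := by
  funext s
  rcases s with k | k
  · by_cases h : k = i
    · subst h
      rw [upd_l, upd_l]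
    · rw [upd_l' _ h, upd_l' _ h, upd_l' _ h]
  · by_cases h : k = i
    · subst h
      rw [upd_r, upd_r]
    · rw [upd_r' _ h, upd_r' _ h, upd_r' _ h]

lemma upd_self (p : ι ⊕ ι → C) (i : ι) : upd p i (p (.inl i)) (p (.inr i)) = p := by
  funext s
  rcases s with k | k
  · by_cases h : k = i
    · subst h
      rw [upd_l]
    · rw [upd_l' _ h]
  · by_cases h : k = i
    · subst h
      rw [upd_r]
    · rw [upd_r' _ h]

lemma dt_upd (p : ι ⊕ ι → C) {i k l : ι} (hk : k ≠ i) (hl : l ≠ i) (x y : C) :
    dt (upd p i x y) k l = dt p k l := by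
  rw [dt, dt, upd_l' _ hk, upd_l' _ hl, upd_r' _ hk, upd_r' _ hl]

lemma dt_upd_self (p : ι ⊕ ι → C) {i l : ι} (hl : l ≠ i) (x y : C) :
    dt (upd p i x y) i l = x * p (.inr l) - p (.inl l) * y := by
  rw [dt, upd_l, upd_r, upd_l' _ hl, upd_r' _ hl]

end

section step

variable [DecidableEq ι] {a b i : ι} {σ : ι → ι → Bool} {T : Set ι}

section pts

variable {C : Type} [CommRing C] [Algebra R C] (ha : a ∈ T) (hb : b ∈ T) (hi : i ∉ T)

include ha hb hi

/-- removing the vector `v i` -/
lemma conf_of_cf {U Z : Set ι} {p : ι ⊕ ι → C} (h : (Cf R a b σ T i U Z).pts C p) :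
    (Conf R a b σ T).pts C (upd p i 0 0) := by
  obtain ⟨⟨h1, h2, h3, h4⟩, h5, h6, h7, h8⟩ := h
  have hn : ∀ k ∈ T, k ≠ i := fun k hk h => hi (h ▸ hk)
  refine ⟨⟨?_, ?_, ?_, ?_⟩, fun k hk => ?_, fun k hk l hl => ?_⟩
  · rw [upd_l' _ (hn a ha), h1]
  · rw [upd_r' _ (hn a ha), h2]
  · rw [upd_l' _ (hn b hb), h3]
  · rw [upd_r' _ (hn b hb), h4]
  · by_cases h : k = i
    · subst h
      exact ⟨upd_l _ _ _ _, upd_r _ _ _ _⟩
    · rw [upd_l' _ h, upd_r' _ h]
      exact h5 k hk h
  · rw [dt_upd _ (hn k hk) (hn l hl)]
    exact h6 k hk l hl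

/-- adding the vector `v i` -/
lemma cf_of_conf {Z : Set ι} (hZ : Z ⊆ T) {p : ι ⊕ ι → C} (h : (Conf R a b σ T).pts C p)
    {x y : C} (hx : ∀ j ∈ Z, x * p (.inr j) - p (.inl j) * y = 0) :
    (Cf R a b σ T i ∅ Z).pts C (upd p i x y) := by
  obtain ⟨⟨h1, h2, h3, h4⟩, h5, h6⟩ := h
  have hn : ∀ k ∈ T, k ≠ i := fun k hk h => hi (h ▸ hk)
  refine ⟨⟨?_, ?_, ?_, ?_⟩, fun k hk h => ?_, fun k hk l hl => ?_,
    fun j hj => absurd hj (Set.notMem_empty j), fun j hj => ?_⟩
  · rw [upd_l' _ (hn a ha), h1]
  · rw [upd_r' _ (hn a ha), h2]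
  · rw [upd_l' _ (hn b hb), h3]
  · rw [upd_r' _ (hn b hb), h4]
  · rw [upd_l' _ h, upd_r' _ h]
    exact h5 k hk
  · rw [dt_upd _ (hn k hk) (hn l hl)]
    exact h6 k hk l hl
  · rw [dt_upd_self _ (hn j (hZ hj))]
    exact hx j hj

end pts

variable (hP : ALin P) (ha : a ∈ T) (hb : b ∈ T) (hi : i ∉ T)
  (h0 : Hol P (Conf R a b σ T))

include hP ha hb hi h0

/-- one more vector, without conditions of invertibility -/
lemma hol_cf_z {Z : Set ι} (hZ : Z ⊆ T) : Hol P (Cf R a b σ T i ∅ Z) := by
  have hn : ∀ k ∈ T, k ≠ i := fun k hk h => hi (h ▸ hk)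
  by_cases hA : ∃ j ∈ Z, ∃ k ∈ Z, σ j k = true
  · -- the vector is zero
    obtain ⟨j, hj, k, hk, hjk⟩ := hA
    refine Hol.congr (fun C _ _ p => ?_) h0
    constructor
    · rintro ⟨h1, h2, h3⟩
      refine ⟨h1, fun k hk _ => h2 k hk, h3, fun j hj => absurd hj (Set.notMem_empty j),
        fun j hj => ?_⟩
      rw [dt, (h2 i hi).1, (h2 i hi).2]
      ring
    · rintro ⟨h1, h2, h3, -, h4⟩
      have hu : IsUnit (dt p j k) := (h3 j (hZ hj) k (hZ hk)).1 hjk
      refine ⟨h1, fun l hl => ?_, h3⟩
      by_cases h : l = i
      · subst h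
        constructor
        · refine eq_zero_of_unit hu ?_
          rw [cramer_l, h4 k hk, h4 j hj]
          ring
        · refine eq_zero_of_unit hu ?_
          rw [cramer_r, h4 k hk, h4 j hj]
          ring
      · exact h2 l hl h
  · by_cases hB : ∃ j ∈ Z, ∃ k ∈ T, σ j k = true
    · -- the vector is a multiple of `v j`
      obtain ⟨j, hj, k, hk, hjk⟩ := hB
      have hσ : ∀ l ∈ Z, σ j l = false := by
        intro l hl
        by_contra h
        exact hA ⟨j, hj, l, hl, by simpa using h⟩
      refine (hol_line hP h0).trans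
        (F := fun _ _ _ q => upd (fun s => q (some s)) i (q none * q (some (.inl j)))
          (q none * q (some (.inr j))))
        (G := fun _ _ _ p t => t.elim (dt p i k * Ring.inverse (dt p j k)) fun s => upd p i 0 0 s) ?_
      exact
        { natF := fun f q _ t => by
            rw [upd_map, map_mul, map_mul]
          natG := fun {C D} _ _ _ _ f p hp t => by
            have hu : IsUnit (dt p j k) := (hp.2.2.1 j (hZ hj) k hk).1 hjk
            rcases t with _ | s
            · change f (dt p i k * Ring.inverse (dt p j k)) =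
                dt (fun s => f (p s)) i k * Ring.inverse (dt (fun s => f (p s)) j k)
              rw [map_mul, dt_map, ← dt_map f p j k]
              congr 1
              exact map_inverse_of_isUnit (f : C →+* D) hu
            · change f (upd p i 0 0 s) = upd (fun s => f (p s)) i 0 0 s
              rw [upd_map, map_zero]
          memF := fun C _ _ q hq => by
            have hq' : (Conf R a b σ T).pts C (fun s => q (some s)) := hq
            refine cf_of_conf ha hb hi hZ hq' fun l hl => ?_
            have h1 := (hq.2.2 j (hZ hj) l (hZ hl)).2 (hσ l hl)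
            have h2 : q none * q (some (.inl j)) * q (some (.inr l)) -
                q (some (.inl l)) * (q none * q (some (.inr j))) =
                q none * dt (fun s => q (some s)) j l := by
              simp only [dt]
              ring
            rw [h2, h1, mul_zero]
          memG := fun C _ _ p hp => conf_of_cf ha hb hi hp
          GF := fun C _ _ q hq => by
            have hu : IsUnit (dt (fun s => q (some s)) j k) := (hq.2.2 j (hZ hj) k hk).1 hjk
            have hq2 : q (some (.inl i)) = 0 ∧ q (some (.inr i)) = 0 := hq.2.1 i hi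
            funext t
            rcases t with _ | s
            · change dt (upd _ i _ _) i k * Ring.inverse (dt (upd _ i _ _) j k) = q none
              rw [dt_upd _ (hn j (hZ hj)) (hn k hk), dt_upd_self _ (hn k hk)]
              have h2 : q none * q (some (.inl j)) * q (some (.inr k)) -
                  q (some (.inl k)) * (q none * q (some (.inr j))) =
                  q none * dt (fun s => q (some s)) j k := by
                simp only [dt]
                ring
              rw [h2, mul_assoc, Ring.mul_inverse_cancel _ hu, mul_one]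
            · change upd (upd _ i _ _) i 0 0 s = q (some s)
              rw [upd_upd]
              have h3 := upd_self (fun s => q (some s)) i
              rw [hq2.1, hq2.2] at h3
              exact congrFun h3 s
          FG := fun C _ _ p hp => by
            have hu : IsUnit (dt p j k) := (hp.2.2.1 j (hZ hj) k hk).1 hjk
            have hz : dt p i j = 0 := hp.2.2.2.2 j hj
            have h1 : dt p i k * Ring.inverse (dt p j k) * p (.inl j) = p (.inl i) := by
              have h2 := cramer_l p i j k
              rw [hz, mul_zero, sub_zero] at h2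
              calc _ = Ring.inverse (dt p j k) * (p (.inl j) * dt p i k) := by ring
                _ = p (.inl i) * (dt p j k * Ring.inverse (dt p j k)) := by rw [← h2]; ring
                _ = p (.inl i) := by rw [Ring.mul_inverse_cancel _ hu, mul_one]
            have h1' : dt p i k * Ring.inverse (dt p j k) * p (.inr j) = p (.inr i) := by
              have h2 := cramer_r p i j k
              rw [hz, mul_zero, sub_zero] at h2
              calc _ = Ring.inverse (dt p j k) * (p (.inr j) * dt p i k) := by ring
                _ = p (.inr i) * (dt p j k * Ring.inverse (dt p j k)) := by rw [← h2]; ring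
                _ = p (.inr i) := by rw [Ring.mul_inverse_cancel _ hu, mul_one]
            change upd (upd p i 0 0) i (dt p i k * Ring.inverse (dt p j k) * upd p i 0 0 (.inl j))
              (dt p i k * Ring.inverse (dt p j k) * upd p i 0 0 (.inr j)) = p
            rw [upd_upd, upd_l' _ (hn j (hZ hj)), upd_r' _ (hn j (hZ hj)), h1, h1', upd_self] }
    · -- the vector is arbitrary
      have hσ : ∀ j ∈ Z, ∀ k ∈ T, σ j k = false := by
        intro j hj k hk
        by_contra h
        exact hB ⟨j, hj, k, hk, by simpa using h⟩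
      refine (hol_line hP (hol_line hP h0)).trans
        (F := fun _ _ _ q => upd (fun s => q (some (some s))) i (q none) (q (some none)))
        (G := fun _ _ _ p t => t.elim (p (.inl i)) fun s => s.elim (p (.inr i)) fun s =>
          upd p i 0 0 s) ?_
      exact
        { natF := fun f q _ t => upd_map f _ _ _ _ _
          natG := fun f p hp t => by
            rcases t with _ | _ | s
            · rfl
            · rfl
            · change f (upd p i 0 0 s) = upd (fun s => f (p s)) i 0 0 s
              rw [upd_map, map_zero]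
          memF := fun C _ _ q hq => by
            have hq' : (Conf R a b σ T).pts C (fun s => q (some (some s))) := hq
            refine cf_of_conf ha hb hi hZ hq' fun l hl => ?_
            obtain ⟨⟨h1, h2, h3, h4⟩, h5, h6⟩ := hq'
            have h7 := (h6 l (hZ hl) b hb).2 (hσ l hl b hb)
            have h8 := (h6 l (hZ hl) a ha).2 (hσ l hl a ha)
            simp only [dt] at h1 h2 h3 h4 h7 h8
            rw [h3, h4] at h7
            rw [h1, h2] at h8
            have h9 : q (some (some (.inl l))) = 0 := by linear_combination h7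
            have h10 : q (some (some (.inr l))) = 0 := by linear_combination -h8
            change _ * q (some (some (.inr l))) - q (some (some (.inl l))) * _ = 0
            rw [h9, h10]
            ring
          memG := fun C _ _ p hp => conf_of_cf ha hb hi hp
          GF := fun C _ _ q hq => by
            have hq2 : q (some (some (.inl i))) = 0 ∧ q (some (some (.inr i))) = 0 := hq.2.1 i hi
            funext t
            rcases t with _ | _ | s
            · change upd (fun s => q (some (some s))) i (q none) (q (some none)) (.inl i) = _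
              exact upd_l _ _ _ _
            · change upd (fun s => q (some (some s))) i (q none) (q (some none)) (.inr i) = _
              exact upd_r _ _ _ _
            · change upd (upd _ i _ _) i 0 0 s = q (some (some s))
              rw [upd_upd]
              have h3 := upd_self (fun s => q (some (some s))) i
              rw [hq2.1, hq2.2] at h3
              exact congrFun h3 s
          FG := fun C _ _ p hp => by
            change upd (upd p i 0 0) i (p (.inl i)) (p (.inr i)) = p
            rw [upd_upd, upd_self] }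

/-- one more vector -/
lemma hol_cf (U : Finset ι) {Z : Set ι} (hZ : Z ⊆ T) : Hol P (Cf R a b σ T i (U ∩ T : Set ι) Z) := by
  induction U using Finset.induction_on generalizing Z with
  | empty =>
    rw [Finset.coe_empty, Set.empty_inter]
    exact hol_cf_z hP ha hb hi h0 hZ
  | insert j U hj ih =>
    by_cases hjT : j ∈ T
    · let e : Fn (Cf R a b σ T i (U ∩ T : Set ι) Z) :=
        ⟨fun _ _ _ p => dt p i j, fun f p _ => dt_map f p i j⟩
      refine Hol.congr (S := (Cf R a b σ T i (U ∩ T : Set ι) Z).opn e) (fun C _ _ p => ?_)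
        (hol_opn hP e (ih hZ) (Hol.congr (fun C _ _ p => ?_)
          (ih (Z := insert j Z) (Set.insert_subset hjT hZ))))
      · constructor
        · rintro ⟨⟨h1, h2, h3, h4, h5⟩, h6⟩
          refine ⟨h1, h2, h3, fun l hl => ?_, h5⟩
          obtain ⟨hl1, hl2⟩ := hl
          rw [Finset.coe_insert] at hl1
          rcases hl1 with rfl | hl1
          · exact h6
          · exact h4 l ⟨hl1, hl2⟩
        · rintro ⟨h1, h2, h3, h4, h5⟩
          refine ⟨⟨h1, h2, h3, fun l hl => h4 l ⟨?_, hl.2⟩, h5⟩, h4 j ⟨?_, hjT⟩⟩
          · rw [Finset.coe_insert]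
            exact Or.inr hl.1
          · rw [Finset.coe_insert]
            exact Or.inl rfl
      · constructor
        · rintro ⟨h1, h2, h3, h4, h5⟩
          exact ⟨⟨h1, h2, h3, h4, fun l hl => h5 l (Or.inr hl)⟩, h5 j (Or.inl rfl)⟩
        · rintro ⟨⟨h1, h2, h3, h4, h5⟩, h6⟩
          refine ⟨h1, h2, h3, h4, fun l hl => ?_⟩
          rcases hl with rfl | hl
          · exact h6
          · exact h5 l hl
    · have h1 : (((insert j U : Finset ι) : Set ι) ∩ T) = ((U : Set ι) ∩ T) := by
        rw [Finset.coe_insert, Set.insert_inter_of_notMem hjT]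
      rw [h1]
      exact ih hZ

/-- one more vector -/
lemma hol_conf_insert [Fintype ι] (hs : ∀ k l, σ k l = σ l k) (hd : ∀ k, σ k k = false) :
    Hol P (Conf R a b σ (insert i T)) := by
  have h1 := hol_cf hP ha hb hi h0 (Finset.univ.filter fun j => σ i j = true)
    (Z := {j | j ∈ T ∧ σ i j = false}) (fun j hj => hj.1)
  refine Hol.congr (fun C _ _ p => ?_) h1
  constructor
  · rintro ⟨h2, h3, h4, h5, h6⟩
    refine ⟨h2, fun k hk => ?_, fun k hk l hl => ?_⟩
    · rw [Set.mem_insert_iff, not_or] at hk
      exact h3 k hk.2 hk.1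
    · have h7 : ∀ l ∈ T, (σ i l = true → IsUnit (dt p i l)) ∧ (σ i l = false → dt p i l = 0) := by
        intro l hl
        exact ⟨fun h => h5 l ⟨by simp [h], hl⟩, fun h => h6 l ⟨hl, h⟩⟩
      rcases hk with rfl | hk
      · rcases hl with rfl | hl
        · rw [hd]
          exact ⟨fun h => absurd h (by simp), fun _ => by rw [dt]; ring⟩
        · exact h7 l hl
      · rcases hl with rfl | hl
        · rw [hs, dt_neg]
          exact ⟨fun h => ((h7 k hk).1 h).neg, fun h => by rw [(h7 k hk).2 h, neg_zero]⟩
        · exact h4 k hk l hl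
  · rintro ⟨h2, h3, h4⟩
    refine ⟨h2, fun k hk hk' => h3 k ?_, fun k hk l hl => h4 k (Or.inr hk) l (Or.inr hl),
      fun l hl => (h4 i (Or.inl rfl) l (Or.inr hl.2)).1 ?_,
      fun l hl => (h4 i (Or.inl rfl) l (Or.inr hl.1)).2 hl.2⟩
    · rw [Set.mem_insert_iff, not_or]
      exact ⟨hk', hk⟩
    · have h8 := hl.1
      rw [Finset.mem_coe, Finset.mem_filter] at h8
      exact h8.2

end step

/-- The configurations of vectors in the plane with given invertible and zero determinants. -/
theorem hol_conf [Finite ι] (hP : ALin P) {a b : ι} (hab : a ≠ b) {σ : ι → ι → Bool}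
    (hs : ∀ k l, σ k l = σ l k) (hd : ∀ k, σ k k = false) (h1 : σ a b = true) :
    Hol P (Conf R a b σ Set.univ) := by
  classical
  have : Fintype ι := Fintype.ofFinite ι
  have h2 : ∀ T : Finset ι, Hol P (Conf R a b σ ((T : Set ι) ∪ {a, b})) := by
    intro T
    induction T using Finset.induction_on with
    | empty =>
      rw [Finset.coe_empty, Set.empty_union]
      refine hol_point hP (Sum.elim (fun k => if k = a then 1 else 0) fun k => if k = b then 1 else 0)
        fun C _ _ p => ?_
      constructor
      · rintro ⟨⟨h2, h3, h4, h5⟩, h6, h7⟩ s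
        rcases s with k | k
        · change p (.inl k) = algebraMap R C (if k = a then 1 else 0)
          by_cases hk : k = a
          · subst hk
            rw [if_pos rfl, map_one, h2]
          · rw [if_neg hk, map_zero]
            by_cases hk' : k = b
            · subst hk'
              exact h4
            · exact (h6 k (by simp [hk, hk'])).1
        · change p (.inr k) = algebraMap R C (if k = b then 1 else 0)
          by_cases hk : k = b
          · subst hk
            rw [if_pos rfl, map_one, h5]
          · rw [if_neg hk, map_zero]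
            by_cases hk' : k = a
            · subst hk'
              exact h3
            · exact (h6 k (by simp [hk, hk'])).2
      · intro h
        have hl : ∀ k, p (.inl k) = if k = a then 1 else 0 := by
          intro k
          rw [h (.inl k)]
          change algebraMap R C (if k = a then 1 else 0) = _
          split_ifs
          · exact map_one _
          · exact map_zero _
        have hr : ∀ k, p (.inr k) = if k = b then 1 else 0 := by
          intro k
          rw [h (.inr k)]
          change algebraMap R C (if k = b then 1 else 0) = _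
          split_ifs
          · exact map_one _
          · exact map_zero _
        refine ⟨⟨?_, ?_, ?_, ?_⟩, fun k hk => ?_, ?_⟩
        · rw [hl, if_pos rfl]
        · rw [hr, if_neg hab]
        · rw [hl, if_neg hab.symm]
        · rw [hr, if_pos rfl]
        · rw [Set.mem_insert_iff, Set.mem_singleton_iff, not_or] at hk
          rw [hl, hr, if_neg hk.1, if_neg hk.2]
          exact ⟨rfl, rfl⟩
        · have h8 : dt p a b = 1 := by
            rw [dt, hl, hr, hl, hr, if_pos rfl, if_pos rfl, if_neg hab.symm]
            ring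
          have h9 : ∀ k, dt p k k = 0 := fun k => by rw [dt]; ring
          rintro k (rfl | rfl) l (rfl | rfl)
          · rw [hd, h9]
            exact ⟨fun h => absurd h (by simp), fun _ => rfl⟩
          · rw [h1, h8]
            exact ⟨fun _ => isUnit_one, fun h => absurd h (by simp)⟩
          · rw [hs, h1, dt_neg, h8]
            exact ⟨fun _ => isUnit_one.neg, fun h => absurd h (by simp)⟩
          · rw [hd, h9]
            exact ⟨fun h => absurd h (by simp), fun _ => rfl⟩
    | insert i T hi ih =>
      rw [Finset.coe_insert, Set.insert_union]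
      by_cases h3 : i ∈ (T : Set ι) ∪ {a, b}
      · rw [Set.insert_eq_of_mem h3]
        exact ih
      · exact hol_conf_insert hP (Or.inr (Or.inl rfl)) (Or.inr (Or.inr rfl)) h3 ih hs hd
  have h3 := h2 Finset.univ
  rwa [Finset.coe_univ, Set.univ_union] at h3

end Pool.Agent.H68.RT
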