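import Pool.Agent.H68.RT.LowA

/-!
# Matrices of rank at most two with prescribed zeros
-/

set_option autoImplicit false
set_option linter.unusedSectionVars false
set_option linter.unusedVariables false

open CategoryTheory AlgebraicGeometry MvPolynomial Pool.Agent.Y116.UV Pool.Agent.Q193.LT
  Pool.Agent.Q282.UK Pool.Agent.H81.RZ

namespace Pool.Agent.H68.RT

variable {R : Type} [CommRing R] {sep : Prop} {P : Sch R → Prop}

section gd

variable {ι : Type}

/-- The configurations of vectors in the plane, with the standard basis `v a`, `v b`, the determinants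
in `Z` and the products of two determinants in `T` being zero. -/
def Gd (R : Type) [CommRing R] (a b : ι) (Z : Set (ι × ι)) (T : Set ((ι × ι) × (ι × ι))) :
    Pts R (ι ⊕ ι) where
  pts C _ _ p := (p (.inl a) = 1 ∧ p (.inr a) = 0 ∧ p (.inl b) = 0 ∧ p (.inr b) = 1) ∧
    (∀ e ∈ Z, dt p e.1 e.2 = 0) ∧ ∀ e ∈ T, dt p e.1.1 e.1.2 * dt p e.2.1 e.2.2 = 0
  map {C D} _ _ _ _ f p h := by
    obtain ⟨⟨h1, h2, h3, h4⟩, h5, h6⟩ := h
    refine ⟨⟨?_, ?_, ?_, ?_⟩, fun e he => ?_, fun e he => ?_⟩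
    · exact (congrArg f h1).trans (map_one f)
    · exact (congrArg f h2).trans (map_zero f)
    · exact (congrArg f h3).trans (map_zero f)
    · exact (congrArg f h4).trans (map_one f)
    · rw [← dt_map, h5 e he, map_zero]
    · rw [← dt_map, ← dt_map, ← map_mul, h6 e he, map_zero]

/-- the determinant as a polynomial -/
noncomputable def dX (R : Type) [CommRing R] (k l : ι) : MvPolynomial (ι ⊕ ι) R :=
  X (.inl k) * X (.inr l) - X (.inl l) * X (.inr k)

lemma aeval_dX {C : Type} [CommRing C] [Algebra R C] (p : ι ⊕ ι → C) (k l : ι) :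
    aeval p (dX R k l) = dt p k l := by
  rw [dX, map_sub, map_mul, map_mul, aeval_X, aeval_X, aeval_X, aeval_X]
  rfl

lemma repr_gd [Finite ι] (a b : ι) (Z : Set (ι × ι)) (T : Set ((ι × ι) × (ι × ι))) :
    Repr (Gd R a b Z T) := by
  refine Hol.congr (fun C _ _ p => ?_) ⟨_, inferInstance, inferInstance, inferInstance, _,
    rep_zer ({X (.inl a) - 1, X (.inr a), X (.inl b), X (.inr b) - 1} ∪
      {g | ∃ e ∈ Z, g = dX R e.1 e.2} ∪
      {g | ∃ e ∈ T, g = dX R e.1.1 e.1.2 * dX R e.2.1 e.2.2}), trivial⟩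
  constructor
  · intro h
    refine ⟨⟨?_, ?_, ?_, ?_⟩, fun e he => ?_, fun e he => ?_⟩
    · have h1 := h _ (Or.inl (Or.inl (Or.inl rfl)))
      rwa [map_sub, aeval_X, map_one, sub_eq_zero] at h1
    · have h1 := h _ (Or.inl (Or.inl (Or.inr (Or.inl rfl))))
      rwa [aeval_X] at h1
    · have h1 := h _ (Or.inl (Or.inl (Or.inr (Or.inr (Or.inl rfl)))))
      rwa [aeval_X] at h1
    · have h1 := h _ (Or.inl (Or.inl (Or.inr (Or.inr (Or.inr rfl)))))
      rwa [map_sub, aeval_X, map_one, sub_eq_zero] at h1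
    · have h1 := h _ (Or.inl (Or.inr ⟨e, he, rfl⟩))
      rwa [aeval_dX] at h1
    · have h1 := h _ (Or.inr ⟨e, he, rfl⟩)
      rwa [map_mul, aeval_dX, aeval_dX] at h1
  · rintro ⟨⟨h1, h2, h3, h4⟩, h5, h6⟩ g (((rfl | rfl | rfl | rfl) | ⟨e, he, rfl⟩) | ⟨e, he, rfl⟩)
    · rw [map_sub, aeval_X, map_one, h1, sub_self]
    · rw [aeval_X, h2]
    · rw [aeval_X, h3]
    · rw [map_sub, aeval_X, map_one, h4, sub_self]
    · rw [aeval_dX, h5 e he]
    · rw [map_mul, aeval_dX, aeval_dX, h6 e he]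

/-- the determinants as functions -/
def dfn (S : Pts R (ι ⊕ ι)) (e : ι × ι) : Fn S := ⟨fun _ _ _ p => dt p e.1 e.2, fun f p _ => dt_map f p _ _⟩

/-- The configurations of vectors in the plane, with the standard basis `v a`, `v b`, the determinants
in `Z` and the products of two determinants in `T` being zero, those in `U` invertible. -/
theorem hol_gd [Finite ι] (hP : ALin P) (a b : ι) (Z : Set (ι × ι)) (T : Set ((ι × ι) × (ι × ι)))
    (U : Finset (ι × ι)) : Hol P (cutf (dfn (Gd R a b Z T)) (U : Set (ι × ι)) fun _ => true) := by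
  classical
  have : Fintype ι := Fintype.ofFinite ι
  have hr : Repr (cutf (dfn (Gd R a b Z T)) (U : Set (ι × ι)) fun _ => true) :=
    repr_cutf _ (repr_gd a b Z T) U _
  refine hol_of_cutf (dfn (cutf (dfn (Gd R a b Z T)) (U : Set (ι × ι)) fun _ => true)) hP hr
    fun τ => ?_
  have hr2 := repr_cutf (dfn (cutf (dfn (Gd R a b Z T)) (U : Set (ι × ι)) fun _ => true)) hr
    Finset.univ τ
  rw [Finset.coe_univ] at hr2
  by_cases hab : a = b
  · subst hab
    refine hol_empty hP hr2 fun C _ _ p hp => ?_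
    have h1 : (1 : C) = 0 := hp.1.1.1.1.symm.trans hp.1.1.1.2.2.1
    exact subsingleton_of_zero_eq_one h1.symm
  by_cases h : (∀ k, τ (k, k) = false) ∧ (∀ k l, τ (k, l) = τ (l, k)) ∧ τ (a, b) = true ∧
      (∀ e ∈ Z, τ e = false) ∧ (∀ e ∈ T, τ e.1 = false ∨ τ e.2 = false) ∧ ∀ e ∈ U, τ e = true
  · obtain ⟨g1, g2, g3, g4, g5, g6⟩ := h
    refine Hol.congr (fun C _ _ p => ?_) (hol_conf hP hab (σ := fun k l => τ (k, l)) g2 g1 g3)
    constructor
    · rintro ⟨h1, h2, h3⟩
      have h4 : ∀ e : ι × ι, (τ e = true → IsUnit (dt p e.1 e.2)) ∧ (τ e = false → dt p e.1 e.2 = 0) :=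
        fun e => h3 e.1 trivial e.2 trivial
      refine ⟨⟨⟨h1, fun e he => (h4 e).2 (g4 e he), fun e he => ?_⟩, fun e he =>
        ⟨fun _ => (h4 e).1 (g6 e he), fun h => absurd h (by simp)⟩⟩, fun e _ => h4 e⟩
      rcases g5 e he with h | h
      · rw [(h4 e.1).2 h, zero_mul]
      · rw [(h4 e.2).2 h, mul_zero]
    · rintro ⟨⟨⟨h1, -, -⟩, -⟩, h2⟩
      exact ⟨h1, fun k hk => absurd trivial hk, fun k _ l _ => h2 (k, l) trivial⟩
  · refine hol_empty hP hr2 fun C _ _ p hp => ?_
    obtain ⟨⟨⟨⟨h1, h2, h3, h4⟩, h5, h6⟩, h7⟩, h8⟩ := hp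
    have h9 : ∀ e : ι × ι, (τ e = true → IsUnit (dt p e.1 e.2)) ∧ (τ e = false → dt p e.1 e.2 = 0) :=
      fun e => h8 e trivial
    have h10 : ∀ e : ι × ι, IsUnit (dt p e.1 e.2) → dt p e.1 e.2 = 0 → Subsingleton C := by
      intro e h11 h12
      rw [h12] at h11
      exact subsingleton_of_zero_eq_one (isUnit_zero_iff.mp h11)
    by_contra hC
    apply h
    refine ⟨fun k => ?_, fun k l => ?_, ?_, fun e he => ?_, fun e he => ?_, fun e he => ?_⟩
    · by_contra h11
      refine hC (h10 (k, k) ((h9 (k, k)).1 (by simpa using h11)) ?_)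
      simp only [dt]
      ring
    · by_contra h11
      rcases h12 : τ (k, l) with _ | _
      · have h13 : τ (l, k) = true := by
          rcases h14 : τ (l, k) with _ | _
          · exact absurd (h12.trans h14.symm) h11
          · rfl
        refine hC (h10 (l, k) ((h9 (l, k)).1 h13) ?_)
        change dt p l k = 0
        rw [dt_neg]
        exact neg_eq_zero.mpr ((h9 (k, l)).2 h12)
      · have h13 : τ (l, k) = false := by
          rcases h14 : τ (l, k) with _ | _
          · rfl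
          · exact absurd (h12.trans h14.symm) h11
        refine hC (h10 (k, l) ((h9 (k, l)).1 h12) ?_)
        change dt p k l = 0
        rw [dt_neg]
        exact neg_eq_zero.mpr ((h9 (l, k)).2 h13)
    · by_contra h11
      refine hC (h10 (a, b) ?_ ((h9 (a, b)).2 (by simpa using h11)))
      have h12 : dt p a b = 1 := by
        rw [dt, h1, h2, h3, h4]
        ring
      exact h12 ▸ isUnit_one
    · by_contra h11
      exact hC (h10 e ((h9 e).1 (by simpa using h11)) (h5 e he))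
    · by_contra h11
      rw [not_or] at h11
      have h12 := ((h9 e.1).1 (by simpa using h11.1)).mul ((h9 e.2).1 (by simpa using h11.2))
      rw [h6 e he] at h12
      exact hC (subsingleton_of_zero_eq_one (isUnit_zero_iff.mp h12))
    · by_contra h11
      exact hC (h10 e ((h7 e he).1 rfl) ((h9 e).2 (by simpa using h11)))

end gd

section mat

variable {ι κ : Type}

/-- a minor of size two -/
def mn2 {C : Type} [CommRing C] (p : ι × κ → C) (t : (ι × ι) × (κ × κ)) : C :=
  p (t.1.1, t.2.1) * p (t.1.2, t.2.2) - p (t.1.1, t.2.2) * p (t.1.2, t.2.1)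

lemma mn2_map {C D : Type} [CommRing C] [CommRing D] [Algebra R C] [Algebra R D] (f : C →ₐ[R] D)
    (p : ι × κ → C) (t : (ι × ι) × (κ × κ)) : f (mn2 p t) = mn2 (fun s => f (p s)) t := by
  rw [mn2, map_sub, map_mul, map_mul]
  rfl

/-- the matrices of rank at most two with zeros at `Z` and with the minors in `T` being zero -/
def MT (R : Type) [CommRing R] (Z : Set (ι × κ)) (T : Set ((ι × ι) × (κ × κ))) : Pts R (ι × κ) where
  pts C _ _ p := (MS R 2 Z ∅ ∅).pts C p ∧ ∀ t ∈ T, mn2 p t = 0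
  map {C D} _ _ _ _ f p h := ⟨(MS R 2 Z ∅ ∅).map f h.1, fun t ht => by
    rw [← mn2_map, h.2 t ht, map_zero]⟩

/-- the minors as functions -/
def mfn (S : Pts R (ι × κ)) (t : (ι × ι) × (κ × κ)) : Fn S :=
  ⟨fun _ _ _ p => mn2 p t, fun f p _ => mn2_map f p t⟩

/-- the vectors -/
noncomputable def mv {C : Type} [CommRing C] (t : (ι × ι) × (κ × κ)) (p : ι × κ → C) :
    (ι ⊕ κ) ⊕ (ι ⊕ κ) → C
  | .inl (.inl i) => Ring.inverse (mn2 p t) *
      (p (i, t.2.1) * p (t.1.2, t.2.2) - p (i, t.2.2) * p (t.1.2, t.2.1))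
  | .inl (.inr j) => -p (t.1.2, j)
  | .inr (.inl i) => Ring.inverse (mn2 p t) *
      (p (t.1.1, t.2.1) * p (i, t.2.2) - p (t.1.1, t.2.2) * p (i, t.2.1))
  | .inr (.inr j) => p (t.1.1, j)

section

variable {C : Type} [CommRing C]

lemma dt_mv {t : (ι × ι) × (κ × κ)} {p : ι × κ → C} (h : RankLe 2 p) (hu : IsUnit (mn2 p t)) (i : ι)
    (j : κ) : dt (mv t p) (.inl i) (.inr j) = p (i, j) := by
  have h1 := h ![t.1.1, t.1.2, i] ![t.2.1, t.2.2, j]
  rw [Matrix.det_fin_three] at h1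
  simp only [Matrix.of_apply, Matrix.cons_val_zero, Matrix.cons_val_one, Matrix.cons_val] at h1
  have h2 : Ring.inverse (mn2 p t) * mn2 p t = 1 := Ring.inverse_mul_cancel _ hu
  have h3 : p (i, j) = Ring.inverse (mn2 p t) * mn2 p t * p (i, j) := by rw [h2, one_mul]
  rw [h3]
  simp only [dt, mv]
  set v := Ring.inverse (mn2 p t)
  simp only [mn2]
  linear_combination -v * h1

lemma rank_dt (q : (ι ⊕ κ) ⊕ (ι ⊕ κ) → C) : RankLe 2 fun e : ι × κ => dt q (.inl e.1) (.inr e.2) := by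
  intro ρ γ
  rw [Matrix.det_fin_three]
  simp only [Matrix.of_apply, dt]
  ring

lemma mn2_dt (q : (ι ⊕ κ) ⊕ (ι ⊕ κ) → C) (t : (ι × ι) × (κ × κ)) :
    mn2 (fun e : ι × κ => dt q (.inl e.1) (.inr e.2)) t =
      dt q (.inl t.1.1) (.inl t.1.2) * dt q (.inr t.2.1) (.inr t.2.2) := by
  simp only [mn2, dt]
  ring

end

/-- the matrices with an invertible minor and the configurations of vectors -/
lemma bij_mat2 (Z : Set (ι × κ)) (T : Set ((ι × ι) × (κ × κ))) (t : (ι × ι) × (κ × κ)) :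
    Bij (cutf (dfn (Gd R (.inl t.1.1) (.inl t.1.2)
      {e : (ι ⊕ κ) × (ι ⊕ κ) | ∃ x ∈ Z, e = (.inl x.1, .inr x.2)}
      {e | ∃ x ∈ T, e = ((.inl x.1.1, .inl x.1.2), (.inr x.2.1, .inr x.2.2))}))
      (({(.inr t.2.1, .inr t.2.2)} : Finset ((ι ⊕ κ) × (ι ⊕ κ))) : Set ((ι ⊕ κ) × (ι ⊕ κ)))
        fun _ => true) ((MT R Z T).opn (mfn (MT R Z T) t))
      (fun _ _ _ q e => dt q (.inl e.1) (.inr e.2)) (fun _ _ _ p => mv t p) where
  natF f q _ e := dt_map f q _ _
  natG {C D} _ _ _ _ f p hp s := by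
    have hu : IsUnit (mn2 p t) := hp.2
    have h1 : f (Ring.inverse (mn2 p t)) = Ring.inverse (mn2 (fun e => f (p e)) t) := by
      rw [← mn2_map]
      exact map_inverse_of_isUnit (f : C →+* D) hu
    rcases s with (i | j) | (i | j)
    · change f (Ring.inverse (mn2 p t) * _) = Ring.inverse (mn2 (fun e => f (p e)) t) * _
      rw [map_mul, h1, map_sub, map_mul, map_mul]
    · exact map_neg f _
    · change f (Ring.inverse (mn2 p t) * _) = Ring.inverse (mn2 (fun e => f (p e)) t) * _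
      rw [map_mul, h1, map_sub, map_mul, map_mul]
    · rfl
  memF C _ _ q hq := by
    obtain ⟨⟨⟨h1, h2, h3, h4⟩, h5, h6⟩, h7⟩ := hq
    refine ⟨⟨⟨rank_dt q, fun e he => h5 _ ⟨e, he, rfl⟩, fun e he => absurd he (Set.notMem_empty e),
      fun e he => absurd he (Set.notMem_empty e)⟩, fun s hs => ?_⟩, ?_⟩
    · rw [mn2_dt]
      exact h6 _ ⟨s, hs, rfl⟩
    · change IsUnit (mn2 (fun e : ι × κ => dt q (.inl e.1) (.inr e.2)) t)
      rw [mn2_dt]
      have h8 : dt q (.inl t.1.1) (.inl t.1.2) = 1 := by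
        rw [dt, h1, h2, h3, h4]
        ring
      rw [h8, one_mul]
      exact (h7 (.inr t.2.1, .inr t.2.2) (by simp)).1 rfl
  memG C _ _ p hp := by
    obtain ⟨⟨⟨h1, h2, -, -⟩, h3⟩, hu⟩ := hp
    have hu : IsUnit (mn2 p t) := hu
    have h4 : Ring.inverse (mn2 p t) * mn2 p t = 1 := Ring.inverse_mul_cancel _ hu
    have h5 : (fun e : ι × κ => dt (mv t p) (.inl e.1) (.inr e.2)) = p := by
      funext e
      exact dt_mv h1 hu e.1 e.2
    refine ⟨⟨⟨?_, ?_, ?_, ?_⟩, ?_, ?_⟩, ?_⟩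
    · exact h4
    · change Ring.inverse (mn2 p t) *
        (p (t.1.1, t.2.1) * p (t.1.1, t.2.2) - p (t.1.1, t.2.2) * p (t.1.1, t.2.1)) = 0
      ring
    · change Ring.inverse (mn2 p t) *
        (p (t.1.2, t.2.1) * p (t.1.2, t.2.2) - p (t.1.2, t.2.2) * p (t.1.2, t.2.1)) = 0
      ring
    · exact h4
    · rintro _ ⟨x, hx, rfl⟩
      exact (dt_mv h1 hu x.1 x.2).trans (h2 x hx)
    · rintro _ ⟨x, hx, rfl⟩
      have h6 := mn2_dt (mv t p) x
      rw [h5, h3 x hx] at h6
      exact h6.symm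
    · intro e he
      have h7 : e = (.inr t.2.1, .inr t.2.2) := by simpa using he
      subst h7
      refine ⟨fun _ => ?_, fun h => absurd h (by simp)⟩
      have h8 : dt (mv t p) (.inr t.2.1) (.inr t.2.2) = mn2 p t := by
        simp only [dt, mv, mn2]
        ring
      exact (congrArg IsUnit h8).mpr hu
  GF C _ _ q hq := by
    obtain ⟨⟨⟨h1, h2, h3, h4⟩, h5, h6⟩, h7⟩ := hq
    have hu : IsUnit (dt q (.inr t.2.1) (.inr t.2.2)) :=
      (h7 (.inr t.2.1, .inr t.2.2) (by simp)).1 rfl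
    have h8 : dt q (.inl t.1.1) (.inl t.1.2) = 1 := by
      rw [dt, h1, h2, h3, h4]
      ring
    have h9 : mn2 (fun e : ι × κ => dt q (.inl e.1) (.inr e.2)) t =
        dt q (.inr t.2.1) (.inr t.2.2) := by
      rw [mn2_dt, h8, one_mul]
    have h10 : Ring.inverse (dt q (.inr t.2.1) (.inr t.2.2)) * dt q (.inr t.2.1) (.inr t.2.2) = 1 :=
      Ring.inverse_mul_cancel _ hu
    funext s
    rcases s with (i | j) | (i | j)
    · change Ring.inverse (mn2 (fun e : ι × κ => dt q (.inl e.1) (.inr e.2)) t) * _ = _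
      rw [h9]
      have h11 : dt q (.inl i) (.inr t.2.1) * dt q (.inl t.1.2) (.inr t.2.2) -
          dt q (.inl i) (.inr t.2.2) * dt q (.inl t.1.2) (.inr t.2.1) =
          dt q (.inl i) (.inl t.1.2) * dt q (.inr t.2.1) (.inr t.2.2) := by
        simp only [dt]
        ring
      rw [h11]
      have h12 : dt q (.inl i) (.inl t.1.2) = q (.inl (.inl i)) := by
        rw [dt, h3, h4]
        ring
      rw [h12]
      linear_combination q (.inl (.inl i)) * h10
    · change -dt q (.inl t.1.2) (.inr j) = _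
      rw [dt, h3, h4]
      ring
    · change Ring.inverse (mn2 (fun e : ι × κ => dt q (.inl e.1) (.inr e.2)) t) * _ = _
      rw [h9]
      have h11 : dt q (.inl t.1.1) (.inr t.2.1) * dt q (.inl i) (.inr t.2.2) -
          dt q (.inl t.1.1) (.inr t.2.2) * dt q (.inl i) (.inr t.2.1) =
          dt q (.inl t.1.1) (.inl i) * dt q (.inr t.2.1) (.inr t.2.2) := by
        simp only [dt]
        ring
      rw [h11]
      have h12 : dt q (.inl t.1.1) (.inl i) = q (.inr (.inl i)) := by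
        rw [dt, h1, h2]
        ring
      rw [h12]
      linear_combination q (.inr (.inl i)) * h10
    · change dt q (.inl t.1.1) (.inr j) = _
      rw [dt, h1, h2]
      ring
  FG C _ _ p hp := by
    funext e
    exact dt_mv hp.1.1.1 hp.2 e.1 e.2

/-- the matrices of rank at most one -/
noncomputable def r1 {C : Type} [CommRing C] (p : ι × κ → C) : (ι ⊕ κ) × (ι ⊕ κ) → C
  | (.inl _, .inl _) => 0
  | (.inl i, .inr j) => p (i, j)
  | (.inr j, .inl i) => -p (i, j)
  | (.inr _, .inr _) => 0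

lemma bij_rank_one (Z : Set (ι × κ)) :
    Bij (AL R ({e : (ι ⊕ κ) × (ι ⊕ κ) | ∃ x ∈ Z, e = (.inl x.1, .inr x.2)} ∪
      ({e | ∃ i i', e = (.inl i, .inl i')} ∪ {e | ∃ j j', e = (.inr j, .inr j')})) ∅)
      (MT R Z Set.univ) (fun _ _ _ q e => q (.inl e.1, .inr e.2)) (fun _ _ _ p => r1 p) where
  natF _ _ _ _ := rfl
  natG f p _ s := by
    rcases s with ⟨i | j, i' | j'⟩
    · exact map_zero f
    · rfl
    · exact map_neg f _
    · exact map_zero f
  memF C _ _ q hq := by
    obtain ⟨⟨h1, h2, h3⟩, h4, -⟩ := hq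
    have h5 : ∀ t ∈ (Set.univ : Set ((ι × ι) × (κ × κ))),
        mn2 (fun e : ι × κ => q (.inl e.1, .inr e.2)) t = 0 := by
      intro t _
      have h6 := h3 (.inl t.1.1) (.inr t.2.1) (.inl t.1.2) (.inr t.2.2)
      have h7 := h4 (.inl t.1.1, .inl t.1.2) (Or.inr (Or.inl ⟨_, _, rfl⟩))
      have h8 := h2 (.inr t.2.1) (.inl t.1.2)
      change q (.inl t.1.1, .inr t.2.1) * q (.inl t.1.2, .inr t.2.2) -
        q (.inl t.1.1, .inr t.2.2) * q (.inl t.1.2, .inr t.2.1) = 0
      linear_combination h6 + q (.inr t.2.1, .inr t.2.2) * h7 -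
        q (.inl t.1.1, .inr t.2.2) * h8
    refine ⟨⟨fun ρ γ => ?_, fun e he => h4 _ (Or.inl ⟨e, he, rfl⟩),
      fun e he => absurd he (Set.notMem_empty e), fun e he => absurd he (Set.notMem_empty e)⟩, h5⟩
    rw [Matrix.det_fin_three]
    simp only [Matrix.of_apply]
    have h6 := h5 ((ρ 1, ρ 2), (γ 1, γ 2)) trivial
    have h7 := h5 ((ρ 1, ρ 2), (γ 0, γ 2)) trivial
    have h8 := h5 ((ρ 1, ρ 2), (γ 0, γ 1)) trivial
    simp only [mn2] at h6 h7 h8
    linear_combination q (.inl (ρ 0), .inr (γ 0)) * h6 - q (.inl (ρ 0), .inr (γ 1)) * h7 +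
      q (.inl (ρ 0), .inr (γ 2)) * h8
  memG C _ _ p hp := by
    obtain ⟨⟨h1, h2, -, -⟩, h3⟩ := hp
    refine ⟨⟨?_, ?_, ?_⟩, ?_, fun e he => absurd he (Set.notMem_empty e)⟩
    · rintro (i | j) <;> rfl
    · rintro (i | j) (i' | j')
      · exact add_zero _
      · change p (i, j') + -p (i, j') = 0
        ring
      · change -p (i', j) + p (i', j) = 0
        ring
      · exact add_zero _
    · have h4 : ∀ i i' j j', p (i, j) * p (i', j') - p (i, j') * p (i', j) = 0 :=
        fun i i' j j' => h3 ((i, i'), (j, j')) trivial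
      rintro (i | i) (j | j) (k | k) (l | l) <;> simp only [r1]
      · ring
      · ring
      · ring
      · linear_combination -h4 i j k l
      · ring
      · linear_combination h4 i k j l
      · linear_combination -h4 i l j k
      · ring
      · ring
      · linear_combination -h4 j k i l
      · linear_combination h4 j l i k
      · ring
      · linear_combination -h4 k l i j
      · ring
      · ring
      · ring
    · rintro _ (⟨x, hx, rfl⟩ | ⟨i, i', rfl⟩ | ⟨j, j', rfl⟩)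
      · exact h2 x hx
      · rfl
      · rfl
  GF C _ _ q hq := by
    obtain ⟨⟨h1, h2, h3⟩, h4, -⟩ := hq
    funext ⟨s, t⟩
    rcases s with i | j <;> rcases t with i' | j'
    · exact (h4 _ (Or.inr (Or.inl ⟨i, i', rfl⟩))).symm
    · rfl
    · exact (eq_neg_of_add_eq_zero_left (h2 (.inr j) (.inl i'))).symm
    · exact (h4 _ (Or.inr (Or.inr ⟨j, j', rfl⟩))).symm
  FG C _ _ p _ := rfl

/-- **Matrices of rank at most two.** -/
theorem hol_ms2 [Finite ι] [Finite κ] (hP : ALin P) (Z : Set (ι × κ)) :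
    Hol P (MS R 2 Z (∅ : Set (ι × κ)) ∅) := by
  classical
  have : Fintype ι := Fintype.ofFinite ι
  have : Fintype κ := Fintype.ofFinite κ
  have hr : ∀ T : Finset ((ι × ι) × (κ × κ)), Repr (MT R Z (T : Set ((ι × ι) × (κ × κ)))) := by
    intro T
    have h1 := repr_cutf (mfn (MS R 2 Z (∅ : Set (ι × κ)) ∅)) (repr_ms0 2 Z) T fun _ => false
    refine Hol.congr (fun C _ _ p => ?_) h1
    exact ⟨fun h => ⟨h.1, fun t ht => (h.2 t ht).2 rfl⟩, fun h => ⟨h.1, fun t ht =>
      ⟨fun h3 => absurd h3 (by simp), fun _ => h.2 t ht⟩⟩⟩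
  have hopn : ∀ (T : Finset ((ι × ι) × (κ × κ))) (t : (ι × ι) × (κ × κ)),
      Hol P ((MT R Z (T : Set ((ι × ι) × (κ × κ)))).opn (mfn _ t)) := fun T t =>
    (hol_gd hP _ _ _ _ _).trans (bij_mat2 Z (T : Set ((ι × ι) × (κ × κ))) t)
  have key : ∀ T : Finset ((ι × ι) × (κ × κ)), Hol P (MT R Z (T : Set ((ι × ι) × (κ × κ)))) →
      Hol P (MS R 2 Z (∅ : Set (ι × κ)) ∅) := by
    intro T
    induction T using Finset.induction_on with
    | empty =>
      intro h
      refine Hol.congr (fun C _ _ p => ?_) h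
      exact ⟨fun h => h.1, fun h => ⟨h, fun t ht => absurd ht (by simp)⟩⟩
    | insert t T ht ih =>
      intro h
      refine ih (atot hP (mfn _ t) (hr T) (Hol.congr (fun C _ _ p => ?_) h) (hopn T t))
      constructor
      · intro h1
        exact ⟨⟨h1.1, fun s hs => h1.2 s (by simp [Finset.mem_coe.mp hs])⟩, h1.2 t (by simp)⟩
      · intro h1
        refine ⟨h1.1.1, fun s hs => ?_⟩
        rw [Finset.coe_insert] at hs
        rcases hs with rfl | hs
        · exact h1.2
        · exact h1.1.2 s hs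
  refine key Finset.univ ?_
  rw [Finset.coe_univ]
  refine Hol.trans ?_ (bij_rank_one Z)
  have h1 := hol_alz hP ({e : (ι ⊕ κ) × (ι ⊕ κ) | ∃ x ∈ Z, e = (.inl x.1, .inr x.2)} ∪
      ({e | ∃ i i', e = (.inl i, .inl i')} ∪ {e | ∃ j j', e = (.inr j, .inr j')})) ∅
  refine Hol.congr (fun C _ _ p => ?_) h1
  exact ⟨fun h => h.1, fun h => ⟨h, fun t ht => absurd ht (by simp)⟩⟩

/-- **Matrices of rank at most two.** The property is true for the schemes of the `m × n` matrices of
rank at most two with prescribed zeros. -/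
theorem lin_rank_two (hP : ALin P) : OnRank 2 P := by
  intro m n Z
  exact aof_rep hP (Hol.congr (fun C _ _ p => (zer_rk 2 (Z : Set (Fin m × Fin n)) C p).symm)
    (hol_ms2 hP (Z : Set (Fin m × Fin n)))) (rep_zer _)

/-- **Matrices of rank at most two.** The property is true for the schemes of the `m × n` matrices of
rank at most two with prescribed zeros. -/
theorem lin_cp (hP : ALin P) {m n : ℕ} (Z : Finset (Fin m × Fin n)) : P (aff R (Cp R Z ∅)) := by
  refine aof_rep hP (Hol.congr (fun C _ _ p => ?_)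
    (hol_ms2 hP (Z : Set (Fin m × Fin n)))) (rep_zer _)
  rw [zer_cp]
  exact Iff.of_eq (by rw [Finset.coe_empty])

end mat

end Pool.Agent.H68.RT
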