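import Pool.Agent.H68.RT.Res
import Pool.Graph.R_pool_sql_team_seeded_1acbe0a2.Y691.TU.Bnd

/-!
# The graded pieces of one weight of the cohomology with compact supports
-/

set_option autoImplicit false

open CategoryTheory CategoryTheory.Limits AlgebraicGeometry Pool.Agent.Y116.UV Pool.Agent.Y101.Th
  Pool.Agent.Q193.LT Pool.Agent.Y691.TU

namespace Pool.Agent.H68.RT

universe v u

variable {k : Type} [Field k] {C : Type u} [Category.{v} C] [Abelian C]

/-- Known properties of the pieces `H X w j = gr^W_w H^j_c(X)`: isomorphic schemes have isomorphic pieces;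
for a closed subscheme `Z` of `X` with the complement `U` the sequence
`… → H U w n → H X w n → H Z w n → H U w (n + 1) → …` is exact for every weight `w`; for smooth
projective `X` the cohomology of degree `n` is pure of weight `n`. -/
structure HasPieces (D : Graded k C) : Prop where
  iso : ∀ {X Y : Sch k}, FT True X → Nonempty (X ≅ Y) → ∀ w n, Nonempty (D.H X w n ≅ D.H Y w n)
  localization : ∀ {Z X U : Sch k} (i : Z ⟶ X) (j : U ⟶ X), FT True X → IsTriple i j → ∀ w : ℤ,
    ∃ (a : ∀ n, D.H U w n ⟶ D.H X w n) (b : ∀ n, D.H X w n ⟶ D.H Z w n)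
      (d : ∀ n, D.H Z w n ⟶ D.H U w (n + 1)),
      ∀ n, ExactAt (a n) (b n) ∧ ExactAt (b n) (d n) ∧ ExactAt (d n) (a (n + 1))
  pure : ∀ X : Sch k, SmProj X → ∀ w n : ℤ, w ≠ n → IsZero (D.H X w n)

/-- The property `Q` of the objects of an abelian category is true for zero objects, and closed under
direct sums and direct summands. -/
structure SumClosed (Q : C → Prop) : Prop where
  zero : ∀ A, IsZero A → Q A
  sum : ∀ A B, Q A → Q B → Q (A ⊞ B)
  summand : ∀ A B (s : A ⟶ B) (r : B ⟶ A), s ≫ r = 𝟙 A → Q B → Q A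

/-- The graded pieces of weight `w` of all cohomology groups with compact supports of `X` have the
property `Q`. -/
def PieceOf (D : Graded k C) (Q : C → Prop) (w : ℤ) (X : Sch k) : Prop := ∀ n : ℤ, Q (D.H X w n)

variable {D : Graded k C} {Q : C → Prop}

theorem two_of (hC : Semisimple C) (hD : HasPieces D) (hQ : SumClosed Q) (w : ℤ) :
    TwoOfThree (PieceOf D Q w) where
  iso hX h hP n := by
    obtain ⟨e⟩ := hD.iso hX h w n
    exact hQ.summand _ _ e.inv e.hom e.inv_hom_id (hP n)
  total i j hX ht hZ hU := by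
    intro n
    obtain ⟨a, b, d, h⟩ := hD.localization i j hX ht w
    exact mid hC hQ.sum hQ.summand (h n).1 (hU n) (hZ n)
  opened i j hX ht hZ hXX := by
    intro n
    obtain ⟨n, rfl⟩ : ∃ v, n = v + 1 := ⟨n - 1, by ring⟩
    obtain ⟨a, b, d, h⟩ := hD.localization i j hX ht w
    exact mid hC hQ.sum hQ.summand (h n).2.2 (hZ n) (hXX (n + 1))
  closed i j hX ht hXX hU := by
    intro n
    obtain ⟨a, b, d, h⟩ := hD.localization i j hX ht w
    exact mid hC hQ.sum hQ.summand (h n).2.1 (hXX n) (hU (n + 1))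

/-- **One graded piece in each dimension, and the two families.** -/
theorem piece_of_iff [PerfectField k] (hk : Frac k) (hC : Semisimple C) (hD : HasPieces D)
    (hQ : SumClosed Q) (w : ℤ) {F : Sch k → Prop} (hF : IsFamily F) :
    (∀ X, FT True X → ∃ (n : ℕ) (Y : Fin n → Sch k) (f : ∀ l, Y l ⟶ X),
      (∀ l, F (Y l) ∧ SmInt (Y l)) ∧ (∀ l, IsImmersion (f l).left) ∧
      (∀ x : X.left, ∃! l, x ∈ Set.range (f l).left) ∧
      ((∀ l, PieceOf D Q w (Y l)) → PieceOf D Q w X)) ∧
    ∀ d : ℕ,
      ((∀ X, FT True X → topologicalKrullDim X.left ≤ d → PieceOf D Q w X) ↔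
        ∀ Y, F Y → SmInt Y → topologicalKrullDim Y.left ≤ d → PieceOf D Q w Y) ∧
      ((∀ Y, F Y → SmInt Y → topologicalKrullDim Y.left ≤ d → PieceOf D Q w Y) →
        ∀ X, SmProj X → topologicalKrullDim X.left ≤ d → Q (D.H X w w)) ∧
      (Resolution k →
        ((∀ X, SmProj X → topologicalKrullDim X.left ≤ d → Q (D.H X w w)) ↔
          ∀ Y, F Y → SmInt Y → topologicalKrullDim Y.left ≤ d → PieceOf D Q w Y)) := by
  have h2P := two_of hC hD hQ w
  have hP : Glue True (PieceOf D Q w) := ⟨h2P.iso, h2P.total⟩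
  refine ⟨fun X hX => ?_, fun d => ?_⟩
  · obtain ⟨k, Y, f, h1, h2, h3, h4⟩ :=
      partition_good (sep := True) hk hF.family generic_smInt X hX
    exact ⟨k, Y, f, h1, h2, h3, fun h => h4 _ hP h⟩
  · have h1 := good_iff (sep := True) hk hP (her_dim (R := k) (d : WithBot ℕ∞)) hF.family
      generic_smInt
    refine ⟨h1, fun h X hX hd => h1.mpr h X hX.ft hd w, fun hres => ⟨fun h => ?_, fun h X hX hd =>
      h1.mpr h X hX.ft hd w⟩⟩
    refine h1.mp (dev_smproj hres h2P d fun X hX hd n => ?_)
    by_cases hn : w = n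
    · subst hn
      exact h X hX hd
    · exact hQ.zero _ (hD.pure X hX w n hn)

end Pool.Agent.H68.RT
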