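import Pool.Agent.H68.RT.LowT
import Pool.Agent.H68.RT.Pc

/-!
# The closure properties for the theories
-/

set_option autoImplicit false
set_option linter.unusedSectionVars false
set_option linter.unusedVariables false

open CategoryTheory CategoryTheory.Limits AlgebraicGeometry MvPolynomial Pool.Agent.Y116.UV
  Pool.Agent.Q193.LT Pool.Agent.Q282.UK Pool.Agent.Q282.UZ Pool.Agent.Q49.WU Pool.Agent.Y691.TU
  Pool.Agent.Y101.Th

universe w w' v u

namespace Pool.Agent.H68.RT

section pairs

variable {R : Type} [CommRing R] {ι : Type} {E : Type w'} [CommRing E] {D : PairData.{w} R ι E}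
  {δ : ι ≃ ι}

theorem cel_all (hD : HasSequences D δ) (h : ∀ n : ℕ, BijAll D (aff R (MvPolynomial (Fin n) R))) :
    Cel True (BijAll D) where
  iso := (glue_all hD).iso
  total := (glue_all hD).total
  opened i j hX ht hZ hX' := opened_all hD i j hX ht hZ hX'
  space := h

theorem cel_at (hD : HasSequences D δ) {wt : ι → ℤ} (hδ : ∀ j, wt (δ j) = wt j) (N : ℤ)
    (h : ∀ n : ℕ, BijAt D wt N (aff R (MvPolynomial (Fin n) R))) : Cel True (BijAt D wt N) where
  iso := (glue_at hD hδ N).iso
  total := (glue_at hD hδ N).total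
  opened i j hX ht hZ hX' := (cut_iff _).mpr (opened_all (seq_cut hD hδ N) i j hX ht
    ((cut_iff _).mp hZ) ((cut_iff _).mp hX'))
  space := h

end pairs

section pieces

variable {k : Type} [Field k] {C : Type u} [Category.{v} C] [Abelian C] {D : Graded k C} {Q : C → Prop}

theorem cel_piece (hC : Semisimple C) (hD : HasPieces D) (hQ : SumClosed Q) (w : ℤ)
    (h : ∀ n : ℕ, PieceOf D Q w (aff k (MvPolynomial (Fin n) k))) : Cel True (PieceOf D Q w) where
  iso := (two_of hC hD hQ w).iso
  total := (two_of hC hD hQ w).total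
  opened := (two_of hC hD hQ w).opened
  space := h

end pieces

end Pool.Agent.H68.RT
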