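import Pool.Agent.H68.RT.LowM
import Pool.Graph.R_seed8.Q193.LT.Pair

/-!
# Thin Schubert cells of the Grassmannians of lines, and the closure properties for theories
-/

set_option autoImplicit false
set_option linter.unusedSectionVars false
set_option linter.unusedVariables false

open CategoryTheory AlgebraicGeometry MvPolynomial Pool.Agent.Y116.UV Pool.Agent.Q193.LT
  Pool.Agent.Q282.UK Pool.Agent.H81.RZ Pool.Agent.Z125.UN

namespace Pool.Agent.H68.RT

variable {R : Type} [CommRing R] {sep : Prop} {P : Sch R → Prop}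

/-- The columns of the matrix `(1 | A)` with two rows, where `A` is the generic matrix with two rows and
the columns `κ`. -/
noncomputable def gcol2 (R : Type) [CommRing R] {κ : Type} :
    Fin 2 ⊕ κ → Fin 2 → MvPolynomial (Fin 2 × κ) R
  | .inl j, i => if i = j then 1 else 0
  | .inr j, i => X (i, j)

/-- The minor of the matrix `(1 | A)` with the columns `s`, `t`. -/
noncomputable def minor2 (R : Type) [CommRing R] {κ : Type} (s t : Fin 2 ⊕ κ) :
    MvPolynomial (Fin 2 × κ) R :=
  gcol2 R s 0 * gcol2 R t 1 - gcol2 R t 0 * gcol2 R s 1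

/-- The scheme of the matrices `A` with two rows and `n` columns such that the minors of `(1 | A)` with
the pairs of columns in `Z` are zero: the part of a standard chart of the Grassmannian `Gr(2, 2 + n)`,
where these Plücker coordinates vanish. -/
abbrev Closed2 (R : Type) [CommRing R] {n : ℕ} (Z : Finset ((Fin 2 ⊕ Fin n) × (Fin 2 ⊕ Fin n))) :
    Type :=
  MvPolynomial (Fin 2 × Fin n) R ⧸ Ideal.span {g | ∃ e ∈ Z, g = minor2 R e.1 e.2}

/-- The open part, where the minors of `(1 | A)` with the pairs of columns in `U` are invertible. For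
`U` the complement of `Z` these are the thin Schubert cells. -/
abbrev Cell2 (R : Type) [CommRing R] {n : ℕ} (Z U : Finset ((Fin 2 ⊕ Fin n) × (Fin 2 ⊕ Fin n))) :
    Type :=
  Localization.Away (∏ e ∈ U, (Ideal.Quotient.mk _ (minor2 R e.1 e.2) : Closed2 R Z))

section

variable {κ : Type}

/-- the vectors of the matrix `(1 | A)` -/
def cv {C : Type} [CommRing C] (p : Fin 2 × κ → C) : (Fin 2 ⊕ κ) ⊕ (Fin 2 ⊕ κ) → C
  | .inl (.inl a) => if (0 : Fin 2) = a then 1 else 0
  | .inl (.inr j) => p (0, j)
  | .inr (.inl a) => if (1 : Fin 2) = a then 1 else 0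
  | .inr (.inr j) => p (1, j)

lemma aeval_minor2 {C : Type} [CommRing C] [Algebra R C] (p : Fin 2 × κ → C) (s t : Fin 2 ⊕ κ) :
    aeval p (minor2 R s t) = dt (cv p) s t := by
  have h1 : ∀ s : Fin 2 ⊕ κ, aeval p (gcol2 R s 0) = cv p (.inl s) := by
    rintro (a | j)
    · change aeval p (if (0 : Fin 2) = a then (1 : MvPolynomial (Fin 2 × κ) R) else 0) =
        if (0 : Fin 2) = a then 1 else 0
      split_ifs
      · exact map_one _
      · exact map_zero _
    · exact aeval_X _ _
  have h2 : ∀ s : Fin 2 ⊕ κ, aeval p (gcol2 R s 1) = cv p (.inr s) := by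
    rintro (a | j)
    · change aeval p (if (1 : Fin 2) = a then (1 : MvPolynomial (Fin 2 × κ) R) else 0) =
        if (1 : Fin 2) = a then 1 else 0
      split_ifs
      · exact map_one _
      · exact map_zero _
    · exact aeval_X _ _
  rw [minor2, map_sub, map_mul, map_mul, h1, h1, h2, h2]
  rfl

/-- configurations and matrices `(1 | A)` -/
lemma bij_cv (Z U : Set ((Fin 2 ⊕ κ) × (Fin 2 ⊕ κ))) (S : Pts R (Fin 2 × κ))
    (hS : ∀ (C : Type) [CommRing C] [Algebra R C] (p : Fin 2 × κ → C), S.pts C p ↔
      (∀ e ∈ Z, dt (cv p) e.1 e.2 = 0) ∧ ∀ e ∈ U, IsUnit (dt (cv p) e.1 e.2)) :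
    Bij (cutf (dfn (Gd R (.inl 0) (.inl 1) Z ∅)) U fun _ => true) S
      (fun _ _ _ q e => ![q (.inl (.inr e.2)), q (.inr (.inr e.2))] e.1)
      (fun _ _ _ p => cv p) where
  natF f q _ e := by
    obtain ⟨i, j⟩ := e
    fin_cases i <;> rfl
  natG f p _ s := by
    rcases s with (a | j) | (a | j)
    · change f (if (0 : Fin 2) = a then 1 else 0) = if (0 : Fin 2) = a then 1 else 0
      split_ifs
      · exact map_one f
      · exact map_zero f
    · rfl
    · change f (if (1 : Fin 2) = a then 1 else 0) = if (1 : Fin 2) = a then 1 else 0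
      split_ifs
      · exact map_one f
      · exact map_zero f
    · rfl
  memF C _ _ q hq := by
    obtain ⟨⟨⟨h1, h2, h3, h4⟩, h5, -⟩, h6⟩ := hq
    have h7 : cv (fun e : Fin 2 × κ => ![q (.inl (.inr e.2)), q (.inr (.inr e.2))] e.1) = q := by
      funext s
      rcases s with (a | j) | (a | j)
      · fin_cases a
        · exact h1.symm
        · exact h3.symm
      · rfl
      · fin_cases a
        · exact h2.symm
        · exact h4.symm
      · rfl
    rw [hS, h7]
    exact ⟨h5, fun e he => (h6 e he).1 rfl⟩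
  memG C _ _ p hp := by
    rw [hS] at hp
    refine ⟨⟨⟨?_, ?_, ?_, ?_⟩, hp.1, fun e he => absurd he (Set.notMem_empty e)⟩, fun e he =>
      ⟨fun _ => hp.2 e he, fun h => absurd h (by simp)⟩⟩
    · simp [cv]
    · simp [cv]
    · simp [cv]
    · simp [cv]
  GF C _ _ q hq := by
    obtain ⟨⟨⟨h1, h2, h3, h4⟩, h5, -⟩, h6⟩ := hq
    funext s
    rcases s with (a | j) | (a | j)
    · fin_cases a
      · exact h1.symm
      · exact h3.symm
    · rfl
    · fin_cases a
      · exact h2.symm
      · exact h4.symm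
    · rfl
  FG C _ _ p _ := by
    funext ⟨i, j⟩
    fin_cases i <;> rfl

end

/-- **Thin Schubert cells of the Grassmannians of lines.** -/
theorem lin_cells (hP : ALin P) {n : ℕ} (Z U : Finset ((Fin 2 ⊕ Fin n) × (Fin 2 ⊕ Fin n))) :
    P (aff R (Closed2 R Z)) ∧ P (aff R (Cell2 R Z U)) := by
  have h0 : ∀ (C : Type) [CommRing C] [Algebra R C] (p : Fin 2 × Fin n → C),
      (zer {g | ∃ e ∈ Z, g = minor2 R e.1 e.2}).pts C p ↔ ∀ e ∈ Z, dt (cv p) e.1 e.2 = 0 := by
    intro C _ _ p
    constructor
    · intro h e he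
      have h1 := h _ ⟨e, he, rfl⟩
      rwa [aeval_minor2] at h1
    · rintro h g ⟨e, he, rfl⟩
      rw [aeval_minor2]
      exact h e he
  constructor
  · have h1 := hol_gd (R := R) hP (Sum.inl 0) (Sum.inl 1)
      (Z : Set ((Fin 2 ⊕ Fin n) × (Fin 2 ⊕ Fin n))) ∅ ∅
    refine aof_rep hP (h1.trans (bij_cv (R := R)
      (Z : Set ((Fin 2 ⊕ Fin n) × (Fin 2 ⊕ Fin n))) _ _ fun C _ _ p => ?_)) (rep_zer _)
    rw [h0]
    exact ⟨fun h => ⟨h, fun e he => absurd he (by simp)⟩, fun h => h.1⟩
  · let e : Fn (zer {g | ∃ e ∈ Z, g = minor2 R e.1 e.2}) :=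
      ⟨fun _ _ _ p => ∏ e ∈ U, dt (cv p) e.1 e.2, fun {C D} _ _ _ _ f p _ => by
        rw [map_prod]
        refine Finset.prod_congr rfl fun t _ => ?_
        rw [← aeval_minor2 (R := R), ← aeval_minor2 (R := R)]
        have h1 : (aeval fun s => f (p s) : MvPolynomial (Fin 2 × Fin n) R →ₐ[R] D) =
            f.comp (aeval p) := by
          apply MvPolynomial.algHom_ext
          intro s
          rw [aeval_X, AlgHom.comp_apply, aeval_X]
        rw [h1]
        rfl⟩
    have h1 := (rep_zer {g | ∃ e ∈ Z, g = minor2 R e.1 e.2}).opn e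
    have h2 : e.val (Closed2 R Z) (fun s => Ideal.Quotient.mkₐ R (Ideal.span
        {g | ∃ e ∈ Z, g = minor2 R e.1 e.2}) (X s)) =
        ∏ e ∈ U, (Ideal.Quotient.mk _ (minor2 R e.1 e.2) : Closed2 R Z) := by
      refine Finset.prod_congr rfl fun t _ => ?_
      rw [← aeval_minor2 (R := R)]
      have h1 : (aeval fun s => Ideal.Quotient.mkₐ R (Ideal.span
          {g | ∃ e ∈ Z, g = minor2 R e.1 e.2}) (X s) : MvPolynomial (Fin 2 × Fin n) R →ₐ[R] _) =
          Ideal.Quotient.mkₐ R (Ideal.span {g | ∃ e ∈ Z, g = minor2 R e.1 e.2}) := by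
        apply MvPolynomial.algHom_ext
        intro s
        rw [aeval_X]
      rw [h1]
      rfl
    have h3 : Hol P ((zer {g | ∃ e ∈ Z, g = minor2 R e.1 e.2}).opn e) := by
      have h1 := hol_gd (R := R) hP (Sum.inl 0) (Sum.inl 1)
        (Z : Set ((Fin 2 ⊕ Fin n) × (Fin 2 ⊕ Fin n))) ∅ U
      refine h1.trans (bij_cv (R := R) (Z : Set ((Fin 2 ⊕ Fin n) × (Fin 2 ⊕ Fin n)))
        (U : Set ((Fin 2 ⊕ Fin n) × (Fin 2 ⊕ Fin n))) _ fun C _ _ p => ?_)
      refine and_congr (h0 C p) ?_
      exact IsUnit.prod_iff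
    have h4 := aof_rep hP h3 h1
    rw [h2] at h4
    exact h4

section cel

/-- `P` is invariant under isomorphisms; for a closed subscheme `Z` of `X` with the open complement `U`
it is true for `X`, if it is true for `Z` and `U`, and for `U`, if it is true for `Z` and `X`; and it is
true for the affine spaces. -/
structure Cel {R : Type} [CommRing R] (sep : Prop) (P : Sch R → Prop) : Prop extends Glue sep P where
  opened : ∀ {Z X U : Sch R} (i : Z ⟶ X) (j : U ⟶ X), FT sep X → IsTriple i j → P Z → P X → P U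
  space : ∀ n : ℕ, P (aff R (MvPolynomial (Fin n) R))

/-- The property `P` is true for all products with affine spaces. -/
def AllA (P : Sch R → Prop) (Y : Sch R) : Prop :=
  ∀ (A : Type) [CommRing A] [Algebra R A] [Algebra.FiniteType R A], Nonempty (Y ≅ aff R A) →
    ∀ n : ℕ, P (aff R (MvPolynomial (Fin n) A))

variable {A B : Type} [CommRing A] [Algebra R A] [CommRing B] [Algebra R B]

/-- isomorphic affine schemes -/
lemma alg_of_iso (e : aff R A ≅ aff R B) : Nonempty (A ≃ₐ[R] B) := by
  have key : ∀ {A B : Type} [CommRing A] [Algebra R A] [CommRing B] [Algebra R B]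
      (f : aff R A ⟶ aff R B), ∃ φ : B →ₐ[R] A, f.left = Spec.map (CommRingCat.ofHom (φ : B →+* A)) := by
    intro A B _ _ _ _ f
    let g : CommRingCat.of B ⟶ CommRingCat.of A := Spec.preimage f.left
    have hg : Spec.map g = f.left := Spec.map_preimage f.left
    have h1 : f.left ≫ (aff R B).hom = (aff R A).hom := Over.w f
    have h2 : CommRingCat.ofHom (algebraMap R B) ≫ g = CommRingCat.ofHom (algebraMap R A) := by
      apply Spec.map_injective
      rw [Spec.map_comp, hg]
      exact h1
    refine ⟨{ g.hom with commutes' := fun r => ?_ }, hg.symm⟩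
    exact congrArg (fun k => k r) (congrArg CommRingCat.Hom.hom h2)
  obtain ⟨φ, hφ⟩ := key e.hom
  obtain ⟨ψ, hψ⟩ := key e.inv
  have h1 : Spec.map (CommRingCat.ofHom (φ : B →+* A)) ≫ Spec.map (CommRingCat.ofHom (ψ : A →+* B)) =
      𝟙 (Spec (CommRingCat.of A)) := by
    refine (congrArg₂ (fun (f : Spec (CommRingCat.of A) ⟶ Spec (CommRingCat.of B))
      (g : Spec (CommRingCat.of B) ⟶ Spec (CommRingCat.of A)) => f ≫ g) hφ.symm hψ.symm).trans ?_
    change (e.hom ≫ e.inv).left = (𝟙 (aff R A) : aff R A ⟶ aff R A).left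
    rw [e.hom_inv_id]
  have h2 : Spec.map (CommRingCat.ofHom (ψ : A →+* B)) ≫ Spec.map (CommRingCat.ofHom (φ : B →+* A)) =
      𝟙 (Spec (CommRingCat.of B)) := by
    refine (congrArg₂ (fun (f : Spec (CommRingCat.of B) ⟶ Spec (CommRingCat.of A))
      (g : Spec (CommRingCat.of A) ⟶ Spec (CommRingCat.of B)) => f ≫ g) hψ.symm hφ.symm).trans ?_
    change (e.inv ≫ e.hom).left = (𝟙 (aff R B) : aff R B ⟶ aff R B).left
    rw [e.inv_hom_id]
  have h3 : CommRingCat.ofHom (ψ : A →+* B) ≫ CommRingCat.ofHom (φ : B →+* A) =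
      𝟙 (CommRingCat.of A) := by
    apply Spec.map_injective
    rw [Spec.map_comp, h1, Spec.map_id]
  have h4 : CommRingCat.ofHom (φ : B →+* A) ≫ CommRingCat.ofHom (ψ : A →+* B) =
      𝟙 (CommRingCat.of B) := by
    apply Spec.map_injective
    rw [Spec.map_comp, h2, Spec.map_id]
  refine ⟨AlgEquiv.ofAlgHom ψ φ ?_ ?_⟩
  · apply AlgHom.ext
    intro x
    exact congrArg (fun k => k x) (congrArg CommRingCat.Hom.hom h4)
  · apply AlgHom.ext
    intro x
    exact congrArg (fun k => k x) (congrArg CommRingCat.Hom.hom h3)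

lemma allA_aff [Algebra.FiniteType R A] (hP : Glue sep P)
    (h : ∀ n : ℕ, P (aff R (MvPolynomial (Fin n) A))) : AllA P (aff R A) := by
  rintro B _ _ _ ⟨e⟩ n
  obtain ⟨f⟩ := alg_of_iso e
  have h1 : Algebra.FiniteType R (MvPolynomial (Fin n) A) :=
    Algebra.FiniteType.trans (S := A) inferInstance inferInstance
  exact glue_alg hP (MvPolynomial.mapAlgEquiv (Fin n) f) (h n)

lemma of_allA [Algebra.FiniteType R A] (hP : Glue sep P) (h : AllA P (aff R A)) : P (aff R A) := by
  have h1 := h A ⟨Iso.refl _⟩ 0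
  have h2 : Algebra.FiniteType R (MvPolynomial (Fin 0) A) :=
    Algebra.FiniteType.trans (S := A) inferInstance inferInstance
  exact glue_alg hP ((MvPolynomial.isEmptyAlgEquiv A (Fin 0)).restrictScalars R) h1

/-- polynomials over a quotient -/
lemma quo_poly (f : A) (n : ℕ) : Nonempty ((MvPolynomial (Fin n) A ⧸
    Ideal.span {(C f : MvPolynomial (Fin n) A)}) ≃ₐ[R] MvPolynomial (Fin n) (A ⧸ Ideal.span {f})) := by
  have h1 : Ideal.span {(C f : MvPolynomial (Fin n) A)} = (Ideal.span {f}).map C := by
    rw [Ideal.map_span, Set.image_singleton]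
  rw [h1]
  exact ⟨((MvPolynomial.quotientEquivQuotientMvPolynomial (σ := Fin n)
    (Ideal.span {f})).restrictScalars R).symm⟩

/-- polynomials over a localization -/
lemma loc_poly (f : A) (n : ℕ) : Nonempty (Localization.Away (C f : MvPolynomial (Fin n) A) ≃ₐ[R]
    MvPolynomial (Fin n) (Localization.Away f)) := by
  let i0 : Algebra (MvPolynomial (Fin n) A) (MvPolynomial (Fin n) (Localization.Away f)) :=
    MvPolynomial.algebraMvPolynomial
  have h1 : IsLocalization (Submonoid.powers (C f : MvPolynomial (Fin n) A))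
      (MvPolynomial (Fin n) (Localization.Away f)) := by
    have h2 := MvPolynomial.isLocalization (σ := Fin n) (Submonoid.powers f) (Localization.Away f)
    rwa [Submonoid.map_powers] at h2
  let e := IsLocalization.algEquiv (Submonoid.powers (C f : MvPolynomial (Fin n) A))
    (Localization.Away (C f : MvPolynomial (Fin n) A))
    (MvPolynomial (Fin n) (Localization.Away f))
  refine ⟨AlgEquiv.ofRingEquiv (f := e.toRingEquiv) fun r => ?_⟩
  have h3 : algebraMap R (Localization.Away (C f : MvPolynomial (Fin n) A)) r =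
      algebraMap (MvPolynomial (Fin n) A) _ (C (algebraMap R A r)) := by
    rw [IsScalarTower.algebraMap_apply R (MvPolynomial (Fin n) A)
      (Localization.Away (C f : MvPolynomial (Fin n) A))]
    rfl
  have h4 : e (algebraMap (MvPolynomial (Fin n) A) _ (C (algebraMap R A r))) =
      algebraMap (MvPolynomial (Fin n) A) (MvPolynomial (Fin n) (Localization.Away f))
        (C (algebraMap R A r)) := e.commutes _
  change e (algebraMap R _ r) = _
  rw [h3, h4]
  change MvPolynomial.map (algebraMap A (Localization.Away f)) (C (algebraMap R A r)) = _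
  rw [MvPolynomial.map_C]
  rfl

theorem alin_allA (hP : Cel sep P) : ALin (AllA P) where
  iso {A B} _ _ _ _ _ e h := by
    have h0 : Algebra.FiniteType R B := Algebra.FiniteType.equiv inferInstance e
    refine allA_aff hP.toGlue fun n => ?_
    have h1 : Algebra.FiniteType R (MvPolynomial (Fin n) A) :=
      Algebra.FiniteType.trans (S := A) inferInstance inferInstance
    exact glue_alg hP.toGlue (MvPolynomial.mapAlgEquiv (Fin n) e) (h A ⟨Iso.refl _⟩ n)
  total A _ _ _ f h1 h2 := by
    refine allA_aff hP.toGlue fun n => ?_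
    have i1 : Algebra.FiniteType R (MvPolynomial (Fin n) A) :=
      Algebra.FiniteType.trans (S := A) inferInstance inferInstance
    have i2 : Algebra.FiniteType R (Localization.Away f) :=
      Algebra.FiniteType.trans (S := A) inferInstance inferInstance
    have i3 : Algebra.FiniteType R (MvPolynomial (Fin n) (Localization.Away f)) :=
      Algebra.FiniteType.trans (S := Localization.Away f) inferInstance inferInstance
    have i4 : Algebra.FiniteType R (MvPolynomial (Fin n) (A ⧸ Ideal.span {f})) :=
      Algebra.FiniteType.trans (S := A ⧸ Ideal.span {f}) inferInstance inferInstance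
    obtain ⟨e1⟩ := quo_poly (R := R) f n
    obtain ⟨e2⟩ := loc_poly (R := R) f n
    exact hP.total _ _ (ft_aff sep) (triple_away (C f : MvPolynomial (Fin n) A))
      (glue_alg hP.toGlue e1.symm (h1 _ ⟨Iso.refl _⟩ n))
      (glue_alg hP.toGlue e2.symm (h2 _ ⟨Iso.refl _⟩ n))
  opened A _ _ _ f h1 h2 := by
    have i2 : Algebra.FiniteType R (Localization.Away f) :=
      Algebra.FiniteType.trans (S := A) inferInstance inferInstance
    refine allA_aff hP.toGlue fun n => ?_
    have i1 : Algebra.FiniteType R (MvPolynomial (Fin n) A) :=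
      Algebra.FiniteType.trans (S := A) inferInstance inferInstance
    have i4 : Algebra.FiniteType R (MvPolynomial (Fin n) (A ⧸ Ideal.span {f})) :=
      Algebra.FiniteType.trans (S := A ⧸ Ideal.span {f}) inferInstance inferInstance
    have i5 : Algebra.FiniteType R (Localization.Away (C f : MvPolynomial (Fin n) A)) :=
      Algebra.FiniteType.trans (S := MvPolynomial (Fin n) A) inferInstance inferInstance
    obtain ⟨e1⟩ := quo_poly (R := R) f n
    obtain ⟨e2⟩ := loc_poly (R := R) f n
    exact glue_alg hP.toGlue e2 (hP.opened _ _ (ft_aff sep)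
      (triple_away (C f : MvPolynomial (Fin n) A))
      (glue_alg hP.toGlue e1.symm (h1 _ ⟨Iso.refl _⟩ n)) (h2 _ ⟨Iso.refl _⟩ n))
  line A _ _ _ h := by
    have i0 : Algebra.FiniteType R (Polynomial A) :=
      Algebra.FiniteType.trans (S := A) inferInstance inferInstance
    refine allA_aff hP.toGlue fun n => ?_
    have h1 := h _ ⟨Iso.refl _⟩ (n + 1)
    have i1 : Algebra.FiniteType R (MvPolynomial (Fin (n + 1)) A) :=
      Algebra.FiniteType.trans (S := A) inferInstance inferInstance
    have e1 : MvPolynomial (Fin (n + 1)) A ≃ₐ[A] MvPolynomial (Option (Fin n)) A :=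
      MvPolynomial.renameEquiv A (finSuccEquiv n)
    have e2 : MvPolynomial (Option (Fin n)) A ≃ₐ[A] MvPolynomial (Fin n) (Polynomial A) :=
      MvPolynomial.optionEquivRight A (Fin n)
    exact glue_alg hP.toGlue ((e1.trans e2).restrictScalars R) h1
  point := allA_aff hP.toGlue fun n => hP.space n

end cel

section theories

/-- the closure properties used for the theories imply the weaker ones -/
theorem cel_of_bnd (hP : Bnd sep P) : Cel sep P where
  iso := hP.iso
  total := hP.total
  opened := hP.opened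
  space := hP.space

/-- **Sections of the cones over the Grassmannians of lines by coordinate hyperplanes.** -/
theorem cel_lines (hP : Cel sep P) {n : ℕ} (Z U : Finset (Fin n × Fin n)) :
    P (aff R (Pl R Z ∅)) ∧ P (aff R (Localization.Away (plProd R Z U))) := by
  have h := lin_lines (alin_allA hP) Z U
  have i2 : Algebra.FiniteType R (Localization.Away (plProd R Z U)) :=
    Algebra.FiniteType.trans (S := Pl R Z ∅) inferInstance inferInstance
  exact ⟨of_allA hP.toGlue h.1, of_allA hP.toGlue h.2⟩

/-- **Thin Schubert cells of the Grassmannians of lines.** -/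
theorem cel_cells (hP : Cel sep P) {n : ℕ} (Z U : Finset ((Fin 2 ⊕ Fin n) × (Fin 2 ⊕ Fin n))) :
    P (aff R (Closed2 R Z)) ∧ P (aff R (Cell2 R Z U)) := by
  have h := lin_cells (alin_allA hP) Z U
  have i2 : Algebra.FiniteType R (Cell2 R Z U) :=
    Algebra.FiniteType.trans (S := Closed2 R Z) inferInstance inferInstance
  exact ⟨of_allA hP.toGlue h.1, of_allA hP.toGlue h.2⟩

/-- **Matrices of rank at most two with prescribed zeros.** -/
theorem cel_rank_two (hP : Cel sep P) : OnRank 2 P := fun m n Z =>
  of_allA hP.toGlue (lin_rank_two (alin_allA hP) m n Z)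

/-- **Matrices of rank at most two with prescribed zeros.** -/
theorem cel_cp (hP : Cel sep P) {m n : ℕ} (Z : Finset (Fin m × Fin n)) : P (aff R (Cp R Z ∅)) :=
  of_allA hP.toGlue (lin_cp (alin_allA hP) Z)

/-- The coordinate sections of the cones over the Grassmannians of lines and their open parts, where some
coordinates are invertible, and the schemes of the matrices of rank at most two with prescribed zeros:
no entry is prescribed to be one. -/
def Coord (Y : Sch R) : Prop :=
  (∃ (n : ℕ) (Z : Finset (Fin n × Fin n)), Y = aff R (Pl R Z ∅)) ∨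
  (∃ (n : ℕ) (Z U : Finset (Fin n × Fin n)), Y = aff R (Localization.Away (plProd R Z U))) ∨
  ∃ (m n : ℕ) (Z : Finset (Fin m × Fin n)), Y = aff R (Cp R Z ∅)

/-- `X` is obtained from members of the family `F` by gluing a closed and an open part, finitely often. -/
def Built (sep : Prop) (F : Sch R → Prop) (X : Sch R) : Prop :=
  ∀ P : Sch R → Prop, Glue sep P → (∀ Y, F Y → P Y) → P X

/-- **Everything built from coordinate sections.** -/
theorem cel_built (hP : Cel sep P) {X : Sch R} (h : Built sep Coord X) : P X := by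
  refine h P hP.toGlue ?_
  rintro Y (⟨n, Z, rfl⟩ | ⟨n, Z, U, rfl⟩ | ⟨m, n, Z, rfl⟩)
  · exact (cel_lines hP Z ∅).1
  · exact (cel_lines hP Z U).2
  · exact cel_cp hP Z

end theories

end Pool.Agent.H68.RT
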