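import Pool.Agent.H68.RT.Mat

/-!
# Matrices of rank at most two with prescribed entries zero and one decide everything
-/

set_option autoImplicit false
set_option linter.unusedSectionVars false
set_option linter.unusedVariables false

open CategoryTheory AlgebraicGeometry MvPolynomial Pool.Agent.Y116.UV Pool.Agent.Q193.LT
  Pool.Agent.Q282.UK Pool.Agent.H81.RZ

namespace Pool.Agent.H68.RT

variable {R : Type} [CommRing R]

section reindex

variable {ι κ ι' κ' : Type}

lemma bij_rx (k : ℕ) (Z N : Set (ι × κ)) (e : ι ≃ ι') (f : κ ≃ κ') :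
    Bij (MS R k {x : ι' × κ' | (e.symm x.1, f.symm x.2) ∈ Z} ∅ {x | (e.symm x.1, f.symm x.2) ∈ N})
      (MS R k Z ∅ N)
      (fun _ _ _ p x => p (e x.1, f x.2)) (fun _ _ _ p x => p (e.symm x.1, f.symm x.2)) where
  natF _ _ _ _ := rfl
  natG _ _ _ _ := rfl
  memF C _ _ p h := by
    obtain ⟨h1, h2, -, h4⟩ := h
    refine ⟨fun ρ γ => h1 (fun a => e (ρ a)) fun b => f (γ b), fun x hx => ?_,
      fun x hx => absurd hx (Set.notMem_empty x), fun x hx => ?_⟩
    · apply h2
      change (e.symm (e x.1), f.symm (f x.2)) ∈ Z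
      rwa [Equiv.symm_apply_apply, Equiv.symm_apply_apply]
    · apply h4
      change (e.symm (e x.1), f.symm (f x.2)) ∈ N
      rwa [Equiv.symm_apply_apply, Equiv.symm_apply_apply]
  memG C _ _ p h := by
    obtain ⟨h1, h2, -, h4⟩ := h
    exact ⟨fun ρ γ => h1 (fun a => e.symm (ρ a)) fun b => f.symm (γ b), fun x hx => h2 _ hx,
      fun x hx => absurd hx (Set.notMem_empty x), fun x hx => h4 _ hx⟩
  GF C _ _ p _ := by
    funext x
    change p (e (e.symm x.1), f (f.symm x.2)) = p x
    rw [Equiv.apply_symm_apply, Equiv.apply_symm_apply]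
  FG C _ _ p _ := by
    funext x
    change p (e.symm (e x.1), f.symm (f x.2)) = p x
    rw [Equiv.symm_apply_apply, Equiv.symm_apply_apply]

end reindex

section

variable {ι κ : Type}

lemma zer_cp (k : ℕ) (Z N : Set (ι × κ)) (C : Type) [CommRing C] [Algebra R C] (p : ι × κ → C) :
    (zer (cpEqs R k Z N)).pts C p ↔ (MS R k Z ∅ N).pts C p := by
  constructor
  · intro h
    obtain ⟨h1, h2, h3, -⟩ := (zer_rk k Z C p).mp fun g hg => h g (Or.inl hg)
    refine ⟨h1, h2, h3, fun e he => ?_⟩
    have h4 := h _ (Or.inr ⟨e, he, rfl⟩)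
    rw [map_sub, aeval_X, map_one, sub_eq_zero] at h4
    exact h4
  · rintro ⟨h1, h2, h3, h4⟩ g (hg | ⟨e, he, rfl⟩)
    · exact (zer_rk k Z C p).mpr ⟨h1, h2, h3, fun e he => absurd he (Set.notMem_empty e)⟩ g hg
    · rw [map_sub, aeval_X, map_one, h4 e he, sub_self]

variable {P : Sch R → Prop}

/-- the family, for arbitrary finite sets of rows and columns -/
lemma hol_cp (h : OnRankTwo P) [Finite ι] [Finite κ] (Z N : Set (ι × κ)) :
    Hol P (MS R 2 Z ∅ N) := by
  classical
  have : Fintype ι := Fintype.ofFinite ι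
  have : Fintype κ := Fintype.ofFinite κ
  let e := Fintype.equivFin ι
  let f := Fintype.equivFin κ
  refine Hol.trans ?_ (bij_rx 2 Z N e f)
  let Z' : Finset (Fin (Fintype.card ι) × Fin (Fintype.card κ)) :=
    Finset.univ.filter fun x => (e.symm x.1, f.symm x.2) ∈ Z
  let N' : Finset (Fin (Fintype.card ι) × Fin (Fintype.card κ)) :=
    Finset.univ.filter fun x => (e.symm x.1, f.symm x.2) ∈ N
  have h1 : (Z' : Set (Fin (Fintype.card ι) × Fin (Fintype.card κ))) =
      {x | (e.symm x.1, f.symm x.2) ∈ Z} := by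
    ext x
    simp [Z']
  have h2 : (N' : Set (Fin (Fintype.card ι) × Fin (Fintype.card κ))) =
      {x | (e.symm x.1, f.symm x.2) ∈ N} := by
    ext x
    simp [N']
  rw [← h1, ← h2]
  exact Hol.congr (fun C _ _ p => zer_cp 2 _ _ C p)
    ⟨_, inferInstance, inferInstance, inferInstance, _, rep_zer _, h _ _ Z' N'⟩

end

/-- Every property which is invariant under isomorphisms and closed under gluing a closed and an open
part is true for all schemes of finite type as soon as it is true for the schemes of matrices of rank at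
most two with prescribed entries zero and one. -/
theorem glue_rank_two [IsNoetherianRing R] (hR : Frac R) {sep : Prop} {P : Sch R → Prop}
    (hP : Glue sep P) : OnAll sep P ↔ OnRankTwo P := by
  constructor
  · intro h m n Z N
    exact h _ (ft_aff sep)
  · intro h X hX
    exact all_of_cutp hR hP (fun V E _ _ _ _ Y σ => (hol_cp h _ _).trans (bij_mt Y σ R)) X hX

end Pool.Agent.H68.RT
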