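import Pool.Agent.H68.RT.Glue

/-!
# Systems of additions and multiplications inside matrices of rank at most two
-/

set_option autoImplicit false
set_option linter.unusedSectionVars false
set_option linter.unusedVariables false

open CategoryTheory AlgebraicGeometry MvPolynomial Pool.Agent.Y116.UV Pool.Agent.Q193.LT
  Pool.Agent.Q282.UK Pool.Agent.H81.RZ

namespace Pool.Agent.H68.RT

section inv

variable {C D : Type} [CommRing C] [CommRing D]

lemma inv_nat (f : C →+* D) {u : C} (h : IsUnit u ∨ u = 0) :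
    f (Ring.inverse u) = Ring.inverse (f u) := by
  rcases h with h | rfl
  · exact map_inverse_of_isUnit f h
  · rw [Ring.inverse_zero, map_zero, Ring.inverse_zero]

lemma inv_of_mul {u w : C} (h : u * w = 1) : w = Ring.inverse u := by
  have hu : IsUnit u := IsUnit.of_mul_eq_one w h
  calc w = Ring.inverse u * (u * w) := by rw [← mul_assoc, Ring.inverse_mul_cancel _ hu, one_mul]
    _ = Ring.inverse u := by rw [h, mul_one]

end inv

/-- the rows -/
inductive Ro (V : Type) : Type
  | D (a : Fin 2)
  | x (t : V)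
  | g (t : V)
  | h (t : V)
  deriving DecidableEq, Fintype

/-- the columns -/
inductive Co (V E : Type) : Type
  | D (a : Fin 2)
  | x (t : V)
  | w (t : V)
  | c (e : E)
  deriving DecidableEq, Fintype

variable {V E : Type}

/-- the vectors of the rows -/
noncomputable def ro {C : Type} [CommRing C] (x : V → C) : Ro V → Fin 2 → C
  | .D a, b => if a = b then 1 else 0
  | .x t, i => ![1, -x t] i
  | .g t, i => ![0, x t] i
  | .h t, i => ![Ring.inverse (x t), 0] i

/-- the vectors of the columns -/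
noncomputable def co {C : Type} [CommRing C] (Y : Sys V E) (x : V → C) : Co V E → Fin 2 → C
  | .D a, b => if a = b then 1 else 0
  | .x t, i => ![x t, 1] i
  | .w t, i => ![1, Ring.inverse (x t)] i
  | .c e, i => ![Ring.inverse (x (Y.a e)) * x (Y.c e), Ring.inverse (x (Y.a e))] i

variable (Y : Sys V E) (σ : V → Bool)

/-- the zeros -/
def zz : Ro V → Co V E → Prop
  | .D a, .D b => a ≠ b
  | .D 0, .x t => σ t = false ∨ ∃ e, Y.k e = false ∧ Y.c e = t ∧ (σ (Y.a e) = false ∨ σ (Y.b e) = false)
  | .D 1, .w t => σ t = false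
  | .x t, .w t' => t = t' ∧ σ t = true
  | .g _, .D 0 => True
  | .g t, .D 1 => σ t = false
  | .h _, .D 1 => True
  | .h t, .D 0 => σ t = false
  | .x t, .x t' => t = t' ∨ ∃ e, Y.k e = true ∧ σ (Y.a e) = false ∧ Y.b e = t ∧ Y.c e = t'
  | .x t, .c e => t = Y.c e
  | .D _, .c e => σ (Y.a e) = false
  | _, _ => False

/-- the ones -/
def nn : Ro V → Co V E → Prop
  | .D a, .D b => a = b
  | .x _, .D 0 => True
  | .x t, .D 1 => t = Y.o
  | .D 1, .x _ => True
  | .D 0, .w _ => True
  | .g t, .w t' => t = t' ∧ σ t = true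
  | .h t, .x t' => t = t' ∧ σ t = true
  | .g t, .c e => t = Y.a e ∧ σ t = true
  | .x t, .c e => Y.k e = true ∧ σ (Y.a e) = true ∧ t = Y.b e
  | .h t, .c e => Y.k e = false ∧ σ (Y.a e) = true ∧ σ t = true ∧ t = Y.b e
  | _, _ => False

section

variable {C : Type} [CommRing C] (x : V → C)

/-- the matrix -/
noncomputable def mt (e : Ro V × Co V E) : C := ∑ a, ro x e.1 a * co Y x e.2 a

lemma mt_Dl (a : Fin 2) (c : Co V E) : mt Y x (.D a, c) = co Y x c a := by
  change ∑ b, (if a = b then 1 else 0) * co Y x c b = _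
  simp

lemma mt_Dr (a : Fin 2) (r : Ro V) : mt Y x (r, .D a) = ro x r a := by
  change ∑ b, ro x r b * (if a = b then 1 else 0) = _
  simp

lemma mt_rank : RankLe 2 (mt Y x : Ro V × Co V E → C) :=
  rankLe_mul (by simp) (ro x) (co Y x)

variable (hx : x Y.o = -1) (hY : ∀ e, (if Y.k e then x (Y.a e) + x (Y.b e) else
    x (Y.a e) * x (Y.b e)) = x (Y.c e)) (h1 : ∀ t, σ t = true → IsUnit (x t))
    (h0 : ∀ t, σ t = false → x t = 0)

include hx hY h1 h0

lemma c_zero {e : E} (h : Y.k e = false) (h2 : σ (Y.a e) = false ∨ σ (Y.b e) = false) :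
    x (Y.c e) = 0 := by
  have h3 := hY e
  rw [if_neg (by simp [h])] at h3
  rw [← h3]
  rcases h2 with h2 | h2
  · rw [h0 _ h2, zero_mul]
  · rw [h0 _ h2, mul_zero]

lemma mt_zero (r : Ro V) (c : Co V E) (h : zz Y σ r c) : mt Y x (r, c) = 0 := by
  cases r with
  | D a =>
    rw [mt_Dl]
    cases c with
    | D b =>
      have h2 : b ≠ a := fun h3 => h h3.symm
      simp [co, h2]
    | x t =>
      fin_cases a
      · rcases h with h | ⟨e, h2, rfl, h3⟩
        · exact h0 t h
        · exact c_zero Y σ x hx hY h1 h0 h2 h3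
      · exact absurd h (by simp [zz])
    | w t =>
      fin_cases a
      · exact absurd h (by simp [zz])
      · change Ring.inverse (x t) = 0
        rw [h0 t h, Ring.inverse_zero]
    | c e =>
      have h2 : x (Y.a e) = 0 := by
        apply h0
        fin_cases a <;> exact h
      fin_cases a
      · change Ring.inverse (x (Y.a e)) * x (Y.c e) = 0
        rw [h2, Ring.inverse_zero, zero_mul]
      · change Ring.inverse (x (Y.a e)) = 0
        rw [h2, Ring.inverse_zero]
  | x t =>
    cases c with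
    | D b => fin_cases b <;> exact absurd h (by simp [zz])
    | x t' =>
      have h2 : mt Y x (.x t, .x t') = x t' - x t := by
        simp [mt, ro, co]
        ring
      rw [h2]
      rcases h with rfl | ⟨e, h3, h4, rfl, rfl⟩
      · exact sub_self _
      · have h5 := hY e
        rw [if_pos h3, h0 _ h4, zero_add] at h5
        rw [h5, sub_self]
    | w t' =>
      obtain ⟨rfl, h2⟩ := h
      have h3 := Ring.mul_inverse_cancel _ (h1 t h2)
      simp [mt, ro, co]
      linear_combination -h3
    | c e =>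
      have h2 : t = Y.c e := h
      subst h2
      simp [mt, ro, co]
      ring
  | g t =>
    cases c with
    | D b =>
      rw [mt_Dr]
      fin_cases b
      · rfl
      · exact h0 t h
    | _ => exact absurd h (by simp [zz])
  | h t =>
    cases c with
    | D b =>
      rw [mt_Dr]
      fin_cases b
      · change Ring.inverse (x t) = 0
        have h2 : σ t = false := h
        rw [h0 t h2, Ring.inverse_zero]
      · rfl
    | _ => exact absurd h (by simp [zz])

lemma mt_one (r : Ro V) (c : Co V E) (h : nn Y σ r c) : mt Y x (r, c) = 1 := by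
  cases r with
  | D a =>
    rw [mt_Dl]
    cases c with
    | D b =>
      have h2 : a = b := h
      simp [co, h2]
    | x t =>
      fin_cases a
      · exact absurd h (by simp [nn])
      · rfl
    | w t =>
      fin_cases a
      · rfl
      · exact absurd h (by simp [nn])
    | c e => fin_cases a <;> exact absurd h (by simp [nn])
  | x t =>
    cases c with
    | D b =>
      rw [mt_Dr]
      fin_cases b
      · rfl
      · have h2 : t = Y.o := h
        change -x t = 1
        rw [h2, hx, neg_neg]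
    | x t' => exact absurd h (by simp [nn])
    | w t' => exact absurd h (by simp [nn])
    | c e =>
      obtain ⟨h2, h3, rfl⟩ := h
      have h4 := Ring.inverse_mul_cancel _ (h1 _ h3)
      have h5 := hY e
      rw [if_pos h2] at h5
      simp [mt, ro, co]
      linear_combination h4 - Ring.inverse (x (Y.a e)) * h5
  | g t =>
    cases c with
    | w t' =>
      obtain ⟨rfl, h2⟩ := h
      have h3 := Ring.mul_inverse_cancel _ (h1 t h2)
      simp [mt, ro, co]
      linear_combination h3
    | c e =>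
      obtain ⟨rfl, h2⟩ := h
      have h3 := Ring.mul_inverse_cancel _ (h1 _ h2)
      simp [mt, ro, co]
      linear_combination h3
    | D b => fin_cases b <;> exact absurd h (by simp [nn])
    | _ => exact absurd h (by simp [nn])
  | h t =>
    cases c with
    | x t' =>
      obtain ⟨rfl, h2⟩ := h
      have h3 := Ring.inverse_mul_cancel _ (h1 t h2)
      simp [mt, ro, co]
      linear_combination h3
    | c e =>
      obtain ⟨h2, h3, h4, rfl⟩ := h
      have h5 := Ring.inverse_mul_cancel _ (h1 _ h3)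
      have h6 := Ring.inverse_mul_cancel _ (h1 _ h4)
      have h7 := hY e
      rw [if_neg (by simp [h2])] at h7
      simp [mt, ro, co]
      rw [← h7]
      linear_combination h5 * (Ring.inverse (x (Y.b e)) * x (Y.b e)) + h6
    | D b => fin_cases b <;> exact absurd h (by simp [nn])
    | _ => exact absurd h (by simp [nn])

end

section

variable {C : Type} [CommRing C] {p : Ro V × Co V E → C}
  (hr : RankLe 2 p) (hz : ∀ r c, zz Y σ r c → p (r, c) = 0) (ht : ∀ r c, nn Y σ r c → p (r, c) = 1)

include hr hz ht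

lemma q_expand (r : Ro V) (c : Co V E) : p (r, c) =
    p (r, .D 0) * p (.D 0, c) + p (r, .D 1) * p (.D 1, c) := by
  have h1 := RankLe.expand (δ := Fin 2) (by simp) hr Ro.D Co.D (fun a b => by
    split_ifs with h
    · exact ht _ _ h
    · exact hz _ _ h) r c
  rw [h1, Fin.sum_univ_two]

lemma q_x (t : V) : p (.x t, .D 1) = -p (.D 0, .x t) := by
  have h := q_expand Y σ hr hz ht (.x t) (.x t)
  rw [hz (.x t) (.x t) (Or.inl rfl), ht (.x t) (.D 0) trivial, ht (.D 1) (.x t) trivial] at h
  linear_combination -h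

lemma q_o : p (.D 0, .x Y.o) = -1 := by
  have h := q_x Y σ hr hz ht Y.o
  rw [ht (.x Y.o) (.D 1) rfl] at h
  linear_combination h

lemma q_0 (t : V) (h : σ t = false) : p (.D 0, .x t) = 0 := hz _ _ (Or.inl h)

lemma q_w1 (t : V) (h : σ t = true) : p (.D 0, .x t) * p (.D 1, .w t) = 1 := by
  have h1 := q_expand Y σ hr hz ht (.x t) (.w t)
  rw [hz (.x t) (.w t) ⟨rfl, h⟩, ht (.x t) (.D 0) trivial, ht (.D 0) (.w t) trivial,
    q_x Y σ hr hz ht] at h1
  linear_combination h1

lemma q_unit (t : V) (h : σ t = true) : IsUnit (p (.D 0, .x t)) :=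
  IsUnit.of_mul_eq_one _ (q_w1 Y σ hr hz ht t h)

lemma q_w (t : V) : p (.D 1, .w t) = Ring.inverse (p (.D 0, .x t)) := by
  rcases h : σ t with _ | _
  · rw [q_0 Y σ hr hz ht t h, Ring.inverse_zero]
    exact hz _ _ h
  · exact inv_of_mul (q_w1 Y σ hr hz ht t h)

lemma q_g (t : V) : p (.g t, .D 1) = p (.D 0, .x t) := by
  rcases h : σ t with _ | _
  · rw [q_0 Y σ hr hz ht t h]
    exact hz _ _ h
  · have h1 := q_expand Y σ hr hz ht (.g t) (.w t)
    rw [ht (.g t) (.w t) ⟨rfl, h⟩, hz (.g t) (.D 0) trivial] at h1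
    have h2 := q_w1 Y σ hr hz ht t h
    linear_combination -(p (.g t, .D 1) * h2) - p (.D 0, .x t) * h1

lemma q_h (t : V) : p (.h t, .D 0) = Ring.inverse (p (.D 0, .x t)) := by
  rcases h : σ t with _ | _
  · rw [q_0 Y σ hr hz ht t h, Ring.inverse_zero]
    exact hz _ _ h
  · have h1 := q_expand Y σ hr hz ht (.h t) (.x t)
    rw [ht (.h t) (.x t) ⟨rfl, h⟩, hz (.h t) (.D 1) trivial] at h1
    apply inv_of_mul
    linear_combination -h1

lemma q_c2 (e : E) : p (.D 1, .c e) = Ring.inverse (p (.D 0, .x (Y.a e))) := by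
  rcases h : σ (Y.a e) with _ | _
  · rw [q_0 Y σ hr hz ht _ h, Ring.inverse_zero]
    exact hz (.D 1) (.c e) h
  · have h1 := q_expand Y σ hr hz ht (.g (Y.a e)) (.c e)
    rw [ht (.g (Y.a e)) (.c e) ⟨rfl, h⟩, hz (.g (Y.a e)) (.D 0) trivial, q_g Y σ hr hz ht] at h1
    apply inv_of_mul
    linear_combination -h1

lemma q_c1 (e : E) : p (.D 0, .c e) =
    Ring.inverse (p (.D 0, .x (Y.a e))) * p (.D 0, .x (Y.c e)) := by
  have h1 := q_expand Y σ hr hz ht (.x (Y.c e)) (.c e)
  rw [hz (.x (Y.c e)) (.c e) rfl, ht (.x (Y.c e)) (.D 0) trivial, q_x Y σ hr hz ht,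
    q_c2 Y σ hr hz ht] at h1
  linear_combination -h1

lemma q_eq (e : E) : (if Y.k e then p (.D 0, .x (Y.a e)) + p (.D 0, .x (Y.b e)) else
    p (.D 0, .x (Y.a e)) * p (.D 0, .x (Y.b e))) = p (.D 0, .x (Y.c e)) := by
  rcases hk : Y.k e with _ | _
  · rw [if_neg (by simp)]
    rcases ha : σ (Y.a e) with _ | _
    · rw [q_0 Y σ hr hz ht _ ha, zero_mul]
      exact (hz (.D 0) (.x (Y.c e)) (Or.inr ⟨e, hk, rfl, Or.inl ha⟩)).symm
    · rcases hb : σ (Y.b e) with _ | _
      · rw [q_0 Y σ hr hz ht _ hb, mul_zero]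
        exact (hz (.D 0) (.x (Y.c e)) (Or.inr ⟨e, hk, rfl, Or.inr hb⟩)).symm
      · have h1 := q_expand Y σ hr hz ht (.h (Y.b e)) (.c e)
        rw [ht (.h (Y.b e)) (.c e) ⟨hk, ha, hb, rfl⟩, hz (.h (Y.b e)) (.D 1) trivial,
          q_h Y σ hr hz ht, q_c1 Y σ hr hz ht] at h1
        have h2 := Ring.inverse_mul_cancel _ (q_unit Y σ hr hz ht _ ha)
        have h3 := Ring.inverse_mul_cancel _ (q_unit Y σ hr hz ht _ hb)
        generalize p (.D 0, .x (Y.a e)) = u at *
        generalize p (.D 0, .x (Y.b e)) = v at *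
        generalize p (.D 0, .x (Y.c e)) = z at *
        linear_combination u * v * h1 + z * (Ring.inverse v * v) * h2 + z * h3
  · rw [if_pos rfl]
    rcases ha : σ (Y.a e) with _ | _
    · rw [q_0 Y σ hr hz ht _ ha, zero_add]
      have h1 := q_expand Y σ hr hz ht (.x (Y.b e)) (.x (Y.c e))
      rw [hz (.x (Y.b e)) (.x (Y.c e)) (Or.inr ⟨e, hk, ha, rfl, rfl⟩), ht (.x (Y.b e)) (.D 0) trivial,
        ht (.D 1) (.x (Y.c e)) trivial, q_x Y σ hr hz ht] at h1
      linear_combination h1
    · have h1 := q_expand Y σ hr hz ht (.x (Y.b e)) (.c e)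
      rw [ht (.x (Y.b e)) (.c e) ⟨hk, ha, rfl⟩, ht (.x (Y.b e)) (.D 0) trivial,
        q_x Y σ hr hz ht, q_c1 Y σ hr hz ht, q_c2 Y σ hr hz ht] at h1
      have h2 := Ring.inverse_mul_cancel _ (q_unit Y σ hr hz ht _ ha)
      generalize p (.D 0, .x (Y.a e)) = u at *
      generalize p (.D 0, .x (Y.b e)) = v at *
      generalize p (.D 0, .x (Y.c e)) = z at *
      linear_combination u * h1 + (z - v) * h2

lemma q_rows (r : Ro V) (a : Fin 2) : p (r, .D a) = ro (fun t => p (.D 0, .x t)) r a := by
  cases r with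
  | D b =>
    by_cases h : b = a
    · rw [ht (.D b) (.D a) h]
      simp [ro, h]
    · rw [hz (.D b) (.D a) h]
      simp [ro, h]
  | x t =>
    fin_cases a
    · exact ht (.x t) (.D 0) trivial
    · exact q_x Y σ hr hz ht t
  | g t =>
    fin_cases a
    · exact hz (.g t) (.D 0) trivial
    · exact q_g Y σ hr hz ht t
  | h t =>
    fin_cases a
    · exact q_h Y σ hr hz ht t
    · exact hz (.h t) (.D 1) trivial

lemma q_cols (c : Co V E) (a : Fin 2) : p (.D a, c) = co Y (fun t => p (.D 0, .x t)) c a := by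
  cases c with
  | D b =>
    by_cases h : a = b
    · rw [ht (.D a) (.D b) h]
      simp [co, h]
    · rw [hz (.D a) (.D b) h]
      have h' : b ≠ a := fun h2 => h h2.symm
      simp [co, h']
  | x t =>
    fin_cases a
    · rfl
    · exact ht (.D 1) (.x t) trivial
  | w t =>
    fin_cases a
    · exact ht (.D 0) (.w t) trivial
    · exact q_w Y σ hr hz ht t
  | c e =>
    fin_cases a
    · exact q_c1 Y σ hr hz ht e
    · exact q_c2 Y σ hr hz ht e

lemma q_mt : p = mt Y fun t => p (.D 0, .x t) := by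
  funext ⟨r, c⟩
  rw [RankLe.expand (δ := Fin 2) (by simp) hr Ro.D Co.D (fun a b => by
    split_ifs with h
    · exact ht _ _ h
    · exact hz _ _ h) r c]
  apply Finset.sum_congr rfl
  intro a _
  rw [q_rows Y σ hr hz ht, q_cols Y σ hr hz ht]

end

/-- The matrices of rank at most two with the prescribed zeros and ones are the solutions of the system,
the variables of which are invertible or zero as prescribed. -/
lemma bij_mt (R : Type) [CommRing R] : Bij (MS R 2 {e : Ro V × Co V E | zz Y σ e.1 e.2} ∅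
      {e | nn Y σ e.1 e.2}) (cutp (slp R Y) Set.univ σ)
      (fun _ _ _ p t => p (.D 0, .x t)) (fun _ _ _ x => mt Y x) where
  natF f p _ t := rfl
  natG {C D} _ _ _ _ f x hx e := by
    have h0 : ∀ t, IsUnit (x t) ∨ x t = 0 := by
      intro t
      rcases h : σ t with _ | _
      · exact Or.inr ((hx.2 t trivial).2 h)
      · exact Or.inl ((hx.2 t trivial).1 h)
    have h3 : ∀ t, f (Ring.inverse (x t)) = Ring.inverse (f (x t)) := fun t =>
      inv_nat (f : C →+* D) (h0 t)
    have h1 : ∀ (r : Ro V) a, f (ro x r a) = ro (fun t => f (x t)) r a := by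
      intro r a
      cases r with
      | D b =>
        change f (if b = a then 1 else 0) = if b = a then 1 else 0
        split_ifs
        · exact map_one f
        · exact map_zero f
      | _ => fin_cases a <;> simp [ro, h3]
    have h2 : ∀ (c : Co V E) a, f (co Y x c a) = co Y (fun t => f (x t)) c a := by
      intro c a
      cases c with
      | D b =>
        change f (if b = a then 1 else 0) = if b = a then 1 else 0
        split_ifs
        · exact map_one f
        · exact map_zero f
      | _ => fin_cases a <;> simp [co, h3]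
    rw [mt, map_sum]
    apply Finset.sum_congr rfl
    intro a _
    rw [map_mul, h1, h2]
  memF C _ _ p h := by
    obtain ⟨h1, h2, -, h4⟩ := h
    have hz : ∀ r c, zz Y σ r c → p (r, c) = 0 := fun r c hrc => h2 (r, c) hrc
    have ht : ∀ r c, nn Y σ r c → p (r, c) = 1 := fun r c hrc => h4 (r, c) hrc
    exact ⟨⟨q_o Y σ h1 hz ht, q_eq Y σ h1 hz ht⟩,
      fun t _ => ⟨q_unit Y σ h1 hz ht t, q_0 Y σ h1 hz ht t⟩⟩
  memG C _ _ x h := by
    have h1 : ∀ t, σ t = true → IsUnit (x t) := fun t => (h.2 t trivial).1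
    have h0 : ∀ t, σ t = false → x t = 0 := fun t => (h.2 t trivial).2
    exact ⟨mt_rank Y x, fun e he => mt_zero Y σ x h.1.1 h.1.2 h1 h0 e.1 e.2 he,
      fun e he => absurd he (Set.notMem_empty e),
      fun e he => mt_one Y σ x h.1.1 h.1.2 h1 h0 e.1 e.2 he⟩
  GF C _ _ p h := by
    obtain ⟨h1, h2, -, h4⟩ := h
    exact (q_mt Y σ h1 (fun r c hrc => h2 (r, c) hrc) fun r c hrc => h4 (r, c) hrc).symm
  FG C _ _ x h := by
    funext t
    rw [mt_Dl]
    rfl

end Pool.Agent.H68.RT
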