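import Pool.Agent.H68.RT.Alt

/-!
# Partitions of schemes, and classes of schemes which are stable under closed and open subschemes
-/

set_option autoImplicit false
set_option linter.unusedSectionVars false
set_option linter.unusedVariables false

open CategoryTheory AlgebraicGeometry MvPolynomial Pool.Agent.Y116.UV Pool.Agent.Q193.LT
  Pool.Agent.Q282.UK Pool.Agent.H81.RZ

namespace Pool.Agent.H68.RT

variable {R : Type} [CommRing R]

/-- `Y` is the scheme of the `m × n` matrices of rank at most two with prescribed entries zero and one,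
for some sets of places. -/
def IsRankTwo (Y : Sch R) : Prop :=
  ∃ (m n : ℕ) (Z N : Finset (Fin m × Fin n)), Y = aff R (Cp R Z N)

/-- `Y` is a section of the cone over a Grassmannian `Gr(2, n)` by equations `p_ij = 0`
and `p_ij = 1`. -/
def IsLines (Y : Sch R) : Prop :=
  ∃ (n : ℕ) (Z N : Finset (Fin n × Fin n)), Y = aff R (Pl R Z N)

/-- The two families: the schemes of the matrices of rank at most two with prescribed entries zero and
one, and the sections of the cones over the Grassmannians of lines by equations `p_ij = 0`
and `p_ij = 1`. -/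
def IsFamily (F : Sch R → Prop) : Prop := F = IsRankTwo ∨ F = IsLines

/-- `X` is the disjoint union of the images of finitely many immersions `Y l ⟶ X` of schemes `Y l` in the
class `F`, and every property which is closed under gluing (`Glue`) and true for all `Y l` is true
for `X`. -/
def Partition (sep : Prop) (F : Sch R → Prop) (X : Sch R) : Prop :=
  ∃ (k : ℕ) (Y : Fin k → Sch R) (f : ∀ l, Y l ⟶ X), (∀ l, F (Y l)) ∧
    (∀ l, IsImmersion (f l).left) ∧ (∀ x : X.left, ∃! l, x ∈ Set.range (f l).left) ∧
    ∀ P : Sch R → Prop, Glue sep P → (∀ l, P (Y l)) → P X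

/-- The class `K` is stable under isomorphisms, and under closed and open subschemes. -/
structure Her (K : Sch R → Prop) : Prop where
  iso : ∀ {X Y : Sch R}, Nonempty (X ≅ Y) → K X → K Y
  closed : ∀ {Z X : Sch R} (i : Z ⟶ X), IsClosedImmersion i.left → K X → K Z
  opened : ∀ {U X : Sch R} (j : U ⟶ X), IsOpenImmersion j.left → K X → K U

variable {sep : Prop} {P K F : Sch R → Prop}

lemma glue_her (hP : Glue sep P) (hK : Her K) : Glue sep fun X => K X → P X where
  iso hX h h1 h2 := hP.iso hX h (h1 (hK.iso ⟨h.some.symm⟩ h2))
  total i j hX ht hZ hU h := hP.total i j hX ht (hZ (hK.closed i ht.closed h))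
    (hU (hK.opened j ht.opened h))

/-- `Partition`, with an arbitrary finite index set -/
def Part (sep : Prop) (F : Sch R → Prop) (X : Sch R) : Prop :=
  ∃ (ι : Type) (_ : Finite ι) (f : ι → Over X), (∀ l, F (f l).left) ∧
    (∀ l, IsImmersion (f l).hom.left) ∧ (∀ x : X.left, ∃! l, x ∈ Set.range (f l).hom.left) ∧
    ∀ P : Sch R → Prop, Glue sep P → (∀ l, P (f l).left) → P X

lemma part_self {X : Sch R} (h : F X) : Part sep F X := by
  refine ⟨Unit, inferInstance, fun _ => Over.mk (𝟙 X), fun _ => h, fun _ => ?_, fun x => ?_,
    fun P _ h => h ()⟩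
  · change IsImmersion (𝟙 X : X ⟶ X).left
    rw [Over.id_left]
    infer_instance
  · refine ⟨(), ⟨x, ?_⟩, fun _ _ => rfl⟩
    change (𝟙 X : X ⟶ X).left x = x
    rw [Over.id_left]
    rfl

lemma glue_part : Glue sep (Part sep F) where
  iso {X Y} hX h := by
    rintro ⟨ι, hι, f, h1, h2, h3, h4⟩
    obtain ⟨e⟩ := h
    refine ⟨ι, hι, fun l => Over.mk ((f l).hom ≫ e.hom), h1, fun l => ?_, fun y => ?_,
      fun P hP h => hP.iso hX ⟨e⟩ (h4 P hP h)⟩
    · have := h2 l
      have h5 : IsIso e.hom.left := inferInstanceAs (IsIso ((Over.forget _).map e.hom))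
      change IsImmersion ((f l).hom ≫ e.hom).left
      rw [Over.comp_left]
      infer_instance
    · have h5 : ∀ l, y ∈ Set.range ((f l).hom ≫ e.hom).left ↔
          e.inv.left y ∈ Set.range (f l).hom.left := by
        intro l
        constructor
        · rintro ⟨z, rfl⟩
          refine ⟨z, ?_⟩
          have h6 : (f l).hom = ((f l).hom ≫ e.hom) ≫ e.inv := by simp
          conv_lhs => rw [h6, Over.comp_left]
          rfl
        · rintro ⟨z, hz⟩
          refine ⟨z, ?_⟩
          rw [Over.comp_left]
          change e.hom.left ((f l).hom.left z) = y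
          rw [hz]
          have h7 : (e.inv ≫ e.hom).left y = y := by
            rw [e.inv_hom_id, Over.id_left]
            rfl
          rw [Over.comp_left] at h7
          exact h7
      obtain ⟨l, h6, h7⟩ := h3 (e.inv.left y)
      exact ⟨l, (h5 l).mpr h6, fun l' h8 => h7 l' ((h5 l').mp h8)⟩
  total {Z X U} i j hX ht := by
    rintro ⟨ι, hι, f, h1, h2, h3, h4⟩ ⟨κ, hκ, g, k1, k2, k3, k4⟩
    have hi := ht.closed
    have hj := ht.opened
    refine ⟨ι ⊕ κ, inferInstance, Sum.elim (fun l => Over.mk ((f l).hom ≫ i))
      fun l => Over.mk ((g l).hom ≫ j), ?_, ?_, fun x => ?_, fun P hP h =>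
        hP.total i j hX ht (h4 P hP fun l => h (.inl l)) (k4 P hP fun l => h (.inr l))⟩
    · rintro (l | l)
      · exact h1 l
      · exact k1 l
    · rintro (l | l)
      · have := h2 l
        change IsImmersion ((f l).hom ≫ i).left
        rw [Over.comp_left]
        infer_instance
      · have := k2 l
        change IsImmersion ((g l).hom ≫ j).left
        rw [Over.comp_left]
        infer_instance
    · have hzi : ∀ l, x ∈ Set.range ((f l).hom ≫ i).left → x ∈ Set.range i.left := by
        rintro l ⟨z, rfl⟩
        rw [Over.comp_left]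
        exact ⟨_, rfl⟩
      have hzj : ∀ l, x ∈ Set.range ((g l).hom ≫ j).left → x ∈ Set.range j.left := by
        rintro l ⟨z, rfl⟩
        rw [Over.comp_left]
        exact ⟨_, rfl⟩
      by_cases hx : x ∈ Set.range j.left
      · have hx' : x ∉ Set.range i.left := by
          rw [ht.compl]
          exact fun h => h hx
        obtain ⟨u, rfl⟩ := hx
        obtain ⟨l, h5, h6⟩ := k3 u
        refine ⟨.inr l, ?_, ?_⟩
        · obtain ⟨z, rfl⟩ := h5
          refine ⟨z, ?_⟩
          change ((g l).hom ≫ j).left z = _
          rw [Over.comp_left]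
          rfl
        · rintro (l' | l') h7
          · exact absurd (hzi l' h7) hx'
          · congr 1
            apply h6
            obtain ⟨z, hz⟩ := h7
            refine ⟨z, ?_⟩
            change ((g l').hom ≫ j).left z = _ at hz
            rw [Over.comp_left] at hz
            exact j.left.isOpenEmbedding.injective hz
      · have hx' : x ∈ Set.range i.left := by
          rw [ht.compl]
          exact hx
        obtain ⟨u, rfl⟩ := hx'
        obtain ⟨l, h5, h6⟩ := h3 u
        refine ⟨.inl l, ?_, ?_⟩
        · obtain ⟨z, rfl⟩ := h5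
          refine ⟨z, ?_⟩
          change ((f l).hom ≫ i).left z = _
          rw [Over.comp_left]
          rfl
        · rintro (l' | l') h7
          · congr 1
            apply h6
            obtain ⟨z, hz⟩ := h7
            refine ⟨z, ?_⟩
            change ((f l').hom ≫ i).left z = _ at hz
            rw [Over.comp_left] at hz
            exact hi.isClosedEmbedding.injective hz
          · exact absurd (hzj l' h7) hx

lemma partition_of_part {X : Sch R} (h : Part sep F X) : Partition sep F X := by
  obtain ⟨ι, hι, f, h1, h2, h3, h4⟩ := h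
  have : Fintype ι := Fintype.ofFinite ι
  let e := Fintype.equivFin ι
  refine ⟨Fintype.card ι, fun l => (f (e.symm l)).left, fun l => (f (e.symm l)).hom,
    fun l => h1 _, fun l => h2 _, fun x => ?_, fun P hP h => h4 P hP fun l => ?_⟩
  · obtain ⟨l, h5, h6⟩ := h3 x
    refine ⟨e l, ?_, fun l' h7 => ?_⟩
    · change x ∈ Set.range (f (e.symm (e l))).hom.left
      rw [Equiv.symm_apply_apply]
      exact h5
    · have h8 := h6 _ h7
      rw [← h8, Equiv.apply_symm_apply]
  · have h5 := h (e l)
    change P (f (e.symm (e l))).left at h5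
    rwa [Equiv.symm_apply_apply] at h5

section main

variable [IsNoetherianRing R] (hR : Frac R)

include hR

/-- **Every scheme of finite type is partitioned into finitely many locally closed subschemes, which are
isomorphic to schemes of matrices of rank at most two with prescribed entries zero and one.** -/
theorem partition_rank_two (X : Sch R) (hX : FT sep X) : Partition sep IsRankTwo X :=
  partition_of_part ((glue_rank_two hR glue_part).mpr
    (fun m n Z N => part_self ⟨m, n, Z, N, rfl⟩) X hX)

/-- **Every scheme of finite type is partitioned into finitely many locally closed subschemes, which are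
isomorphic to sections of cones over Grassmannians of lines by equations `p_ij = 0` and `p_ij = 1`.** -/
theorem partition_lines (X : Sch R) (hX : FT sep X) : Partition sep IsLines X :=
  partition_of_part ((glue_lines hR glue_part).mpr (fun n Z N => part_self ⟨n, Z, N, rfl⟩) X hX)

/-- The property `P` for the schemes in the class `K`. -/
theorem her_rank_two (hP : Glue sep P) (hK : Her K) : (∀ X, FT sep X → K X → P X) ↔
    ∀ Y, IsRankTwo Y → K Y → P Y := by
  refine ⟨fun h => ?_, fun h => (glue_rank_two hR (glue_her hP hK)).mpr
    fun m n Z N => h _ ⟨m, n, Z, N, rfl⟩⟩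
  rintro _ ⟨m, n, Z, N, rfl⟩
  exact h _ (ft_aff sep)

/-- The property `P` for the schemes in the class `K`. -/
theorem her_lines (hP : Glue sep P) (hK : Her K) : (∀ X, FT sep X → K X → P X) ↔
    ∀ Y, IsLines Y → K Y → P Y := by
  refine ⟨fun h => ?_, fun h => (glue_lines hR (glue_her hP hK)).mpr
    fun n Z N => h _ ⟨n, Z, N, rfl⟩⟩
  rintro _ ⟨n, Z, N, rfl⟩
  exact h _ (ft_aff sep)

end main

section dim

/-- the Krull dimension is at most `d` -/
def DimLe (d : WithBot ℕ∞) (X : Sch R) : Prop := topologicalKrullDim X.left ≤ d

lemma dimLe_of_inducing {d : WithBot ℕ∞} {X Y : Sch R} (f : Y ⟶ X)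
    (hf : Topology.IsInducing f.left) (h : DimLe d X) : DimLe d Y :=
  hf.topologicalKrullDim_le.trans h

lemma her_dim (d : WithBot ℕ∞) : Her (DimLe d : Sch R → Prop) where
  iso {X Y} h hX := by
    obtain ⟨e⟩ := h
    have h5 : IsIso e.inv.left := inferInstanceAs (IsIso ((Over.forget _).map e.inv))
    exact dimLe_of_inducing e.inv e.inv.left.homeomorph.isInducing hX
  closed i hi h := dimLe_of_inducing i hi.isClosedEmbedding.isInducing h
  opened j hj h := dimLe_of_inducing j j.left.isOpenEmbedding.isInducing h

end dim

end Pool.Agent.H68.RT
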