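import Pool.Agent.H68.RT.Good

/-!
# Generic smoothness
-/

set_option autoImplicit false
set_option linter.unusedSectionVars false
set_option linter.unusedVariables false

open CategoryTheory AlgebraicGeometry MvPolynomial Pool.Agent.Y116.UV Pool.Agent.Q193.LT
  Pool.Agent.Q282.UK Pool.Agent.H81.RZ

namespace Pool.Agent.H68.RT

section alg

variable {R B : Type} [CommRing R] [CommRing B] [Algebra R B]

lemma smooth_away_mul [IsNoetherianRing R] [Algebra.FiniteType R B] {h : B}
    (hh : Algebra.Smooth R (Localization.Away h)) (g : B) :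
    Algebra.Smooth R (Localization.Away (h * g)) := by
  have hfp : Algebra.FinitePresentation R B := Algebra.FinitePresentation.of_finiteType.mp inferInstance
  rw [← Algebra.basicOpen_subset_smoothLocus_iff_smooth] at hh ⊢
  refine subset_trans ?_ hh
  rw [PrimeSpectrum.basicOpen_mul]
  exact Set.inter_subset_left

variable [IsDomain B]

lemma primeCompl_bot' : (⊥ : Ideal B).primeCompl = nonZeroDivisors B := by
  ext x
  rw [Ideal.mem_primeCompl_iff, mem_nonZeroDivisors_iff_ne_zero]
  rfl

lemma exists_smooth_of_frac [IsNoetherianRing R] [Algebra.FiniteType R B]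
    (h : Algebra.FormallySmooth R (FractionRing B)) :
    ∃ h : B, h ≠ 0 ∧ Algebra.Smooth R (Localization.Away h) := by
  have hfp : Algebra.FinitePresentation R B := Algebra.FinitePresentation.of_finiteType.mp inferInstance
  have h1 : IsLocalization (⊥ : Ideal B).primeCompl (FractionRing B) := by
    rw [primeCompl_bot']
    infer_instance
  let e : FractionRing B ≃ₐ[B] Localization.AtPrime (⊥ : Ideal B) :=
    IsLocalization.algEquiv (⊥ : Ideal B).primeCompl _ _
  have h2 : Algebra.IsSmoothAt R (⊥ : Ideal B) := Algebra.FormallySmooth.of_equiv (e.restrictScalars R)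
  obtain ⟨f, hf, h3⟩ := Algebra.IsSmoothAt.exists_notMem_smooth R (⊥ : Ideal B)
  exact ⟨f, hf, h3⟩

end alg

section perfect

variable {k B : Type} [Field k] [PerfectField k] [CommRing B] [IsDomain B] [Algebra k B]
  [Algebra.FiniteType k B]

lemma exists_smooth_perfect : ∃ h : B, h ≠ 0 ∧ Algebra.Smooth k (Localization.Away h) := by
  apply exists_smooth_of_frac
  have h1 : Algebra.EssFiniteType B (FractionRing B) :=
    Algebra.EssFiniteType.of_isLocalization _ (nonZeroDivisors B)
  have h2 : Algebra.EssFiniteType k (FractionRing B) := Algebra.EssFiniteType.comp k B _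
  infer_instance

end perfect

section int

variable {B : Type} [CommRing B] [IsDomain B] [Algebra ℤ B] [Algebra.FiniteType ℤ B]

lemma exists_smooth_zero [CharZero B] : ∃ h : B, h ≠ 0 ∧ Algebra.Smooth ℤ (Localization.Away h) := by
  apply exists_smooth_of_frac
  have h0 : CharZero (FractionRing B) := charZero_of_injective_algebraMap
    (IsFractionRing.injective B (FractionRing B))
  have h1 : Algebra.EssFiniteType B (FractionRing B) :=
    Algebra.EssFiniteType.of_isLocalization _ (nonZeroDivisors B)
  have h2 : Algebra.EssFiniteType ℤ (FractionRing B) := Algebra.EssFiniteType.comp ℤ B _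
  have ht : @IsScalarTower ℤ ℚ (FractionRing B) Algebra.toSMul Algebra.toSMul Algebra.toSMul :=
    IsScalarTower.of_algebraMap_eq' (RingHom.ext_int _ _)
  have h3 : Algebra.EssFiniteType ℚ (FractionRing B) := Algebra.EssFiniteType.of_comp ℤ ℚ _
  have h4 : Algebra.FormallySmooth ℚ (FractionRing B) := inferInstance
  have h5 : Algebra.FormallySmooth ℤ ℚ := Algebra.FormallySmooth.of_isLocalization (nonZeroDivisors ℤ)
  exact Algebra.FormallySmooth.comp ℤ ℚ _

lemma exists_smooth_prime (p : ℕ) [Fact p.Prime] [Algebra (ZMod p) B] :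
    ∃ h : B, h ≠ 0 ∧ Algebra.Smooth (ZMod p) (Localization.Away h) := by
  have ht : @IsScalarTower ℤ (ZMod p) B Algebra.toSMul Algebra.toSMul Algebra.toSMul :=
    IsScalarTower.of_algebraMap_eq' (RingHom.ext_int _ _)
  have h1 : Algebra.FiniteType (ZMod p) B := Algebra.FiniteType.of_restrictScalars_finiteType ℤ _ _
  exact exists_smooth_perfect

end int

section sch

lemma smooth_spec {R A : Type} [CommRing R] [CommRing A] [Algebra R A] (h : Algebra.Smooth R A) :
    Smooth (Spec.map (CommRingCat.ofHom (algebraMap R A))) := by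
  rw [HasRingHomProperty.Spec_iff (P := @Smooth)]
  exact RingHom.smooth_algebraMap.mpr h

/-- `Y` is smooth over `k`, and integral or empty. -/
def SmInt {k : Type} [Field k] (Y : Sch k) : Prop :=
  Smooth Y.hom ∧ (IsIntegral Y.left ∨ IsEmpty Y.left)

/-- `Y` is smooth over the integers or over a prime field `𝔽_p`, and integral or empty. -/
def RegInt (Y : Sch ℤ) : Prop :=
  (Smooth Y.hom ∨ ∃ p : ℕ, p.Prime ∧ ∃ g : Y.left ⟶ Spec (CommRingCat.of (ZMod p)), Smooth g) ∧
    (IsIntegral Y.left ∨ IsEmpty Y.left)

lemma int_iso {R : Type} [CommRing R] {X Y : Sch R} (e : X ≅ Y)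
    (h : IsIntegral X.left ∨ IsEmpty X.left) : IsIntegral Y.left ∨ IsEmpty Y.left := by
  have h5 : IsIso e.inv.left := inferInstanceAs (IsIso ((Over.forget _).map e.inv))
  rcases h with h | h
  · left
    have h6 : Nonempty Y.left := ⟨e.hom.left h.nonempty.some⟩
    exact isIntegral_of_isOpenImmersion e.inv.left
  · right
    exact ⟨fun y => h.elim (e.inv.left y)⟩

theorem generic_smInt {k : Type} [Field k] [PerfectField k] : Generic (SmInt : Sch k → Prop) where
  iso {X Y} h hX := by
    obtain ⟨e⟩ := h
    have h5 : IsIso e.inv.left := inferInstanceAs (IsIso ((Over.forget _).map e.inv))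
    have h6 := hX.1
    refine ⟨?_, int_iso e hX.2⟩
    rw [← Over.w e.inv]
    infer_instance
  zero A _ _ _ := by
    refine ⟨?_, Or.inr ?_⟩
    · have h1 : IsEmpty (aff k A).left := inferInstanceAs (IsEmpty (PrimeSpectrum A))
      have h2 : IsOpenImmersion (aff k A).hom := isOpenImmersion_of_isEmpty (aff k A).hom
      infer_instance
    · exact inferInstanceAs (IsEmpty (PrimeSpectrum A))
  gen B _ _ _ _ := by
    obtain ⟨h, h1, h2⟩ := exists_smooth_perfect (k := k) (B := B)
    refine ⟨h, h1, fun g hg => ⟨smooth_spec (smooth_away_mul h2 g), Or.inl ?_⟩⟩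
    have h3 : IsDomain (Localization.Away (h * g)) := IsLocalization.isDomain_localization
      (powers_le_nonZeroDivisors_of_noZeroDivisors (mul_ne_zero h1 hg))
    exact inferInstanceAs (IsIntegral (Spec (CommRingCat.of (Localization.Away (h * g)))))

theorem generic_regInt : Generic RegInt where
  iso {X Y} h hX := by
    obtain ⟨e⟩ := h
    have h5 : IsIso e.inv.left := inferInstanceAs (IsIso ((Over.forget _).map e.inv))
    refine ⟨?_, int_iso e hX.2⟩
    rcases hX.1 with h6 | ⟨p, hp, g, hg⟩
    · left
      rw [← Over.w e.inv]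
      infer_instance
    · right
      exact ⟨p, hp, e.inv.left ≫ g, inferInstance⟩
  zero A _ _ _ := by
    refine ⟨Or.inl ?_, Or.inr ?_⟩
    · have h1 : IsEmpty (aff ℤ A).left := inferInstanceAs (IsEmpty (PrimeSpectrum A))
      have h2 : IsOpenImmersion (aff ℤ A).hom := isOpenImmersion_of_isEmpty (aff ℤ A).hom
      infer_instance
    · exact inferInstanceAs (IsEmpty (PrimeSpectrum A))
  gen B _ _ hB _ := by
    have hint : ∀ h g : B, h ≠ 0 → g ≠ 0 →
        IsIntegral (aff ℤ (Localization.Away (h * g))).left := by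
      intro h g h1 hg
      have h3 : IsDomain (Localization.Away (h * g)) := IsLocalization.isDomain_localization
        (powers_le_nonZeroDivisors_of_noZeroDivisors (mul_ne_zero h1 hg))
      exact inferInstanceAs (IsIntegral (Spec (CommRingCat.of (Localization.Away (h * g)))))
    obtain ⟨p, hp⟩ := CharP.exists B
    rcases Nat.eq_zero_or_pos p with rfl | hp0
    · have h0 : CharZero B := CharP.charP_to_charZero B
      obtain ⟨h, h1, h2⟩ := exists_smooth_zero (B := B)
      refine ⟨h, h1, fun g hg => ⟨Or.inl ?_, Or.inl (hint h g h1 hg)⟩⟩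
      have h3 := smooth_spec (smooth_away_mul h2 g)
      exact h3
    · have hne : NeZero p := ⟨hp0.ne'⟩
      have hpp : p.Prime := (CharP.char_is_prime_of_pos B p).out
      have hf : Fact p.Prime := ⟨hpp⟩
      let _ : Algebra (ZMod p) B := ZMod.algebra B p
      obtain ⟨h, h1, h2⟩ := exists_smooth_prime (B := B) p
      have ht : @IsScalarTower ℤ (ZMod p) B Algebra.toSMul Algebra.toSMul Algebra.toSMul :=
        IsScalarTower.of_algebraMap_eq' (RingHom.ext_int _ _)
      have hft : Algebra.FiniteType (ZMod p) B :=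
        Algebra.FiniteType.of_restrictScalars_finiteType ℤ _ _
      refine ⟨h, h1, fun g hg => ⟨Or.inr ⟨p, hpp, Spec.map (CommRingCat.ofHom
        (algebraMap (ZMod p) (Localization.Away (h * g)))), ?_⟩, Or.inl (hint h g h1 hg)⟩⟩
      exact smooth_spec (smooth_away_mul h2 g)

end sch

end Pool.Agent.H68.RT
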