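import Pool.Agent.H68.RT.LowM

/-!
# Systems of equations `y = z`, `y z = c` between invertible elements

A property of affine schemes which is closed under closed-open decompositions and products with the
affine line, and true for the base `R` and for `R/2`, is true for the schemes of solutions of such
systems.
-/

set_option autoImplicit false
set_option linter.unusedSectionVars false
set_option linter.unusedVariables false

open CategoryTheory AlgebraicGeometry MvPolynomial Pool.Agent.Y116.UV Pool.Agent.Q193.LT
  Pool.Agent.Q282.UK Pool.Agent.H81.RZ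

namespace Pool.Agent.H68.RT

section vl

variable {C : Type} [CommRing C]

/-- `a` or `c / a` -/
noncomputable def vl (c a : C) (e : Bool) : C := bif e then c * Ring.inverse a else a

lemma vl_false (c a : C) : vl c a false = a := rfl

lemma vl_true (c a : C) : vl c a true = c * Ring.inverse a := rfl

lemma isUnit_inv {a : C} (ha : IsUnit a) : IsUnit (Ring.inverse a) := by
  obtain ⟨u, rfl⟩ := ha
  rw [Ring.inverse_unit]
  exact Units.isUnit _

lemma vl_unit {c a : C} (hc : IsUnit c) (ha : IsUnit a) (e : Bool) : IsUnit (vl c a e) := by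
  cases e
  · exact ha
  · exact hc.mul (isUnit_inv ha)

lemma vl_map {D : Type} [CommRing D] (f : C →+* D) {c a : C} (ha : IsUnit a) (e : Bool) :
    f (vl c a e) = vl (f c) (f a) e := by
  cases e
  · rfl
  · rw [vl_true, vl_true, map_mul, map_inverse_of_isUnit f ha]

lemma vl_vl {c a : C} (hc : IsUnit c) (ha : IsUnit a) (e e' : Bool) :
    vl c (vl c a e) e' = vl c a (xor e e') := by
  cases e <;> cases e'
  · rfl
  · rfl
  · rfl
  · obtain ⟨u, rfl⟩ := hc
    obtain ⟨v, rfl⟩ := ha
    change (u : C) * Ring.inverse (u * Ring.inverse (v : C)) = v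
    rw [Ring.inverse_unit, ← Units.val_mul, Ring.inverse_unit, ← Units.val_mul]
    congr 1
    rw [mul_inv, inv_inv, mul_inv_cancel_left]

lemma vl_inj {c a b : C} (hc : IsUnit c) (ha : IsUnit a) (hb : IsUnit b) (e : Bool)
    (h : vl c a e = vl c b e) : a = b := by
  have h1 := congrArg (fun x => vl c x e) h
  simp only [vl_vl hc ha, vl_vl hc hb, Bool.xor_self] at h1
  exact h1

end vl

variable {R : Type} [CommRing R] {P : Sch R → Prop} {W : Type}

/-- Invertible elements `c` (`c = 1` if `δ`) and `y w`, `w ∈ T` (`y w = 0` for the other `w`), with the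
equations `y x = y z` for `E x z false` and `y x = c / y z` for `E x z true`; if `β`, then `2 = 0`. -/
def Sys (R : Type) [CommRing R] (β δ : Bool) (T : Set W) (E : W → W → Bool → Prop) :
    Pts R (Option W) where
  pts C _ _ p := (β = true → (2 : C) = 0) ∧ (IsUnit (p none) ∧ (δ = true → p none = 1)) ∧
    (∀ w ∉ T, p (some w) = 0) ∧ (∀ w ∈ T, IsUnit (p (some w))) ∧
    ∀ x ∈ T, ∀ y ∈ T, ∀ e, E x y e → p (some x) = vl (p none) (p (some y)) e
  map {C D} _ _ _ _ f p h := by
    obtain ⟨h1, ⟨h2, h3⟩, h4, h5, h6⟩ := h
    refine ⟨fun hb => ?_, ⟨h2.map f, fun hd => ?_⟩, fun w hw => ?_, fun w hw => (h5 w hw).map f,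
      fun x hx y hy e he => ?_⟩
    · rw [← map_ofNat f 2, h1 hb, map_zero]
    · exact (congrArg f (h3 hd)).trans (map_one f)
    · exact (congrArg f (h4 w hw)).trans (map_zero f)
    · refine (congrArg f (h6 x hx y hy e he)).trans ?_
      exact vl_map (f : C →+* D) (h5 y hy) e

/-- the constant `2` -/
def two {σ : Type} (S : Pts R σ) : Fn S := ⟨fun C _ _ _ => (2 : C), fun f _ _ => map_ofNat f 2⟩

lemma sys_clo_two (β δ : Bool) (T : Set W) (E : W → W → Bool → Prop) (C : Type) [CommRing C]
    [Algebra R C] (p : Option W → C) :
    (Sys R true δ T E).pts C p ↔ ((Sys R β δ T E).clo (two _)).pts C p := by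
  constructor
  · rintro ⟨h1, h2⟩
    exact ⟨⟨fun _ => h1 rfl, h2⟩, h1 rfl⟩
  · rintro ⟨⟨h1, h2⟩, h3⟩
    exact ⟨fun _ => h3, h2⟩

section step

variable [DecidableEq W]

section elim

variable (w j : W) (e₀ : Bool)

/-- the representative of `x` after the elimination of `w` -/
def rp (x : W) : W := if x = w then j else x

/-- the sign of `x` after the elimination of `w` -/
def sg (x : W) : Bool := if x = w then e₀ else false

/-- the equations after the elimination of `w` -/
def el (T : Set W) (E : W → W → Bool → Prop) (x y : W) (e : Bool) : Prop :=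
  ∃ x₀ ∈ T, ∃ y₀ ∈ T, ∃ e₁, E x₀ y₀ e₁ ∧ rp w j x₀ = x ∧ rp w j y₀ = y ∧
    e = xor e₁ (xor (sg w e₀ x₀) (sg w e₀ y₀))

variable {w j e₀}

lemma bij_elim (β δ : Bool) {T : Finset W} (hw : w ∉ T) (hj : j ∈ T) {E : W → W → Bool → Prop}
    (hE : E w j e₀ ∨ E j w e₀) :
    Bij (Sys R β δ (T : Set W) (el w j e₀ (insert w T : Finset W) E))
      (Sys R β δ ((insert w T : Finset W) : Set W) E)
      (fun C _ _ q s => s.elim (q none) fun x =>
        if x = w then vl (q none) (q (some j)) e₀ else q (some x))
      (fun C _ _ p s => s.elim (p none) fun x => if x = w then 0 else p (some x)) := by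
  have hjw : j ≠ w := fun h => hw (h ▸ hj)
  have hval : ∀ {C : Type} [CommRing C] (q : Option W → C) (x : W),
      (if x = w then vl (q none) (q (some j)) e₀ else q (some x)) =
        vl (q none) (q (some (rp w j x))) (sg w e₀ x) := by
    intro C _ q x
    by_cases hx : x = w
    · rw [if_pos hx, rp, if_pos hx, sg, if_pos hx]
    · rw [if_neg hx, rp, if_neg hx, sg, if_neg hx, vl_false]
  have hrp : ∀ x ∈ (insert w T : Finset W), rp w j x ∈ T := by
    intro x hx
    by_cases hxw : x = w
    · rw [rp, if_pos hxw]
      exact hj
    · rw [rp, if_neg hxw]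
      exact (Finset.mem_insert.mp hx).resolve_left hxw
  have hne : ∀ x ∈ T, x ≠ w := fun x hx h => hw (h ▸ hx)
  -- the value at `w`
  have hpw : ∀ {C : Type} [CommRing C] [Algebra R C] (p : Option W → C),
      (Sys R β δ ((insert w T : Finset W) : Set W) E).pts C p →
      p (some w) = vl (p none) (p (some j)) e₀ := by
    intro C _ _ p hp
    obtain ⟨h1, ⟨h2, h3⟩, h4, h5, h6⟩ := hp
    have hwT : w ∈ ((insert w T : Finset W) : Set W) := by simp
    have hjT : j ∈ ((insert w T : Finset W) : Set W) := by simp [hj]
    rcases hE with h | h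
    · exact h6 w hwT j hjT e₀ h
    · have h7 := h6 j hjT w hwT e₀ h
      rw [h7, vl_vl h2 (h5 w hwT), Bool.xor_self, vl_false]
  exact
    { natF := fun {C D} _ _ _ _ f q hq s => by
        rcases s with _ | x
        · rfl
        · change f (if x = w then vl (q none) (q (some j)) e₀ else q (some x)) =
            if x = w then vl (f (q none)) (f (q (some j))) e₀ else f (q (some x))
          split_ifs
          · exact vl_map (f : C →+* D) (hq.2.2.2.1 j hj) e₀
          · rfl
      natG := fun {C D} _ _ _ _ f p hp s => by
        rcases s with _ | x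
        · rfl
        · change f (if x = w then 0 else p (some x)) = if x = w then 0 else f (p (some x))
          split_ifs
          · exact map_zero f
          · rfl
      memF := fun C _ _ q hq => by
        obtain ⟨h1, ⟨h2, h3⟩, h4, h5, h6⟩ := hq
        have hu : ∀ x ∈ (insert w T : Finset W), IsUnit (q (some (rp w j x))) :=
          fun x hx => h5 _ (hrp x hx)
        refine ⟨h1, ⟨h2, h3⟩, fun x hx => ?_, fun x hx => ?_, fun x hx y hy e he => ?_⟩
        · have hx' : x ≠ w ∧ x ∉ T := by
            rw [Finset.mem_coe, Finset.mem_insert, not_or] at hx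
            exact hx
          change (if x = w then _ else q (some x)) = 0
          rw [if_neg hx'.1]
          exact h4 x hx'.2
        · change IsUnit (if x = w then vl (q none) (q (some j)) e₀ else q (some x))
          rw [hval]
          exact vl_unit h2 (hu x hx) _
        · change (if x = w then vl (q none) (q (some j)) e₀ else q (some x)) =
            vl (q none) (if y = w then vl (q none) (q (some j)) e₀ else q (some y)) e
          rw [hval, hval, vl_vl h2 (hu y hy)]
          have h7 := h6 _ (hrp x hx) _ (hrp y hy) _ ⟨x, hx, y, hy, e, he, rfl, rfl, rfl⟩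
          rw [h7, vl_vl h2 (hu y hy)]
          congr 1
          cases e <;> cases sg w e₀ x <;> cases sg w e₀ y <;> rfl
      memG := fun C _ _ p hp => by
        have hpw' := hpw p hp
        obtain ⟨h1, ⟨h2, h3⟩, h4, h5, h6⟩ := hp
        have hj5 : IsUnit (p (some j)) := h5 j (by simp [hj])
        have hr : ∀ x ∈ (insert w T : Finset W), IsUnit (p (some (rp w j x))) ∧
            p (some x) = vl (p none) (p (some (rp w j x))) (sg w e₀ x) := by
          intro x hx
          by_cases hxw : x = w
          · rw [rp, if_pos hxw, sg, if_pos hxw, hxw]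
            exact ⟨hj5, hpw'⟩
          · rw [rp, if_neg hxw, sg, if_neg hxw, vl_false]
            exact ⟨h5 x hx, rfl⟩
        refine ⟨h1, ⟨h2, h3⟩, fun x hx => ?_, fun x hx => ?_, fun x hx y hy e he => ?_⟩
        · change (if x = w then 0 else p (some x)) = 0
          split_ifs with hxw
          · rfl
          · refine h4 x ?_
            rw [Finset.mem_coe, Finset.mem_insert, not_or]
            exact ⟨hxw, hx⟩
        · change IsUnit (if x = w then 0 else p (some x))
          rw [if_neg (hne x hx)]
          exact h5 x (by simp [Finset.mem_coe.mp hx])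
        · change (if x = w then 0 else p (some x)) =
            vl (p none) (if y = w then 0 else p (some y)) e
          rw [if_neg (hne x hx), if_neg (hne y hy)]
          obtain ⟨x₀, hx₀, y₀, hy₀, e₁, h7, hx1, hy1, rfl⟩ := he
          have h8 := h6 x₀ hx₀ y₀ hy₀ e₁ h7
          obtain ⟨h9, h10⟩ := hr x₀ hx₀
          obtain ⟨h11, h12⟩ := hr y₀ hy₀
          rw [h10, h12, vl_vl h2 h11] at h8
          have h13 := congrArg (fun a => vl (p none) a (sg w e₀ x₀)) h8
          simp only [vl_vl h2 h9, vl_vl h2 h11, Bool.xor_self, vl_false] at h13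
          rw [← hx1, ← hy1, h13]
          congr 1
          cases e₁ <;> cases sg w e₀ x₀ <;> cases sg w e₀ y₀ <;> rfl
      GF := fun C _ _ q hq => by
        funext s
        rcases s with _ | x
        · rfl
        · change (if x = w then 0 else if x = w then vl (q none) (q (some j)) e₀ else q (some x)) =
            q (some x)
          split_ifs with hxw
          · rw [hxw]
            exact (hq.2.2.1 w (by simpa using hw)).symm
          · rfl
      FG := fun C _ _ p hp => by
        have hpw' := hpw p hp
        funext s
        rcases s with _ | x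
        · rfl
        · change (if x = w then vl (p none) (if j = w then 0 else p (some j)) e₀
            else if x = w then 0 else p (some x)) = p (some x)
          rw [if_neg hjw]
          split_ifs with hxw
          · rw [hxw, hpw']
          · rfl }

end elim

end step

end Pool.Agent.H68.RT
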