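import Pool.Agent.H68.RT.Sy1

/-!
# Systems of equations between invertible elements: the induction
-/

set_option autoImplicit false
set_option linter.unusedSectionVars false
set_option linter.unusedVariables false

open CategoryTheory AlgebraicGeometry MvPolynomial Pool.Agent.Y116.UV Pool.Agent.Q193.LT
  Pool.Agent.Q282.UK Pool.Agent.H81.RZ

namespace Pool.Agent.H68.RT

variable {R : Type} [CommRing R] {P : Sch R → Prop} {W : Type}

lemma vl_one_true {C : Type} [CommRing C] (a : C) : vl 1 a true = Ring.inverse a := by
  rw [vl_true, one_mul]

lemma inv_mul_sq {C : Type} [CommRing C] {a b : C} (ha : IsUnit a) (hb : IsUnit b) :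
    a * a * Ring.inverse (a * b) = a * Ring.inverse b := by
  obtain ⟨u, rfl⟩ := ha
  obtain ⟨v, rfl⟩ := hb
  rw [← Units.val_mul u v, Ring.inverse_unit, Ring.inverse_unit, ← Units.val_mul, ← Units.val_mul,
    ← Units.val_mul]
  congr 1
  rw [mul_inv, ← mul_assoc, mul_inv_cancel_right]

lemma sq_mul_inv {C : Type} [CommRing C] {a b : C} (ha : IsUnit a) (hb : IsUnit b) :
    a * a * Ring.inverse b * Ring.inverse a = Ring.inverse (b * Ring.inverse a) := by
  obtain ⟨u, rfl⟩ := ha
  obtain ⟨v, rfl⟩ := hb
  rw [Ring.inverse_unit, Ring.inverse_unit, ← Units.val_mul v, Ring.inverse_unit, ← Units.val_mul,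
    ← Units.val_mul, ← Units.val_mul]
  congr 1
  rw [mul_inv, inv_inv, mul_right_comm (u * u), mul_inv_cancel_right, mul_comm]

/-- no equation between `w` and other elements -/
def Free (T : Finset W) (E : W → W → Bool → Prop) (w : W) : Prop :=
  ∀ j ∈ T, ∀ e, ¬ E w j e ∧ ¬ E j w e

section base

/-- no unknowns, `c = 1` -/
lemma hol_sys_point (hP : ALin P) (h2 : P (aff R (R ⧸ Ideal.span {(2 : R)}))) (β : Bool)
    (E : W → W → Bool → Prop) : Hol P (Sys R β true ∅ E) := by
  have hc : ∀ (C : Type) [CommRing C] [Algebra R C] (p : Option W → C),
      (Sys R false true ∅ E).pts C p ↔ ∀ s, p s = algebraMap R C (s.elim 1 fun _ => 0) := by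
    intro C _ _ p
    constructor
    · rintro ⟨h1, ⟨h2, h3⟩, h4, h5, h6⟩ (_ | w)
      · exact (h3 rfl).trans (map_one _).symm
      · exact (h4 w (Set.notMem_empty w)).trans (map_zero _).symm
    · intro h
      have h1 : p none = 1 := (h none).trans (map_one _)
      refine ⟨fun hb => absurd hb (by simp), ⟨h1 ▸ isUnit_one, fun _ => h1⟩, fun w _ => ?_,
        fun w hw => absurd hw (Set.notMem_empty w), fun x hx => absurd hx (Set.notMem_empty x)⟩
      exact (h (some w)).trans (map_zero _)
  cases β
  · exact hol_point hP _ hc
  · have hr : Rep (Sys R false true (∅ : Set W) E) R
        (fun s => (s.elim 1 fun _ => 0 : R)) := by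
      refine ⟨(hc R _).mpr fun s => rfl, ?_, ?_⟩
      · intro C _ _ p hp
        exact ⟨Algebra.ofId R C, fun s => ((hc C p).mp hp s).symm⟩
      · intro C _ _ f g _
        exact Subsingleton.elim f g
    refine Hol.congr (fun C _ _ p => (sys_clo_two false true ∅ E C p).symm)
      ⟨_, inferInstance, inferInstance, inferInstance, _, hr.clo (two _), h2⟩

/-- no unknowns -/
lemma hol_sys_empty (hP : ALin P) (h2 : P (aff R (R ⧸ Ideal.span {(2 : R)}))) (β δ : Bool)
    (E : W → W → Bool → Prop) : Hol P (Sys R β δ ∅ E) := by
  cases δ
  · refine (hol_gm hP (hol_sys_point hP h2 β E)).trans
      (F := fun _ _ _ q s => s.elim (q none) fun _ => 0)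
      (G := fun _ _ _ p s => s.elim (p none) fun t => t.elim 1 fun _ => 0) ?_
    exact
      { natF := fun f q hq s => by
          rcases s with _ | x
          · rfl
          · exact map_zero f
        natG := fun f p hp s => by
          rcases s with _ | _ | x
          · rfl
          · exact map_one f
          · exact map_zero f
        memF := fun C _ _ q hq =>
          ⟨hq.1.1, ⟨hq.2, fun h => absurd h (by simp)⟩, fun w _ => rfl,
            fun w hw => absurd hw (Set.notMem_empty w), fun x hx => absurd hx (Set.notMem_empty x)⟩
        memG := fun C _ _ p hp =>
          ⟨⟨hp.1, ⟨isUnit_one, fun _ => rfl⟩, fun w _ => rfl,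
            fun w hw => absurd hw (Set.notMem_empty w), fun x hx => absurd hx (Set.notMem_empty x)⟩,
            hp.2.1.1⟩
        GF := fun C _ _ q hq => by
          funext s
          rcases s with _ | _ | x
          · rfl
          · exact (hq.1.2.1.2 rfl).symm
          · exact (hq.1.2.2.1 x (Set.notMem_empty x)).symm
        FG := fun C _ _ p hp => by
          funext s
          rcases s with _ | x
          · rfl
          · exact (hp.2.2.1 x (Set.notMem_empty x)).symm }
  · exact hol_sys_point hP h2 β E

end base

section step

variable [DecidableEq W] {w : W} {T : Finset W} {E : W → W → Bool → Prop}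

/-- a free unknown -/
lemma bij_free (β δ : Bool) (hw : w ∉ T) (hf : Free T E w) (hl : ¬ E w w true) :
    Bij (Sys R β δ (T : Set W) E).gm (Sys R β δ ((insert w T : Finset W) : Set W) E)
      (fun C _ _ q s => s.elim (q (some none)) fun x => if x = w then q none else q (some (some x)))
      (fun C _ _ p s => s.elim (p (some w)) fun t => t.elim (p none) fun x =>
        if x = w then 0 else p (some x)) := by
  have hne : ∀ x ∈ T, x ≠ w := fun x hx h => hw (h ▸ hx)
  exact
    { natF := fun f q hq s => by
        rcases s with _ | x
        · rfl
        · change f (if x = w then q none else q (some (some x))) =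
            if x = w then f (q none) else f (q (some (some x)))
          split_ifs <;> rfl
      natG := fun f p hp s => by
        rcases s with _ | _ | x
        · rfl
        · rfl
        · change f (if x = w then 0 else p (some x)) = if x = w then 0 else f (p (some x))
          split_ifs
          · exact map_zero f
          · rfl
      memF := fun C _ _ q hq => by
        obtain ⟨⟨h1, h2, h3, h4, h5⟩, h6⟩ := hq
        refine ⟨h1, h2, fun x hx => ?_, fun x hx => ?_, fun x hx y hy e he => ?_⟩
        · rw [Finset.mem_coe, Finset.mem_insert, not_or] at hx
          change (if x = w then q none else q (some (some x))) = 0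
          rw [if_neg hx.1]
          exact h3 x hx.2
        · change IsUnit (if x = w then q none else q (some (some x)))
          split_ifs with hxw
          · exact h6
          · exact h4 x ((Finset.mem_insert.mp hx).resolve_left hxw)
        · change (if x = w then q none else q (some (some x))) =
            vl (q (some none)) (if y = w then q none else q (some (some y))) e
          by_cases hxw : x = w
          · by_cases hyw : y = w
            · rw [if_pos hxw, if_pos hyw]
              rw [hxw, hyw] at he
              cases e
              · rfl
              · exact absurd he hl
            · rw [hxw] at he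
              exact absurd he (hf y ((Finset.mem_insert.mp hy).resolve_left hyw) e).1
          · by_cases hyw : y = w
            · rw [hyw] at he
              exact absurd he (hf x ((Finset.mem_insert.mp hx).resolve_left hxw) e).2
            · rw [if_neg hxw, if_neg hyw]
              exact h5 x ((Finset.mem_insert.mp hx).resolve_left hxw) y
                ((Finset.mem_insert.mp hy).resolve_left hyw) e he
      memG := fun C _ _ p hp => by
        obtain ⟨h1, h2, h3, h4, h5⟩ := hp
        refine ⟨⟨h1, h2, fun x hx => ?_, fun x hx => ?_, fun x hx y hy e he => ?_⟩,
          h4 w (by simp)⟩
        · change (if x = w then 0 else p (some x)) = 0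
          split_ifs with hxw
          · rfl
          · refine h3 x ?_
            rw [Finset.mem_coe, Finset.mem_insert, not_or]
            exact ⟨hxw, hx⟩
        · change IsUnit (if x = w then 0 else p (some x))
          rw [if_neg (hne x hx)]
          exact h4 x (by simp [Finset.mem_coe.mp hx])
        · change (if x = w then 0 else p (some x)) =
            vl (p none) (if y = w then 0 else p (some y)) e
          rw [if_neg (hne x hx), if_neg (hne y hy)]
          exact h5 x (by simp [Finset.mem_coe.mp hx]) y (by simp [Finset.mem_coe.mp hy]) e he
      GF := fun C _ _ q hq => by
        funext s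
        rcases s with _ | _ | x
        · change (if w = w then q none else q (some (some w))) = q none
          rw [if_pos rfl]
        · rfl
        · change (if x = w then 0 else if x = w then q none else q (some (some x))) =
            q (some (some x))
          split_ifs with hxw
          · rw [hxw]
            exact (hq.1.2.2.1 w (by simpa using hw)).symm
          · rfl
      FG := fun C _ _ p hp => by
        funext s
        rcases s with _ | x
        · rfl
        · change (if x = w then p (some w) else if x = w then 0 else p (some x)) = p (some x)
          split_ifs with hxw
          · rw [hxw]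
          · rfl }

/-- `c` is the square of an unknown -/
lemma bij_square (β : Bool) (hw : w ∉ T) (hf : Free T E w) (hl : E w w true) :
    Bij (Sys R β true (T : Set W) E).gm (Sys R β false ((insert w T : Finset W) : Set W) E)
      (fun C _ _ q s => s.elim (q none * q none) fun x =>
        if x = w then q none else q none * q (some (some x)))
      (fun C _ _ p s => s.elim (p (some w)) fun t => t.elim 1 fun x =>
        if x = w then 0 else p (some x) * Ring.inverse (p (some w))) := by
  have hne : ∀ x ∈ T, x ≠ w := fun x hx h => hw (h ▸ hx)
  have hwT : w ∈ ((insert w T : Finset W) : Set W) := by simp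
  have hin : ∀ x ∈ T, x ∈ ((insert w T : Finset W) : Set W) := fun x hx => by simp [hx]
  -- the square
  have hsq : ∀ {C : Type} [CommRing C] [Algebra R C] (p : Option W → C),
      (Sys R β false ((insert w T : Finset W) : Set W) E).pts C p →
      p none = p (some w) * p (some w) := by
    intro C _ _ p hp
    obtain ⟨h1, ⟨h2, h3⟩, h4, h5, h6⟩ := hp
    have h7 := h6 w hwT w hwT true hl
    rw [vl_true] at h7
    obtain ⟨u, hu⟩ := h5 w hwT
    rw [← hu, Ring.inverse_unit] at h7
    rw [← hu]
    nth_rw 1 [h7]
    rw [mul_assoc, Units.inv_mul, mul_one]
  exact
    { natF := fun f q hq s => by
        rcases s with _ | x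
        · exact map_mul f _ _
        · change f (if x = w then q none else q none * q (some (some x))) =
            if x = w then f (q none) else f (q none) * f (q (some (some x)))
          split_ifs
          · rfl
          · exact map_mul f _ _
      natG := fun {C D} _ _ _ _ f p hp s => by
        rcases s with _ | _ | x
        · rfl
        · exact map_one f
        · change f (if x = w then 0 else p (some x) * Ring.inverse (p (some w))) =
            if x = w then 0 else f (p (some x)) * Ring.inverse (f (p (some w)))
          split_ifs
          · exact map_zero f
          · have h1 := map_inverse_of_isUnit (f : C →+* D) (hp.2.2.2.1 w hwT)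
            rw [map_mul]
            congr 1
      memF := fun C _ _ q hq => by
        obtain ⟨⟨h1, ⟨h2, h2'⟩, h3, h4, h5⟩, h6⟩ := hq
        have h7 : q (some none) = 1 := h2' rfl
        refine ⟨h1, ⟨h6.mul h6, fun h => absurd h (by simp)⟩, fun x hx => ?_, fun x hx => ?_,
          fun x hx y hy e he => ?_⟩
        · rw [Finset.mem_coe, Finset.mem_insert, not_or] at hx
          change (if x = w then q none else q none * q (some (some x))) = 0
          have h8 : q (some (some x)) = 0 := h3 x hx.2
          rw [if_neg hx.1, h8, mul_zero]
        · change IsUnit (if x = w then q none else q none * q (some (some x)))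
          split_ifs with hxw
          · exact h6
          · exact h6.mul (h4 x ((Finset.mem_insert.mp hx).resolve_left hxw))
        · change (if x = w then q none else q none * q (some (some x))) =
            vl (q none * q none) (if y = w then q none else q none * q (some (some y))) e
          by_cases hxw : x = w
          · by_cases hyw : y = w
            · rw [if_pos hxw, if_pos hyw]
              cases e
              · rfl
              · obtain ⟨u, hu⟩ := h6
                rw [vl_true, ← hu, Ring.inverse_unit, mul_assoc, Units.mul_inv, mul_one]
            · rw [hxw] at he
              exact absurd he (hf y ((Finset.mem_insert.mp hy).resolve_left hyw) e).1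
          · by_cases hyw : y = w
            · rw [hyw] at he
              exact absurd he (hf x ((Finset.mem_insert.mp hx).resolve_left hxw) e).2
            · rw [if_neg hxw, if_neg hyw]
              have hx' := (Finset.mem_insert.mp hx).resolve_left hxw
              have hy' := (Finset.mem_insert.mp hy).resolve_left hyw
              have h8 : q (some (some x)) = vl (q (some none)) (q (some (some y))) e :=
                h5 x hx' y hy' e he
              rw [h7] at h8
              cases e
              · rw [vl_false] at h8 ⊢
                rw [h8]
              · rw [vl_one_true] at h8
                rw [vl_true, h8]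
                exact (inv_mul_sq h6 (h4 y hy')).symm
      memG := fun C _ _ p hp => by
        have hsq' := hsq p hp
        obtain ⟨h1, ⟨h2, h2'⟩, h3, h4, h5⟩ := hp
        have h6 := h4 w hwT
        refine ⟨⟨h1, ⟨isUnit_one, fun _ => rfl⟩, fun x hx => ?_, fun x hx => ?_,
          fun x hx y hy e he => ?_⟩, h6⟩
        · change (if x = w then 0 else p (some x) * Ring.inverse (p (some w))) = 0
          split_ifs with hxw
          · rfl
          · rw [h3 x, zero_mul]
            rw [Finset.mem_coe, Finset.mem_insert, not_or]
            exact ⟨hxw, hx⟩
        · change IsUnit (if x = w then 0 else p (some x) * Ring.inverse (p (some w)))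
          rw [if_neg (hne x hx)]
          exact (h4 x (hin x hx)).mul (isUnit_inv h6)
        · change (if x = w then 0 else p (some x) * Ring.inverse (p (some w))) =
            vl 1 (if y = w then 0 else p (some y) * Ring.inverse (p (some w))) e
          rw [if_neg (hne x hx), if_neg (hne y hy)]
          have h8 := h5 x (hin x hx) y (hin y hy) e he
          rw [hsq'] at h8
          cases e
          · rw [vl_false] at h8 ⊢
            rw [h8]
          · rw [vl_true] at h8
            rw [vl_one_true, h8]
            exact sq_mul_inv h6 (h4 y (hin y hy))
      GF := fun C _ _ q hq => by
        obtain ⟨⟨h1, ⟨h2, h2'⟩, h3, h4, h5⟩, h6⟩ := hq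
        funext s
        rcases s with _ | _ | x
        · change (if w = w then q none else q none * q (some (some w))) = q none
          rw [if_pos rfl]
        · exact (h2' rfl).symm
        · change (if x = w then 0 else (if x = w then q none else q none * q (some (some x))) *
            Ring.inverse (if w = w then q none else q none * q (some (some w)))) =
            q (some (some x))
          rw [if_pos (rfl : w = w)]
          split_ifs with hxw
          · rw [hxw]
            exact (h3 w (by simpa using hw)).symm
          · obtain ⟨u, hu⟩ := h6
            rw [← hu, Ring.inverse_unit, mul_comm (u : C), mul_assoc, Units.mul_inv, mul_one]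
      FG := fun C _ _ p hp => by
        have hsq' := hsq p hp
        obtain ⟨h1, ⟨h2, h2'⟩, h3, h4, h5⟩ := hp
        have h6 := h4 w hwT
        funext s
        rcases s with _ | x
        · exact hsq'.symm
        · change (if x = w then p (some w) else p (some w) * (if x = w then 0 else
            p (some x) * Ring.inverse (p (some w)))) = p (some x)
          split_ifs with hxw
          · rw [hxw]
          · obtain ⟨u, hu⟩ := h6
            rw [← hu, Ring.inverse_unit, mul_left_comm, Units.mul_inv, mul_one] }

/-- an unknown with the square one, equal to one -/
lemma bij_one (β : Bool) (hw : w ∉ T) (hf : Free T E w) (e' : Fn (Sys R β true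
    ((insert w T : Finset W) : Set W) E)) (he' : ∀ (C : Type) [CommRing C] [Algebra R C]
    (p : Option W → C), e'.val C p = p (some w) - 1) :
    Bij (Sys R β true (T : Set W) E) ((Sys R β true ((insert w T : Finset W) : Set W) E).clo e')
      (fun C _ _ q s => s.elim (q none) fun x => if x = w then 1 else q (some x))
      (fun C _ _ p s => s.elim (p none) fun x => if x = w then 0 else p (some x)) := by
  have hne : ∀ x ∈ T, x ≠ w := fun x hx h => hw (h ▸ hx)
  exact
    { natF := fun f q hq s => by
        rcases s with _ | x
        · rfl
        · change f (if x = w then 1 else q (some x)) = if x = w then 1 else f (q (some x))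
          split_ifs
          · exact map_one f
          · rfl
      natG := fun f p hp s => by
        rcases s with _ | x
        · rfl
        · change f (if x = w then 0 else p (some x)) = if x = w then 0 else f (p (some x))
          split_ifs
          · exact map_zero f
          · rfl
      memF := fun C _ _ q hq => by
        obtain ⟨h1, ⟨h2, h2'⟩, h3, h4, h5⟩ := hq
        refine ⟨⟨h1, ⟨h2, h2'⟩, fun x hx => ?_, fun x hx => ?_, fun x hx y hy e he => ?_⟩, ?_⟩
        · rw [Finset.mem_coe, Finset.mem_insert, not_or] at hx
          change (if x = w then 1 else q (some x)) = 0
          rw [if_neg hx.1]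
          exact h3 x hx.2
        · change IsUnit (if x = w then 1 else q (some x))
          split_ifs with hxw
          · exact isUnit_one
          · exact h4 x ((Finset.mem_insert.mp hx).resolve_left hxw)
        · change (if x = w then 1 else q (some x)) =
            vl (q none) (if y = w then 1 else q (some y)) e
          by_cases hxw : x = w
          · by_cases hyw : y = w
            · rw [if_pos hxw, if_pos hyw, h2' rfl]
              cases e
              · rfl
              · rw [vl_one_true, Ring.inverse_one]
            · rw [hxw] at he
              exact absurd he (hf y ((Finset.mem_insert.mp hy).resolve_left hyw) e).1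
          · by_cases hyw : y = w
            · rw [hyw] at he
              exact absurd he (hf x ((Finset.mem_insert.mp hx).resolve_left hxw) e).2
            · rw [if_neg hxw, if_neg hyw]
              exact h5 x ((Finset.mem_insert.mp hx).resolve_left hxw) y
                ((Finset.mem_insert.mp hy).resolve_left hyw) e he
        · rw [he']
          change (if w = w then (1 : C) else q (some w)) - 1 = 0
          rw [if_pos rfl, sub_self]
      memG := fun C _ _ p hp => by
        obtain ⟨⟨h1, h2, h3, h4, h5⟩, -⟩ := hp
        refine ⟨h1, h2, fun x hx => ?_, fun x hx => ?_, fun x hx y hy e he => ?_⟩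
        · change (if x = w then 0 else p (some x)) = 0
          split_ifs with hxw
          · rfl
          · refine h3 x ?_
            rw [Finset.mem_coe, Finset.mem_insert, not_or]
            exact ⟨hxw, hx⟩
        · change IsUnit (if x = w then 0 else p (some x))
          rw [if_neg (hne x hx)]
          exact h4 x (by simp [Finset.mem_coe.mp hx])
        · change (if x = w then 0 else p (some x)) =
            vl (p none) (if y = w then 0 else p (some y)) e
          rw [if_neg (hne x hx), if_neg (hne y hy)]
          exact h5 x (by simp [Finset.mem_coe.mp hx]) y (by simp [Finset.mem_coe.mp hy]) e he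
      GF := fun C _ _ q hq => by
        funext s
        rcases s with _ | x
        · rfl
        · change (if x = w then 0 else if x = w then 1 else q (some x)) = q (some x)
          split_ifs with hxw
          · rw [hxw]
            exact (hq.2.2.1 w (by simpa using hw)).symm
          · rfl
      FG := fun C _ _ p hp => by
        have h1 := hp.2
        rw [he', sub_eq_zero] at h1
        funext s
        rcases s with _ | x
        · rfl
        · change (if x = w then 1 else if x = w then 0 else p (some x)) = p (some x)
          split_ifs with hxw
          · rw [hxw, h1]
          · rfl }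

/-- an unknown with the square one, not equal to one -/
lemma bij_neg_one (β : Bool) (hw : w ∉ T) (hf : Free T E w) (hl : E w w true)
    (e' : Fn (Sys R β true ((insert w T : Finset W) : Set W) E))
    (he' : ∀ (C : Type) [CommRing C] [Algebra R C] (p : Option W → C),
      e'.val C p = p (some w) - 1) :
    Bij ((Sys R β true (T : Set W) E).opn (two _))
      ((Sys R β true ((insert w T : Finset W) : Set W) E).opn e')
      (fun C _ _ q s => s.elim (q none) fun x => if x = w then -1 else q (some x))
      (fun C _ _ p s => s.elim (p none) fun x => if x = w then 0 else p (some x)) := by
  have hne : ∀ x ∈ T, x ≠ w := fun x hx h => hw (h ▸ hx)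
  have hwT : w ∈ ((insert w T : Finset W) : Set W) := by simp
  have hm : ∀ {C : Type} [CommRing C] [Algebra R C] (p : Option W → C),
      ((Sys R β true ((insert w T : Finset W) : Set W) E).opn e').pts C p → p (some w) = -1 := by
    intro C _ _ p hp
    obtain ⟨⟨h1, ⟨h2, h2'⟩, h3, h4, h5⟩, h6⟩ := hp
    rw [he'] at h6
    have h7 := h5 w hwT w hwT true hl
    rw [h2' rfl, vl_one_true] at h7
    have h8 : p (some w) * p (some w) = 1 := by
      nth_rw 1 [h7]
      exact Ring.inverse_mul_cancel _ (h4 w hwT)
    have h9 : (p (some w) - 1) * (p (some w) + 1) = 0 := by
      linear_combination h8
    exact eq_neg_of_add_eq_zero_left ((h6.mul_right_eq_zero).mp h9)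
  exact
    { natF := fun f q hq s => by
        rcases s with _ | x
        · rfl
        · change f (if x = w then -1 else q (some x)) = if x = w then -1 else f (q (some x))
          split_ifs
          · rw [map_neg, map_one]
          · rfl
      natG := fun f p hp s => by
        rcases s with _ | x
        · rfl
        · change f (if x = w then 0 else p (some x)) = if x = w then 0 else f (p (some x))
          split_ifs
          · exact map_zero f
          · rfl
      memF := fun C _ _ q hq => by
        obtain ⟨⟨h1, ⟨h2, h2'⟩, h3, h4, h5⟩, h6⟩ := hq
        refine ⟨⟨h1, ⟨h2, h2'⟩, fun x hx => ?_, fun x hx => ?_, fun x hx y hy e he => ?_⟩, ?_⟩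
        · rw [Finset.mem_coe, Finset.mem_insert, not_or] at hx
          change (if x = w then -1 else q (some x)) = 0
          rw [if_neg hx.1]
          exact h3 x hx.2
        · change IsUnit (if x = w then -1 else q (some x))
          split_ifs with hxw
          · exact isUnit_one.neg
          · exact h4 x ((Finset.mem_insert.mp hx).resolve_left hxw)
        · change (if x = w then -1 else q (some x)) =
            vl (q none) (if y = w then -1 else q (some y)) e
          by_cases hxw : x = w
          · by_cases hyw : y = w
            · rw [if_pos hxw, if_pos hyw, h2' rfl]
              cases e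
              · rfl
              · rw [vl_one_true]
                have h7 : (-1 : C) = ((-1 : Cˣ) : C) := by simp
                rw [h7, Ring.inverse_unit]
                simp
            · rw [hxw] at he
              exact absurd he (hf y ((Finset.mem_insert.mp hy).resolve_left hyw) e).1
          · by_cases hyw : y = w
            · rw [hyw] at he
              exact absurd he (hf x ((Finset.mem_insert.mp hx).resolve_left hxw) e).2
            · rw [if_neg hxw, if_neg hyw]
              exact h5 x ((Finset.mem_insert.mp hx).resolve_left hxw) y
                ((Finset.mem_insert.mp hy).resolve_left hyw) e he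
        · rw [he']
          change IsUnit ((if w = w then (-1 : C) else q (some w)) - 1)
          rw [if_pos rfl]
          have h7 : (-1 : C) - 1 = -2 := by norm_num
          rw [h7]
          exact IsUnit.neg h6
      memG := fun C _ _ p hp => by
        have h0 := hm p hp
        obtain ⟨⟨h1, h2, h3, h4, h5⟩, h6⟩ := hp
        refine ⟨⟨h1, h2, fun x hx => ?_, fun x hx => ?_, fun x hx y hy e he => ?_⟩, ?_⟩
        · change (if x = w then 0 else p (some x)) = 0
          split_ifs with hxw
          · rfl
          · refine h3 x ?_
            rw [Finset.mem_coe, Finset.mem_insert, not_or]
            exact ⟨hxw, hx⟩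
        · change IsUnit (if x = w then 0 else p (some x))
          rw [if_neg (hne x hx)]
          exact h4 x (by simp [Finset.mem_coe.mp hx])
        · change (if x = w then 0 else p (some x)) =
            vl (p none) (if y = w then 0 else p (some y)) e
          rw [if_neg (hne x hx), if_neg (hne y hy)]
          exact h5 x (by simp [Finset.mem_coe.mp hx]) y (by simp [Finset.mem_coe.mp hy]) e he
        · rw [he', h0] at h6
          change IsUnit (2 : C)
          have h7 : (-1 : C) - 1 = -2 := by norm_num
          rw [h7] at h6
          exact (IsUnit.neg_iff _).mp h6
      GF := fun C _ _ q hq => by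
        funext s
        rcases s with _ | x
        · rfl
        · change (if x = w then 0 else if x = w then -1 else q (some x)) = q (some x)
          split_ifs with hxw
          · rw [hxw]
            exact (hq.1.2.2.1 w (by simpa using hw)).symm
          · rfl
      FG := fun C _ _ p hp => by
        have h0 := hm p hp
        funext s
        rcases s with _ | x
        · rfl
        · change (if x = w then -1 else if x = w then 0 else p (some x)) = p (some x)
          split_ifs with hxw
          · rw [hxw, h0]
          · rfl }

/-- representability: an unknown with the square one -/
lemma bij_sq_one (β : Bool) (hw : w ∉ T) (hf : Free T E w) (hl : E w w true)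
    (e' : Fn (Sys R β true (T : Set W) E).gm)
    (he' : ∀ (C : Type) [CommRing C] [Algebra R C] (p : Option (Option W) → C),
      e'.val C p = p none * p none - 1) :
    Bij ((Sys R β true (T : Set W) E).gm.clo e')
      (Sys R β true ((insert w T : Finset W) : Set W) E)
      (fun C _ _ q s => s.elim (q (some none)) fun x =>
        if x = w then q none else q (some (some x)))
      (fun C _ _ p s => s.elim (p (some w)) fun t => t.elim (p none) fun x =>
        if x = w then 0 else p (some x)) := by
  have hne : ∀ x ∈ T, x ≠ w := fun x hx h => hw (h ▸ hx)
  have hwT : w ∈ ((insert w T : Finset W) : Set W) := by simp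
  exact
    { natF := fun f q hq s => by
        rcases s with _ | x
        · rfl
        · change f (if x = w then q none else q (some (some x))) =
            if x = w then f (q none) else f (q (some (some x)))
          split_ifs <;> rfl
      natG := fun f p hp s => by
        rcases s with _ | _ | x
        · rfl
        · rfl
        · change f (if x = w then 0 else p (some x)) = if x = w then 0 else f (p (some x))
          split_ifs
          · exact map_zero f
          · rfl
      memF := fun C _ _ q hq => by
        obtain ⟨⟨⟨h1, ⟨h2, h2'⟩, h3, h4, h5⟩, h6⟩, h7⟩ := hq
        rw [he'] at h7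
        have h8 : q (some none) = 1 := h2' rfl
        refine ⟨h1, ⟨h2, h2'⟩, fun x hx => ?_, fun x hx => ?_, fun x hx y hy e he => ?_⟩
        · rw [Finset.mem_coe, Finset.mem_insert, not_or] at hx
          change (if x = w then q none else q (some (some x))) = 0
          rw [if_neg hx.1]
          exact h3 x hx.2
        · change IsUnit (if x = w then q none else q (some (some x)))
          split_ifs with hxw
          · exact h6
          · exact h4 x ((Finset.mem_insert.mp hx).resolve_left hxw)
        · change (if x = w then q none else q (some (some x))) =
            vl (q (some none)) (if y = w then q none else q (some (some y))) e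
          by_cases hxw : x = w
          · by_cases hyw : y = w
            · rw [if_pos hxw, if_pos hyw, h8]
              cases e
              · rfl
              · rw [vl_one_true]
                have h9 : q none * q none = 1 := sub_eq_zero.mp h7
                calc q none = q none * (q none * Ring.inverse (q none)) := by
                      rw [Ring.mul_inverse_cancel _ h6, mul_one]
                  _ = Ring.inverse (q none) := by rw [← mul_assoc, h9, one_mul]
            · rw [hxw] at he
              exact absurd he (hf y ((Finset.mem_insert.mp hy).resolve_left hyw) e).1
          · by_cases hyw : y = w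
            · rw [hyw] at he
              exact absurd he (hf x ((Finset.mem_insert.mp hx).resolve_left hxw) e).2
            · rw [if_neg hxw, if_neg hyw]
              exact h5 x ((Finset.mem_insert.mp hx).resolve_left hxw) y
                ((Finset.mem_insert.mp hy).resolve_left hyw) e he
      memG := fun C _ _ p hp => by
        obtain ⟨h1, ⟨h2, h2'⟩, h3, h4, h5⟩ := hp
        refine ⟨⟨⟨h1, ⟨h2, h2'⟩, fun x hx => ?_, fun x hx => ?_, fun x hx y hy e he => ?_⟩,
          h4 w hwT⟩, ?_⟩
        · change (if x = w then 0 else p (some x)) = 0
          split_ifs with hxw
          · rfl
          · refine h3 x ?_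
            rw [Finset.mem_coe, Finset.mem_insert, not_or]
            exact ⟨hxw, hx⟩
        · change IsUnit (if x = w then 0 else p (some x))
          rw [if_neg (hne x hx)]
          exact h4 x (by simp [Finset.mem_coe.mp hx])
        · change (if x = w then 0 else p (some x)) =
            vl (p none) (if y = w then 0 else p (some y)) e
          rw [if_neg (hne x hx), if_neg (hne y hy)]
          exact h5 x (by simp [Finset.mem_coe.mp hx]) y (by simp [Finset.mem_coe.mp hy]) e he
        · rw [he']
          change p (some w) * p (some w) - 1 = 0
          have h7 := h5 w hwT w hwT true hl
          rw [h2' rfl, vl_one_true] at h7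
          nth_rw 1 [h7]
          rw [Ring.inverse_mul_cancel _ (h4 w hwT), sub_self]
      GF := fun C _ _ q hq => by
        funext s
        rcases s with _ | _ | x
        · change (if w = w then q none else q (some (some w))) = q none
          rw [if_pos rfl]
        · rfl
        · change (if x = w then 0 else if x = w then q none else q (some (some x))) =
            q (some (some x))
          split_ifs with hxw
          · rw [hxw]
            exact (hq.1.1.2.2.1 w (by simpa using hw)).symm
          · rfl
      FG := fun C _ _ p hp => by
        funext s
        rcases s with _ | x
        · rfl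
        · change (if x = w then p (some w) else if x = w then 0 else p (some x)) = p (some x)
          split_ifs with hxw
          · rw [hxw]
          · rfl }

end step

/-- **Systems of equations between invertible elements.** -/
theorem hol_sys [DecidableEq W] (hP : ALin P) (h2 : P (aff R (R ⧸ Ideal.span {(2 : R)})))
    (T : Finset W) (β δ : Bool) (E : W → W → Bool → Prop) :
    Hol P (Sys R β δ (T : Set W) E) := by
  induction T using Finset.induction_on generalizing β δ E with
  | empty =>
    rw [Finset.coe_empty]
    exact hol_sys_empty hP h2 β δ E
  | insert w T hw ih =>
    by_cases hf : Free T E w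
    · by_cases hl : E w w true
      · cases δ
        · exact (hol_gm hP (ih β true E)).trans (bij_square β hw hf hl)
        · have hr : Repr (Sys R β true ((insert w T : Finset W) : Set W) E) := by
            let e' : Fn (Sys R β true (T : Set W) E).gm :=
              ⟨fun _ _ _ p => p none * p none - 1, fun f p _ => by
                rw [map_sub, map_mul, map_one]⟩
            exact ((hol_gm hP (ih β true E)).repr.clo e').trans
              (bij_sq_one β hw hf hl e' fun _ _ _ _ => rfl)
          let e' : Fn (Sys R β true ((insert w T : Finset W) : Set W) E) :=
            ⟨fun _ _ _ p => p (some w) - 1, fun f p _ => by rw [map_sub, map_one]⟩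
          refine atot hP e' hr ?_ ?_
          · exact (ih β true E).trans (bij_one β hw hf e' fun _ _ _ _ => rfl)
          · refine (hol_opn hP (two _) (ih β true E) ?_).trans
              (bij_neg_one β hw hf hl e' fun _ _ _ _ => rfl)
            exact Hol.congr (fun C _ _ p => sys_clo_two β true _ E C p) (ih true true E)
      · exact (hol_gm hP (ih β δ E)).trans (bij_free β δ hw hf hl)
    · simp only [Free, not_forall] at hf
      obtain ⟨j, hj, e₀, h⟩ := hf
      have hE : E w j e₀ ∨ E j w e₀ := by
        by_contra h'
        rw [not_or] at h'
        exact h h'
      exact (ih β δ _).trans (bij_elim β δ hw hj hE)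

end Pool.Agent.H68.RT
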