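import Pool.Agent.H68.RT.Sy2

/-!
# Systems of orthogonal vectors in a quadratic plane
-/

set_option autoImplicit false
set_option linter.unusedSectionVars false
set_option linter.unusedVariables false

open CategoryTheory AlgebraicGeometry MvPolynomial Pool.Agent.Y116.UV Pool.Agent.Q193.LT
  Pool.Agent.Q282.UK Pool.Agent.H81.RZ

namespace Pool.Agent.H68.RT

variable {R : Type} [CommRing R] {P : Sch R → Prop} {J : Type}

lemma quot_eq {G : Type} [CommGroup G] {a b a' b' c : G} (h : a * a' = c * (b * b')) :
    a * b⁻¹ = c * (a' * b'⁻¹)⁻¹ := by
  have h1 : Additive.ofMul a + Additive.ofMul a' =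
    Additive.ofMul c + (Additive.ofMul b + Additive.ofMul b') := h
  have h2 : Additive.ofMul a + -Additive.ofMul b =
      Additive.ofMul c + -(Additive.ofMul a' + -Additive.ofMul b') := by
    rw [← sub_eq_zero] at h1 ⊢
    rw [← h1]
    abel
  exact h2

/-- An invertible element `c` and vectors `(a j, b j)`, `a j` invertible for `j ∈ A` and zero for the
other `j`, `b j` invertible for `j ∈ B` and zero for the other `j`, with `a j a l = c b j b l` (if `ε`)
or `a j b l = b j a l` (if not `ε`) for `(j, l) ∈ Z` with `j, l ∈ A ∩ B`; if `β`, then `2 = 0`. -/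
def VS (R : Type) [CommRing R] (β ε : Bool) (A B : Set J) (Z : Set (J × J)) :
    Pts R (Option (J ⊕ J)) where
  pts C _ _ p := (β = true → (2 : C) = 0) ∧ IsUnit (p none) ∧
    ((∀ j ∉ A, p (some (.inl j)) = 0) ∧ ∀ j ∈ A, IsUnit (p (some (.inl j)))) ∧
    ((∀ j ∉ B, p (some (.inr j)) = 0) ∧ ∀ j ∈ B, IsUnit (p (some (.inr j)))) ∧
    ∀ x ∈ Z, (x.1 ∈ A ∧ x.1 ∈ B) → (x.2 ∈ A ∧ x.2 ∈ B) →
      (ε = true → p (some (.inl x.1)) * p (some (.inl x.2)) =
        p none * (p (some (.inr x.1)) * p (some (.inr x.2)))) ∧
      (ε = false → p (some (.inl x.1)) * p (some (.inr x.2)) =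
        p (some (.inr x.1)) * p (some (.inl x.2)))
  map {C D} _ _ _ _ f p h := by
    obtain ⟨h1, h2, ⟨h3, h4⟩, ⟨h5, h6⟩, h7⟩ := h
    refine ⟨fun hb => ?_, h2.map f, ⟨fun j hj => ?_, fun j hj => (h4 j hj).map f⟩,
      ⟨fun j hj => ?_, fun j hj => (h6 j hj).map f⟩, fun x hx hA hB => ⟨fun he => ?_, fun he => ?_⟩⟩
    · rw [← map_ofNat f 2, h1 hb, map_zero]
    · exact (congrArg f (h3 j hj)).trans (map_zero f)
    · exact (congrArg f (h5 j hj)).trans (map_zero f)
    · have h8 := congrArg f ((h7 x hx hA hB).1 he)
      simpa only [map_mul] using h8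
    · have h8 := congrArg f ((h7 x hx hA hB).2 he)
      simpa only [map_mul] using h8

/-- the quotients `a j / b j` and `b j` -/
theorem hol_vs [Finite J] (hP : ALin P) (h2 : P (aff R (R ⧸ Ideal.span {(2 : R)}))) (β ε : Bool)
    (A B : Set J) (Z : Set (J × J)) : Hol P (VS R β ε A B Z) := by
  classical
  have : Fintype J := Fintype.ofFinite J
  let T : Finset (J ⊕ J) := Finset.univ.filter fun s => Sum.elim (· ∈ A) (· ∈ B) s
  have hTl : ∀ j, (.inl j : J ⊕ J) ∈ (T : Set (J ⊕ J)) ↔ j ∈ A := by
    intro j
    simp [T]
  have hTr : ∀ j, (.inr j : J ⊕ J) ∈ (T : Set (J ⊕ J)) ↔ j ∈ B := by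
    intro j
    simp [T]
  let E : (J ⊕ J) → (J ⊕ J) → Bool → Prop := fun x y e => ∃ j l, x = .inl j ∧ y = .inl l ∧ e = ε ∧
    (j, l) ∈ Z ∧ (j ∈ A ∧ j ∈ B) ∧ l ∈ A ∧ l ∈ B
  refine (hol_sys hP h2 T β false E).trans
    (F := fun C _ _ q s => s.elim (q none) (Sum.elim
      (fun j => if j ∈ B then q (some (.inl j)) * q (some (.inr j)) else q (some (.inl j)))
      fun j => q (some (.inr j))))
    (G := fun C _ _ p s => s.elim (p none) (Sum.elim
      (fun j => if j ∈ B then p (some (.inl j)) * Ring.inverse (p (some (.inr j)))
        else p (some (.inl j)))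
      fun j => p (some (.inr j)))) ?_
  exact
    { natF := fun f q hq s => by
        rcases s with _ | j | j
        · rfl
        · change f (if j ∈ B then q (some (.inl j)) * q (some (.inr j)) else q (some (.inl j))) =
            if j ∈ B then f (q (some (.inl j))) * f (q (some (.inr j))) else f (q (some (.inl j)))
          split_ifs
          · exact map_mul f _ _
          · rfl
        · rfl
      natG := fun {C D} _ _ _ _ f p hp s => by
        rcases s with _ | j | j
        · rfl
        · change f (if j ∈ B then p (some (.inl j)) * Ring.inverse (p (some (.inr j)))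
              else p (some (.inl j))) =
            if j ∈ B then f (p (some (.inl j))) * Ring.inverse (f (p (some (.inr j))))
              else f (p (some (.inl j)))
          split_ifs with hj
          · have h1 := map_inverse_of_isUnit (f : C →+* D) (hp.2.2.2.1.2 j hj)
            rw [map_mul]
            congr 1
          · rfl
        · rfl
      memF := fun C _ _ q hq => by
        obtain ⟨h1, ⟨h3, h4⟩, h5, h6, h7⟩ := hq
        refine ⟨h1, h3, ⟨fun j hj => ?_, fun j hj => ?_⟩, ⟨fun j hj => ?_, fun j hj => ?_⟩,
          fun x hx hA hB => ?_⟩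
        · change (if j ∈ B then q (some (.inl j)) * q (some (.inr j)) else q (some (.inl j))) = 0
          rw [h5 (.inl j) (by rwa [hTl])]
          split_ifs
          · exact zero_mul _
          · rfl
        · change IsUnit (if j ∈ B then q (some (.inl j)) * q (some (.inr j)) else q (some (.inl j)))
          have h8 := h6 (.inl j) ((hTl j).mpr hj)
          split_ifs with hjB
          · exact h8.mul (h6 (.inr j) ((hTr j).mpr hjB))
          · exact h8
        · exact h5 (.inr j) (by rwa [hTr])
        · exact h6 (.inr j) ((hTr j).mpr hj)
        · have h8 := h7 (.inl x.1) ((hTl _).mpr hA.1) (.inl x.2) ((hTl _).mpr hB.1) ε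
            ⟨x.1, x.2, rfl, rfl, rfl, hx, hA, hB⟩
          have h9 := h6 (.inl x.2) ((hTl _).mpr hB.1)
          constructor
          · intro he
            change (if x.1 ∈ B then q (some (.inl x.1)) * q (some (.inr x.1))
                else q (some (.inl x.1))) * (if x.2 ∈ B then q (some (.inl x.2)) *
                q (some (.inr x.2)) else q (some (.inl x.2))) =
              q none * (q (some (.inr x.1)) * q (some (.inr x.2)))
            rw [if_pos hA.2, if_pos hB.2, h8, he, vl_true]
            have h10 := Ring.inverse_mul_cancel _ h9
            linear_combination (q none * q (some (.inr x.1)) * q (some (.inr x.2))) * h10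
          · intro he
            change (if x.1 ∈ B then q (some (.inl x.1)) * q (some (.inr x.1))
                else q (some (.inl x.1))) * q (some (.inr x.2)) =
              q (some (.inr x.1)) * (if x.2 ∈ B then q (some (.inl x.2)) *
                q (some (.inr x.2)) else q (some (.inl x.2)))
            rw [if_pos hA.2, if_pos hB.2, h8, he, vl_false]
            ring
      memG := fun C _ _ p hp => by
        obtain ⟨h1, h3, ⟨h4, h5⟩, ⟨h6, h7⟩, h8⟩ := hp
        refine ⟨h1, ⟨h3, fun h => absurd h (by simp)⟩, fun s hs => ?_, fun s hs => ?_,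
          fun s hs t ht e he => ?_⟩
        · rcases s with j | j
          · change (if j ∈ B then p (some (.inl j)) * Ring.inverse (p (some (.inr j)))
              else p (some (.inl j))) = 0
            rw [h4 j (by rwa [hTl] at hs)]
            split_ifs
            · exact zero_mul _
            · rfl
          · exact h6 j (by rwa [hTr] at hs)
        · rcases s with j | j
          · change IsUnit (if j ∈ B then p (some (.inl j)) * Ring.inverse (p (some (.inr j)))
              else p (some (.inl j)))
            have h9 := h5 j ((hTl j).mp hs)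
            split_ifs with hjB
            · exact h9.mul (isUnit_inv (h7 j hjB))
            · exact h9
          · exact h7 j ((hTr j).mp hs)
        · obtain ⟨j, l, rfl, rfl, rfl, hx, hA, hB⟩ := he
          change (if j ∈ B then p (some (.inl j)) * Ring.inverse (p (some (.inr j)))
              else p (some (.inl j))) =
            vl (p none) (if l ∈ B then p (some (.inl l)) * Ring.inverse (p (some (.inr l)))
              else p (some (.inl l))) e
          rw [if_pos hA.2, if_pos hB.2]
          have h9 := h8 (j, l) hx hA hB
          obtain ⟨a, ha⟩ := h5 j hA.1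
          obtain ⟨b, hb⟩ := h7 j hA.2
          obtain ⟨a', ha'⟩ := h5 l hB.1
          obtain ⟨b', hb'⟩ := h7 l hB.2
          obtain ⟨c, hc⟩ := h3
          cases e
          · have h10 := h9.2 rfl
            change p (some (.inl j)) * p (some (.inr l)) = p (some (.inr j)) * p (some (.inl l))
              at h10
            rw [vl_false]
            rw [← ha, ← hb, ← ha', ← hb'] at h10 ⊢
            rw [Ring.inverse_unit, Ring.inverse_unit]
            have h11 : a * b' = b * a' := Units.ext h10
            have h12 : a * b⁻¹ = a' * b'⁻¹ := by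
              rw [mul_inv_eq_iff_eq_mul, mul_right_comm, eq_mul_inv_iff_mul_eq, h11, mul_comm]
            exact congrArg Units.val h12
          · have h10 := h9.1 rfl
            change p (some (.inl j)) * p (some (.inl l)) =
              p none * (p (some (.inr j)) * p (some (.inr l))) at h10
            rw [vl_true]
            rw [← ha, ← hb, ← ha', ← hb', ← hc] at h10 ⊢
            rw [Ring.inverse_unit, Ring.inverse_unit, ← Units.val_mul a', Ring.inverse_unit]
            have h11 : a * a' = c * (b * b') := Units.ext h10
            exact congrArg Units.val (quot_eq h11)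
      GF := fun C _ _ q hq => by
        obtain ⟨h1, ⟨h3, h4⟩, h5, h6, h7⟩ := hq
        funext s
        rcases s with _ | j | j
        · rfl
        · change (if j ∈ B then (if j ∈ B then q (some (.inl j)) * q (some (.inr j))
              else q (some (.inl j))) * Ring.inverse (q (some (.inr j)))
            else if j ∈ B then q (some (.inl j)) * q (some (.inr j)) else q (some (.inl j))) =
            q (some (.inl j))
          split_ifs with hj
          · rw [mul_assoc, Ring.mul_inverse_cancel _ (h6 (.inr j) ((hTr j).mpr hj)), mul_one]
          · rfl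
        · rfl
      FG := fun C _ _ p hp => by
        obtain ⟨h1, h3, ⟨h4, h5⟩, ⟨h6, h7⟩, h8⟩ := hp
        funext s
        rcases s with _ | j | j
        · rfl
        · change (if j ∈ B then (if j ∈ B then p (some (.inl j)) * Ring.inverse (p (some (.inr j)))
              else p (some (.inl j))) * p (some (.inr j))
            else if j ∈ B then p (some (.inl j)) * Ring.inverse (p (some (.inr j)))
              else p (some (.inl j))) = p (some (.inl j))
          split_ifs with hj
          · rw [mul_assoc, Ring.inverse_mul_cancel _ (h7 j hj), mul_one]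
          · rfl
        · rfl }

end Pool.Agent.H68.RT
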