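import Pool.Agent.H68.RT.Sy3
import Pool.Agent.H81.RZ.Gad
import Pool.Agent.H38.SA.Em

/-!
# Symmetric matrices of rank at most two with prescribed zeros: closed-open decompositions
-/

set_option autoImplicit false
set_option linter.unusedSectionVars false
set_option linter.unusedVariables false

open CategoryTheory AlgebraicGeometry MvPolynomial Pool.Agent.Y116.UV Pool.Agent.Q193.LT
  Pool.Agent.Q282.UK Pool.Agent.H81.RZ Pool.Agent.H38.SA

namespace Pool.Agent.H68.RT

variable {R : Type} [CommRing R] {P : Sch R → Prop} {ι : Type}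

/-- symmetric matrices of rank at most `2`, zero at `Z`, invertible at `U` -/
def SM (R : Type) [CommRing R] (Z U : Set (ι × ι)) : Pts R (ι × ι) where
  pts C _ _ p := RankLe 2 p ∧ (∀ x y, p (y, x) = p (x, y)) ∧ (∀ e ∈ Z, p e = 0) ∧
    ∀ e ∈ U, IsUnit (p e)
  map {C D} _ _ _ _ f p h := ⟨h.1.map (f : C →+* D), fun x y => congrArg f (h.2.1 x y),
    fun e he => (congrArg f (h.2.2.1 e he)).trans (map_zero f), fun e he => (h.2.2.2 e he).map f⟩

lemma zer_sm (Z : Set (ι × ι)) (C : Type) [CommRing C] [Algebra R C] (p : ι × ι → C) :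
    (zer (syEqs R 2 Z)).pts C p ↔ (SM R Z ∅).pts C p := by
  rw [zer_sy]
  refine and_congr_right fun _ => and_congr_left fun _ => ?_
  simp only [Units.val_one, Int.cast_one, one_mul]

lemma repr_sm [Finite ι] (Z : Set (ι × ι)) : Repr (SM R Z (∅ : Set (ι × ι))) :=
  Hol.congr (fun C _ _ p => zer_sm Z C p)
    ⟨_, inferInstance, inferInstance, inferInstance, _, rep_zer (syEqs R 2 Z), trivial⟩

lemma sm_clo (Z : Set (ι × ι)) (e : ι × ι) (C : Type) [CommRing C] [Algebra R C]
    (p : ι × ι → C) : (SM R (insert e Z) ∅).pts C p ↔ ((SM R Z ∅).clo (ent e)).pts C p := by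
  constructor
  · rintro ⟨h1, h2, h3, h4⟩
    exact ⟨⟨h1, h2, fun e' he => h3 e' (Or.inr he), h4⟩, h3 e (Or.inl rfl)⟩
  · rintro ⟨⟨h1, h2, h3, h4⟩, h5⟩
    refine ⟨h1, h2, ?_, h4⟩
    rintro e' (rfl | he)
    · exact h5
    · exact h3 e' he

lemma sm_opn (Z : Set (ι × ι)) (e : ι × ι) (C : Type) [CommRing C] [Algebra R C]
    (p : ι × ι → C) : (SM R Z {e}).pts C p ↔ ((SM R Z ∅).opn (ent e)).pts C p := by
  constructor
  · rintro ⟨h1, h2, h3, h4⟩
    exact ⟨⟨h1, h2, h3, fun e' he => absurd he (Set.notMem_empty e')⟩, h4 e rfl⟩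
  · rintro ⟨⟨h1, h2, h3, h4⟩, h5⟩
    refine ⟨h1, h2, h3, ?_⟩
    rintro e' rfl
    exact h5

lemma repr_sm_opn [Finite ι] (Z : Set (ι × ι)) (e : ι × ι) : Repr (SM R Z {e}) :=
  Hol.congr (fun C _ _ p => (sm_opn Z e C p).symm) ((repr_sm Z).opn (ent e))

/-- the first entry in `L` which is not zero -/
lemma sm_cut [Finite ι] (hP : ALin P) (L : Finset (ι × ι)) (Z : Set (ι × ι))
    (h1 : ∀ Z' : Set (ι × ι), Z ⊆ Z' → ∀ e ∈ L, Hol P (SM R Z' {e}))
    (h2 : Hol P (SM R (Z ∪ (L : Set (ι × ι))) ∅)) : Hol P (SM R Z (∅ : Set (ι × ι))) := by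
  classical
  induction L using Finset.induction_on generalizing Z with
  | empty =>
    rwa [Finset.coe_empty, Set.union_empty] at h2
  | insert e L _ ih =>
    refine atot hP (ent e) (repr_sm Z) ?_ ?_
    · refine Hol.congr (fun C _ _ p => sm_clo Z e C p) (ih (insert e Z) ?_ ?_)
      · intro Z' hZ' e' he'
        exact h1 Z' ((Set.subset_insert _ _).trans hZ') e' (Finset.mem_insert_of_mem he')
      · rwa [Set.insert_union, ← Set.union_insert, ← Finset.coe_insert]
    · exact Hol.congr (fun C _ _ p => sm_opn Z e C p)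
        (h1 Z (Set.Subset.refl Z) e (Finset.mem_insert_self _ _))

section minors

variable {C : Type} [CommRing C]

/-- the minor with the rows `i`, `a` and the columns `i`, `b` of a symmetric matrix -/
def mm (p : ι × ι → C) (i a b : ι) : C := p (i, i) * p (a, b) - p (i, a) * p (i, b)

lemma mm_map {D : Type} [CommRing D] [Algebra R C] [Algebra R D] (f : C →ₐ[R] D)
    (p : ι × ι → C) (i a b : ι) : f (mm p i a b) = mm (fun s => f (p s)) i a b := by
  rw [mm, map_sub, map_mul, map_mul]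
  rfl

lemma sy_minor {p : ι × ι → C} (h : RankLe 2 p) (hs : ∀ x y, p (y, x) = p (x, y))
    (i k j l : ι) : mm p i k k * mm p i j l = mm p i k j * mm p i k l := by
  have h1 := h ![i, k, j] ![i, k, l]
  rw [Matrix.det_fin_three] at h1
  simp only [Matrix.of_apply, Matrix.cons_val_zero, Matrix.cons_val_one, Matrix.cons_val] at h1
  rw [hs i k, hs i j, hs k j] at h1
  simp only [mm]
  linear_combination p (i, i) * h1

lemma sy_hyp {p : ι × ι → C} (h : RankLe 2 p) (hs : ∀ x y, p (y, x) = p (x, y)) {i k : ι}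
    (hi : p (i, i) = 0) (hk : p (k, k) = 0) (hu : IsUnit (p (i, k))) (j l : ι) :
    p (i, k) * p (j, l) = p (i, j) * p (k, l) + p (k, j) * p (i, l) := by
  have h1 := h ![i, k, j] ![i, k, l]
  rw [Matrix.det_fin_three] at h1
  simp only [Matrix.of_apply, Matrix.cons_val_zero, Matrix.cons_val_one, Matrix.cons_val] at h1
  rw [hs i k, hs i j, hs k j, hi, hk] at h1
  refine hu.mul_left_cancel ?_
  linear_combination -h1

/-- a sum of two products -/
lemma rank_two (f g f' g' : ι → C) : RankLe 2 fun e : ι × ι => f e.1 * g e.2 + f' e.1 * g' e.2 := by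
  intro ρ γ
  rw [Matrix.det_fin_three]
  simp only [Matrix.of_apply]
  ring

end minors

end Pool.Agent.H68.RT
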