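import Pool.Agent.H68.RT.Sy4

/-!
# Symmetric matrices of rank at most two with an invertible diagonal entry
-/

set_option autoImplicit false
set_option linter.unusedSectionVars false
set_option linter.unusedVariables false

open CategoryTheory AlgebraicGeometry MvPolynomial Pool.Agent.Y116.UV Pool.Agent.Q193.LT
  Pool.Agent.Q282.UK Pool.Agent.H81.RZ Pool.Agent.H38.SA

namespace Pool.Agent.H68.RT

variable {R : Type} [CommRing R] {P : Sch R → Prop} {ι : Type}

/-- The diagonal entry at `i` is invertible, the minors with the rows and columns `i`, `l` are zero for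
`l ∈ L` and invertible for `l ∈ K`. -/
def SD (R : Type) [CommRing R] (Z : Set (ι × ι)) (i : ι) (L K : Set ι) : Pts R (ι × ι) where
  pts C _ _ p := (SM R Z {(i, i)}).pts C p ∧ (∀ l ∈ L, mm p i l l = 0) ∧
    ∀ k ∈ K, IsUnit (mm p i k k)
  map {C D} _ _ _ _ f p h := ⟨(SM R Z {(i, i)}).map f h.1, fun l hl => by
      rw [← mm_map, h.2.1 l hl, map_zero], fun k hk => by
      rw [← mm_map]
      exact (h.2.2 k hk).map f⟩

/-- a minor -/
def mmf (S : Pts R (ι × ι)) (i a b : ι) : Fn S := ⟨fun C _ _ p => mm p i a b, fun f p _ => mm_map f p i a b⟩

lemma sd_clo (Z : Set (ι × ι)) (i l : ι) (L : Set ι) (C : Type) [CommRing C] [Algebra R C]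
    (p : ι × ι → C) :
    (SD R Z i (insert l L) ∅).pts C p ↔ ((SD R Z i L ∅).clo (mmf _ i l l)).pts C p := by
  constructor
  · rintro ⟨h1, h2, h3⟩
    exact ⟨⟨h1, fun l' hl => h2 l' (Or.inr hl), h3⟩, h2 l (Or.inl rfl)⟩
  · rintro ⟨⟨h1, h2, h3⟩, h4⟩
    refine ⟨h1, ?_, h3⟩
    rintro l' (rfl | hl)
    · exact h4
    · exact h2 l' hl

lemma sd_opn (Z : Set (ι × ι)) (i k : ι) (L : Set ι) (C : Type) [CommRing C] [Algebra R C]
    (p : ι × ι → C) :
    (SD R Z i L {k}).pts C p ↔ ((SD R Z i L ∅).opn (mmf _ i k k)).pts C p := by
  constructor
  · rintro ⟨h1, h2, h3⟩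
    exact ⟨⟨h1, h2, fun k' hk => absurd hk (Set.notMem_empty k')⟩, h3 k rfl⟩
  · rintro ⟨⟨h1, h2, h3⟩, h4⟩
    refine ⟨h1, h2, ?_⟩
    rintro k' rfl
    exact h4

lemma repr_sd [Finite ι] (Z : Set (ι × ι)) (i : ι) (L : Set ι) : Repr (SD R Z i L ∅) := by
  classical
  have : Fintype ι := Fintype.ofFinite ι
  have key : ∀ L : Finset ι, Repr (SD R Z i (L : Set ι) ∅) := by
    intro L
    induction L using Finset.induction_on with
    | empty =>
      refine Hol.congr (fun C _ _ p => ?_) (repr_sm_opn Z (i, i))
      exact ⟨fun h => ⟨h, fun l hl => absurd hl (by simp), fun l hl => absurd hl (by simp)⟩,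
        fun h => h.1⟩
    | insert l L _ ih =>
      rw [Finset.coe_insert]
      exact Hol.congr (fun C _ _ p => (sd_clo Z i l _ C p).symm) (ih.clo _)
  have h1 := key L.toFinset
  rwa [Set.coe_toFinset] at h1

lemma repr_sd_opn [Finite ι] (Z : Set (ι × ι)) (i k : ι) (L : Set ι) :
    Repr (SD R Z i L {k}) :=
  Hol.congr (fun C _ _ p => (sd_opn Z i k L C p).symm) ((repr_sd Z i L).opn _)

/-- the first minor in `T` which is not zero -/
lemma sd_cut [Finite ι] (hP : ALin P) (T : Finset ι) (Z : Set (ι × ι)) (i : ι) (L : Set ι)
    (h1 : ∀ (L' : Set ι) (k : ι), Hol P (SD R Z i L' {k}))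
    (h2 : Hol P (SD R Z i (L ∪ (T : Set ι)) ∅)) : Hol P (SD R Z i L (∅ : Set ι)) := by
  classical
  induction T using Finset.induction_on generalizing L with
  | empty =>
    rwa [Finset.coe_empty, Set.union_empty] at h2
  | insert l T _ ih =>
    refine atot hP (mmf _ i l l) (repr_sd Z i L) ?_ ?_
    · refine Hol.congr (fun C _ _ p => sd_clo Z i l L C p) (ih (insert l L) ?_)
      rwa [Set.insert_union, ← Set.union_insert, ← Finset.coe_insert]
    · exact Hol.congr (fun C _ _ p => sd_opn Z i l L C p) (h1 L l)

section generic

variable (i k : ι)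

/-- the first row and the minors with the rows `i`, `k` -/
def ef (S : Pts R (ι × ι)) (s : ι ⊕ ι) : Fn S where
  val C _ _ p := Sum.elim (fun j => p (i, j)) (fun j => mm p i k j) s
  nat f p _ := by
    rcases s with j | j
    · rfl
    · exact mm_map f p i k j

variable {i k} [DecidableEq ι] {τ : ι ⊕ ι → Bool} {Z : Set (ι × ι)} {L : Set ι}

lemma mm_self {C : Type} [CommRing C] (p : ι × ι → C) (hs : ∀ x y, p (y, x) = p (x, y)) (i k : ι) :
    mm p i k i = 0 := by
  rw [mm, hs i k]
  ring

/-- the first vector component -/
def bigv {C : Type} [CommRing C] (i : ι) (u : C) (v : ι → C) (j : ι) : C := if j = i then u else v j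

/-- the matrix with the vectors `(V j, t j)` -/
noncomputable def matv {C : Type} [CommRing C] (i k : ι) (q : Option (ι ⊕ ι) → C) (e : ι × ι) : C :=
  (bigv i (-(q none * q (some (.inr k)))) (fun j => q (some (.inl j))) e.1 *
    bigv i (-(q none * q (some (.inr k)))) (fun j => q (some (.inl j))) e.2 -
    q none * (q (some (.inr e.1)) * q (some (.inr e.2)))) *
    Ring.inverse (-(q none * q (some (.inr k))))

/-- the vectors of a matrix -/
noncomputable def vecm {C : Type} [CommRing C] (i k : ι) (p : ι × ι → C) (s : Option (ι ⊕ ι)) : C :=
  s.elim (-(p (i, i) * p (i, i) * Ring.inverse (mm p i k k))) (Sum.elim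
    (fun j => if j = i then 0 else p (i, j)) fun j => mm p i k j * Ring.inverse (p (i, i)))

lemma bij_generic
    (c1 : τ (.inl i) = true) (c2 : τ (.inr i) = false) (c3 : τ (.inr k) = true)
    (c4 : ∀ l ∈ L, τ (.inr l) = false)
    (c5 : ∀ e ∈ Z, (τ (.inl e.1) = true ∧ τ (.inl e.2) = true) ↔
      (τ (.inr e.1) = true ∧ τ (.inr e.2) = true)) :
    Bij (VS R false true {j | τ (.inl j) = true ∧ j ≠ i} {j | τ (.inr j) = true} Z)
      (cutf (ef i k (SD R Z i L {k})) Set.univ τ)
      (fun C _ _ q => matv i k q) (fun C _ _ p => vecm i k p) := by
  -- the properties of the matrix of a system of vectors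
  have hF : ∀ {C : Type} [CommRing C] [Algebra R C] (q : Option (ι ⊕ ι) → C),
      (VS R false true {j | τ (.inl j) = true ∧ j ≠ i} {j | τ (.inr j) = true} Z).pts C q →
      IsUnit (-(q none * q (some (.inr k)))) ∧
      (∀ j, matv i k q (i, j) =
        bigv i (-(q none * q (some (.inr k)))) (fun j => q (some (.inl j))) j) ∧
      (∀ j l, mm (matv i k q) i j l = -(q none * (q (some (.inr j)) * q (some (.inr l))))) := by
    intro C _ _ q hq
    obtain ⟨h1, h2, ⟨h3, h4⟩, ⟨h5, h6⟩, h7⟩ := hq
    have hu : IsUnit (-(q none * q (some (.inr k)))) := (h2.mul (h6 k c3)).neg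
    have hti : q (some (.inr i)) = 0 := h5 i (by simp [c2])
    have hinv := Ring.mul_inverse_cancel _ hu
    have hr : ∀ j, matv i k q (i, j) =
        bigv i (-(q none * q (some (.inr k)))) (fun j => q (some (.inl j))) j := by
      intro j
      have hb : bigv i (-(q none * q (some (.inr k)))) (fun j => q (some (.inl j))) i =
        -(q none * q (some (.inr k))) := if_pos rfl
      simp only [matv, hb, hti]
      generalize bigv i (-(q none * q (some (.inr k)))) (fun j => q (some (.inl j))) j = x
      linear_combination x * hinv
    refine ⟨hu, hr, fun j l => ?_⟩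
    rw [mm, hr i, hr j, hr l]
    have hb : bigv i (-(q none * q (some (.inr k)))) (fun j => q (some (.inl j))) i =
      -(q none * q (some (.inr k))) := if_pos rfl
    rw [hb]
    simp only [matv]
    generalize bigv i (-(q none * q (some (.inr k)))) (fun j => q (some (.inl j))) j = x
    generalize bigv i (-(q none * q (some (.inr k)))) (fun j => q (some (.inl j))) l = y
    linear_combination (x * y - q none * (q (some (.inr j)) * q (some (.inr l)))) * hinv
  -- the properties of the vectors of a matrix
  have hG : ∀ {C : Type} [CommRing C] [Algebra R C] (p : ι × ι → C),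
      (cutf (ef i k (SD R Z i L {k})) Set.univ τ).pts C p →
      IsUnit (p (i, i)) ∧ IsUnit (mm p i k k) ∧
      ∀ j l, vecm i k p none * (vecm i k p (some (.inr j)) * vecm i k p (some (.inr l))) =
        p (i, j) * p (i, l) - p (i, i) * p (j, l) := by
    intro C _ _ p hp
    obtain ⟨⟨⟨h1, h2, h3, h4⟩, h5, h6⟩, h7⟩ := hp
    have hu : IsUnit (p (i, i)) := h4 (i, i) rfl
    have hm : IsUnit (mm p i k k) := h6 k rfl
    refine ⟨hu, hm, fun j l => ?_⟩
    have h8 := sy_minor h1 h2 i k j l
    change -(p (i, i) * p (i, i) * Ring.inverse (mm p i k k)) *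
      ((mm p i k j * Ring.inverse (p (i, i))) * (mm p i k l * Ring.inverse (p (i, i)))) =
        p (i, j) * p (i, l) - p (i, i) * p (j, l)
    have h9 := Ring.mul_inverse_cancel _ hu
    have h10 := Ring.mul_inverse_cancel _ hm
    have h11 : mm p i j l = p (i, i) * p (j, l) - p (i, j) * p (i, l) := rfl
    generalize Ring.inverse (p (i, i)) = y at h9 ⊢
    generalize Ring.inverse (mm p i k k) = z at h10 ⊢
    linear_combination (p (i, i) * y * p (i, i) * y * z) * h8 - (mm p i j l) * h10 -
      (mm p i k k * mm p i j l * z) * (p (i, i) * y + 1) * h9 - h11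
  exact
    { natF := fun {C D} _ _ _ _ f q hq e => by
        have hu := (hF q hq).1
        have hb : ∀ j, f (bigv i (-(q none * q (some (.inr k)))) (fun j => q (some (.inl j))) j) =
            bigv i (-(f (q none) * f (q (some (.inr k))))) (fun j => f (q (some (.inl j)))) j := by
          intro j
          rw [bigv, bigv]
          split_ifs
          · rw [map_neg, map_mul]
          · rfl
        have h1 := map_inverse_of_isUnit (f : C →+* D) hu
        have h2 : f (Ring.inverse (-(q none * q (some (.inr k))))) =
            Ring.inverse (-(f (q none) * f (q (some (.inr k))))) := by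
          refine h1.trans ?_
          congr 1
          exact (map_neg f _).trans (congrArg _ (map_mul f _ _))
        simp only [matv]
        rw [map_mul, h2, map_sub, map_mul, map_mul, map_mul, hb, hb]
      natG := fun {C D} _ _ _ _ f p hp s => by
        obtain ⟨hu, hm, -⟩ := hG p hp
        have h1 : f (Ring.inverse (p (i, i))) = Ring.inverse (f (p (i, i))) :=
          map_inverse_of_isUnit (f : C →+* D) hu
        have h2 : f (Ring.inverse (mm p i k k)) = Ring.inverse (mm (fun s => f (p s)) i k k) := by
          rw [← mm_map]
          exact map_inverse_of_isUnit (f : C →+* D) hm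
        rcases s with _ | j | j
        · change f (-(p (i, i) * p (i, i) * Ring.inverse (mm p i k k))) =
            -(f (p (i, i)) * f (p (i, i)) * Ring.inverse (mm (fun s => f (p s)) i k k))
          rw [map_neg, map_mul, map_mul, h2]
        · change f (if j = i then 0 else p (i, j)) = if j = i then 0 else f (p (i, j))
          split_ifs
          · exact map_zero f
          · rfl
        · change f (mm p i k j * Ring.inverse (p (i, i))) =
            mm (fun s => f (p s)) i k j * Ring.inverse (f (p (i, i)))
          rw [map_mul, h1, mm_map]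
      memF := fun C _ _ q hq => by
        obtain ⟨hu, hr, hmm⟩ := hF q hq
        obtain ⟨h1, h2, ⟨h3, h4⟩, ⟨h5, h6⟩, h7⟩ := hq
        have hbi : bigv i (-(q none * q (some (.inr k)))) (fun j => q (some (.inl j))) i =
          -(q none * q (some (.inr k))) := if_pos rfl
        have hb1 : ∀ j, τ (.inl j) = true →
            IsUnit (bigv i (-(q none * q (some (.inr k)))) (fun j => q (some (.inl j))) j) := by
          intro j hj
          rw [bigv]
          split_ifs with hji
          · exact hu
          · exact h4 j ⟨hj, hji⟩
        have hb0 : ∀ j, τ (.inl j) = false →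
            bigv i (-(q none * q (some (.inr k)))) (fun j => q (some (.inl j))) j = 0 := by
          intro j hj
          have hji : j ≠ i := by
            rintro rfl
            rw [c1] at hj
            exact absurd hj (by simp)
          rw [bigv, if_neg hji]
          exact h3 j (by simp [hj])
        have ht0 : ∀ j, τ (.inr j) = false → q (some (.inr j)) = 0 := fun j hj =>
          h5 j (by simp [hj])
        have ht1 : ∀ j, τ (.inr j) = true → IsUnit (q (some (.inr j))) := fun j hj => h6 j hj
        refine ⟨⟨⟨?_, fun x y => ?_, fun e he => ?_, ?_⟩, fun l hl => ?_, ?_⟩, fun s _ => ?_⟩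
        · have h8 := rank_two
            (fun j => bigv i (-(q none * q (some (.inr k)))) (fun j => q (some (.inl j))) j)
            (fun j => bigv i (-(q none * q (some (.inr k)))) (fun j => q (some (.inl j))) j *
              Ring.inverse (-(q none * q (some (.inr k)))))
            (fun j => q (some (.inr j)))
            (fun j => -(q none * q (some (.inr j)) * Ring.inverse (-(q none * q (some (.inr k))))))
          refine cast (congrArg _ ?_) h8
          funext e
          simp only [matv]
          ring
        · simp only [matv]
          ring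
        · have h8 : bigv i (-(q none * q (some (.inr k)))) (fun j => q (some (.inl j))) e.1 *
              bigv i (-(q none * q (some (.inr k)))) (fun j => q (some (.inl j))) e.2 -
              q none * (q (some (.inr e.1)) * q (some (.inr e.2))) = 0 := by
            by_cases h9 : τ (.inr e.1) = true ∧ τ (.inr e.2) = true
            · have h10 := (c5 e he).mpr h9
              have h11 : e.1 ≠ i := by
                rintro h12
                rw [h12, c2] at h9
                exact absurd h9.1 (by simp)
              have h12 : e.2 ≠ i := by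
                rintro h12
                rw [h12, c2] at h9
                exact absurd h9.2 (by simp)
              rw [bigv, if_neg h11, bigv, if_neg h12, sub_eq_zero]
              exact (h7 e he ⟨⟨h10.1, h11⟩, h9.1⟩ ⟨⟨h10.2, h12⟩, h9.2⟩).1 rfl
            · have h10 : ¬(τ (.inl e.1) = true ∧ τ (.inl e.2) = true) :=
                fun h => h9 ((c5 e he).mp h)
              rw [not_and_or, Bool.not_eq_true, Bool.not_eq_true] at h9 h10
              have h11 : q (some (.inr e.1)) * q (some (.inr e.2)) = 0 := by
                rcases h9 with h | h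
                · rw [ht0 _ h, zero_mul]
                · rw [ht0 _ h, mul_zero]
              have h12 : bigv i (-(q none * q (some (.inr k)))) (fun j => q (some (.inl j))) e.1 *
                  bigv i (-(q none * q (some (.inr k)))) (fun j => q (some (.inl j))) e.2 = 0 := by
                rcases h10 with h | h
                · rw [hb0 _ h, zero_mul]
                · rw [hb0 _ h, mul_zero]
              rw [h11, h12, mul_zero, sub_zero]
          simp only [matv]
          rw [h8, zero_mul]
        · rintro e rfl
          rw [hr i, hbi]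
          exact hu
        · rw [hmm, ht0 l (c4 l hl), zero_mul, mul_zero, neg_zero]
        · rintro k' rfl
          rw [hmm, ← mul_assoc, ← neg_mul]
          exact hu.mul (ht1 _ c3)
        · rcases s with j | j
          · refine ⟨fun hj => ?_, fun hj => ?_⟩
            · change IsUnit (matv i k q (i, j))
              rw [hr]
              exact hb1 j hj
            · change matv i k q (i, j) = 0
              rw [hr]
              exact hb0 j hj
          · refine ⟨fun hj => ?_, fun hj => ?_⟩
            · change IsUnit (mm (matv i k q) i k j)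
              rw [hmm, ← mul_assoc, ← neg_mul]
              exact hu.mul (ht1 _ hj)
            · change mm (matv i k q) i k j = 0
              rw [hmm, ht0 j hj, mul_zero, mul_zero, neg_zero]
      memG := fun C _ _ p hp => by
        obtain ⟨hu, hm, hv⟩ := hG p hp
        obtain ⟨⟨⟨h1, h2, h3, h4⟩, h5, h6⟩, h7⟩ := hp
        refine ⟨fun h => absurd h (by simp), ?_, ⟨fun j hj => ?_, fun j hj => ?_⟩,
          ⟨fun j hj => ?_, fun j hj => ?_⟩, fun e he hA hB => ⟨fun _ => ?_, fun h => absurd h (by simp)⟩⟩
        · exact ((hu.mul hu).mul (isUnit_inv hm)).neg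
        · change (if j = i then 0 else p (i, j)) = 0
          split_ifs with hji
          · rfl
          · have h8 : τ (.inl j) = false := by
              rcases h9 : τ (.inl j) with _ | _
              · rfl
              · exact absurd ⟨h9, hji⟩ hj
            exact (h7 (.inl j) trivial).2 h8
        · change IsUnit (if j = i then 0 else p (i, j))
          rw [if_neg hj.2]
          exact (h7 (.inl j) trivial).1 hj.1
        · change mm p i k j * Ring.inverse (p (i, i)) = 0
          have h8 : τ (.inr j) = false := by
            rcases h9 : τ (.inr j) with _ | _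
            · rfl
            · exact absurd h9 hj
          have h9 : mm p i k j = 0 := (h7 (.inr j) trivial).2 h8
          rw [h9, zero_mul]
        · exact ((h7 (.inr j) trivial).1 hj).mul (isUnit_inv hu)
        · change (if e.1 = i then 0 else p (i, e.1)) * (if e.2 = i then 0 else p (i, e.2)) = _
          rw [if_neg hA.1.2, if_neg hB.1.2, hv, h3 e he, mul_zero, sub_zero]
      GF := fun C _ _ q hq => by
        obtain ⟨hu, hr, hmm⟩ := hF q hq
        obtain ⟨h1, h2, ⟨h3, h4⟩, ⟨h5, h6⟩, h7⟩ := hq
        have hbi : bigv i (-(q none * q (some (.inr k)))) (fun j => q (some (.inl j))) i =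
          -(q none * q (some (.inr k))) := if_pos rfl
        have hinv := Ring.mul_inverse_cancel _ hu
        have hk : IsUnit (q (some (.inr k))) := h6 k c3
        funext s
        rcases s with _ | j | j
        · change -(matv i k q (i, i) * matv i k q (i, i) *
            Ring.inverse (mm (matv i k q) i k k)) = q none
          rw [hr i, hbi, hmm]
          have hw := Ring.mul_inverse_cancel _ (h2.mul (hk.mul hk)).neg
          linear_combination q none * hw
        · change (if j = i then 0 else matv i k q (i, j)) = q (some (.inl j))
          split_ifs with hji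
          · rw [hji]
            exact (h3 i (by simp)).symm
          · rw [hr, bigv, if_neg hji]
        · change mm (matv i k q) i k j * Ring.inverse (matv i k q (i, i)) = q (some (.inr j))
          rw [hr i, hbi, hmm]
          linear_combination q (some (.inr j)) * hinv
      FG := fun C _ _ p hp => by
        obtain ⟨hu, hm, hv⟩ := hG p hp
        obtain ⟨⟨⟨h1, h2, h3, h4⟩, h5, h6⟩, h7⟩ := hp
        have h9 := Ring.mul_inverse_cancel _ hu
        have h10 := Ring.mul_inverse_cancel _ hm
        have hc : -(vecm i k p none * vecm i k p (some (.inr k))) = p (i, i) := by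
          change -(-(p (i, i) * p (i, i) * Ring.inverse (mm p i k k)) *
            (mm p i k k * Ring.inverse (p (i, i)))) = p (i, i)
          linear_combination (p (i, i) * p (i, i) * Ring.inverse (p (i, i))) * h10 +
            p (i, i) * h9
        have hb : ∀ j, bigv i (p (i, i)) (fun j => vecm i k p (some (.inl j))) j = p (i, j) := by
          intro j
          rw [bigv]
          split_ifs with hji
          · rw [hji]
          · change (if j = i then 0 else p (i, j)) = p (i, j)
            rw [if_neg hji]
        funext e
        simp only [matv]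
        rw [hc, hb, hb, hv]
        change (p (i, e.1) * p (i, e.2) - (p (i, e.1) * p (i, e.2) - p (i, i) * p (e.1, e.2))) *
          Ring.inverse (p (i, i)) = p (e.1, e.2)
        linear_combination p (e.1, e.2) * h9 }

end generic

end Pool.Agent.H68.RT
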