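import Pool.Agent.H68.RT.Sy5

/-!
# Symmetric matrices of rank at most two with an invertible diagonal entry: all strata
-/

set_option autoImplicit false
set_option linter.unusedSectionVars false
set_option linter.unusedVariables false

open CategoryTheory AlgebraicGeometry MvPolynomial Pool.Agent.Y116.UV Pool.Agent.Q193.LT
  Pool.Agent.Q282.UK Pool.Agent.H81.RZ Pool.Agent.H38.SA

namespace Pool.Agent.H68.RT

variable {R : Type} [CommRing R] {P : Sch R → Prop} {ι : Type}

lemma sub_of_unit_zero {C : Type} [CommRing C] {x : C} (hu : IsUnit x) (h : x = 0) :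
    Subsingleton C :=
  subsingleton_of_zero_eq_one (isUnit_zero_iff.mp (h ▸ hu))

section generic

variable [Finite ι] (hP : ALin P) (h2 : P (aff R (R ⧸ Ideal.span {(2 : R)})))

include hP h2

/-- the stratum of the first minor which is not zero -/
lemma hol_sd_opn (Z : Set (ι × ι)) (i k : ι) (L : Set ι) : Hol P (SD R Z i L {k}) := by
  classical
  have : Fintype ι := Fintype.ofFinite ι
  refine hol_of_cutf (ef i k (SD R Z i L {k})) hP (repr_sd_opn Z i k L) fun τ => ?_
  have hr : Repr (cutf (ef i k (SD R Z i L {k})) Set.univ τ) := by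
    have h1 := repr_cutf (ef i k (SD R Z i L {k})) (repr_sd_opn (R := R) Z i k L) Finset.univ τ
    rwa [Finset.coe_univ] at h1
  -- the values on a stratum
  have hl1 : ∀ {C : Type} [CommRing C] [Algebra R C] {p : ι × ι → C},
      (cutf (ef i k (SD R Z i L {k})) Set.univ τ).pts C p → ∀ j,
      (τ (.inl j) = true → IsUnit (p (i, j))) ∧ (τ (.inl j) = false → p (i, j) = 0) :=
    fun hp j => hp.2 (.inl j) trivial
  have hr1 : ∀ {C : Type} [CommRing C] [Algebra R C] {p : ι × ι → C},
      (cutf (ef i k (SD R Z i L {k})) Set.univ τ).pts C p → ∀ j,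
      (τ (.inr j) = true → IsUnit (mm p i k j)) ∧ (τ (.inr j) = false → mm p i k j = 0) :=
    fun hp j => hp.2 (.inr j) trivial
  rcases c1 : τ (.inl i) with _ | _
  · exact hol_empty hP hr fun C _ _ p hp =>
      sub_of_unit_zero (hp.1.1.2.2.2 (i, i) rfl) ((hl1 hp i).2 c1)
  rcases c2 : τ (.inr i) with _ | _
  swap
  · exact hol_empty hP hr fun C _ _ p hp =>
      sub_of_unit_zero ((hr1 hp i).1 c2) (mm_self p hp.1.1.2.1 i k)
  rcases c3 : τ (.inr k) with _ | _
  · exact hol_empty hP hr fun C _ _ p hp =>
      sub_of_unit_zero (hp.1.2.2 k rfl) ((hr1 hp k).2 c3)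
  by_cases c4 : ∀ l ∈ L, τ (.inr l) = false
  swap
  · push Not at c4
    obtain ⟨l, hl, h3⟩ := c4
    rw [ne_eq, Bool.not_eq_false] at h3
    refine hol_empty hP hr fun C _ _ p hp => ?_
    have h4 := (hr1 hp l).1 h3
    have h5 := sy_minor hp.1.1.1 hp.1.1.2.1 i k l l
    rw [hp.1.2.1 l hl, mul_zero] at h5
    exact sub_of_unit_zero (h4.mul h4) h5.symm
  by_cases c5 : ∀ e ∈ Z, (τ (.inl e.1) = true ∧ τ (.inl e.2) = true) ↔
      (τ (.inr e.1) = true ∧ τ (.inr e.2) = true)
  · exact (hol_vs hP h2 _ _ _ _ Z).trans (bij_generic c1 c2 c3 c4 c5)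
  · push Not at c5
    obtain ⟨e, he, h3⟩ := c5
    refine hol_empty hP hr fun C _ _ p hp => ?_
    have h5 := sy_minor hp.1.1.1 hp.1.1.2.1 i k e.1 e.2
    have h6 : mm p i e.1 e.2 = -(p (i, e.1) * p (i, e.2)) := by
      have h7 : p (e.1, e.2) = 0 := hp.1.1.2.2.1 e he
      rw [mm, h7, mul_zero, zero_sub]
    rw [h6] at h5
    have hk := hp.1.2.2 k rfl
    by_cases h7 : τ (.inl e.1) = true ∧ τ (.inl e.2) = true
    · have h8 : ¬(τ (.inr e.1) = true ∧ τ (.inr e.2) = true) := by
        intro h8
        rcases h3 with h3 | h3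
        · exact (h3.2 h8.1) h8.2
        · exact (h3.1 h7.1) h7.2
      have h9 : mm p i k e.1 * mm p i k e.2 = 0 := by
        rw [not_and_or, Bool.not_eq_true, Bool.not_eq_true] at h8
        rcases h8 with h | h
        · rw [(hr1 hp _).2 h, zero_mul]
        · rw [(hr1 hp _).2 h, mul_zero]
      rw [h9] at h5
      exact sub_of_unit_zero (hk.mul (((hl1 hp _).1 h7.1).mul ((hl1 hp _).1 h7.2)).neg) h5
    · have h8 : τ (.inr e.1) = true ∧ τ (.inr e.2) = true := by
        rcases h3 with h3 | h3
        · exact absurd h3.1 h7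
        · exact h3.2
      have h9 : p (i, e.1) * p (i, e.2) = 0 := by
        rw [not_and_or, Bool.not_eq_true, Bool.not_eq_true] at h7
        rcases h7 with h | h
        · rw [(hl1 hp _).2 h, zero_mul]
        · rw [(hl1 hp _).2 h, mul_zero]
      rw [h9, neg_zero, mul_zero] at h5
      exact sub_of_unit_zero (((hr1 hp _).1 h8.1).mul ((hr1 hp _).1 h8.2)) h5.symm

end generic

section rankone

variable (i : ι)

/-- the first row and all minors with the row and the column `i` -/
def eg (S : Pts R (ι × ι)) (s : ι ⊕ (ι × ι)) : Fn S where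
  val C _ _ p := Sum.elim (fun j => p (i, j)) (fun e => mm p i e.1 e.2) s
  nat f p _ := by
    rcases s with j | e
    · rfl
    · exact mm_map f p i e.1 e.2

variable {i} [DecidableEq ι] {τ : ι ⊕ (ι × ι) → Bool} {Z : Set (ι × ι)}

/-- the matrix `V j V l / u` -/
noncomputable def mat1 {C : Type} [CommRing C] (i : ι) (q : Option (ι ⊕ ι) → C) (e : ι × ι) : C :=
  bigv i (q none) (fun j => q (some (.inl j))) e.1 *
    bigv i (q none) (fun j => q (some (.inl j))) e.2 * Ring.inverse (q none)

lemma bij_sym_one (c1 : τ (.inl i) = true) (c2 : ∀ e, τ (.inr e) = false)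
    (c3 : ∀ e ∈ Z, ¬(τ (.inl e.1) = true ∧ τ (.inl e.2) = true)) :
    Bij (VS R false true {j | τ (.inl j) = true ∧ j ≠ i} ∅ (∅ : Set (ι × ι)))
      (cutf (eg i (SD R Z i Set.univ ∅)) Set.univ τ)
      (fun C _ _ q => mat1 i q) (fun C _ _ p s => s.elim (p (i, i)) (Sum.elim
        (fun j => if j = i then 0 else p (i, j)) fun _ => 0)) := by
  have hF : ∀ {C : Type} [CommRing C] [Algebra R C] (q : Option (ι ⊕ ι) → C),
      IsUnit (q none) →
      (∀ j, mat1 i q (i, j) = bigv i (q none) (fun j => q (some (.inl j))) j) ∧
      (∀ j l, mm (mat1 i q) i j l = 0) := by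
    intro C _ _ q hu
    have hinv := Ring.mul_inverse_cancel _ hu
    have hb : bigv i (q none) (fun j => q (some (.inl j))) i = q none := if_pos rfl
    have hr : ∀ j, mat1 i q (i, j) = bigv i (q none) (fun j => q (some (.inl j))) j := by
      intro j
      simp only [mat1, hb]
      generalize bigv i (q none) (fun j => q (some (.inl j))) j = x
      linear_combination x * hinv
    refine ⟨hr, fun j l => ?_⟩
    rw [mm, hr i, hr j, hr l, hb]
    simp only [mat1]
    generalize bigv i (q none) (fun j => q (some (.inl j))) j = x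
    generalize bigv i (q none) (fun j => q (some (.inl j))) l = y
    linear_combination (x * y) * hinv
  exact
    { natF := fun {C D} _ _ _ _ f q hq e => by
        have hu : IsUnit (q none) := hq.2.1
        have hb : ∀ j, f (bigv i (q none) (fun j => q (some (.inl j))) j) =
            bigv i (f (q none)) (fun j => f (q (some (.inl j)))) j := by
          intro j
          rw [bigv, bigv]
          split_ifs <;> rfl
        have h1 : f (Ring.inverse (q none)) = Ring.inverse (f (q none)) :=
          map_inverse_of_isUnit (f : C →+* D) hu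
        simp only [mat1]
        rw [map_mul, map_mul, hb, hb, h1]
      natG := fun f p hp s => by
        rcases s with _ | j | j
        · rfl
        · change f (if j = i then 0 else p (i, j)) = if j = i then 0 else f (p (i, j))
          split_ifs
          · exact map_zero f
          · rfl
        · exact map_zero f
      memF := fun C _ _ q hq => by
        obtain ⟨hr, hmm⟩ := hF q hq.2.1
        obtain ⟨h1, h2, ⟨h3, h4⟩, -⟩ := hq
        have hbi : bigv i (q none) (fun j => q (some (.inl j))) i = q none := if_pos rfl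
        have hb1 : ∀ j, τ (.inl j) = true →
            IsUnit (bigv i (q none) (fun j => q (some (.inl j))) j) := by
          intro j hj
          rw [bigv]
          split_ifs with hji
          · exact h2
          · exact h4 j ⟨hj, hji⟩
        have hb0 : ∀ j, τ (.inl j) = false →
            bigv i (q none) (fun j => q (some (.inl j))) j = 0 := by
          intro j hj
          have hji : j ≠ i := by
            rintro rfl
            rw [c1] at hj
            exact absurd hj (by simp)
          rw [bigv, if_neg hji]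
          exact h3 j (by simp [hj])
        refine ⟨⟨⟨?_, fun x y => ?_, fun e he => ?_, ?_⟩, fun l _ => hmm l l,
          fun k hk => absurd hk (Set.notMem_empty k)⟩, fun s _ => ?_⟩
        · have h8 := rank_two
            (fun j => bigv i (q none) (fun j => q (some (.inl j))) j)
            (fun j => bigv i (q none) (fun j => q (some (.inl j))) j * Ring.inverse (q none))
            (fun _ => 0) (fun _ => 0)
          refine cast (congrArg _ ?_) h8
          funext e
          simp only [mat1]
          ring
        · simp only [mat1]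
          ring
        · have h10 := c3 e he
          rw [not_and_or, Bool.not_eq_true, Bool.not_eq_true] at h10
          simp only [mat1]
          rcases h10 with h | h
          · rw [hb0 _ h, zero_mul, zero_mul]
          · rw [hb0 _ h, mul_zero, zero_mul]
        · rintro e rfl
          rw [hr i, hbi]
          exact h2
        · rcases s with j | e
          · refine ⟨fun hj => ?_, fun hj => ?_⟩
            · change IsUnit (mat1 i q (i, j))
              rw [hr]
              exact hb1 j hj
            · change mat1 i q (i, j) = 0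
              rw [hr]
              exact hb0 j hj
          · refine ⟨fun hj => absurd hj (by rw [c2]; simp), fun hj => ?_⟩
            exact hmm e.1 e.2
      memG := fun C _ _ p hp => by
        obtain ⟨⟨⟨h1, h2, h3, h4⟩, h5, h6⟩, h7⟩ := hp
        refine ⟨fun h => absurd h (by simp), h4 (i, i) rfl, ⟨fun j hj => ?_, fun j hj => ?_⟩,
          ⟨fun j hj => rfl, fun j hj => absurd hj (Set.notMem_empty j)⟩,
          fun e he => absurd he (Set.notMem_empty e)⟩
        · change (if j = i then 0 else p (i, j)) = 0
          split_ifs with hji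
          · rfl
          · have h8 : τ (.inl j) = false := by
              rcases h9 : τ (.inl j) with _ | _
              · rfl
              · exact absurd ⟨h9, hji⟩ hj
            exact (h7 (.inl j) trivial).2 h8
        · change IsUnit (if j = i then 0 else p (i, j))
          rw [if_neg hj.2]
          exact (h7 (.inl j) trivial).1 hj.1
      GF := fun C _ _ q hq => by
        obtain ⟨hr, hmm⟩ := hF q hq.2.1
        obtain ⟨h1, h2, ⟨h3, h4⟩, ⟨h5, h6⟩, h7⟩ := hq
        have hbi : bigv i (q none) (fun j => q (some (.inl j))) i = q none := if_pos rfl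
        funext s
        rcases s with _ | j | j
        · change mat1 i q (i, i) = q none
          rw [hr i, hbi]
        · change (if j = i then 0 else mat1 i q (i, j)) = q (some (.inl j))
          split_ifs with hji
          · rw [hji]
            exact (h3 i (by simp)).symm
          · rw [hr, bigv, if_neg hji]
        · exact (h5 j (Set.notMem_empty j)).symm
      FG := fun C _ _ p hp => by
        obtain ⟨⟨⟨h1, h2, h3, h4⟩, h5, h6⟩, h7⟩ := hp
        have hu : IsUnit (p (i, i)) := h4 (i, i) rfl
        have h9 := Ring.mul_inverse_cancel _ hu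
        funext e
        have hm : mm p i e.1 e.2 = 0 := (h7 (.inr e) trivial).2 (c2 e)
        have hb : ∀ j, bigv i (p (i, i)) (fun j => if j = i then 0 else p (i, j)) j =
            p (i, j) := by
          intro j
          rw [bigv]
          split_ifs with hji
          · rw [hji]
          · rfl
        change bigv i (p (i, i)) (fun j => if j = i then 0 else p (i, j)) e.1 *
          bigv i (p (i, i)) (fun j => if j = i then 0 else p (i, j)) e.2 *
            Ring.inverse (p (i, i)) = p e
        rw [hb, hb]
        have hm' : p (i, i) * p (e.1, e.2) - p (i, e.1) * p (i, e.2) = 0 := hm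
        have h10 : p (e.1, e.2) = p e := rfl
        rw [h10] at hm'
        linear_combination p e * h9 - Ring.inverse (p (i, i)) * hm' }

end rankone

section dia

variable [Finite ι] (hP : ALin P) (h2 : P (aff R (R ⧸ Ideal.span {(2 : R)})))

include hP h2

lemma hol_sd_univ (Z : Set (ι × ι)) (i : ι) : Hol P (SD R Z i Set.univ ∅) := by
  classical
  have : Fintype ι := Fintype.ofFinite ι
  refine hol_of_cutf (eg i (SD R Z i Set.univ ∅)) hP (repr_sd Z i Set.univ) fun τ => ?_
  have hr : Repr (cutf (eg i (SD R Z i Set.univ ∅)) Set.univ τ) := by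
    have h1 := repr_cutf (eg i (SD R Z i Set.univ ∅)) (repr_sd (R := R) Z i Set.univ)
      Finset.univ τ
    rwa [Finset.coe_univ] at h1
  have hl1 : ∀ {C : Type} [CommRing C] [Algebra R C] {p : ι × ι → C},
      (cutf (eg i (SD R Z i Set.univ ∅)) Set.univ τ).pts C p → ∀ j,
      (τ (.inl j) = true → IsUnit (p (i, j))) ∧ (τ (.inl j) = false → p (i, j) = 0) :=
    fun hp j => hp.2 (.inl j) trivial
  have hr1 : ∀ {C : Type} [CommRing C] [Algebra R C] {p : ι × ι → C},
      (cutf (eg i (SD R Z i Set.univ ∅)) Set.univ τ).pts C p → ∀ e : ι × ι,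
      (τ (.inr e) = true → IsUnit (mm p i e.1 e.2)) ∧ (τ (.inr e) = false → mm p i e.1 e.2 = 0) :=
    fun hp e => hp.2 (.inr e) trivial
  rcases c1 : τ (.inl i) with _ | _
  · exact hol_empty hP hr fun C _ _ p hp =>
      sub_of_unit_zero (hp.1.1.2.2.2 (i, i) rfl) ((hl1 hp i).2 c1)
  by_cases c2 : ∀ e, τ (.inr e) = false
  swap
  · push Not at c2
    obtain ⟨e, h3⟩ := c2
    rw [ne_eq, Bool.not_eq_false] at h3
    refine hol_empty hP hr fun C _ _ p hp => ?_
    have h4 := (hr1 hp e).1 h3
    have h5 := sy_minor hp.1.1.1 hp.1.1.2.1 i e.1 e.2 e.2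
    rw [hp.1.2.1 e.1 trivial, zero_mul] at h5
    exact sub_of_unit_zero (h4.mul h4) h5.symm
  by_cases c3 : ∀ e ∈ Z, ¬(τ (.inl e.1) = true ∧ τ (.inl e.2) = true)
  · exact (hol_vs hP h2 _ _ _ _ ∅).trans (bij_sym_one c1 c2 c3)
  · push Not at c3
    obtain ⟨e, he, h3, h4⟩ := c3
    refine hol_empty hP hr fun C _ _ p hp => ?_
    have h5 := (hr1 hp e).2 (c2 e)
    have h7 : p (e.1, e.2) = 0 := hp.1.1.2.2.1 e he
    rw [mm, h7, mul_zero, zero_sub] at h5
    exact sub_of_unit_zero (((hl1 hp _).1 h3).mul ((hl1 hp _).1 h4)).neg h5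

/-- an invertible diagonal entry -/
lemma hol_sm_dia (Z : Set (ι × ι)) (i : ι) : Hol P (SM R Z {(i, i)}) := by
  classical
  have : Fintype ι := Fintype.ofFinite ι
  refine Hol.congr (fun C _ _ p => ?_) (sd_cut hP Finset.univ Z i ∅
    (fun L' k => hol_sd_opn hP h2 Z i k L') ?_)
  · exact ⟨fun h => h.1, fun h => ⟨h, fun l hl => absurd hl (Set.notMem_empty l),
      fun l hl => absurd hl (Set.notMem_empty l)⟩⟩
  · rw [Finset.coe_univ, Set.union_univ]
    exact hol_sd_univ hP h2 Z i

end dia

end Pool.Agent.H68.RT
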