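import Pool.Agent.H68.RT.Sy6

/-!
# Symmetric matrices of rank at most two with prescribed zeros
-/

set_option autoImplicit false
set_option linter.unusedSectionVars false
set_option linter.unusedVariables false

open CategoryTheory AlgebraicGeometry MvPolynomial Pool.Agent.Y116.UV Pool.Agent.Q193.LT
  Pool.Agent.Q282.UK Pool.Agent.H81.RZ Pool.Agent.H38.SA

namespace Pool.Agent.H68.RT

variable {R : Type} [CommRing R] {P : Sch R → Prop} {ι : Type}

section hyperbolic

variable (i k : ι)

/-- two rows -/
def eh (S : Pts R (ι × ι)) (s : ι ⊕ ι) : Fn S where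
  val C _ _ p := Sum.elim (fun j => p (i, j)) (fun j => p (k, j)) s
  nat f p _ := by
    rcases s with j | j <;> rfl

variable {i k} [DecidableEq ι] {τ : ι ⊕ ι → Bool} {Z : Set (ι × ι)} {β : Bool}

/-- the matrix `(P j Q l + Q j P l) / a` -/
noncomputable def math {C : Type} [CommRing C] (i k : ι) (q : Option (ι ⊕ ι) → C) (e : ι × ι) : C :=
  (bigv k (q none) (fun j => q (some (.inl j))) e.1 *
    bigv i (q none) (fun j => q (some (.inr j))) e.2 +
    bigv i (q none) (fun j => q (some (.inr j))) e.1 *
    bigv k (q none) (fun j => q (some (.inl j))) e.2) * Ring.inverse (q none)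

lemma bij_hyp (hik : i ≠ k) (hZ : ∀ j, (j, j) ∈ Z)
    (c1 : τ (.inl k) = true) (c1' : τ (.inl i) = false)
    (c2 : τ (.inr i) = true) (c2' : τ (.inr k) = false)
    (c5 : ∀ e ∈ Z, (τ (.inl e.1) = true ∧ τ (.inr e.2) = true) ↔
      (τ (.inr e.1) = true ∧ τ (.inl e.2) = true))
    (hβ : β = true ↔ ∃ j, τ (.inl j) = true ∧ τ (.inr j) = true) :
    Bij (VS R β false {j | τ (.inl j) = true ∧ j ≠ k} {j | τ (.inr j) = true ∧ j ≠ i} Z)
      (cutf (eh i k (SM R Z {(i, k)})) Set.univ τ)
      (fun C _ _ q => math i k q) (fun C _ _ p s => s.elim (p (i, k)) (Sum.elim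
        (fun j => if j = k then 0 else p (i, j)) fun j => if j = i then 0 else p (k, j))) := by
  have hF : ∀ {C : Type} [CommRing C] [Algebra R C] (q : Option (ι ⊕ ι) → C),
      (VS R β false {j | τ (.inl j) = true ∧ j ≠ k} {j | τ (.inr j) = true ∧ j ≠ i} Z).pts C q →
      (∀ j, math i k q (i, j) = bigv k (q none) (fun j => q (some (.inl j))) j) ∧
      (∀ j, math i k q (k, j) = bigv i (q none) (fun j => q (some (.inr j))) j) := by
    intro C _ _ q hq
    obtain ⟨h1, h2, ⟨h3, h4⟩, ⟨h5, h6⟩, h7⟩ := hq
    have hinv := Ring.mul_inverse_cancel _ h2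
    have hb1 : bigv k (q none) (fun j => q (some (.inl j))) i = 0 := by
      rw [bigv, if_neg hik]
      exact h3 i (by simp [c1'])
    have hb2 : bigv i (q none) (fun j => q (some (.inr j))) i = q none := if_pos rfl
    have hb3 : bigv k (q none) (fun j => q (some (.inl j))) k = q none := if_pos rfl
    have hb4 : bigv i (q none) (fun j => q (some (.inr j))) k = 0 := by
      rw [bigv, if_neg hik.symm]
      exact h5 k (by simp [c2'])
    constructor
    · intro j
      simp only [math, hb1, hb2]
      generalize bigv k (q none) (fun j => q (some (.inl j))) j = x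
      linear_combination x * hinv
    · intro j
      simp only [math, hb3, hb4]
      generalize bigv i (q none) (fun j => q (some (.inr j))) j = x
      linear_combination x * hinv
  have hG : ∀ {C : Type} [CommRing C] [Algebra R C] (p : ι × ι → C),
      (cutf (eh i k (SM R Z {(i, k)})) Set.univ τ).pts C p →
      IsUnit (p (i, k)) ∧ ∀ j l, p (i, k) * p (j, l) = p (i, j) * p (k, l) + p (k, j) * p (i, l) := by
    intro C _ _ p hp
    obtain ⟨⟨h1, h2, h3, h4⟩, h7⟩ := hp
    exact ⟨h4 (i, k) rfl, sy_hyp h1 h2 (h3 _ (hZ i)) (h3 _ (hZ k)) (h4 (i, k) rfl)⟩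
  exact
    { natF := fun {C D} _ _ _ _ f q hq e => by
        have hu : IsUnit (q none) := hq.2.1
        have hb : ∀ (i j : ι) (v : ι → C), f (bigv i (q none) v j) =
            bigv i (f (q none)) (fun j => f (v j)) j := by
          intro i j v
          rw [bigv, bigv]
          split_ifs <;> rfl
        have h1 : f (Ring.inverse (q none)) = Ring.inverse (f (q none)) :=
          map_inverse_of_isUnit (f : C →+* D) hu
        simp only [math]
        rw [map_mul, map_add, map_mul, map_mul, hb, hb, hb, hb, h1]
      natG := fun f p hp s => by
        rcases s with _ | j | j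
        · rfl
        · change f (if j = k then 0 else p (i, j)) = if j = k then 0 else f (p (i, j))
          split_ifs
          · exact map_zero f
          · rfl
        · change f (if j = i then 0 else p (k, j)) = if j = i then 0 else f (p (k, j))
          split_ifs
          · exact map_zero f
          · rfl
      memF := fun C _ _ q hq => by
        obtain ⟨hr, hr'⟩ := hF q hq
        obtain ⟨h1, h2, ⟨h3, h4⟩, ⟨h5, h6⟩, h7⟩ := hq
        have ha1 : ∀ j, τ (.inl j) = true →
            IsUnit (bigv k (q none) (fun j => q (some (.inl j))) j) := by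
          intro j hj
          rw [bigv]
          split_ifs with hji
          · exact h2
          · exact h4 j ⟨hj, hji⟩
        have ha0 : ∀ j, τ (.inl j) = false →
            bigv k (q none) (fun j => q (some (.inl j))) j = 0 := by
          intro j hj
          have hji : j ≠ k := by
            rintro rfl
            rw [c1] at hj
            exact absurd hj (by simp)
          rw [bigv, if_neg hji]
          exact h3 j (by simp [hj])
        have hb1 : ∀ j, τ (.inr j) = true →
            IsUnit (bigv i (q none) (fun j => q (some (.inr j))) j) := by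
          intro j hj
          rw [bigv]
          split_ifs with hji
          · exact h2
          · exact h6 j ⟨hj, hji⟩
        have hb0 : ∀ j, τ (.inr j) = false →
            bigv i (q none) (fun j => q (some (.inr j))) j = 0 := by
          intro j hj
          have hji : j ≠ i := by
            rintro rfl
            rw [c2] at hj
            exact absurd hj (by simp)
          rw [bigv, if_neg hji]
          exact h5 j (by simp [hj])
        refine ⟨⟨?_, fun x y => ?_, fun e he => ?_, ?_⟩, fun s _ => ?_⟩
        · have h8 := rank_two
            (fun j => bigv k (q none) (fun j => q (some (.inl j))) j)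
            (fun j => bigv i (q none) (fun j => q (some (.inr j))) j * Ring.inverse (q none))
            (fun j => bigv i (q none) (fun j => q (some (.inr j))) j)
            (fun j => bigv k (q none) (fun j => q (some (.inl j))) j * Ring.inverse (q none))
          refine cast (congrArg _ ?_) h8
          funext e
          simp only [math]
          ring
        · simp only [math]
          ring
        · have h8 : bigv k (q none) (fun j => q (some (.inl j))) e.1 *
              bigv i (q none) (fun j => q (some (.inr j))) e.2 +
              bigv i (q none) (fun j => q (some (.inr j))) e.1 *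
              bigv k (q none) (fun j => q (some (.inl j))) e.2 = 0 := by
            by_cases h9 : τ (.inl e.1) = true ∧ τ (.inr e.2) = true
            · have h10 := (c5 e he).mp h9
              have hβ' : β = true := hβ.mpr ⟨e.1, h9.1, h10.1⟩
              have h11 : e.1 ≠ k := by
                rintro h12
                rw [h12, c2'] at h10
                exact absurd h10.1 (by simp)
              have h12 : e.2 ≠ i := by
                rintro h12
                rw [h12, c1'] at h10
                exact absurd h10.2 (by simp)
              have h13 : e.1 ≠ i := by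
                rintro h12
                rw [h12, c1'] at h9
                exact absurd h9.1 (by simp)
              have h14 : e.2 ≠ k := by
                rintro h12
                rw [h12, c2'] at h9
                exact absurd h9.2 (by simp)
              rw [bigv, if_neg h11, bigv, if_neg h12, bigv, if_neg h13, bigv, if_neg h14]
              have h15 := (h7 e he ⟨⟨h9.1, h11⟩, h10.1, h13⟩ ⟨⟨h10.2, h14⟩, h9.2, h12⟩).2 rfl
              have h16 := h1 hβ'
              linear_combination h15 + (q (some (.inr e.1)) * q (some (.inl e.2))) * h16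
            · have h10 : ¬(τ (.inr e.1) = true ∧ τ (.inl e.2) = true) :=
                fun h => h9 ((c5 e he).mpr h)
              rw [not_and_or, Bool.not_eq_true, Bool.not_eq_true] at h9 h10
              have h11 : bigv k (q none) (fun j => q (some (.inl j))) e.1 *
                  bigv i (q none) (fun j => q (some (.inr j))) e.2 = 0 := by
                rcases h9 with h | h
                · rw [ha0 _ h, zero_mul]
                · rw [hb0 _ h, mul_zero]
              have h12 : bigv i (q none) (fun j => q (some (.inr j))) e.1 *
                  bigv k (q none) (fun j => q (some (.inl j))) e.2 = 0 := by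
                rcases h10 with h | h
                · rw [hb0 _ h, zero_mul]
                · rw [ha0 _ h, mul_zero]
              rw [h11, h12, add_zero]
          simp only [math]
          rw [h8, zero_mul]
        · rintro e rfl
          rw [hr k]
          exact ha1 k c1
        · rcases s with j | j
          · refine ⟨fun hj => ?_, fun hj => ?_⟩
            · change IsUnit (math i k q (i, j))
              rw [hr]
              exact ha1 j hj
            · change math i k q (i, j) = 0
              rw [hr]
              exact ha0 j hj
          · refine ⟨fun hj => ?_, fun hj => ?_⟩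
            · change IsUnit (math i k q (k, j))
              rw [hr']
              exact hb1 j hj
            · change math i k q (k, j) = 0
              rw [hr']
              exact hb0 j hj
      memG := fun C _ _ p hp => by
        obtain ⟨hu, hv⟩ := hG p hp
        obtain ⟨⟨h1, h2, h3, h4⟩, h7⟩ := hp
        have htwo : β = true → (2 : C) = 0 := by
          intro hb
          obtain ⟨j, hj, hj'⟩ := hβ.mp hb
          have h8 := hv j j
          rw [h3 _ (hZ j), mul_zero] at h8
          have h9 : IsUnit (p (i, j)) := (h7 (.inl j) trivial).1 hj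
          have h10 : IsUnit (p (k, j)) := (h7 (.inr j) trivial).1 hj'
          refine ((h9.mul h10).mul_left_eq_zero).mp ?_
          linear_combination -h8
        refine ⟨htwo, hu, ⟨fun j hj => ?_, fun j hj => ?_⟩,
          ⟨fun j hj => ?_, fun j hj => ?_⟩, fun e he hA hB => ⟨fun h => absurd h (by simp),
            fun _ => ?_⟩⟩
        · change (if j = k then 0 else p (i, j)) = 0
          split_ifs with hji
          · rfl
          · have h8 : τ (.inl j) = false := by
              rcases h9 : τ (.inl j) with _ | _
              · rfl
              · exact absurd ⟨h9, hji⟩ hj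
            exact (h7 (.inl j) trivial).2 h8
        · change IsUnit (if j = k then 0 else p (i, j))
          rw [if_neg hj.2]
          exact (h7 (.inl j) trivial).1 hj.1
        · change (if j = i then 0 else p (k, j)) = 0
          split_ifs with hji
          · rfl
          · have h8 : τ (.inr j) = false := by
              rcases h9 : τ (.inr j) with _ | _
              · rfl
              · exact absurd ⟨h9, hji⟩ hj
            exact (h7 (.inr j) trivial).2 h8
        · change IsUnit (if j = i then 0 else p (k, j))
          rw [if_neg hj.2]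
          exact (h7 (.inr j) trivial).1 hj.1
        · change (if e.1 = k then 0 else p (i, e.1)) * (if e.2 = i then 0 else p (k, e.2)) =
            (if e.1 = i then 0 else p (k, e.1)) * (if e.2 = k then 0 else p (i, e.2))
          rw [if_neg hA.1.2, if_neg hA.2.2, if_neg hB.1.2, if_neg hB.2.2]
          have h8 := hv e.1 e.2
          have h9 : p (e.1, e.2) = 0 := h3 e he
          rw [h9, mul_zero] at h8
          have h10 := htwo (hβ.mpr ⟨e.1, hA.1.1, hA.2.1⟩)
          linear_combination -h8 - (p (k, e.1) * p (i, e.2)) * h10
      GF := fun C _ _ q hq => by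
        obtain ⟨hr, hr'⟩ := hF q hq
        obtain ⟨h1, h2, ⟨h3, h4⟩, ⟨h5, h6⟩, h7⟩ := hq
        have hb3 : bigv k (q none) (fun j => q (some (.inl j))) k = q none := if_pos rfl
        funext s
        rcases s with _ | j | j
        · change math i k q (i, k) = q none
          rw [hr k, hb3]
        · change (if j = k then 0 else math i k q (i, j)) = q (some (.inl j))
          split_ifs with hji
          · rw [hji]
            exact (h3 k (by simp)).symm
          · rw [hr, bigv, if_neg hji]
        · change (if j = i then 0 else math i k q (k, j)) = q (some (.inr j))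
          split_ifs with hji
          · rw [hji]
            exact (h5 i (by simp)).symm
          · rw [hr', bigv, if_neg hji]
      FG := fun C _ _ p hp => by
        obtain ⟨hu, hv⟩ := hG p hp
        obtain ⟨⟨h1, h2, h3, h4⟩, h7⟩ := hp
        have h9 := Ring.mul_inverse_cancel _ hu
        have hb : ∀ j, bigv k (p (i, k)) (fun j => if j = k then 0 else p (i, j)) j =
            p (i, j) := by
          intro j
          rw [bigv]
          split_ifs with hji
          · rw [hji]
          · rfl
        have hb' : ∀ j, bigv i (p (i, k)) (fun j => if j = i then 0 else p (k, j)) j =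
            p (k, j) := by
          intro j
          rw [bigv]
          split_ifs with hji
          · rw [hji, h2 i k]
          · rfl
        funext e
        change (bigv k (p (i, k)) (fun j => if j = k then 0 else p (i, j)) e.1 *
          bigv i (p (i, k)) (fun j => if j = i then 0 else p (k, j)) e.2 +
          bigv i (p (i, k)) (fun j => if j = i then 0 else p (k, j)) e.1 *
          bigv k (p (i, k)) (fun j => if j = k then 0 else p (i, j)) e.2) *
            Ring.inverse (p (i, k)) = p e
        rw [hb, hb, hb', hb']
        have h8 : p (i, k) * p e = p (i, e.1) * p (k, e.2) + p (k, e.1) * p (i, e.2) :=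
          hv e.1 e.2
        linear_combination p e * h9 - Ring.inverse (p (i, k)) * h8 }

end hyperbolic

section final

variable [Finite ι] (hP : ALin P) (h2 : P (aff R (R ⧸ Ideal.span {(2 : R)})))

include hP h2

/-- the diagonal is zero and an entry is invertible -/
lemma hol_sm_off (Z : Set (ι × ι)) (hZ : ∀ j, (j, j) ∈ Z) (i k : ι) :
    Hol P (SM R Z {(i, k)}) := by
  classical
  have : Fintype ι := Fintype.ofFinite ι
  by_cases hik : i = k
  · subst hik
    exact hol_empty hP (repr_sm_opn Z (i, i)) fun C _ _ p hp =>
      sub_of_unit_zero (hp.2.2.2 (i, i) rfl) (hp.2.2.1 _ (hZ i))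
  refine hol_of_cutf (eh i k (SM R Z {(i, k)})) hP (repr_sm_opn Z (i, k)) fun τ => ?_
  have hr : Repr (cutf (eh i k (SM R Z {(i, k)})) Set.univ τ) := by
    have h1 := repr_cutf (eh i k (SM R Z {(i, k)})) (repr_sm_opn (R := R) Z (i, k)) Finset.univ τ
    rwa [Finset.coe_univ] at h1
  have hl1 : ∀ {C : Type} [CommRing C] [Algebra R C] {p : ι × ι → C},
      (cutf (eh i k (SM R Z {(i, k)})) Set.univ τ).pts C p → ∀ j,
      (τ (.inl j) = true → IsUnit (p (i, j))) ∧ (τ (.inl j) = false → p (i, j) = 0) :=
    fun hp j => hp.2 (.inl j) trivial
  have hr1 : ∀ {C : Type} [CommRing C] [Algebra R C] {p : ι × ι → C},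
      (cutf (eh i k (SM R Z {(i, k)})) Set.univ τ).pts C p → ∀ j,
      (τ (.inr j) = true → IsUnit (p (k, j))) ∧ (τ (.inr j) = false → p (k, j) = 0) :=
    fun hp j => hp.2 (.inr j) trivial
  rcases c1 : τ (.inl k) with _ | _
  · exact hol_empty hP hr fun C _ _ p hp =>
      sub_of_unit_zero (hp.1.2.2.2 (i, k) rfl) ((hl1 hp k).2 c1)
  rcases c1' : τ (.inl i) with _ | _
  swap
  · exact hol_empty hP hr fun C _ _ p hp =>
      sub_of_unit_zero ((hl1 hp i).1 c1') (hp.1.2.2.1 _ (hZ i))
  rcases c2 : τ (.inr i) with _ | _
  · exact hol_empty hP hr fun C _ _ p hp =>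
      sub_of_unit_zero (hp.1.2.2.2 (i, k) rfl) ((hp.1.2.1 k i).trans ((hr1 hp i).2 c2))
  rcases c2' : τ (.inr k) with _ | _
  swap
  · exact hol_empty hP hr fun C _ _ p hp =>
      sub_of_unit_zero ((hr1 hp k).1 c2') (hp.1.2.2.1 _ (hZ k))
  by_cases c5 : ∀ e ∈ Z, (τ (.inl e.1) = true ∧ τ (.inr e.2) = true) ↔
      (τ (.inr e.1) = true ∧ τ (.inl e.2) = true)
  · let β : Bool := decide (∃ j, τ (.inl j) = true ∧ τ (.inr j) = true)
    have hβ : β = true ↔ ∃ j, τ (.inl j) = true ∧ τ (.inr j) = true := decide_eq_true_iff
    exact (hol_vs hP h2 β false _ _ Z).trans (bij_hyp hik hZ c1 c1' c2 c2' c5 hβ)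
  · push Not at c5
    obtain ⟨e, he, h3⟩ := c5
    refine hol_empty hP hr fun C _ _ p hp => ?_
    have h5 := sy_hyp hp.1.1 hp.1.2.1 (hp.1.2.2.1 _ (hZ i)) (hp.1.2.2.1 _ (hZ k))
      (hp.1.2.2.2 (i, k) rfl) e.1 e.2
    have h7 : p (e.1, e.2) = 0 := hp.1.2.2.1 e he
    rw [h7, mul_zero] at h5
    by_cases h8 : τ (.inl e.1) = true ∧ τ (.inr e.2) = true
    · have h9 : ¬(τ (.inr e.1) = true ∧ τ (.inl e.2) = true) := by
        intro h9
        rcases h3 with h3 | h3
        · exact (h3.2 h9.1) h9.2
        · exact (h3.1 h8.1) h8.2
      have h10 : p (k, e.1) * p (i, e.2) = 0 := by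
        rw [not_and_or, Bool.not_eq_true, Bool.not_eq_true] at h9
        rcases h9 with h | h
        · rw [(hr1 hp _).2 h, zero_mul]
        · rw [(hl1 hp _).2 h, mul_zero]
      rw [h10, add_zero] at h5
      exact sub_of_unit_zero (((hl1 hp _).1 h8.1).mul ((hr1 hp _).1 h8.2)) h5.symm
    · have h9 : τ (.inr e.1) = true ∧ τ (.inl e.2) = true := by
        rcases h3 with h3 | h3
        · exact absurd h3.1 h8
        · exact h3.2
      have h10 : p (i, e.1) * p (k, e.2) = 0 := by
        rw [not_and_or, Bool.not_eq_true, Bool.not_eq_true] at h8
        rcases h8 with h | h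
        · rw [(hl1 hp _).2 h, zero_mul]
        · rw [(hr1 hp _).2 h, mul_zero]
      rw [h10, zero_add] at h5
      exact sub_of_unit_zero (((hr1 hp _).1 h9.1).mul ((hl1 hp _).1 h9.2)) h5.symm

/-- **Symmetric matrices of rank at most two with prescribed zeros.** -/
theorem hol_sm (Z : Set (ι × ι)) : Hol P (SM R Z (∅ : Set (ι × ι))) := by
  classical
  have : Fintype ι := Fintype.ofFinite ι
  let D : Finset (ι × ι) := Finset.univ.filter fun e => e.1 = e.2
  refine sm_cut hP D Z (fun Z' _ e he => ?_) ?_
  · have h3 : e = (e.1, e.1) := by
      have h4 : e.1 = e.2 := by simpa [D] using he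
      exact Prod.ext rfl h4.symm
    rw [h3]
    exact hol_sm_dia hP h2 Z' e.1
  · refine sm_cut hP Finset.univ _ (fun Z' hZ' e _ => ?_) ?_
    · refine hol_sm_off hP h2 Z' (fun j => hZ' (Or.inr ?_)) e.1 e.2
      simp [D]
    · refine hol_point hP (fun _ => 0) fun C _ _ p => ?_
      constructor
      · intro hp s
        rw [map_zero]
        exact hp.2.2.1 s (Or.inr (by simp))
      · intro hp
        have h5 : ∀ e, p e = 0 := fun e => by rw [hp e, map_zero]
        refine ⟨fun ρ γ => ?_, fun x y => by rw [h5, h5], fun e _ => h5 e,
          fun e he => absurd he (Set.notMem_empty e)⟩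
        rw [Matrix.det_fin_three]
        simp only [Matrix.of_apply, h5]
        ring

/-- the same for the affine schemes -/
theorem lin_sym {n : ℕ} (Z : Finset (Fin n × Fin n)) : P (aff R (SyRk R 2 Z)) :=
  aof_rep hP (Hol.congr (fun C _ _ p => (zer_sm (Z : Set (Fin n × Fin n)) C p).symm)
    (hol_sm hP h2 (Z : Set (Fin n × Fin n)))) (rep_zer _)

end final

end Pool.Agent.H68.RT
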