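import Pool.Agent.H68.RT.Sy7
import Pool.Agent.H68.RT.LowT

/-!
# Symmetric matrices of rank at most two and affine spaces over `R` and `R/2`
-/

set_option autoImplicit false
set_option linter.unusedSectionVars false
set_option linter.unusedVariables false

open CategoryTheory AlgebraicGeometry MvPolynomial Pool.Agent.Y116.UV Pool.Agent.Q193.LT
  Pool.Agent.Q282.UK Pool.Agent.H81.RZ Pool.Agent.H38.SA

namespace Pool.Agent.H68.RT

variable {R : Type} [CommRing R] {sep : Prop} {P : Sch R → Prop}

lemma repr_gm {σ : Type} {S : Pts R σ} (h : Repr S) : Repr S.gm := by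
  obtain ⟨A, i1, i2, i3, x, rep, _⟩ := h
  exact ⟨LaurentPolynomial A, inferInstance, inferInstance, ft_laurent A, _, rep.gm, trivial⟩

theorem cel_of_clo (hP : Clo sep P) (h : ∀ n : ℕ, P (aff R (MvPolynomial (Fin n) R))) :
    Cel sep P where
  iso := hP.iso
  total := hP.total
  opened := hP.opened
  space := h

/-- **Symmetric matrices of rank at most two with prescribed zeros.** -/
theorem cel_sym (hP : Cel sep P)
    (h : ∀ n : ℕ, P (aff R (MvPolynomial (Fin n) (R ⧸ Ideal.span {(2 : R)})))) :
    OnSymmetric 2 P := fun n Z =>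
  of_allA hP.toGlue (lin_sym (alin_allA hP) (allA_aff hP.toGlue h) Z)

/-- the empty scheme -/
lemma alin_zero (hP : ALin P) (A : Type) [CommRing A] [Algebra R A] [Subsingleton A] :
    P (aff R A) := by
  have h3 : P (aff R (R ⧸ Ideal.span {(0 : R)})) := by
    have e : (R ⧸ (⊥ : Ideal R)) ≃ₐ[R] R := AlgEquiv.quotientBot R R
    have h4 : Ideal.span {(0 : R)} = ⊥ := Ideal.span_singleton_eq_bot.mpr rfl
    rw [h4]
    exact hP.iso e.symm hP.point
  have h4 : P (aff R (Localization.Away (0 : R))) := hP.opened R 0 h3 hP.point
  have h5 : Subsingleton (Localization.Away (0 : R)) := by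
    have h6 : IsUnit (algebraMap R (Localization.Away (0 : R)) 0) :=
      IsLocalization.map_units (M := Submonoid.powers (0 : R)) _ ⟨_, Submonoid.mem_powers _⟩
    rw [map_zero] at h6
    exact subsingleton_of_zero_eq_one (isUnit_zero_iff.mp h6)
  let f : Localization.Away (0 : R) ≃ₐ[R] A :=
    { toFun := fun _ => 0
      invFun := fun _ => 0
      left_inv := fun _ => Subsingleton.elim _ _
      right_inv := fun _ => Subsingleton.elim _ _
      map_mul' := fun _ _ => Subsingleton.elim _ _
      map_add' := fun _ _ => Subsingleton.elim _ _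
      commutes' := fun _ => Subsingleton.elim _ _ }
  have h6 : Algebra.FiniteType R (Localization.Away (0 : R)) :=
    Algebra.FiniteType.trans (S := R) inferInstance inferInstance
  exact hP.iso f h4

/-- **Symmetric matrices of rank at most two with prescribed zeros**, if `2` is invertible. -/
theorem cel_sym_unit (hP : Cel sep P) (hu : IsUnit (2 : R)) : OnSymmetric 2 P := fun n Z => by
  have h1 : Subsingleton (R ⧸ Ideal.span {(2 : R)}) := by
    rw [Ideal.span_singleton_eq_top.mpr hu]
    infer_instance
  exact of_allA hP.toGlue (lin_sym (alin_allA hP) (alin_zero (alin_allA hP) _) Z)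

/-- all points -/
def Fre (R : Type) [CommRing R] (σ : Type) : Pts R σ := ⟨fun _ _ _ _ => True, fun _ _ _ => trivial⟩

lemma rep_fre (σ : Type) : Rep (Fre R σ) (MvPolynomial σ R) X where
  mem := trivial
  ex C _ _ p _ := ⟨aeval p, fun s => aeval_X p s⟩
  uniq C _ _ f g h := MvPolynomial.algHom_ext h

lemma em_sm {ι : Type} (Z U : Set (ι × ι)) (C : Type) [CommRing C] [Algebra R C]
    (p : ι × ι → C) : (EM R 1 2 Z U).pts C p ↔ (SM R Z U).pts C p := by
  refine and_congr_right fun _ => and_congr_left fun _ => ?_
  simp only [Units.val_one, Int.cast_one, one_mul]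

/-- affine spaces over `R` -/
theorem space_of_sym (hP : Clo sep P) (h : OnSymmetric 2 P) (n : ℕ) :
    P (aff R (MvPolynomial (Fin n) R)) := by
  let Z : Set (Option (Fin n) × Option (Fin n)) := {e | e.1 = none ↔ e.2 = none}
  have h1 : Hol P (SM R Z ∅) := Hol.congr (fun C _ _ p => em_sm Z ∅ C p) (hol_sym h Z)
  refine Hol.of_rep hP (S := Fre R (Fin n)) ?_ (rep_fre (Fin n))
  refine h1.trans (F := fun _ _ _ p j => p (none, some j))
    (G := fun _ _ _ q e => e.1.elim (e.2.elim 0 q) fun j => e.2.elim (q j) fun _ => 0) ?_
  exact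
    { natF := fun f p _ j => rfl
      natG := fun f q _ e => by
        rcases e with ⟨_ | j, _ | l⟩
        · exact map_zero f
        · rfl
        · rfl
        · exact map_zero f
      memF := fun C _ _ p _ => trivial
      memG := fun C _ _ q _ => by
        refine ⟨?_, fun x y => ?_, fun e he => ?_, fun e he => absurd he (Set.notMem_empty e)⟩
        · have h8 := rank_two (ι := Option (Fin n)) (fun s => s.elim (1 : C) fun _ => 0)
            (fun s => s.elim 0 q) (fun s => s.elim 0 q) (fun s => s.elim 1 fun _ => 0)
          refine cast (congrArg _ ?_) h8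
          funext e
          rcases e with ⟨_ | j, _ | l⟩ <;> simp
        · rcases x with _ | x <;> rcases y with _ | y <;> rfl
        · rcases e with ⟨_ | j, _ | l⟩
          · rfl
          · exact absurd (he.mp rfl) (by simp)
          · exact absurd (he.mpr rfl) (by simp)
          · rfl
      GF := fun C _ _ p hp => by
        obtain ⟨h2, h3, h4, h5⟩ := hp
        funext e
        rcases e with ⟨_ | j, _ | l⟩
        · exact (h4 (none, none) (Iff.rfl)).symm
        · rfl
        · exact (h3 none (some j)).symm
        · exact (h4 (some j, some l) (by simp [Z])).symm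
      FG := fun C _ _ q _ => rfl }

/-- affine spaces over `R/2` -/
theorem space_two_of_sym (hP : Clo sep P) (h : OnSymmetric 2 P) (n : ℕ) :
    P (aff R (MvPolynomial (Fin n) (R ⧸ Ideal.span {(2 : R)}))) := by
  classical
  let Z : Set ((Fin 3 ⊕ Fin n) × (Fin 3 ⊕ Fin n)) :=
    {e | (∃ a : Fin 3, e = (.inl a, .inl a)) ∨ ∃ l, e = (.inl 1, .inr l)}
  let U : Finset ((Fin 3 ⊕ Fin n) × (Fin 3 ⊕ Fin n)) :=
    {(.inl 0, .inl 1), (.inl 0, .inl 2), (.inl 1, .inl 2)}
  have h1 : Hol P (SM R Z (U : Set ((Fin 3 ⊕ Fin n) × (Fin 3 ⊕ Fin n)))) :=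
    Hol.congr (fun C _ _ p => em_sm Z _ C p)
      (hol_eunits hP (Z₀ := Z) (fun Z' _ => hol_sym h Z') U Z (Set.Subset.refl Z))
  have hS : Repr ((Fre R (Fin n)).clo (two _)) :=
    Repr.clo _ ⟨_, inferInstance, inferInstance, inferInstance, _, rep_fre (Fin n), trivial⟩
  have h2 : Hol P ((Fre R (Fin n)).clo (two _)).gm.gm.gm := by
    refine h1.trans
      (F := fun _ _ _ p s => s.elim (p (.inl 0, .inl 1)) fun s => s.elim (p (.inl 0, .inl 2))
        fun s => s.elim (p (.inl 1, .inl 2)) fun l => p (.inl 0, .inr l))
      (G := fun _ _ _ q e =>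
        (Sum.elim ![0, q none, q (some none)] (fun l => q (some (some (some l)))) e.1 *
          Sum.elim ![q none, 0, q (some (some none))] (fun _ => 0) e.2 +
          Sum.elim ![q none, 0, q (some (some none))] (fun _ => 0) e.1 *
          Sum.elim ![0, q none, q (some none)] (fun l => q (some (some (some l)))) e.2) *
          Ring.inverse (q none)) ?_
    have hZ : ∀ a : Fin 3, ((.inl a, .inl a) : (Fin 3 ⊕ Fin n) × (Fin 3 ⊕ Fin n)) ∈ Z :=
      fun a => Or.inl ⟨a, rfl⟩
    have hZ' : ∀ l : Fin n, ((.inl 1, .inr l) : (Fin 3 ⊕ Fin n) × (Fin 3 ⊕ Fin n)) ∈ Z :=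
      fun l => Or.inr ⟨l, rfl⟩
    have hU1 : ((.inl 0, .inl 1) : (Fin 3 ⊕ Fin n) × (Fin 3 ⊕ Fin n)) ∈
        (U : Set ((Fin 3 ⊕ Fin n) × (Fin 3 ⊕ Fin n))) := by simp [U]
    have hU2 : ((.inl 0, .inl 2) : (Fin 3 ⊕ Fin n) × (Fin 3 ⊕ Fin n)) ∈
        (U : Set ((Fin 3 ⊕ Fin n) × (Fin 3 ⊕ Fin n))) := by simp [U]
    have hU3 : ((.inl 1, .inl 2) : (Fin 3 ⊕ Fin n) × (Fin 3 ⊕ Fin n)) ∈
        (U : Set ((Fin 3 ⊕ Fin n) × (Fin 3 ⊕ Fin n))) := by simp [U]
    exact
      { natF := fun f p _ s => by
          rcases s with _ | _ | _ | l <;> rfl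
        natG := fun {C D} _ _ _ _ f q hq e => by
          have hi : f (Ring.inverse (q none)) = Ring.inverse (f (q none)) :=
            map_inverse_of_isUnit (f : C →+* D) hq.2
          have ha : ∀ s : Fin 3 ⊕ Fin n, f (Sum.elim ![0, q none, q (some none)]
              (fun l => q (some (some (some l)))) s) =
              Sum.elim ![0, f (q none), f (q (some none))]
                (fun l => f (q (some (some (some l))))) s := by
            rintro (a | l)
            · fin_cases a
              · exact map_zero f
              · rfl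
              · rfl
            · rfl
          have hb : ∀ s : Fin 3 ⊕ Fin n, f (Sum.elim ![q none, 0, q (some (some none))]
              (fun _ => 0) s) = Sum.elim ![f (q none), 0, f (q (some (some none)))]
                (fun _ => 0) s := by
            rintro (a | l)
            · fin_cases a
              · rfl
              · exact map_zero f
              · rfl
            · exact map_zero f
          rw [map_mul, map_add, map_mul, map_mul, ha, ha, hb, hb, hi]
        memF := fun C _ _ p hp => by
          obtain ⟨h2, h3, h4, h5⟩ := hp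
          refine ⟨⟨⟨⟨trivial, ?_⟩, h5 _ hU3⟩, h5 _ hU2⟩, h5 _ hU1⟩
          have h6 := sy_hyp h2 h3 (h4 _ (hZ 0)) (h4 _ (hZ 1)) (h5 _ hU1) (.inl 2) (.inl 2)
          rw [h4 _ (hZ 2), mul_zero] at h6
          change (2 : C) = 0
          refine (((h5 _ hU2).mul (h5 _ hU3)).mul_left_eq_zero).mp ?_
          linear_combination -h6
        memG := fun C _ _ q hq => by
          obtain ⟨⟨⟨⟨-, h2⟩, h3⟩, h4⟩, h5⟩ := hq
          have h2' : (2 : C) = 0 := h2
          have hinv := Ring.mul_inverse_cancel _ h5
          refine ⟨?_, fun x y => ?_, ?_, ?_⟩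
          · have h8 := rank_two
              (fun s => Sum.elim ![0, q none, q (some none)] (fun l => q (some (some (some l)))) s)
              (fun s => Sum.elim ![q none, 0, q (some (some none))] (fun _ : Fin n => 0) s *
                Ring.inverse (q none))
              (fun s => Sum.elim ![q none, 0, q (some (some none))] (fun _ : Fin n => 0) s)
              (fun s => Sum.elim ![0, q none, q (some none)] (fun l => q (some (some (some l)))) s *
                Ring.inverse (q none))
            refine cast (congrArg _ ?_) h8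
            funext e
            ring
          · ring
          · rintro e (⟨a, rfl⟩ | ⟨l, rfl⟩)
            · fin_cases a
              · simp
              · simp
              · simp only [Fin.reduceFinMk, Sum.elim_inl, Matrix.cons_val]
                linear_combination (q (some none) * q (some (some none)) *
                  Ring.inverse (q none)) * h2'
            · simp
          · intro e he
            have he' : e = (.inl 0, .inl 1) ∨ e = (.inl 0, .inl 2) ∨ e = (.inl 1, .inl 2) := by
              simpa [U] using he
            rcases he' with rfl | rfl | rfl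
            · simp only [Sum.elim_inl, Matrix.cons_val, zero_mul, zero_add]
              exact (h5.mul h5).mul (isUnit_inv h5)
            · simp only [Sum.elim_inl, Matrix.cons_val, zero_mul, zero_add]
              exact (h5.mul h4).mul (isUnit_inv h5)
            · simp only [Sum.elim_inl, Matrix.cons_val, zero_mul, add_zero]
              exact (h5.mul h3).mul (isUnit_inv h5)
        GF := fun C _ _ p hp => by
          obtain ⟨h2, h3, h4, h5⟩ := hp
          have hu := h5 _ hU1
          have hinv := Ring.mul_inverse_cancel _ hu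
          have ha : ∀ s : Fin 3 ⊕ Fin n, Sum.elim ![0, p (.inl 0, .inl 1), p (.inl 0, .inl 2)]
              (fun l => p (.inl 0, .inr l)) s = p (.inl 0, s) := by
            rintro (a | l)
            · fin_cases a
              · exact (h4 _ (hZ 0)).symm
              · rfl
              · rfl
            · rfl
          have hb : ∀ s : Fin 3 ⊕ Fin n, Sum.elim ![p (.inl 0, .inl 1), 0, p (.inl 1, .inl 2)]
              (fun _ => 0) s = p (.inl 1, s) := by
            rintro (a | l)
            · fin_cases a
              · exact (h3 _ _).symm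
              · exact (h4 _ (hZ 1)).symm
              · rfl
            · exact (h4 _ (hZ' l)).symm
          funext e
          change (Sum.elim ![0, p (.inl 0, .inl 1), p (.inl 0, .inl 2)]
              (fun l => p (.inl 0, .inr l)) e.1 *
            Sum.elim ![p (.inl 0, .inl 1), 0, p (.inl 1, .inl 2)] (fun _ => 0) e.2 +
            Sum.elim ![p (.inl 0, .inl 1), 0, p (.inl 1, .inl 2)] (fun _ => 0) e.1 *
            Sum.elim ![0, p (.inl 0, .inl 1), p (.inl 0, .inl 2)]
              (fun l => p (.inl 0, .inr l)) e.2) * Ring.inverse (p (.inl 0, .inl 1)) = p e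
          rw [ha, ha, hb, hb]
          have h6 : p (.inl 0, .inl 1) * p e = p (.inl 0, e.1) * p (.inl 1, e.2) +
              p (.inl 1, e.1) * p (.inl 0, e.2) :=
            sy_hyp h2 h3 (h4 _ (hZ 0)) (h4 _ (hZ 1)) hu e.1 e.2
          linear_combination p e * hinv - Ring.inverse (p (.inl 0, .inl 1)) * h6
        FG := fun C _ _ q hq => by
          obtain ⟨⟨⟨⟨-, h2⟩, h3⟩, h4⟩, h5⟩ := hq
          have hinv := Ring.mul_inverse_cancel _ h5
          funext s
          rcases s with _ | _ | _ | l
          · simp only [Option.elim, Sum.elim_inl, Matrix.cons_val, zero_mul, zero_add]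
            linear_combination q none * hinv
          · simp only [Option.elim, Sum.elim_inl, Matrix.cons_val, zero_mul, zero_add]
            linear_combination q (some none) * hinv
          · simp only [Option.elim, Sum.elim_inl, Matrix.cons_val, zero_mul, add_zero]
            linear_combination q (some (some none)) * hinv
          · simp only [Option.elim, Sum.elim_inl, Sum.elim_inr, Matrix.cons_val,
              zero_add, mul_zero]
            linear_combination q (some (some (some l))) * hinv }
  have h3 : Hol P ((Fre R (Fin n)).clo (two _)) :=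
    Hol.of_gm hP hS (Hol.of_gm hP (repr_gm hS) (Hol.of_gm hP (repr_gm (repr_gm hS)) h2))
  have h4 := h3.of_rep hP ((rep_fre (Fin n)).clo (two _))
  have h5 : Ideal.span {(two (Fre R (Fin n))).val (MvPolynomial (Fin n) R) X} =
      Ideal.span {(C (2 : R) : MvPolynomial (Fin n) R)} := by
    congr 2
  rw [h5] at h4
  obtain ⟨e⟩ := quo_poly (R := R) (A := R) (2 : R) n
  exact H81.RZ.clo_alg hP e h4

/-- **The property is true for the symmetric matrices of rank at most two with prescribed zeros if and
only if it is true for the affine spaces over `R` and over `R/2`.** -/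
theorem sym_two_iff (hP : Clo sep P) : OnSymmetric 2 P ↔
    (∀ n : ℕ, P (aff R (MvPolynomial (Fin n) R))) ∧
      ∀ n : ℕ, P (aff R (MvPolynomial (Fin n) (R ⧸ Ideal.span {(2 : R)}))) :=
  ⟨fun h => ⟨space_of_sym hP h, space_two_of_sym hP h⟩, fun h => cel_sym (cel_of_clo hP h.1) h.2⟩

end Pool.Agent.H68.RT
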